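import Pool.Agent.H57.BRA.Grp

/-!
# [H48 MF SYL] descent from a subgroup of index prime to p (transfer), 100-180 lines. File Pool/Agent/H48/MF/Syl.lean

`X` a normalised 2-cocycle of finite level on `Γ = Gal(Ω/K)` with values in `ZMod p`, `U` an open subgroup of index prime to `p`. If `X` is a coboundary on `U` then it is a coboundary.

Proof. `E = Xt X hc` (`H57/BRA/Def.lean`, `hc : Coc p X := ⟨hX.l1, hX.r1, hX.co⟩`), the group of the pairs `(σ, z)` with the product `(σ, z)(τ, w) = (σ τ, z + w + X σ τ)`. `U' = {x : x.r ∈ U}`, a subgroup of `E` of the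
index `m` of `U` (`Subgroup.comap` of the surjective homomorphism `x ↦ x.r`: `Subgroup.index_comap_of_surjective`). With `l` from `hk` the map `π : U' →* Multiplicative (ZMod p)`, `(σ, z) ↦ z - l σ` is a homomorphism.
`T = MonoidHom.transfer π : E →* Multiplicative (ZMod p)` (Mathlib.GroupTheory.Transfer). For the central element `(1, z)`: `T (1, z) = π ((1, z) ^ m) = m z - l 1 = m z` (`MonoidHom.transfer_eq_pow`; `l 1 = 0` from
`l (1 * 1) = l 1 + l 1 + X 1 1`). `(σ, 0)(τ, 0) = (σ τ, 0)(1, X σ τ)`, so `T(σ τ, 0) = T(σ, 0) + T(τ, 0) - m X σ τ`: `l' σ = - m⁻¹ T(σ, 0)` satisfies `l' (σ τ) = l' σ + l' τ + X σ τ`.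
Level of `l'`: let `E'` be a finite NORMAL extension of `K` containing the levels of `X` and `l` with `E'.fixingSubgroup ≤ U` (`normalClosure`, as in `bqa`, `gtriv_field`, `kl_conj` in H89/BRG/Dec.lean). For `u ∈ E'.fixingSubgroup`:
`(σ u, 0) = (σ, 0)(u, 0)` (`X σ u = X σ 1 = 0`), so it is enough that `T(u, 0) = 1`. By `MonoidHom.transfer_def` with any left transversal `R`: `T g = diff π R (g • R)`; `u` acts trivially on the cosets of the subgroup `U'`
(`r⁻¹ u r ∈ U`), so the factor at the coset of `r` is `π (r⁻¹ (u, 0) r)`, and `(r, z)⁻¹ (u, 0) (r, z) = (r⁻¹ u r, X u r - X r (r⁻¹ u r)) = (r⁻¹ u r, 0)`, `l (r⁻¹ u r) = l 1 = 0`.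
(Alternative for the level: everything factors through the finite group `Γ / E'.fixingSubgroup`; prove the statement for finite groups first and lift the function.)
-/

set_option autoImplicit false

open scoped NumberField Pointwise
open IsDedekindDomain

noncomputable section

namespace H48.MF

open H63.MA H38.BB H38.BG H57.PC H57.BRA

private theorem syl_conj {K : Type} [Field K] {Ω : Type} [Field Ω] [Algebra K Ω] {p : ℕ}
    {X : Gal(Ω/K) → Gal(Ω/K) → ZMod p} (hX : C2 X) (hc : Coc p X) {N : Subgroup Gal(Ω/K)}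
    (hN : N.Normal)
    (hlev : ∀ σ τ, ∀ u ∈ N, X (σ * u) τ = X σ τ ∧ X σ (τ * u) = X σ τ)
    {w : Gal(Ω/K)} (hw : w ∈ N) (x : Xt X hc) :
    x⁻¹ * (⟨w, 0⟩ : Xt X hc) * x = ⟨x.r⁻¹ * w * x.r, 0⟩ := by
  have h1 : (⟨w, 0⟩ : Xt X hc) * x = x * ⟨x.r⁻¹ * w * x.r, 0⟩ := by
    rw [xt_mul, xt_mul]
    have hw' : x.r⁻¹ * w * x.r ∈ N := by
      have h2 := hN.conj_mem w hw x.r⁻¹
      rwa [inv_inv] at h2
    have h3 : X w x.r = 0 := by
      have h4 := (hlev 1 x.r w hw).1
      rw [one_mul, hX.l1] at h4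
      exact h4
    have h5 : X x.r (x.r⁻¹ * w * x.r) = 0 := by
      have h4 := (hlev x.r 1 _ hw').2
      rw [one_mul, hX.r1] at h4
      exact h4
    ext
    · simp only
      group
    · simp only
      rw [h3, h5]
      ring
  rw [mul_assoc, h1, inv_mul_cancel_left]

private theorem syl_pow {K : Type} [Field K] {Ω : Type} [Field Ω] [Algebra K Ω] {p : ℕ}
    {X : Gal(Ω/K) → Gal(Ω/K) → ZMod p} (hX : C2 X) (hc : Coc p X) {N : Subgroup Gal(Ω/K)}
    (hlev : ∀ σ τ, ∀ u ∈ N, X (σ * u) τ = X σ τ ∧ X σ (τ * u) = X σ τ)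
    {w : Gal(Ω/K)} (hw : w ∈ N) (k : ℕ) :
    (⟨w, 0⟩ : Xt X hc) ^ k = ⟨w ^ k, 0⟩ := by
  rw [pw_lift hc w 0 k, mul_zero, zero_add]
  congr 1
  refine Finset.sum_eq_zero fun j _ => ?_
  have h4 := (hlev (w ^ j) 1 w hw).2
  rw [one_mul, hX.r1] at h4
  exact h4

theorem tv_desc {K : Type} [Field K] [NumberField K] {Ω : Type} [Field Ω] [Algebra K Ω]
    [IsAlgClosure K Ω] {p : ℕ} (hp : p.Prime) {X : Gal(Ω/K) → Gal(Ω/K) → ZMod p} (hX : C2 X)
    (U : Subgroup Gal(Ω/K)) (hU : ∃ E : IntermediateField K Ω, FiniteDimensional K E ∧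
      E.fixingSubgroup ≤ U) (hfi : U.FiniteIndex) (hidx : ¬ p ∣ U.index)
    (hk : Kl X (U : Set Gal(Ω/K))) : Tv X := by
  have : Fact p.Prime := ⟨hp⟩
  have hc : Coc p X := ⟨hX.l1, hX.r1, hX.co⟩
  obtain ⟨l, ⟨E1, hE1, hl1⟩, hl⟩ := hk
  obtain ⟨E2, hE2, hX2⟩ := hX.lev
  have hgal : IsGalois K Ω := IsAlgClosure.isGalois K Ω
  have hsup : FiniteDimensional K ↥(E1 ⊔ E2) := IntermediateField.finiteDimensional_sup _ _
  obtain ⟨N, hN1, hN2, hN3⟩ : ∃ N : IntermediateField K Ω, FiniteDimensional K N ∧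
      Normal K N ∧ E1 ⊔ E2 ≤ N :=
    ⟨IntermediateField.normalClosure K ↥(E1 ⊔ E2) Ω, inferInstance, inferInstance,
      IntermediateField.le_normalClosure _⟩
  have hnor : N.fixingSubgroup.Normal := by
    rw [← IntermediateField.restrictNormalHom_ker]
    infer_instance
  have hNE1 : ∀ u ∈ N.fixingSubgroup, u ∈ E1.fixingSubgroup := fun u hu =>
    IntermediateField.fixingSubgroup_antitone (le_sup_left.trans hN3) hu
  have hNE2 : ∀ u ∈ N.fixingSubgroup, u ∈ E2.fixingSubgroup := fun u hu =>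
    IntermediateField.fixingSubgroup_antitone (le_sup_right.trans hN3) hu
  have hlev : ∀ σ τ, ∀ u ∈ N.fixingSubgroup, X (σ * u) τ = X σ τ ∧ X σ (τ * u) = X σ τ :=
    fun σ τ u hu => hX2 σ τ u (hNE2 u hu)
  have hl0 : l 1 = 0 := by
    have h1 := hl 1 U.one_mem 1 U.one_mem
    rw [mul_one, hX.l1, add_zero] at h1
    linear_combination -h1
  have hlN : ∀ u ∈ N.fixingSubgroup, l u = 0 := by
    intro u hu
    have h1 := hl1 1 u (hNE1 u hu)
    rw [one_mul, hl0] at h1
    exact h1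
  -- the projection
  let q : Xt X hc →* Gal(Ω/K) :=
    { toFun := fun x => x.r
      map_one' := rfl
      map_mul' := fun _ _ => rfl }
  have hq : Function.Surjective q := fun σ => ⟨⟨σ, 0⟩, rfl⟩
  let U' : Subgroup (Xt X hc) := U.comap q
  have hidx' : U'.index = U.index := U.index_comap_of_surjective hq
  have : U'.FiniteIndex := ⟨by rw [hidx']; exact hfi.index_ne_zero⟩
  let π : U' →* Multiplicative (ZMod p) :=
    { toFun := fun x => Multiplicative.ofAdd (x.1.z - l x.1.r)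
      map_one' := by
        change Multiplicative.ofAdd ((0 : ZMod p) - l 1) = 1
        rw [hl0, sub_zero, ofAdd_zero]
      map_mul' := fun x y => by
        change Multiplicative.ofAdd (x.1.z + y.1.z + X x.1.r y.1.r - l (x.1.r * y.1.r)) =
          Multiplicative.ofAdd (x.1.z - l x.1.r) * Multiplicative.ofAdd (y.1.z - l y.1.r)
        rw [← ofAdd_add, hl x.1.r x.2 y.1.r y.2]
        congr 1
        ring }
  have hπ : ∀ x : U', π x = Multiplicative.ofAdd (x.1.z - l x.1.r) := fun _ => rfl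
  let T : Xt X hc →* Multiplicative (ZMod p) := MonoidHom.transfer π
  -- the central elements
  have hTc : ∀ z : ZMod p, Multiplicative.toAdd (T ⟨1, z⟩) = (U.index : ZMod p) * z := by
    intro z
    have hcomm : ∀ (k : ℕ) (g : Xt X hc), g⁻¹ * (⟨1, z⟩ : Xt X hc) ^ k * g =
        (⟨1, z⟩ : Xt X hc) ^ k := by
      intro k g
      have h1 : Commute (⟨1, z⟩ : Xt X hc) g := xt_cen hc z g
      rw [mul_assoc, (h1.pow_left k).eq, inv_mul_cancel_left]
    have h2 := MonoidHom.transfer_eq_pow π (⟨1, z⟩ : Xt X hc) (fun k g _ => hcomm k g)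
    change Multiplicative.toAdd (MonoidHom.transfer π (⟨1, z⟩ : Xt X hc)) = _
    rw [h2, hπ, toAdd_ofAdd]
    simp only
    rw [pw_lift hc 1 z]
    simp only [one_pow]
    rw [hl0, hidx', sub_zero]
    have h3 : ∑ k ∈ Finset.range U.index, X 1 1 = 0 :=
      Finset.sum_eq_zero fun _ _ => hX.l1 1
    rw [h3, add_zero]
  -- the elements of high level
  have hTu : ∀ u ∈ N.fixingSubgroup, T ⟨u, 0⟩ = 1 := by
    intro u hu
    classical
    let _ : Fintype (Xt X hc ⧸ U') := U'.fintypeQuotientOfFiniteIndex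
    let _ : Fintype (Quotient (MulAction.orbitRel (Subgroup.zpowers (⟨u, 0⟩ : Xt X hc))
      (Xt X hc ⧸ U'))) := Fintype.ofFinite _
    change MonoidHom.transfer π (⟨u, 0⟩ : Xt X hc) = 1
    rw [MonoidHom.transfer_eq_prod_quotient_orbitRel_zpowers_quot]
    refine Finset.prod_eq_one fun c _ => ?_
    rw [hπ]
    simp only
    rw [syl_pow hX hc hlev hu, syl_conj hX hc hnor hlev (Subgroup.pow_mem _ hu _)]
    simp only
    rw [hlN, sub_zero, ofAdd_zero]
    have h2 := hnor.conj_mem _ (Subgroup.pow_mem _ hu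
      (Function.minimalPeriod ((⟨u, 0⟩ : Xt X hc) • ·) c.out)) c.out.out.r⁻¹
    rwa [inv_inv] at h2
  have hm : (U.index : ZMod p) ≠ 0 := by
    intro h0
    exact hidx ((ZMod.natCast_eq_zero_iff _ _).mp h0)
  have hTm : ∀ x y : Xt X hc, Multiplicative.toAdd (T (x * y)) =
      Multiplicative.toAdd (T x) + Multiplicative.toAdd (T y) := by
    intro x y
    rw [map_mul, toAdd_mul]
  refine ⟨fun σ => -((U.index : ZMod p)⁻¹ * Multiplicative.toAdd (T ⟨σ, 0⟩)),
    ⟨N, hN1, ?_⟩, ?_⟩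
  · intro σ u hu
    have h1 : (⟨σ * u, 0⟩ : Xt X hc) = ⟨σ, 0⟩ * ⟨u, 0⟩ := by
      rw [xt_mul]
      ext
      · rfl
      · have h4 := (hlev σ 1 u hu).2
        rw [one_mul, hX.r1] at h4
        simp only
        rw [h4]
        ring
    simp only
    rw [h1, hTm, hTu u hu, toAdd_one, add_zero]
  · intro σ τ
    have h1 : (⟨σ, 0⟩ : Xt X hc) * ⟨τ, 0⟩ = ⟨1, X σ τ⟩ * ⟨σ * τ, 0⟩ := by
      rw [xt_mul, xt_mul]
      ext
      · simp only [one_mul]
      · simp only [hX.l1]
        ring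
    have h2 := congrArg (fun x => Multiplicative.toAdd (T x)) h1
    rw [hTm, hTm, hTc] at h2
    simp only
    field_simp
    linear_combination h2

end H48.MF
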