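import Pool.Agent.H48.MF.Hasp
import Pool.Agent.H48.MF.Syl

/-!
# [H48 MF HSF] Hasse principle for all homomorphisms of finite type, 120-180 lines. File Pool/Agent/H48/MF/Hasf.lean

`hasf`: as `hasp` without the condition on the image.

Proof. `A = ρ.range` (finite), `P : Sylow p A`, `B = P.map A.subtype ≤ R`, `U = B.comap ρ`. `E` from `hρ`: `E.fixingSubgroup ≤ ρ.ker ≤ U`, so `U` is open; `M = IntermediateField.fixedField U`, `M.fixingSubgroup = U` (`InfiniteGalois.fixingSubgroup_fixedField`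
for the closed subgroup `U`; see the uses in Pool/Agent/H48/KV/Fld*.lean, `H38/ML`), `M ≤ E` is finite over `K`, `NumberField M` (`NumberField.of_module_finite K M`), `IsAlgClosure M Ω` (`bca_clo K M Ω`). `rsK K M Ω : Gal(Ω/M) →* Gal(Ω/K)` has the range
`M.fixingSubgroup = U` (an element of `M.fixingSubgroup` is `M`-linear: `IntermediateField.fixingSubgroupEquiv` or as in `bca_range`). So `(ρ.comp (rsK K M Ω)).range = B` has order `p ^ n` (`Sylow.card_eq_multiplicity` or `IsPGroup.exists_card_eq`). `hasp` over `M` with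
`ζ`, `MOne`, `Z2` mapped (`GBase_zeta`, `mone_map`, `z2_map`), `S' =` the primes of `M` over `S` (`over_finite`), the local conditions as in `hasg` (H89/BRG/HasG.lean): `above_over`, `dc_kl_rs`, `bcp_under`, `exists_below`, `bcp_lt` (all for general `K`, `L`; the instances
`Algebra K M`, `Algebra M Ω`, `IsScalarTower K M Ω` are the standard ones). Result `Tv (pb e (ρ.comp rsK))`; `bca_lev'` gives `Kl (pb e ρ) U`. `U.index = B.relIndex ρ.range` (`Subgroup.index_comap`) is the index of the Sylow subgroup, prime to `p` (`Sylow.not_dvd_index`).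
`tv_desc` (Syl.lean) with `C2 (pb e ρ)` (`c2_pb`).
-/

set_option autoImplicit false

open scoped NumberField Pointwise
open IsDedekindDomain

noncomputable section

namespace H48.MF

open H63.MA H38.BB H38.BG H57.PC H57.BRA H89.BRG

theorem hasf {p : ℕ} (hp : p.Prime) {R : Type} [Group R] [Finite R] {e : R → R → ZMod p}
    (he : Coc p e) {K : Type} [Field K] [NumberField K] {ζ : K} (hζ : IsPrimitiveRoot ζ p)
    (hp2 : MOne p K) (hz : Z2 p K) {Ω : Type} [Field Ω] [Algebra K Ω] [IsAlgClosure K Ω]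
    (ρ : Gal(Ω/K) →* R) (hρ : H38.ML.FT ρ) (S : Finset (Pl K)) (hSa : ∀ v, Above p v → v ∈ S)
    (hSd : ∀ v ∈ S, ∀ P : Ideal (𝓞 Ω), P.IsPrime → P.under (𝓞 K) = v.asIdeal →
      Kl (pb e ρ) (Dc K P : Set Gal(Ω/K)))
    (hloc : ∀ v, v ∉ S → ∀ P : Ideal (𝓞 Ω), P.IsPrime → P.under (𝓞 K) = v.asIdeal → LT e ρ P) :
    Tv (pb e ρ) := by
  classical
  have hpf : Fact p.Prime := ⟨hp⟩
  obtain ⟨P0⟩ : Nonempty (Sylow p ρ.range) := inferInstance
  obtain ⟨U, hU⟩ : ∃ U : Subgroup Gal(Ω/K), U = (P0 : Subgroup ρ.range).comap ρ.rangeRestrict := ⟨_, rfl⟩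
  have hmemU : ∀ σ, σ ∈ U ↔ ρ.rangeRestrict σ ∈ (P0 : Subgroup ρ.range) := by
    intro σ
    rw [hU, Subgroup.mem_comap]
  have hidx : U.index = (P0 : Subgroup ρ.range).index := by
    rw [hU, Subgroup.index_comap_of_surjective _ ρ.rangeRestrict_surjective]
  obtain ⟨E, hE, hEk⟩ := hρ
  have hEU : E.fixingSubgroup ≤ U := by
    intro u hu
    rw [hmemU]
    have h1 : ρ.rangeRestrict u = 1 := by
      apply Subtype.ext
      exact hEk hu
    rw [h1]
    exact one_mem _
  obtain ⟨hfix, hfin⟩ := H38.ML.fixing_fixedField U E hEU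
  obtain ⟨M, hM⟩ : ∃ M : IntermediateField K Ω, M = IntermediateField.fixedField U := ⟨_, rfl⟩
  rw [← hM] at hfix hfin
  have hclo : IsAlgClosure M Ω := bca_clo K M Ω
  have hnf : NumberField M := NumberField.of_module_finite K M
  -- the range of the restriction
  have hrange : ∀ σ : Gal(Ω/K), σ ∈ U ↔ ∃ σ' : Gal(Ω/M), rsK K M Ω σ' = σ := by
    intro σ
    rw [← hfix]
    constructor
    · intro hσ
      refine ⟨AlgEquiv.ofRingEquiv (f := (σ : Ω ≃+* Ω)) fun x => ?_, ?_⟩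
      · exact (IntermediateField.mem_fixingSubgroup_iff M σ).1 hσ x x.2
      · ext x
        rw [rsK_apply]
        rfl
    · rintro ⟨σ', rfl⟩
      rw [IntermediateField.mem_fixingSubgroup_iff]
      intro x hx
      rw [rsK_apply]
      exact σ'.commutes ⟨x, hx⟩
  -- the order of the image
  obtain ⟨n, hn⟩ : ∃ n, Nat.card (P0 : Subgroup ρ.range) = p ^ n := IsPGroup.iff_card.1 P0.2
  have hcard : Nat.card (ρ.comp (rsK K M Ω)).range = p ^ n := by
    have h1 : (ρ.comp (rsK K M Ω)).range = (P0 : Subgroup ρ.range).map ρ.range.subtype := by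
      ext r
      constructor
      · rintro ⟨σ', rfl⟩
        exact ⟨ρ.rangeRestrict (rsK K M Ω σ'), (hmemU _).1 ((hrange _).2 ⟨σ', rfl⟩), rfl⟩
      · rintro ⟨a, ha, rfl⟩
        obtain ⟨σ, rfl⟩ := ρ.rangeRestrict_surjective a
        obtain ⟨σ', rfl⟩ := (hrange σ).1 ((hmemU σ).2 ha)
        exact ⟨σ', rfl⟩
    rw [h1, ← hn]
    exact Nat.card_congr ((P0 : Subgroup ρ.range).equivMapOfInjective ρ.range.subtype
      ρ.range.subtype_injective).symm.toEquiv
  have hfinS : {w : Pl M | ∃ v ∈ S, Over w v}.Finite := by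
    have h1 : {w : Pl M | ∃ v ∈ S, Over w v} = ⋃ v ∈ S, {w : Pl M | Over w v} := by
      ext w
      simp only [Set.mem_ofPred_eq, Set.mem_iUnion, exists_prop]
    rw [h1]
    exact Set.Finite.biUnion S.finite_toSet fun v _ => over_finite v
  have hmem : ∀ w : Pl M, w ∈ hfinS.toFinset ↔ ∃ v ∈ S, Over w v := by
    intro w
    rw [Set.Finite.mem_toFinset]
    rfl
  have hT : Tv (pb e (ρ.comp (rsK K M Ω))) := by
    refine hasp hp he n M (algebraMap K M ζ) (GBase_zeta hζ) (mone_map hp2 M) (z2_map hz M) Ω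
      (ρ.comp (rsK K M Ω)) (bca_ft ⟨E, hE, hEk⟩) hfinS.toFinset ?_ ?_ ?_ hcard
    · intro w hw
      obtain ⟨v, hv⟩ := exists_below (K := K) w
      exact (hmem w).2 ⟨v, hSa v ((above_over hv p).1 hw), hv⟩
    · intro w hw P hP hPw
      obtain ⟨v, hvS, hv⟩ := (hmem w).1 hw
      exact dc_kl_rs (hSd v hvS P hP (bcp_under hv hPw))
    · intro w hw P hP hPw
      obtain ⟨v, hv⟩ := exists_below (K := K) w
      have hvS : v ∉ S := fun h => hw ((hmem w).2 ⟨v, h, hv⟩)
      exact bcp_lt hv hPw (hloc v hvS P hP (bcp_under hv hPw))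
  have hK : Kl (pb e ρ) (U : Set Gal(Ω/K)) := by
    obtain ⟨g, hg, hg2⟩ := hT
    obtain ⟨f, hf, hfg⟩ := bca_lev' (K := K) hg
    refine ⟨f, hf, fun σ hσ τ hτ => ?_⟩
    obtain ⟨σ', rfl⟩ := (hrange σ).1 hσ
    obtain ⟨τ', rfl⟩ := (hrange τ).1 hτ
    rw [← map_mul, hfg, hfg, hfg]
    exact hg2 σ' τ'
  refine tv_desc hp (c2_pb he ⟨E, hE, hEk⟩) U ⟨E, hE, hEU⟩ ⟨?_⟩ ?_ hK
  · rw [hidx]
    exact (inferInstance : (P0 : Subgroup ρ.range).FiniteIndex).index_ne_zero
  · rw [hidx]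
    exact P0.not_dvd_index

end H48.MF
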