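import Pool.Agent.H1.AR.Defs
import Pool.Agent.H38.AS.PDef
import Pool.Agent.H63.MC.CHb

/-!
# H48-MF: fibration over `φQ` for theorem (M_c) (MP_b39724_nt), definitions (text: think, helper48, FB)

* `GM`: the group data of `G` over `MG` (H1/AR/Defs.lean): `pr : G → R = G / Z`, `z : (ZMod p)^w → G` the central subgroup `Z`, `sec` a section with cocycle
  `c`, representatives `g i` of the classes of least index elements, `pr (g i) = e (y i)`. `Cen`: every element `≠ 1` of `Z` is one of the `g i`.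
* `Gm.T`: the kernel of `G → Q`. `Del j`: the `d ∈ (ZMod p)^w` with `z d * g j` conjugate to `g j`. `Zj j = om (y j) V`.
* `Ti`, `Ty`, `Nt` (for representatives `g : Fin N → G`): types of ramified primes outside `S0` (`Ty`: prime norm); `Nt`: ramified of no type.
* `Cq S P T φ φ'`: `φ`, `φ'` are conjugate by an element of `T` on the decomposition group of `P v`, for every `v ∈ S`. `Cv`: the same for homomorphisms to `R`.
* `chx Gm X x`: the character `σ ↦ ∑_{j central} kx j (x j) σ • zv j` to `Z`. `pig X g j`: the product of the `pi w`, `(j, w) ∈ g`. `xk X κ j`: a product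
  of powers of the `pi w` of class `κ j`. `psk Gm X κ = chx Gm X (xk X κ)`.
* `twz χ φ`: the twist by a central character. `rh X c g`: the homomorphism `e (bet g) c` to `R`.
* `LS X Gm ρ g`: the lifts of `ρ` to `G` with label family `g`. `LC`: those which are `Cq` to `φ₁`. `y0`: the number of characters `Γ → Z` unramified
  outside `S0`.
* `SYm`: surjective homomorphisms over `φQ`, all ramified primes outside `S0` typed, `Cq` to `φ₁`, product of the norms of the ramified primes `≤ Y`.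
* `Lbs`: the families of labels of a homomorphism. `Cn`: the central classes (`y j = 0`).
-/

set_option autoImplicit false
set_option linter.dupNamespace false

open scoped NumberField
open IsDedekindDomain
open scoped Classical

noncomputable section

namespace H48.MF

open H63.MA H38.BB H38.BG H38.AS H57.PC H57.BRA H89.BRG H1.AR

/-- the group data -/
structure GM (p u w N : ℕ) (G R Q : Type) [Group G] [Group R] [Group Q] where
  M : MG p u w N R Q
  pr : G →* R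
  prs : Function.Surjective pr
  z : (Fin w → ZMod p) → G
  zinj : Function.Injective z
  zadd : ∀ a b, z (a + b) = z a * z b
  zcen : ∀ a g, z a * g = g * z a
  zker : ∀ g, pr g = 1 ↔ ∃ a, z a = g
  zcom : ∀ a, z a ∈ commutator G
  sec : R → G
  sec_pr : ∀ r, pr (sec r) = r
  sec_mul : ∀ r s, sec r * sec s = z (fun k => M.c k r s) * sec (r * s)
  g : Fin N → G
  gy : ∀ i, pr (g i) = M.e (M.y i)
  gp : ∀ i, g i ^ p = 1
  gne : ∀ i, g i ≠ 1
  uni : ∀ i j, IsConj (g i) (g j) → i = j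
  memH : ∀ j r, M.act (M.π r) (M.y j) = M.y j →
    (∃ x, ∀ k, iv (M.c k) (M.e (M.y j)) r = M.om (M.y j) x k) → M.π r ∈ M.H j

section group

variable {p u w N : ℕ} {G R Q : Type} [Group G] [Group R] [Group Q]

/-- the kernel of `G → Q` -/
def GM.T (Gm : GM p u w N G R Q) : Subgroup G := (Gm.M.π.comp Gm.pr).ker

/-- every element `≠ 1` of `Z` is of least index -/
def GM.Cen (Gm : GM p u w N G R Q) : Prop := ∀ a, a ≠ 0 → ∃ i, Gm.g i = Gm.z a

/-- the `d` with `z d * g j` conjugate to `g j` -/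
def GM.Del (Gm : GM p u w N G R Q) (j : Fin N) : Set (Fin w → ZMod p) :=
  {d | IsConj (Gm.z d * Gm.g j) (Gm.g j)}

/-- the commutators of `y j` with `V` -/
def GM.Zj (Gm : GM p u w N G R Q) (j : Fin N) : Set (Fin w → ZMod p) := Set.range (Gm.M.om (Gm.M.y j))

/-- the quotient `#Z_j / #Del_j` -/
def GM.rt (Gm : GM p u w N G R Q) (j : Fin N) : ℝ := (Nat.card (Gm.Zj j) : ℝ) / Nat.card (Gm.Del j)

end group

section loc

variable {K : Type} [Field K] [NumberField K] {Ω : Type} [Field Ω] [Algebra K Ω]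
  {p N : ℕ} {ζ : K} {D : RD0 K p ζ} {G : Type} [Group G]

/-- type `i` in the wide sense -/
def Ti (g : Fin N → G) (L : LDs D Ω) (φ : Gal(Ω/K) →* G) (i : Fin N) (v : Pl K) : Prop :=
  v ∉ D.S0 ∧ IsConj (φ (L.t v)) (g i) ∧ ∀ τ ∈ inr L v, φ τ ^ p = 1

/-- type `i` -/
def Ty (g : Fin N → G) (L : LDs D Ω) (φ : Gal(Ω/K) →* G) (i : Fin N) (v : Pl K) : Prop :=
  D.Gd v ∧ IsConj (φ (L.t v)) (g i) ∧ ∀ τ ∈ inr L v, φ τ ^ p = 1

/-- ramified outside `S0` and of no type -/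
def Nt (g : Fin N → G) (L : LDs D Ω) (φ : Gal(Ω/K) →* G) (v : Pl K) : Prop :=
  Rm L φ v ∧ ∀ i, ¬ Ty g L φ i v

/-- conjugate by elements of `T` on the decomposition groups -/
def Cq (S : Finset (Pl K)) (P : DP K Ω) (T : Subgroup G) (φ φ' : Gal(Ω/K) →* G) : Prop :=
  ∀ v ∈ S, ∃ r ∈ T, ∀ σ ∈ dec (K := K) (P.P v), φ' σ = r * φ σ * r⁻¹

end loc

/-- the homomorphisms with given set of untyped primes -/
def NEm {n p N : ℕ} (G : Subgroup (Equiv.Perm (Fin n))) (K : IntermediateField ℚ H38.ML.QBar)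
    [NumberField K] {ζ : K} {D : RD0 K p ζ} (L : LDs D H38.ML.QBar) (g : Fin N → G)
    (i₀ : Fin n) (E : Finset (Pl K)) (B : ℝ) : Set (Gal(H38.ML.QBar/K) →* G) :=
  {φ | H38.ML.FT φ ∧ Function.Surjective φ ∧
    (H38.ML.relDisc K (H38.ML.fieldOf i₀ φ) : ℝ) ≤ B ∧ ∀ v, v ∈ E ↔ Nt g L φ v}

section fibre

variable {p u w N : ℕ} {G R Q : Type} [Group G] [Group R] [Group Q]
  {K : Type} [Field K] [NumberField K] {Ω : Type} [Field Ω] [Algebra K Ω] {ζ : K}

/-- the twist by a central character -/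
def twz (Gm : GM p u w N G R Q) (χ : Gal(Ω/K) →* Wg p w) (φ : Gal(Ω/K) →* G) :
    Gal(Ω/K) →* G where
  toFun σ := Gm.z (Multiplicative.toAdd (χ σ)) * φ σ
  map_one' := by
    have h0 : Gm.z 0 = 1 := by
      have h := Gm.zadd 0 0
      rw [add_zero] at h
      exact left_eq_mul.1 h
    rw [χ.map_one, φ.map_one, toAdd_one, h0, mul_one]
  map_mul' σ τ := by
    rw [χ.map_mul, φ.map_mul, toAdd_mul, Gm.zadd]
    have h := Gm.zcen (Multiplicative.toAdd (χ τ)) (φ σ)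
    calc Gm.z (Multiplicative.toAdd (χ σ)) * Gm.z (Multiplicative.toAdd (χ τ)) * (φ σ * φ τ)
        = Gm.z (Multiplicative.toAdd (χ σ)) * (Gm.z (Multiplicative.toAdd (χ τ)) * φ σ) * φ τ := by
          simp only [mul_assoc]
      _ = Gm.z (Multiplicative.toAdd (χ σ)) * φ σ * (Gm.z (Multiplicative.toAdd (χ τ)) * φ τ) := by
          rw [h]
          simp only [mul_assoc]



/-- the homomorphisms to `R` are conjugate by elements of `T'` on the decomposition groups -/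
def Cv (S : Finset (Pl K)) (P : DP K Ω) (Dg : MG p u w N R Q) (ρ ρ' : Gal(Ω/K) →* R) : Prop :=
  ∀ v ∈ S, ∃ x, ∀ σ ∈ dec (K := K) (P.P v), ρ' σ = Dg.e x * ρ σ * (Dg.e x)⁻¹

/-- the homomorphism of a family -/
def rh [Fintype Q] {Dg : MG p u w N R Q} (X : AD Dg K Ω ζ) (c : Gal(Ω/K) →* R)
    (g : Finset X.Lb) : Gal(Ω/K) →* R :=
  if h : ∃ ρ : Gal(Ω/K) →* R, Dg.Tw c (X.bet g) ρ then h.choose else 1

/-- the lifts of `ρ` with label family `g` -/
def LS (Gm : GM p u w N G R Q) (X : AD Gm.M K Ω ζ) (ρ : Gal(Ω/K) →* R) (g : Finset X.Lb) :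
    Set (Gal(Ω/K) →* G) :=
  {φ | H38.ML.FT φ ∧ (∀ σ, Gm.pr (φ σ) = ρ σ) ∧ (∀ a ∈ g, IsConj (φ (X.t a)) (Gm.g a.1)) ∧
    (∀ v, v ∉ X.D.S0 → (∀ a ∈ g, X.un a ≠ v) → ∀ τ ∈ inr X.L v, φ τ = 1) ∧
    ∀ v, v ∉ X.D.S0 → ∀ τ ∈ inr X.L v, φ τ ^ p = 1}

/-- the lifts with given local type at `S0` -/
def LC (Gm : GM p u w N G R Q) (X : AD Gm.M K Ω ζ) (φ₁ : Gal(Ω/K) →* G) (ρ : Gal(Ω/K) →* R)
    (g : Finset X.Lb) : Set (Gal(Ω/K) →* G) :=
  {φ ∈ LS Gm X ρ g | Cq X.D.S0 X.P Gm.T φ φ₁}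

/-- the number of characters `Γ → Z` unramified outside `S0` -/
def y0 (Gm : GM p u w N G R Q) (X : AD Gm.M K Ω ζ) : ℕ := Nat.card (chbU X.D X.L (Wg p w))

/-- the families of labels of a homomorphism -/
def Lbs (Gm : GM p u w N G R Q) (X : AD Gm.M K Ω ζ) (φ : Gal(Ω/K) →* G) :
    Set (Finset X.Lb) :=
  {g | X.Ok g ∧ (∀ a ∈ g, IsConj (φ (X.t a)) (Gm.g a.1) ∧
    Gm.pr (φ (X.t a)) = Gm.M.e (Gm.M.y a.1)) ∧ ∀ v, Rm X.L φ v ↔ ∃ a ∈ g, X.un a = v}

/-- surjective homomorphisms over `φQ`, ramified primes outside `S0` typed -/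
def SYf (Gm : GM p u w N G R Q) (X : AD Gm.M K Ω ζ) (Y : ℝ) : Set (Gal(Ω/K) →* G) :=
  {φ | H38.ML.FT φ ∧ Function.Surjective φ ∧ (∀ σ, Gm.M.π (Gm.pr (φ σ)) = X.φQ σ) ∧
    (∀ v, Rm X.L φ v → ∃ i, Ty Gm.g X.L φ i v) ∧
    ∃ T : Finset (Pl K), (∀ v, v ∈ T ↔ Rm X.L φ v) ∧ ∏ v ∈ T, (nm v : ℝ) ≤ Y}

/-- those with given local type at `S0` -/
def SYm (Gm : GM p u w N G R Q) (X : AD Gm.M K Ω ζ) (φ₁ : Gal(Ω/K) →* G) (Y : ℝ) :
    Set (Gal(Ω/K) →* G) := {φ ∈ SYf Gm X Y | Cq X.D.S0 X.P Gm.T φ φ₁}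

/-- the central classes -/
def Cn (Gm : GM p u w N G R Q) (j : Fin N) : Prop := Gm.M.y j = 0

/-- the value of a central class in `(ZMod p)^w` -/
def zv (Gm : GM p u w N G R Q) (j : Fin N) : Fin w → ZMod p :=
  if h : ∃ a, Gm.z a = Gm.g j then h.choose else 0

/-- the character to `Z` of a family of elements of the `F j` -/
def chx (Gm : GM p u w N G R Q) (X : AD Gm.M K Ω ζ) (x : (j : Fin N) → (X.F j)ˣ) :
    Gal(Ω/K) →* Wg p w :=
  if h : ∃ χ : Gal(Ω/K) →* Wg p w, ∀ σ, Multiplicative.toAdd (χ σ) =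
    ∑ j, if Cn Gm j then X.kx j (x j) σ • zv Gm j else 0 then h.choose else 1

/-- the product of the `pi` of the labels of class `j` -/
def pig {Dg : MG p u w N R Q} (X : AD Dg K Ω ζ) (g : Finset X.Lb) (j : Fin N) : (X.F j)ˣ :=
  ∏ a ∈ g, if h : a.1 = j then (X.A j).D.pi (h ▸ a.2) else 1

/-- a product of powers of the `pi` of class `κ j` -/
def xk {Dg : MG p u w N R Q} (X : AD Dg K Ω ζ) (κ : (j : Fin N) → Fin (X.A j).D.r → ZMod p)
    (j : Fin N) : (X.F j)ˣ :=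
  if h : ∃ n : Pl (X.F j) →₀ ℤ, (∀ v ∈ (X.A j).D.S, n v = 0) ∧
    (n.sum fun v k => (k : ZMod p) • (X.A j).D.q v) = κ j then
    h.choose.prod fun v k => (X.A j).D.pi v ^ k else 1

/-- the character to `Z` of class `κ` -/
def psk (Gm : GM p u w N G R Q) (X : AD Gm.M K Ω ζ)
    (κ : (j : Fin N) → Fin (X.A j).D.r → ZMod p) : Gal(Ω/K) →* Wg p w := chx Gm X (xk X κ)

/-- the number of lifts of the noncentral part with given twisted local type -/
def Ph [Fintype Q] (Gm : GM p u w N G R Q) (X : AD Gm.M K Ω ζ) (φ₁ : Gal(Ω/K) →* G)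
    (ρ : Gal(Ω/K) →* R) (g : Finset X.Lb) (κ : (j : Fin N) → Fin (X.A j).D.r → ZMod p) : ℕ :=
  {φ ∈ LS Gm X ρ g | Cq X.D.S0 X.P Gm.T (twz Gm (psk Gm X κ) φ) φ₁}.ncard

/-- the number of pairs of a character unramified outside `S0` and a class with trivial twisted local type -/
def gg (Gm : GM p u w N G R Q) (X : AD Gm.M K Ω ζ) (φ₁ : Gal(Ω/K) →* G) : ℕ :=
  Nat.card {z : chbU X.D X.L (Wg p w) × ((j : Fin N) → Fin (X.A j).D.r → ZMod p) |
    Cq X.D.S0 X.P Gm.T (twz Gm ((z.1 : Gal(Ω/K) →* Wg p w) * psk Gm X z.2) φ₁) φ₁}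

/-- the central part of a family -/
def gc (Gm : GM p u w N G R Q) {X : AD Gm.M K Ω ζ} (g : Finset X.Lb) : Finset X.Lb :=
  g.filter fun a => Cn Gm a.1

/-- the noncentral part of a family -/
def gn (Gm : GM p u w N G R Q) {X : AD Gm.M K Ω ζ} (g : Finset X.Lb) : Finset X.Lb :=
  g.filter fun a => ¬ Cn Gm a.1

end fibre

end H48.MF
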