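import Pool.Agent.H1.AR.Ltb
import Pool.Agent.H38.BG.TCyc
import Pool.Agent.H57.BRA.Fro
import Pool.Agent.H63.MC.CHa
import Pool.Agent.H48.MF.Defs

/-!
# [H48 MF ING] inertia groups and labels, 120-200 lines. File Pool/Agent/H48/MF/Ing.lean

* `ing`: `v ∤ p`, local data `L : LD p ζ Ω v π` at `v`, `φ` of finite type to a finite group such that the image of the inertia group `I = L.P.inertia` is a `p`-group. Then `φ I` is generated by `φ L.t`. Proof: `ψ = (kc π, φ)` with `kc p ζ Ω π` the Kummer character of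
  `π` (as in the proof of `tm`, Pool/Agent/H38/BG/TTam.lean, and `com2`, Pool/Agent/H57/BRA/Fro.lean). `ψ I` is a `p`-group, its order is prime to `v`, so by `cyc` (H38/BG/TCyc.lean) there is `τ₁ ∈ I` with `ψ σ ∈ zpowers (ψ τ₁)` for all `σ ∈ I`. `ψ t = ψ τ₁ ^ k`, and `kk π t = 1`
  (`ld_kk_t` or `LD.kt`), so `k` is prime to `p`; the order of `φ τ₁` is a power of `p`, so `φ τ₁` is a power of `φ t = φ τ₁ ^ k`.
* `ing_p`: so if moreover `φ L.t ^ p = 1` then `φ τ ^ p = 1` for all `τ ∈ I`.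
* `ing_inr`: the same for `inr L v`, `L.t v` (`L : LDs D Ω`, `v ∉ S0`; `dif_pos`). `ing_one`: if `φ (L.t v) = 1` (and `φ (inr L v)` is a `p`-group) then `φ = 1` on `inr L v`.
* `ing_conj`: `v ∉ S0`, `P'` a prime over `v`: if `φ τ ^ p = 1` for `τ ∈ inr L v`, then also for `τ` in the inertia group of `P'` (`ltr_conj`, as in `ParB` of H1/AR), and conversely.
* `lab_t`: `W` a finite commutative group of exponent `p`, `χ : Γ → W` of finite type: `χ (X.t a) = χ (X.L.t (X.un a))` for a good label `a`. Proof: `CHa_basis`, `CHa_rep` (H63/MC/CHa.lean): `χ σ = ∏_c e_c ^ (kk (b c) σ).val`; `kk x (X.t a) = ord (un a) x` (`ltb_pik`) and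
  `kk x (X.L.t v) = ord v x` (`ld_kk_t`).
* `lab_cj`: for a good label `a`, `v = un a`, and `φ` of finite type with `φ τ ^ p = 1` on `inr X.L v`: `φ (X.t a)` is conjugate to `φ (X.L.t v)`: `X.t a` is in the inertia group of `PL X a` (`ltb_t`), `ltr_conj`: `h⁻¹ (X.t a) h = τ ∈ inr X.L v`, and
  `φ τ = φ (X.L.t v) ^ (kk (D.pi v) τ).val` (`tm_z`), `kk (D.pi v) τ = kk (D.pi v) (X.t a) = ord v (D.pi v) = 1` (`ltb_pik`; `kk` is a homomorphism to a commutative group, so invariant under conjugation).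
* `lab_in`: for `χ : Γ → W` as before and `v ∉ S0`: `χ = 1` on `inr X.L v` iff `χ (X.L.t v) = 1` (`tm_z`).
-/

set_option autoImplicit false
set_option linter.dupNamespace false

open scoped NumberField
open IsDedekindDomain
open scoped Classical

noncomputable section

namespace H48.MF

open H63.MA H38.BB H38.BG H38.AS H57.PC H57.BRA H89.BRG H1.AR

section gen

variable {K : Type} [Field K] [NumberField K] {Ω : Type} [Field Ω] [Algebra K Ω]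
  [IsAlgClosure K Ω] {p : ℕ} {ζ : K}

omit [NumberField K] [IsAlgClosure K Ω] in
private theorem ing_in {P P' : Ideal (𝓞 Ω)} {g : Gal(Ω/K)} (h : ∀ x : 𝓞 Ω, x ∈ P' ↔ g⁻¹ • x ∈ P)
    (τ : Gal(Ω/K)) : τ ∈ P'.inertia Gal(Ω/K) ↔ g⁻¹ * τ * g ∈ P.inertia Gal(Ω/K) := by
  constructor
  · intro hτ x
    have h1 := (h _).1 (hτ (g • x))
    rw [smul_sub, inv_smul_smul] at h1
    rw [mul_smul, mul_smul]
    exact h1
  · intro hτ x
    change τ • x - x ∈ P'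
    rw [h, smul_sub]
    have h1 := hτ (g⁻¹ • x)
    rw [mul_smul, mul_smul, smul_inv_smul] at h1
    exact h1

omit [NumberField K] [IsAlgClosure K Ω] in
private theorem ing_in' {P P' : Ideal (𝓞 Ω)} {g : Gal(Ω/K)} (h : ∀ x : 𝓞 Ω, x ∈ P' ↔ g⁻¹ • x ∈ P)
    (τ : Gal(Ω/K)) : τ ∈ P.inertia Gal(Ω/K) ↔ g * τ * g⁻¹ ∈ P'.inertia Gal(Ω/K) := by
  rw [ing_in h]
  have e : g⁻¹ * (g * τ * g⁻¹) * g = τ := by group
  rw [e]

theorem ing (hp : p.Prime) (hζ : IsPrimitiveRoot ζ p) {v : Pl K} (hv : ¬ Above p v) {π : Kˣ}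
    (hπ : ord v π = 1) (L : LD p ζ Ω v π) {H : Type} [Group H] [Finite H]
    (φ : Gal(Ω/K) →* H) (hφ : H38.ML.FT φ)
    (hI : ∀ τ ∈ L.P.inertia Gal(Ω/K), ∃ k : ℕ, φ τ ^ (p ^ k) = 1) :
    ∀ τ ∈ L.P.inertia Gal(Ω/K), φ τ ∈ Subgroup.zpowers (φ L.t) := by
  have hp0 : NeZero p := ⟨hp.ne_zero⟩
  have hpf : Fact p.Prime := ⟨hp⟩
  have : Finite (Multiplicative (ZMod p)) := inferInstanceAs (Finite (ZMod p))
  set ψ : Gal(Ω/K) →* Multiplicative (ZMod p) × H := (kc p ζ Ω π).prod φ with hψ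
  have hft : H38.ML.FT ψ := gtame_ft_prod _ _ (kc_is hp hζ π).1 hφ
  have hkp : ∀ x : Multiplicative (ZMod p), x ^ p = 1 := by
    intro x
    apply Multiplicative.toAdd.injective
    rw [toAdd_pow, toAdd_one, nsmul_eq_mul, ZMod.natCast_self, zero_mul]
  have hpow : ∀ σ ∈ L.P.inertia Gal(Ω/K), ∃ k : ℕ, ψ σ ^ (p ^ k) = 1 := by
    intro σ hσ
    obtain ⟨k, hk⟩ := hI σ hσ
    refine ⟨k + 1, ?_⟩
    have h1 : ψ σ = (kc p ζ Ω π σ, φ σ) := rfl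
    rw [h1, Prod.pow_mk, pow_succ' p k, pow_mul, hkp, one_pow, mul_comm p, pow_mul, hk, one_pow]
    rfl
  have hpg : IsPGroup p ((L.P.inertia Gal(Ω/K)).map ψ) := by
    rintro ⟨x, hx⟩
    obtain ⟨σ, hσ, rfl⟩ := Subgroup.mem_map.1 hx
    obtain ⟨k, hk⟩ := hpow σ hσ
    exact ⟨k, Subtype.ext hk⟩
  obtain ⟨n, hn⟩ := IsPGroup.iff_card.1 hpg
  have hc : ((Nat.card ((L.P.inertia Gal(Ω/K)).map ψ) : ℕ) : 𝓞 K) ∉ v.asIdeal := by
    rw [hn, Nat.cast_pow]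
    intro h
    exact hv (v.isPrime.mem_of_pow_mem n h)
  obtain ⟨τ₀, hτ₀, hcyc⟩ := cyc v L.P L.prime L.under ψ hft hc
  obtain ⟨m, hm⟩ := hpow τ₀ hτ₀
  have ht1 : kk p ζ π L.t = 1 := by
    have := kk_of_root hp hζ π L.w L.hw L.t 1 (by rw [zpow_one]; exact L.act)
    rw [this, Int.cast_one]
  obtain ⟨j, hj⟩ := Subgroup.mem_zpowers_iff.1 (hcyc L.t L.ht)
  have hj1 : kc p ζ Ω π τ₀ ^ j = kc p ζ Ω π L.t := congrArg Prod.fst hj
  have hkj : (j : ZMod p) * kk p ζ π τ₀ = 1 := by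
    rw [← ht1]
    unfold kk
    rw [← hj1, toAdd_zpow, zsmul_eq_mul]
  have hndvd : ¬ (p : ℤ) ∣ j := by
    intro h
    rw [(ZMod.intCast_zmod_eq_zero_iff_dvd j p).2 h, zero_mul] at hkj
    exact zero_ne_one hkj
  have hcop : IsCoprime j ((p : ℤ) ^ m) := by
    apply IsCoprime.pow_right
    rw [Int.isCoprime_iff_gcd_eq_one, Int.gcd_comm]
    have h1 : Nat.Coprime p j.natAbs := by
      rw [hp.coprime_iff_not_dvd]
      intro h
      exact hndvd (Int.natCast_dvd.2 h)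
    exact h1
  obtain ⟨a, b, hab⟩ := hcop
  have hτ₀t : ψ τ₀ = ψ L.t ^ a := by
    have h1 : ψ τ₀ ^ (a * j + b * (p : ℤ) ^ m) = ψ τ₀ := by
      rw [hab, zpow_one]
    rw [← hj, ← zpow_mul, mul_comm j a]
    conv_lhs => rw [← h1]
    rw [zpow_add, mul_comm b, zpow_mul (ψ τ₀) ((p : ℤ) ^ m)]
    have h2 : ψ τ₀ ^ ((p : ℤ) ^ m) = 1 := by
      have h3 : ((p : ℤ) ^ m) = ((p ^ m : ℕ) : ℤ) := by push_cast; rfl
      rw [h3, zpow_natCast, hm]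
    rw [h2, one_zpow, mul_one]
  intro τ hτ
  obtain ⟨i, hi⟩ := Subgroup.mem_zpowers_iff.1 (hcyc τ hτ)
  rw [hτ₀t, ← zpow_mul] at hi
  rw [Subgroup.mem_zpowers_iff]
  exact ⟨a * i, congrArg Prod.snd hi⟩

theorem ing_inr (hp : p.Prime) (hζ : IsPrimitiveRoot ζ p) {D : RD0 K p ζ} (L : LDs D Ω)
    {v : Pl K} (hv : v ∉ D.S0) {H : Type} [Group H] [Finite H]
    (φ : Gal(Ω/K) →* H) (hφ : H38.ML.FT φ)
    (hI : ∀ τ ∈ inr L v, ∃ k : ℕ, φ τ ^ (p ^ k) = 1) :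
    (∀ τ ∈ inr L v, φ τ ∈ Subgroup.zpowers (φ (L.t v))) ∧
      (φ (L.t v) ^ p = 1 → ∀ τ ∈ inr L v, φ τ ^ p = 1) ∧
      (φ (L.t v) = 1 → ∀ τ ∈ inr L v, φ τ = 1) := by
  have h1 : inr L v = (L.ld v hv).P.inertia Gal(Ω/K) := by
    unfold inr
    rw [dif_pos hv]
  have h2 : L.t v = (L.ld v hv).t := by
    unfold LDs.t
    rw [dif_pos hv]
  have h3 : ∀ τ ∈ inr L v, φ τ ∈ Subgroup.zpowers (φ (L.t v)) := by
    rw [h1] at hI ⊢
    rw [h2]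
    exact ing hp hζ (fun h => hv (D.above v h)) (D.pi_self v hv) (L.ld v hv) φ hφ hI
  refine ⟨h3, ?_, ?_⟩
  · intro h4 τ hτ
    obtain ⟨i, hi⟩ := Subgroup.mem_zpowers_iff.1 (h3 τ hτ)
    rw [← hi, ← zpow_natCast, ← zpow_mul, mul_comm, zpow_mul, zpow_natCast, h4, one_zpow]
  · intro h4 τ hτ
    obtain ⟨i, hi⟩ := Subgroup.mem_zpowers_iff.1 (h3 τ hτ)
    rw [← hi, h4, one_zpow]

theorem ing_conj {D : RD0 K p ζ} (L : LDs D Ω) {v : Pl K} (hv : v ∉ D.S0) {P' : Ideal (𝓞 Ω)}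
    (hP' : P'.IsPrime) (h' : P'.under (𝓞 K) = v.asIdeal) {H : Type} [Group H]
    (φ : Gal(Ω/K) →* H) :
    ((∀ τ ∈ inr L v, φ τ ^ p = 1) ↔ ∀ τ ∈ P'.inertia Gal(Ω/K), φ τ ^ p = 1) ∧
      ((∀ τ ∈ inr L v, φ τ = 1) ↔ ∀ τ ∈ P'.inertia Gal(Ω/K), φ τ = 1) := by
  have h1 : inr L v = (L.ld v hv).P.inertia Gal(Ω/K) := by
    unfold inr
    rw [dif_pos hv]
  obtain ⟨g, hg⟩ := ltr_conj (L.ld v hv).prime hP' (L.ld v hv).under h'
  have key : ∀ Pr : H → Prop, (∀ x c : H, Pr x → Pr (c * x * c⁻¹)) →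
      ((∀ τ ∈ inr L v, Pr (φ τ)) ↔ ∀ τ ∈ P'.inertia Gal(Ω/K), Pr (φ τ)) := by
    intro Pr hPr
    rw [h1]
    constructor
    · intro h τ hτ
      have h2 := hPr _ (φ g) (h _ ((ing_in hg τ).1 hτ))
      have e : φ g * φ (g⁻¹ * τ * g) * (φ g)⁻¹ = φ τ := by
        rw [map_mul, map_mul, map_inv]
        group
      rwa [e] at h2
    · intro h τ hτ
      have h2 := hPr _ (φ g)⁻¹ (h _ ((ing_in' hg τ).1 hτ))
      have e : (φ g)⁻¹ * φ (g * τ * g⁻¹) * (φ g)⁻¹⁻¹ = φ τ := by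
        rw [map_mul, map_mul, map_inv]
        group
      rwa [e] at h2
  refine ⟨key (fun x => x ^ p = 1) ?_, key (fun x => x = 1) ?_⟩
  · intro x c hx
    rw [conj_pow, hx, mul_one, mul_inv_cancel]
  · intro x c hx
    rw [hx, mul_one, mul_inv_cancel]

theorem lab_in (hp : p.Prime) (hζ : IsPrimitiveRoot ζ p) {D : RD0 K p ζ} (L : LDs D Ω)
    {W : Type} [CommGroup W] [Finite W] (hW : ∀ x : W, x ^ p = 1) (χ : Gal(Ω/K) →* W)
    (hχ : H38.ML.FT χ) (v : Pl K) (hv : v ∉ D.S0) :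
    (∀ τ ∈ inr L v, χ τ = 1) ↔ χ (L.t v) = 1 := by
  have h1 : inr L v = (L.ld v hv).P.inertia Gal(Ω/K) := by
    unfold inr
    rw [dif_pos hv]
  have h2 : L.t v = (L.ld v hv).t := by
    unfold LDs.t
    rw [dif_pos hv]
  constructor
  · intro h
    apply h
    rw [h1, h2]
    exact (L.ld v hv).ht
  · intro h τ hτ
    rw [tm_z hp hζ L χ hχ v hv (fun τ _ => hW _) τ hτ, h, one_pow]

end gen

theorem lab_cj {p u w N : ℕ} {R Q : Type} [Group R] [Group Q] [Finite R] [Fintype Q]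
    {Dg : MG p u w N R Q} {K : Type} [Field K] [NumberField K] {Ω : Type} [Field Ω]
    [Algebra K Ω] [IsAlgClosure K Ω] {ζ : K} (X : AD Dg K Ω ζ) (hp : p.Prime)
    (hζ : IsPrimitiveRoot ζ p) {a : X.Lb} (ha : X.Gd a) {H : Type} [Group H] [Finite H]
    (φ : Gal(Ω/K) →* H) (hφ : H38.ML.FT φ) (hI : ∀ τ ∈ inr X.L (X.un a), φ τ ^ p = 1) :
    IsConj (φ (X.t a)) (φ (X.L.t (X.un a))) := by
  have hv : X.un a ∉ X.D.S0 := un_not X ha.1
  have h1 : inr X.L (X.un a) = (X.L.ld (X.un a) hv).P.inertia Gal(Ω/K) := by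
    unfold inr
    rw [dif_pos hv]
  obtain ⟨g, hg⟩ := ltr_conj (X.L.ld (X.un a) hv).prime (ltb_prime X ha) (X.L.ld (X.un a) hv).under
    (ltb_under X ha)
  have h2 : g⁻¹ * X.t a * g ∈ inr X.L (X.un a) := by
    rw [h1]
    exact (ing_in hg _).1 (ltb_t X ha)
  have h3 : kk p ζ (X.D.pi (X.un a)) (g⁻¹ * X.t a * g) = 1 := by
    have h4 : kk p ζ (X.D.pi (X.un a)) (g⁻¹ * X.t a * g) = kk p ζ (X.D.pi (X.un a)) (X.t a) := by
      rw [kk_mul, kk_mul]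
      have h5 := kk_mul (p := p) (ζ := ζ) (X.D.pi (X.un a)) g⁻¹ g
      rw [inv_mul_cancel, kk_one] at h5
      rw [add_right_comm, ← h5, zero_add]
    rw [h4, ltb_pik X hp hζ ha, X.D.pi_self _ hv, Int.cast_one]
  have h4 := tm_z hp hζ X.L φ hφ (X.un a) hv hI _ h2
  have hp1 : Fact (1 < p) := ⟨hp.one_lt⟩
  rw [h3, ZMod.val_one, pow_one] at h4
  rw [← h4, isConj_iff]
  refine ⟨(φ g)⁻¹, ?_⟩
  rw [map_mul, map_mul, map_inv, inv_inv]

theorem lab_t {p u w N : ℕ} {R Q : Type} [Group R] [Group Q] [Finite R] [Fintype Q]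
    {Dg : MG p u w N R Q} {K : Type} [Field K] [NumberField K] {Ω : Type} [Field Ω]
    [Algebra K Ω] [IsAlgClosure K Ω] {ζ : K} (X : AD Dg K Ω ζ) (hp : p.Prime)
    (hζ : IsPrimitiveRoot ζ p) {a : X.Lb} (ha : X.Gd a)
    {W : Type} [CommGroup W] [Finite W] (hW : ∀ x : W, x ^ p = 1) (χ : Gal(Ω/K) →* W)
    (hχ : H38.ML.FT χ) : χ (X.t a) = χ (X.L.t (X.un a)) :=
  isConj_iff_eq.1 (lab_cj X hp hζ ha χ hχ fun _ _ => hW _)

end H48.MF
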