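import Pool.Agent.H38.BG.ABet

/-!
# [H48 MF ABM] the exponent `β` is `N`, 60-100 lines (copy of Pool/Agent/H38/BG/ABet.lean with `g` instead of `Dg.g` and `huni` instead of the field of `GT`). File Pool/Agent/H48/MF/Abm.lean
-/

set_option autoImplicit false

open scoped NumberField
open IsDedekindDomain H38.ML

noncomputable section

namespace H48.MF

theorem abm {n : ℕ} (G : Subgroup (Equiv.Perm (Fin n))) (K : IntermediateField ℚ QBar) (z : K)
    (hz : IsPrimitiveRoot z (Nat.card G)) {N : ℕ} (g : Fin N → G)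
    (huni : ∀ i j, IsConj (g i) (g j) → i = j)
    (hI : ∀ h : G, (h ≠ 1 ∧ ind (h : Equiv.Perm (Fin n)) = indG G) ↔ ∃ i, IsConj h (g i)) :
    Spec.betaAll K QBar G = N := by
  have hk : ∀ a b : G, Spec.KConj K QBar G a b ↔ IsConj a b := by
    intro a b
    have h1 : Spec.KConj K QBar G a b ↔ H38.ML.KConj G K a b := Iff.rfl
    rw [h1, kconj_iff G K z hz a b, isConj_iff]
    constructor
    · rintro ⟨x, hx⟩
      exact ⟨x, hx.symm⟩
    · rintro ⟨x, hx⟩
      exact ⟨x, hx.symm⟩
  have hmem : ∀ i, g i ≠ 1 ∧ Spec.ind ((g i : G) : Equiv.Perm (Fin n)) = Spec.indG G :=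
    fun i => (hI (g i)).2 ⟨i, IsConj.refl _⟩
  unfold Spec.betaAll
  have hcard : Nat.card (Fin N) = Nat.card (Quot fun g h : {g : G // g ≠ 1 ∧
      Spec.ind (g : Equiv.Perm (Fin n)) = Spec.indG G} => Spec.KConj K QBar G g.1 h.1) := by
    refine Nat.card_eq_of_bijective (fun i => Quot.mk _ ⟨g i, hmem i⟩) ⟨?_, ?_⟩
    · intro i j hij
      let P : Quot (fun g h : {g : G // g ≠ 1 ∧
          Spec.ind (g : Equiv.Perm (Fin n)) = Spec.indG G} => Spec.KConj K QBar G g.1 h.1) → Prop :=
        Quot.lift (fun x => IsConj (g i) x.1) (by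
          intro x y hxy
          have hxy' : IsConj x.1 y.1 := (hk _ _).1 hxy
          exact propext ⟨fun h => h.trans hxy', fun h => h.trans hxy'.symm⟩)
      have h1 : P (Quot.mk _ ⟨g i, hmem i⟩) := IsConj.refl _
      have h2 : P (Quot.mk _ ⟨g j, hmem j⟩) := by
        have h3 : P (Quot.mk _ ⟨g i, hmem i⟩) = P (Quot.mk _ ⟨g j, hmem j⟩) :=
          congrArg P hij
        exact h3.mp h1
      exact huni i j h2
    · intro q
      induction q using Quot.ind with
      | mk x =>
        obtain ⟨i, hi⟩ := (hI x.1).1 x.2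
        exact ⟨i, Quot.sound ((hk _ _).2 hi.symm)⟩
  rw [← hcard, Nat.card_eq_fintype_card, Fintype.card_fin]

end H48.MF
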