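import Pool.Agent.H48.MF.Grf
import Pool.Agent.H38.AS.GTw

/-!
# [H48 MF CQE] local types up to conjugation, twists by central characters, 120-200 lines. File Pool/Agent/H48/MF/Cqe.lean

As Pool/Agent/H38/AS/GTw.lean (copy), with `Gm.z a` instead of `Dg.e a 0`, `Gm.pr` instead of `mkW Dg`.
* `cq_refl`, `cq_symm`, `cq_trans`, `cq_mono`, `cq_teq`: conjugation by `1`, `r⁻¹`, products (`T` is a subgroup).
* `twz_apply`, `twz_one`, `twz_mul`, `twz_pr` (`gm_pz`), `twz_ft` (as `twc_ft`), `twz_inj` (`zinj`), `twz_ex` (as `twc_ex`: `gm_fib`, `zinj`).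
* `cq_twz`: `r` commutes with `z`. `cq_twz_teq`: with `r = 1`.
* `cq_cv`: apply `pr`: `pr r = e x` (`gm_T`).
* `twz_loc`: if `pr φ₁ = e x (pr φ) (e x)⁻¹` on `dec (P v)` for every `v ∈ S0` then choose `r_v ∈ G` with `pr r_v = e x_v` (`Gm.prs`; `r_v ∈ T` by `gm_T`); on `U = dec (P v)`: `φ₁ σ = z (δ_v σ) * (r_v φ σ r_v⁻¹)`, `δ_v : U → Wg p w` is a homomorphism of finite level (as `gtw_delta`), and
  `hw_lock` (H63/MC/CHa.lean) gives `δ : Γ → Wg p w` of finite type with these restrictions, as in `twc_loc`. `r_v (z (δ σ) φ σ) r_v⁻¹ = φ₁ σ`.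
-/

set_option autoImplicit false
set_option linter.dupNamespace false

open scoped NumberField
open IsDedekindDomain
open scoped Classical

noncomputable section

namespace H48.MF

open H63.MA H38.BB H38.BG H38.AS H57.PC H57.BRA H89.BRG H1.AR

variable {p u w N : ℕ} {G R Q : Type} [Group G] [Group R] [Group Q] (Gm : GM p u w N G R Q)
  {K : Type} [Field K] [NumberField K] {Ω : Type} [Field Ω] [Algebra K Ω] {ζ : K}

theorem cq_refl (S : Finset (Pl K)) (P : DP K Ω) (T : Subgroup G) (φ : Gal(Ω/K) →* G) :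
    Cq S P T φ φ := by
  intro v _
  exact ⟨1, T.one_mem, fun σ _ => by rw [one_mul, inv_one, mul_one]⟩

theorem cq_symm {S : Finset (Pl K)} {P : DP K Ω} {T : Subgroup G} {φ φ' : Gal(Ω/K) →* G}
    (h : Cq S P T φ φ') : Cq S P T φ' φ := by
  intro v hv
  obtain ⟨r, hr, h1⟩ := h v hv
  refine ⟨r⁻¹, T.inv_mem hr, fun σ hσ => ?_⟩
  rw [h1 σ hσ]
  group

theorem cq_trans {S : Finset (Pl K)} {P : DP K Ω} {T : Subgroup G} {φ φ' φ'' : Gal(Ω/K) →* G}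
    (h : Cq S P T φ φ') (h' : Cq S P T φ' φ'') : Cq S P T φ φ'' := by
  intro v hv
  obtain ⟨r, hr, h1⟩ := h v hv
  obtain ⟨r', hr', h2⟩ := h' v hv
  refine ⟨r' * r, T.mul_mem hr' hr, fun σ hσ => ?_⟩
  rw [h2 σ hσ, h1 σ hσ]
  group

theorem cq_mono {S S' : Finset (Pl K)} (hS : S' ⊆ S) {P : DP K Ω} {T : Subgroup G}
    {φ φ' : Gal(Ω/K) →* G} (h : Cq S P T φ φ') : Cq S' P T φ φ' := by
  exact fun v hv => h v (hS hv)

theorem cq_teq {S : Finset (Pl K)} {P : DP K Ω} (T : Subgroup G) {φ φ' : Gal(Ω/K) →* G}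
    (h : Teq S P φ φ') : Cq S P T φ φ' := by
  intro v hv
  exact ⟨1, T.one_mem, fun σ hσ => by rw [one_mul, inv_one, mul_one, h v hv σ hσ]⟩

theorem twz_apply (χ : Gal(Ω/K) →* Wg p w) (φ : Gal(Ω/K) →* G) (σ : Gal(Ω/K)) :
    twz Gm χ φ σ = Gm.z (Multiplicative.toAdd (χ σ)) * φ σ := rfl

theorem twz_one (φ : Gal(Ω/K) →* G) : twz Gm 1 φ = φ := by
  ext σ
  rw [twz_apply, MonoidHom.one_apply, toAdd_one, gm_z0, one_mul]

theorem twz_mul (χ χ' : Gal(Ω/K) →* Wg p w) (φ : Gal(Ω/K) →* G) :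
    twz Gm (χ * χ') φ = twz Gm χ (twz Gm χ' φ) := by
  ext σ
  rw [twz_apply, twz_apply, twz_apply, MonoidHom.mul_apply, toAdd_mul, Gm.zadd, mul_assoc]

theorem twz_pr (χ : Gal(Ω/K) →* Wg p w) (φ : Gal(Ω/K) →* G) (σ : Gal(Ω/K)) :
    Gm.pr (twz Gm χ φ σ) = Gm.pr (φ σ) := by
  rw [twz_apply, map_mul, gm_pz, one_mul]

theorem twz_ft (χ : Gal(Ω/K) →* Wg p w) (φ : Gal(Ω/K) →* G) (hχ : H38.ML.FT χ)
    (hφ : H38.ML.FT φ) : H38.ML.FT (twz Gm χ φ) := by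
  obtain ⟨E, hE, hle⟩ := hχ
  obtain ⟨E', hE', hle'⟩ := hφ
  refine ⟨E ⊔ E', inferInstance, fun σ hσ => ?_⟩
  have h1 : σ ∈ E.fixingSubgroup := IntermediateField.fixingSubgroup_antitone le_sup_left hσ
  have h2 : σ ∈ E'.fixingSubgroup := IntermediateField.fixingSubgroup_antitone le_sup_right hσ
  have h3 := MonoidHom.mem_ker.1 (hle h1)
  have h4 := MonoidHom.mem_ker.1 (hle' h2)
  rw [MonoidHom.mem_ker, twz_apply, h3, h4, toAdd_one, gm_z0, mul_one]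

theorem twz_inj {χ χ' : Gal(Ω/K) →* Wg p w} {φ : Gal(Ω/K) →* G}
    (h : twz Gm χ φ = twz Gm χ' φ) : χ = χ' := by
  ext1 σ
  have h1 := DFunLike.congr_fun h σ
  rw [twz_apply, twz_apply, mul_left_inj] at h1
  exact Multiplicative.toAdd.injective (Gm.zinj h1)

private theorem mtw_delta (φ φ' : Gal(Ω/K) →* G) (hφ : H38.ML.FT φ)
    (hφ' : H38.ML.FT φ') (U : Subgroup Gal(Ω/K))
    (h : ∀ σ ∈ U, Gm.pr (φ σ) = Gm.pr (φ' σ)) :
    ∃ δ : U →* Wg p w,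
      (∀ x : U, φ (x : Gal(Ω/K)) = Gm.z (Multiplicative.toAdd (δ x)) * φ' (x : Gal(Ω/K))) ∧
      ∃ E : IntermediateField K Ω, FiniteDimensional K E ∧
        ∀ x : U, (x : Gal(Ω/K)) ∈ E.fixingSubgroup → δ x = 1 := by
  have h1 : ∀ x : U, ∃ a : Fin w → ZMod p,
      φ (x : Gal(Ω/K)) = Gm.z a * φ' (x : Gal(Ω/K)) :=
    fun x => gm_fib Gm (h x x.2)
  choose l hl using h1
  have hinj : ∀ (a b : Fin w → ZMod p) (g : G), Gm.z a * g = Gm.z b * g → a = b :=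
    fun a b g hab => Gm.zinj (mul_right_cancel hab)
  refine ⟨MonoidHom.mk' (fun x => Multiplicative.ofAdd (l x)) ?_, fun x => hl x, ?_⟩
  · intro x y
    rw [← ofAdd_add]
    congr 1
    apply hinj _ _ (φ' ((x * y : U) : Gal(Ω/K)))
    rw [← hl, Gm.zadd, Subgroup.coe_mul, map_mul, map_mul, hl x, hl y]
    calc Gm.z (l x) * φ' (x : Gal(Ω/K)) * (Gm.z (l y) * φ' (y : Gal(Ω/K))) =
        Gm.z (l x) * (φ' (x : Gal(Ω/K)) * Gm.z (l y)) * φ' (y : Gal(Ω/K)) := by group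
      _ = Gm.z (l x) * (Gm.z (l y) * φ' (x : Gal(Ω/K))) * φ' (y : Gal(Ω/K)) := by
        rw [Gm.zcen (l y) (φ' (x : Gal(Ω/K)))]
      _ = _ := by group
  · obtain ⟨E, hE, hle⟩ := hφ
    obtain ⟨E', hE', hle'⟩ := hφ'
    refine ⟨E ⊔ E', inferInstance, fun x hx => ?_⟩
    have h1 : (x : Gal(Ω/K)) ∈ E.fixingSubgroup :=
      IntermediateField.fixingSubgroup_antitone le_sup_left hx
    have h2 : (x : Gal(Ω/K)) ∈ E'.fixingSubgroup :=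
      IntermediateField.fixingSubgroup_antitone le_sup_right hx
    have h3 := MonoidHom.mem_ker.1 (hle h1)
    have h4 := MonoidHom.mem_ker.1 (hle' h2)
    have h5 := hl x
    rw [h3, h4, mul_one, ← gm_z0 Gm] at h5
    have h6 := Gm.zinj h5
    change Multiplicative.ofAdd (l x) = 1
    rw [← h6, ofAdd_zero]

theorem twz_ex (φ φ' : Gal(Ω/K) →* G) (hφ : H38.ML.FT φ) (hφ' : H38.ML.FT φ')
    (h : ∀ σ, Gm.pr (φ σ) = Gm.pr (φ' σ)) :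
    ∃ χ : Gal(Ω/K) →* Wg p w, H38.ML.FT χ ∧ φ = twz Gm χ φ' := by
  obtain ⟨δ, h1, E, hE, h2⟩ := mtw_delta Gm φ φ' hφ hφ' ⊤ fun σ _ => h σ
  refine ⟨δ.comp Subgroup.topEquiv.symm.toMonoidHom, ⟨E, hE, fun σ hσ => ?_⟩, ?_⟩
  · rw [MonoidHom.mem_ker]
    exact h2 ⟨σ, Subgroup.mem_top σ⟩ hσ
  · ext σ
    exact h1 ⟨σ, Subgroup.mem_top σ⟩

theorem cq_twz {S : Finset (Pl K)} {P : DP K Ω} (T : Subgroup G) {φ φ' : Gal(Ω/K) →* G}
    (h : Cq S P T φ φ') (χ : Gal(Ω/K) →* Wg p w) : Cq S P T (twz Gm χ φ) (twz Gm χ φ') := by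
  intro v hv
  obtain ⟨r, hr, h1⟩ := h v hv
  refine ⟨r, hr, fun σ hσ => ?_⟩
  rw [twz_apply, twz_apply, h1 σ hσ, ← mul_assoc r, ← Gm.zcen _ r]
  group

theorem cq_twz_teq {S : Finset (Pl K)} {P : DP K Ω} (T : Subgroup G) {χ χ' : Gal(Ω/K) →* Wg p w}
    (h : Teq S P χ χ') (φ : Gal(Ω/K) →* G) : Cq S P T (twz Gm χ φ) (twz Gm χ' φ) := by
  refine cq_teq T fun v hv σ hσ => ?_
  rw [twz_apply, twz_apply, h v hv σ hσ]

theorem cq_cv {S : Finset (Pl K)} {P : DP K Ω} {φ φ' : Gal(Ω/K) →* G}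
    (h : Cq S P Gm.T φ φ') : Cv S P Gm.M (Gm.pr.comp φ) (Gm.pr.comp φ') := by
  intro v hv
  obtain ⟨r, hr, h1⟩ := h v hv
  obtain ⟨x, hx⟩ := (gm_T Gm r).1 hr
  refine ⟨x, fun σ hσ => ?_⟩
  rw [MonoidHom.comp_apply, MonoidHom.comp_apply, h1 σ hσ, map_mul, map_mul, map_inv, hx]

theorem cv_refl (S : Finset (Pl K)) (P : DP K Ω) (ρ : Gal(Ω/K) →* R) :
    Cv S P Gm.M ρ ρ := by
  intro v _
  exact ⟨0, fun σ _ => by rw [gm_e0, one_mul, inv_one, mul_one]⟩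

theorem cv_symm {S : Finset (Pl K)} {P : DP K Ω} {ρ ρ' : Gal(Ω/K) →* R}
    (h : Cv S P Gm.M ρ ρ') : Cv S P Gm.M ρ' ρ := by
  intro v hv
  obtain ⟨x, h1⟩ := h v hv
  refine ⟨-x, fun σ hσ => ?_⟩
  have h2 : Gm.M.e (-x) = (Gm.M.e x)⁻¹ := by
    rw [eq_inv_iff_mul_eq_one, ← Gm.M.eadd, neg_add_cancel, gm_e0]
  rw [h1 σ hσ, h2]
  group

theorem cv_trans {S : Finset (Pl K)} {P : DP K Ω} {ρ ρ' ρ'' : Gal(Ω/K) →* R}
    (h : Cv S P Gm.M ρ ρ') (h' : Cv S P Gm.M ρ' ρ'') : Cv S P Gm.M ρ ρ'' := by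
  intro v hv
  obtain ⟨x, h1⟩ := h v hv
  obtain ⟨x', h2⟩ := h' v hv
  refine ⟨x' + x, fun σ hσ => ?_⟩
  rw [h2 σ hσ, h1 σ hσ, Gm.M.eadd]
  group

theorem twz_loc [IsAlgClosure K Ω] [Finite G] [NeZero p] (hp : p.Prime)
    (hζ : IsPrimitiveRoot ζ p) (D : RD0 K p ζ) (P : DP K Ω) (φ φ₁ : Gal(Ω/K) →* G)
    (hφ : H38.ML.FT φ) (hφ₁ : H38.ML.FT φ₁)
    (h : Cv D.S0 P Gm.M (Gm.pr.comp φ) (Gm.pr.comp φ₁)) :
    ∃ δ : Gal(Ω/K) →* Wg p w, H38.ML.FT δ ∧ Cq D.S0 P Gm.T (twz Gm δ φ) φ₁ := by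
  have hr : ∀ v : Pl K, ∃ r : G, v ∈ D.S0 → r ∈ Gm.T ∧ ∀ σ ∈ dec (K := K) (P.P v),
      Gm.pr (φ₁ σ) = Gm.pr (r * φ σ * r⁻¹) := by
    intro v
    by_cases hv : v ∈ D.S0
    · obtain ⟨x, hx⟩ := h v hv
      obtain ⟨r, hr⟩ := Gm.prs (Gm.M.e x)
      refine ⟨r, fun _ => ⟨(gm_T Gm r).2 ⟨x, hr⟩, fun σ hσ => ?_⟩⟩
      have h1 := hx σ hσ
      rw [MonoidHom.comp_apply, MonoidHom.comp_apply] at h1
      rw [h1, map_mul, map_mul, map_inv, hr]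
    · exact ⟨1, fun h => absurd h hv⟩
  choose r hr using hr
  have hδ : ∀ v : Pl K, ∃ δ : dec (K := K) (P.P v) →* Wg p w, v ∈ D.S0 →
      (∀ x : dec (K := K) (P.P v), φ₁ (x : Gal(Ω/K)) =
        Gm.z (Multiplicative.toAdd (δ x)) * (r v * φ (x : Gal(Ω/K)) * (r v)⁻¹)) ∧
      ∃ E : IntermediateField K Ω, FiniteDimensional K E ∧
        ∀ x : dec (K := K) (P.P v), (x : Gal(Ω/K)) ∈ E.fixingSubgroup → δ x = 1 := by
    intro v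
    by_cases hv : v ∈ D.S0
    · obtain ⟨δ, d1, d2⟩ := mtw_delta Gm φ₁ ((MulAut.conj (r v)).toMonoidHom.comp φ) hφ₁ (by
        obtain ⟨E, hE, hle⟩ := hφ
        refine ⟨E, hE, fun σ hσ => ?_⟩
        have h1 := MonoidHom.mem_ker.1 (hle hσ)
        rw [MonoidHom.mem_ker, MonoidHom.comp_apply, h1, map_one]) (dec (K := K) (P.P v))
        fun σ hσ => (hr v hv).2 σ hσ
      exact ⟨δ, fun _ => ⟨d1, d2⟩⟩
    · exact ⟨1, fun h => absurd h hv⟩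
  choose δ hδ using hδ
  obtain ⟨χ, hχ, hχδ⟩ := hw_lock (W := Wg p w) hp hζ D P wg_pow δ
    (fun v hv => (hδ v hv).2)
  refine ⟨χ, hχ, fun v hv => ⟨r v, (hr v hv).1, fun σ hσ => ?_⟩⟩
  rw [twz_apply, hχδ v hv ⟨σ, hσ⟩]
  refine ((hδ v hv).1 ⟨σ, hσ⟩).trans ?_
  rw [← mul_assoc (r v), ← Gm.zcen _ (r v)]
  simp only [mul_assoc]

end H48.MF
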