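import Pool.Agent.H48.MF.Brf
import Pool.Agent.H48.MF.Cqe
import Pool.Agent.H48.MF.Ing
import Pool.Agent.H1.AR.Res

/-!
# [H48 MF LFE] lifts of the homomorphism of a family to `G`, 200-280 lines. File Pool/Agent/H48/MF/Lfe.lean

`c` unramified outside `S0` (`X.IsC c`), `g` an `Ok` family, `ρ = e (bet g) c` (`Tw`). So `ρ` is over `φQ` and of finite type (`tws_isL`, `bet_cy`), `ρ (X.t a) = e (y a.1)` (`par_t`), `ρ = 1` on `inr X.L v` for the other `v ∉ S0` (`par_ur`) and `ρ τ ^ p = 1` on all `inr` (`par_pow`); `inr X.L v` is the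
inertia group of `(X.L.ld v hv).P` (`dif_pos`).
* `ls_ev`: `φ (fb a)`, `φ (t a)` commute (`ltb_com`; exponent `p` by the last clause of `LS` and `ing_conj`, `ltb_prime`, `ltb_under`). `gm_comm` and `zinj`, `gm_z0`: `iv (c k) (ρ (fb a)) (ρ (t a)) = 0`, `ρ (t a) = e (y a.1)`, so `ev ρ a = 0` (`MG.cm`, `iv` is antisymmetric: `iv_swap`).
* `lfe_lift`: (1) for every `k : Fin w`: `Tv (pb (Gm.M.c k) ρ)` by `brg1f` (`Q := X.P`, `Fr := X.Fr`, `he := Gm.M.coc k`). `hiv`: if `v` is not under `g` then `ρ (t v) = 1` and `iv e r 1 = 0` (`l1`, `r1`); if `v = un a`: `res_loc` and `hev`. `hS`: for `v ∈ S0` let `pr φ₁ σ = e x * ρ σ * (e x)⁻¹` on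
  `dec (P v)` (`hcv`), `r ∈ G` with `pr r = e x` (`prs`). Let `l σ` be the `a k` with `r⁻¹ * φ₁ σ * r = z a * sec (ρ σ)` if `pr (r⁻¹ * φ₁ σ * r) = ρ σ` (`gm_fib`, `sec_pr`; choose `a`, unique by `zinj`), and `0` otherwise. It has finite level (it depends only on `φ₁ σ`, `ρ σ`, both of finite type). On `dec (P v)` the condition holds and
  `l (σ τ) = l σ + l τ + c k (ρ σ) (ρ τ)` (`sec_mul`, `zadd`, `zcen`, `zinj`).
  (2) From `l k` on `Γ` for all `k` (`Tv` is `Kl` on `univ`): `φ₀ σ = z (fun k => l k σ) * sec (ρ σ)` is a homomorphism (`sec_mul`: `sec r * sec s = z (c r s) * sec (r s)`, `zadd`, `zcen`), of finite type (kernel contains the common level of the `l k` and of `ρ`; `l k 1 = 0`), `pr (φ₀ σ) = ρ σ` (`gm_pz`, `sec_pr`).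
* `lab_p`: `φ` of finite type with `φ τ ^ (p ^ 2) = 1` on `inr X.L v`, `v = un a`, `a` good: if `φ (X.t a) ^ p = 1` then `φ τ ^ p = 1` on `inr X.L v`. Proof: `ltr_conj` (as in `lab_cj`): `τ = h⁻¹ (X.t a) h ∈ inr X.L v`, `kk (D.pi v) τ = kk (D.pi v) (X.t a) = 1` (`ltb_pik`). Apply `ing_inr` to `ψ = (φ, kc p ζ Ω (D.pi v)) : Γ → H × Multiplicative (ZMod p)`
  (order of `ψ τ` divides `p ^ 2`): `ψ τ = ψ (t v) ^ k`; the second coordinate gives `k = 1` mod `p` (`kk (D.pi v) (t v) = 1`, `ld_kk_t`). So `1 = φ τ ^ p = φ (t v) ^ (k p) = φ (t v) ^ p` (`φ (t v) ^ (p ^ 2) = 1`; `k` an integer, use `zpow`), and the second clause of `ing_inr`.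
* `lfe`: `φ₀` from `lfe_lift`. For `v ∉ S0` not under `g`: `φ₀ (t v) = z (b v)` (`pr = ρ (t v) = 1`, `zker`); for `v = un a`: `φ₀ (X.t a) = z (b v) * g a.1` (`gm_fib`, `gy`; `un` is injective on `g`, so `b` is well defined by choice). `s v = ofAdd (-b v)` for those of the `v ∉ S0` which are under `g` or with `φ₀ (t v) ≠ 1`, `s v = 1` for the others
  (finite support: `ram_finite`, see `CHb`, `CHc` in H63/MC). `hw_ex` (`D := X.D`, `W = Wg p w`, `wg_pow`) gives `χ` with `χ (t v) = s v`, `v ∉ S0`. `φ = twz χ φ₀`: `φ (X.t a) = z (χ (X.t a)) φ₀ (X.t a) = g a.1` (`lab_t`), `φ (t v) = 1` for `v` not under `g`. Exponent `p ^ 2` on `inr X.L v`: `pr (φ τ ^ p) = ρ τ ^ p = 1`, `zker`,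
  `gm_zpow`. So `φ = 1` on `inr X.L v` for `v` not under `g` (`ing_inr`, third clause), `φ τ ^ p = 1` there, and for `v = un a` by `lab_p` (`gp`).
* `rh_tw`: `tws` with `bet_cy` gives some `ρ` with `Tw c (bet g) ρ`; `dif_pos`, `choose_spec`. `rh_eq`: `tws_uniq`.
-/

set_option autoImplicit false
set_option linter.dupNamespace false

open scoped NumberField
open IsDedekindDomain
open scoped Classical

noncomputable section

namespace H48.MF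

open H63.MA H38.BB H38.BG H38.AS H57.PC H57.BRA H89.BRG H1.AR

variable {p u w N : ℕ} {G R Q : Type} [Group G] [Group R] [Group Q] [Finite G] [Finite R]
  [Fintype Q] (Gm : GM p u w N G R Q)
  {K : Type} [Field K] [NumberField K] {Ω : Type} [Field Ω] [Algebra K Ω] [IsAlgClosure K Ω]
  {ζ : K} (X : AD Gm.M K Ω ζ)

theorem rh_tw (hp : p.Prime) (hζ : IsPrimitiveRoot ζ p) {c : Gal(Ω/K) →* R} (hc : X.IsC c)
    (g : Finset X.Lb) : Gm.M.Tw c (X.bet g) (rh X c g) := by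
  have h : ∃ ρ : Gal(Ω/K) →* R, Gm.M.Tw c (X.bet g) ρ := by
    obtain ⟨ρ, h1, -⟩ := tws X hc.toIsL (bet_cy X hp hζ g)
    exact ⟨ρ, h1⟩
  unfold rh
  rw [dif_pos h]
  exact h.choose_spec

theorem rh_eq (hp : p.Prime) (hζ : IsPrimitiveRoot ζ p) {c ρ : Gal(Ω/K) →* R} (hc : X.IsC c)
    {g : Finset X.Lb} (hρ : Gm.M.Tw c (X.bet g) ρ) : rh X c g = ρ :=
  tws_uniq (rh_tw Gm X hp hζ hc g) hρ

theorem ls_ev (hp : p.Prime) (hζ : IsPrimitiveRoot ζ p) {c ρ : Gal(Ω/K) →* R} (hc : X.IsC c)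
    {g : Finset X.Lb} (hg : X.Ok g) (hρ : Gm.M.Tw c (X.bet g) ρ) {φ : Gal(Ω/K) →* G}
    (h : φ ∈ LS Gm X ρ g) {a : X.Lb} (ha : a ∈ g) : X.ev ρ a = 0 := by
  obtain ⟨hft, hpr, -, -, hexp⟩ := h
  have hG := hg.1 a ha
  have hv := un_not X hG.1
  have h1 := (ing_conj X.L hv (ltb_prime X hG) (ltb_under X hG) φ).1.1 (hexp _ hv)
  have h2 := ltb_com X hG φ hft fun τ hτ => by rw [pow_two, pow_mul, h1 τ hτ, one_pow]
  have h3 : Gm.pr (φ (X.fb a)) * Gm.pr (φ (X.t a)) = Gm.pr (φ (X.t a)) * Gm.pr (φ (X.fb a)) := by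
    rw [← map_mul, h2, map_mul]
  have h4 := gm_comm Gm h3
  rw [h2] at h4
  have h5 : Gm.z (fun k => iv (Gm.M.c k) (Gm.pr (φ (X.fb a))) (Gm.pr (φ (X.t a)))) = Gm.z 0 := by
    rw [gm_z0]
    exact right_eq_mul.1 h4
  have h6 := Gm.zinj h5
  funext k
  have h7 := congrFun h6 k
  rw [hpr, hpr, par_t X hp hζ hc hg hρ ha] at h7
  show iv (Gm.M.c k) (Gm.M.e (Gm.M.y a.1)) (ρ (X.fb a)) = 0
  rw [iv_swap, h7]
  exact neg_zero

/-- the coordinate of an element over `s` -/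
private def lfe_A (x : G) (s : R) : Fin w → ZMod p :=
  if h : ∃ a, x = Gm.z a * Gm.sec s then h.choose else 0

omit [Finite G] [Finite R] [Fintype Q] in
private theorem lfe_A_eq {x : G} {s : R} (h : Gm.pr x = s) : x = Gm.z (lfe_A Gm x s) * Gm.sec s := by
  have h1 : ∃ a, x = Gm.z a * Gm.sec s := gm_fib Gm (by rw [h, Gm.sec_pr])
  unfold lfe_A
  rw [dif_pos h1]
  exact h1.choose_spec

omit [Finite G] [Finite R] [Fintype Q] in
private theorem lfe_mul (a b : Fin w → ZMod p) (r s : R) :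
    Gm.z a * Gm.sec r * (Gm.z b * Gm.sec s) =
      Gm.z (a + b + fun k => Gm.M.c k r s) * Gm.sec (r * s) := by
  rw [Gm.zadd, Gm.zadd]
  calc Gm.z a * Gm.sec r * (Gm.z b * Gm.sec s) = Gm.z a * (Gm.sec r * Gm.z b) * Gm.sec s := by
        simp only [mul_assoc]
    _ = Gm.z a * (Gm.z b * Gm.sec r) * Gm.sec s := by rw [Gm.zcen b (Gm.sec r)]
    _ = Gm.z a * Gm.z b * (Gm.sec r * Gm.sec s) := by simp only [mul_assoc]
    _ = _ := by rw [Gm.sec_mul]; simp only [mul_assoc]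

private theorem lfe_kl {ρ : Gal(Ω/K) →* R} (hρ : H38.ML.FT ρ) {φ₁ : Gal(Ω/K) →* G}
    (hφ₁ : H38.ML.FT φ₁) (U : Subgroup Gal(Ω/K)) (x : Fin u → ZMod p)
    (hx : ∀ σ ∈ U, Gm.pr (φ₁ σ) = Gm.M.e x * ρ σ * (Gm.M.e x)⁻¹) (k : Fin w) :
    Kl (pb (Gm.M.c k) ρ) (U : Set Gal(Ω/K)) := by
  obtain ⟨r, hr⟩ := Gm.prs (Gm.M.e x)
  obtain ⟨E, hE, hle⟩ := hρ
  obtain ⟨E', hE', hle'⟩ := hφ₁
  refine ⟨fun σ => lfe_A Gm (r⁻¹ * φ₁ σ * r) (ρ σ) k, ⟨E ⊔ E', inferInstance, fun σ v hv => ?_⟩, ?_⟩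
  · have h1 : v ∈ E.fixingSubgroup := IntermediateField.fixingSubgroup_antitone le_sup_left hv
    have h2 : v ∈ E'.fixingSubgroup := IntermediateField.fixingSubgroup_antitone le_sup_right hv
    have h3 := MonoidHom.mem_ker.1 (hle h1)
    have h4 := MonoidHom.mem_ker.1 (hle' h2)
    dsimp only
    rw [map_mul ρ, map_mul φ₁, h3, h4, mul_one, mul_one]
  · intro σ hσ τ hτ
    have hpr : ∀ σ ∈ U, Gm.pr (r⁻¹ * φ₁ σ * r) = ρ σ := by
      intro σ hσ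
      rw [map_mul, map_mul, map_inv, hr, hx σ hσ]
      group
    have h1 := lfe_A_eq Gm (hpr σ hσ)
    have h2 := lfe_A_eq Gm (hpr τ hτ)
    have h3 := lfe_A_eq Gm (hpr _ (U.mul_mem hσ hτ))
    have h4 : r⁻¹ * φ₁ (σ * τ) * r = (r⁻¹ * φ₁ σ * r) * (r⁻¹ * φ₁ τ * r) := by
      rw [map_mul]
      group
    rw [h4] at h3
    have h5 : Gm.z (lfe_A Gm (r⁻¹ * φ₁ (σ * τ) * r) (ρ (σ * τ))) * Gm.sec (ρ (σ * τ)) =
        Gm.z (lfe_A Gm (r⁻¹ * φ₁ σ * r) (ρ σ) + lfe_A Gm (r⁻¹ * φ₁ τ * r) (ρ τ) +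
          fun k => Gm.M.c k (ρ σ) (ρ τ)) * Gm.sec (ρ (σ * τ)) := by
      rw [map_mul ρ, ← lfe_mul, ← h1, ← h2, h4, ← map_mul ρ]
      exact h3.symm
    have h6 := Gm.zinj (mul_right_cancel h5)
    exact congrFun h6 k

theorem lfe_lift (hp : p.Prime) (hp2 : MOne p K) (hζ : IsPrimitiveRoot ζ p) (hz : Z2 p K)
    {c ρ : Gal(Ω/K) →* R} (hc : X.IsC c) {g : Finset X.Lb} (hg : X.Ok g)
    (hρ : Gm.M.Tw c (X.bet g) ρ) (hev : ∀ a ∈ g, X.ev ρ a = 0) {φ₁ : Gal(Ω/K) →* G}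
    (hφ₁ : H38.ML.FT φ₁) (hcv : Cv X.D.S0 X.P Gm.M ρ (Gm.pr.comp φ₁)) :
    ∃ φ₀ : Gal(Ω/K) →* G, H38.ML.FT φ₀ ∧ ∀ σ, Gm.pr (φ₀ σ) = ρ σ := by
  have hft : H38.ML.FT ρ := (tws_isL X hc.toIsL (bet_cy X hp hζ g) hρ).ft
  have hTv : ∀ k : Fin w, Tv (pb (Gm.M.c k) ρ) := by
    intro k
    refine brg1f hp hp2 hζ hz (D := X.D) (L := X.L) X.P X.Fr (Gm.M.coc k) hft ?_ ?_ ?_
    · intro v hv
      obtain ⟨x, hx⟩ := hcv v hv
      exact lfe_kl Gm hft hφ₁ (dec (K := K) (X.P.P v)) x (fun σ hσ => hx σ hσ) k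
    · intro v hv τ hτ
      rw [inr, dif_pos hv] at hτ
      exact par_pow X hp hζ hc hρ hv (X.L.ld v hv).prime (X.L.ld v hv).under hτ
    · intro v hv
      by_cases h : ∃ a ∈ g, X.un a = v
      · obtain ⟨a, ha, rfl⟩ := h
        have h1 := res_loc X hp hζ hz hc hg hρ ha k
        rw [hev a ha] at h1
        exact neg_eq_zero.1 h1.symm
      · push Not at h
        have h1 : ρ (X.L.t v) = 1 := by
          rw [LDs.t, dif_pos hv]
          exact par_ur X hp hζ hc hg hρ hv h (X.L.ld v hv).prime (X.L.ld v hv).under (X.L.ld v hv).ht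
        rw [h1, iv_swap, iv_one_left (Gm.M.coc k), neg_zero]
  choose l hl1 hl2 using hTv
  choose E hE hEl using hl1
  obtain ⟨E', hE', hle'⟩ := hft
  obtain ⟨φ₀, hφ₀⟩ : ∃ φ₀ : Gal(Ω/K) →* G, ∀ σ, φ₀ σ = Gm.z (fun k => l k σ) * Gm.sec (ρ σ) := by
    refine ⟨MonoidHom.mk' (fun σ => Gm.z (fun k => l k σ) * Gm.sec (ρ σ)) ?_, fun σ => rfl⟩
    intro σ τ
    rw [lfe_mul, map_mul]
    congr 2
    funext k
    rw [hl2 k σ τ]
    rfl
  refine ⟨φ₀, ⟨(⨆ k, E k) ⊔ E', ?_, ?_⟩, ?_⟩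
  · have := IntermediateField.finiteDimensional_iSup_of_finite (t := E)
    infer_instance
  · intro v hv
    have h1 : v ∈ E'.fixingSubgroup := IntermediateField.fixingSubgroup_antitone le_sup_right hv
    have h2 : ∀ k, v ∈ (E k).fixingSubgroup := fun k =>
      IntermediateField.fixingSubgroup_antitone ((le_iSup E k).trans le_sup_left) hv
    have h3 := MonoidHom.mem_ker.1 (hle' h1)
    rw [MonoidHom.mem_ker, ← map_one φ₀, hφ₀, hφ₀, h3, map_one]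
    congr 2
    funext k
    have h4 := hEl k 1 v (h2 k)
    rwa [one_mul] at h4
  · intro σ
    rw [hφ₀, map_mul, gm_pz, one_mul, Gm.sec_pr]

private theorem lfe_inr {a : X.Lb} (ha : X.Gd a) : ∃ h : Gal(Ω/K),
    h⁻¹ * X.t a * h ∈ inr X.L (X.un a) := by
  have hv : X.un a ∉ X.D.S0 := un_not X ha.1
  have h1 : inr X.L (X.un a) = (X.L.ld (X.un a) hv).P.inertia Gal(Ω/K) := by
    unfold inr
    rw [dif_pos hv]
  obtain ⟨g, hg⟩ := ltr_conj (X.L.ld (X.un a) hv).prime (ltb_prime X ha) (X.L.ld (X.un a) hv).under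
    (ltb_under X ha)
  refine ⟨g, ?_⟩
  rw [h1]
  intro x
  have h2 := (hg _).1 (ltb_t X ha (g • x))
  rw [smul_sub, inv_smul_smul] at h2
  rw [mul_smul, mul_smul]
  exact h2

theorem lab_p (hp : p.Prime) (hζ : IsPrimitiveRoot ζ p) {a : X.Lb} (ha : X.Gd a) {H : Type}
    [Group H] [Finite H] (φ : Gal(Ω/K) →* H) (hφ : H38.ML.FT φ)
    (hI : ∀ τ ∈ inr X.L (X.un a), φ τ ^ (p ^ 2) = 1) (ht : φ (X.t a) ^ p = 1) :
    ∀ τ ∈ inr X.L (X.un a), φ τ ^ p = 1 := by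
  have hp0 : NeZero p := ⟨hp.ne_zero⟩
  have : Finite (Multiplicative (ZMod p)) := inferInstanceAs (Finite (ZMod p))
  have hv : X.un a ∉ X.D.S0 := un_not X ha.1
  obtain ⟨g, hgt⟩ := lfe_inr Gm X ha
  have htv : X.L.t (X.un a) ∈ inr X.L (X.un a) := by
    rw [inr, dif_pos hv, LDs.t, dif_pos hv]
    exact (X.L.ld _ hv).ht
  have hk1 : kk p ζ (X.D.pi (X.un a)) (g⁻¹ * X.t a * g) = 1 := by
    have h4 : kk p ζ (X.D.pi (X.un a)) (g⁻¹ * X.t a * g) = kk p ζ (X.D.pi (X.un a)) (X.t a) := by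
      rw [kk_mul, kk_mul]
      have h5 := kk_mul (p := p) (ζ := ζ) (X.D.pi (X.un a)) g⁻¹ g
      rw [inv_mul_cancel, kk_one] at h5
      rw [add_right_comm, ← h5, zero_add]
    rw [h4, ltb_pik X hp hζ ha, X.D.pi_self _ hv, Int.cast_one]
  have hk2 : kk p ζ (X.D.pi (X.un a)) (X.L.t (X.un a)) = 1 := by
    rw [LDs.t, dif_pos hv, ld_kk_t hp hζ (fun h => hv (X.D.above _ h)) (X.D.pi_self _ hv),
      X.D.pi_self _ hv, Int.cast_one]
  have hkp : ∀ x : Multiplicative (ZMod p), x ^ p = 1 := by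
    intro x
    apply Multiplicative.toAdd.injective
    rw [toAdd_pow, toAdd_one, nsmul_eq_mul, ZMod.natCast_self, zero_mul]
  set ψ : Gal(Ω/K) →* Multiplicative (ZMod p) × H := (kc p ζ Ω (X.D.pi (X.un a))).prod φ with hψ
  have hftψ : H38.ML.FT ψ := gtame_ft_prod _ _ (kc_is hp hζ _).1 hφ
  have hIψ : ∀ τ ∈ inr X.L (X.un a), ∃ k : ℕ, ψ τ ^ (p ^ k) = 1 := by
    intro τ hτ
    refine ⟨2, ?_⟩
    have h1 : ψ τ = (kc p ζ Ω (X.D.pi (X.un a)) τ, φ τ) := rfl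
    rw [h1, Prod.pow_mk, hI τ hτ, pow_two, pow_mul, hkp]
    rfl
  obtain ⟨j, hj⟩ := Subgroup.mem_zpowers_iff.1 ((ing_inr hp hζ X.L hv ψ hftψ hIψ).1 _ hgt)
  have hj1 : kc p ζ Ω (X.D.pi (X.un a)) (X.L.t (X.un a)) ^ j =
      kc p ζ Ω (X.D.pi (X.un a)) (g⁻¹ * X.t a * g) := congrArg Prod.fst hj
  have hj2 : φ (X.L.t (X.un a)) ^ j = φ (g⁻¹ * X.t a * g) := congrArg Prod.snd hj
  have hj3 : (j : ZMod p) = 1 := by
    have h1 := congrArg Multiplicative.toAdd hj1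
    rw [toAdd_zpow, zsmul_eq_mul] at h1
    have h2 : (j : ZMod p) * kk p ζ (X.D.pi (X.un a)) (X.L.t (X.un a)) =
      kk p ζ (X.D.pi (X.un a)) (g⁻¹ * X.t a * g) := h1
    rw [hk1, hk2, mul_one] at h2
    exact h2
  obtain ⟨m, hm⟩ : ∃ m : ℤ, j = 1 + p * m := by
    have h1 : ((j - 1 : ℤ) : ZMod p) = 0 := by
      push_cast
      rw [hj3, sub_self]
    obtain ⟨m, hm⟩ := (ZMod.intCast_zmod_eq_zero_iff_dvd _ p).1 h1
    exact ⟨m, by linarith⟩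
  have h1 : φ (g⁻¹ * X.t a * g) ^ p = 1 := by
    have e : φ (g⁻¹ * X.t a * g) = (φ g)⁻¹ * φ (X.t a) * ((φ g)⁻¹)⁻¹ := by
      rw [map_mul, map_mul, map_inv, inv_inv]
    rw [e, conj_pow, ht, mul_one, mul_inv_cancel]
  have h2 : φ (X.L.t (X.un a)) ^ p = 1 := by
    have h3 : φ (X.L.t (X.un a)) ^ (j * p) = 1 := by
      rw [zpow_mul, hj2, zpow_natCast, h1]
    have h4 : j * (p : ℤ) = (p : ℤ) + ((p ^ 2 : ℕ) : ℤ) * m := by
      rw [hm]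
      push_cast
      ring
    rw [h4, zpow_add, zpow_mul, zpow_natCast, zpow_natCast, hI _ htv, one_zpow, mul_one] at h3
    exact h3
  exact (ing_inr hp hζ X.L hv φ hφ fun τ hτ => ⟨2, hI τ hτ⟩).2.1 h2

theorem lfe (hp : p.Prime) (hp2 : MOne p K) (hζ : IsPrimitiveRoot ζ p) (hz : Z2 p K)
    {c ρ : Gal(Ω/K) →* R} (hc : X.IsC c) {g : Finset X.Lb} (hg : X.Ok g)
    (hρ : Gm.M.Tw c (X.bet g) ρ) (hev : ∀ a ∈ g, X.ev ρ a = 0) {φ₁ : Gal(Ω/K) →* G}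
    (hφ₁ : H38.ML.FT φ₁) (hcv : Cv X.D.S0 X.P Gm.M ρ (Gm.pr.comp φ₁)) :
    (LS Gm X ρ g).Nonempty := by
  have : NeZero p := ⟨hp.ne_zero⟩
  obtain ⟨φ₀, hft, hpr⟩ := lfe_lift Gm X hp hp2 hζ hz hc hg hρ hev hφ₁ hcv
  -- the values at the labels
  have hb1 : ∀ a : X.Lb, ∃ b : Fin w → ZMod p, a ∈ g → φ₀ (X.t a) = Gm.z b * Gm.g a.1 := by
    intro a
    by_cases ha : a ∈ g
    · obtain ⟨b, hb⟩ := gm_fib Gm (x := φ₀ (X.t a)) (y := Gm.g a.1)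
        (by rw [hpr, par_t X hp hζ hc hg hρ ha, Gm.gy])
      exact ⟨b, fun _ => hb⟩
    · exact ⟨0, fun h => absurd h ha⟩
  choose b hb using hb1
  have hur : ∀ v, v ∉ X.D.S0 → (∀ a ∈ g, X.un a ≠ v) → ρ (X.L.t v) = 1 := by
    intro v hv h
    rw [LDs.t, dif_pos hv]
    exact par_ur X hp hζ hc hg hρ hv h (X.L.ld v hv).prime (X.L.ld v hv).under (X.L.ld v hv).ht
  have hb2 : ∀ v : Pl K, ∃ b' : Fin w → ZMod p, v ∉ X.D.S0 → (∀ a ∈ g, X.un a ≠ v) →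
      φ₀ (X.L.t v) = Gm.z b' := by
    intro v
    by_cases h : v ∉ X.D.S0 ∧ ∀ a ∈ g, X.un a ≠ v
    · obtain ⟨b', hb'⟩ := (Gm.zker _).1 (show Gm.pr (φ₀ (X.L.t v)) = 1 by rw [hpr, hur v h.1 h.2])
      exact ⟨b', fun _ _ => hb'.symm⟩
    · exact ⟨0, fun h1 h2 => absurd ⟨h1, h2⟩ h⟩
  choose b' hb' using hb2
  set s : Pl K → Wg p w := fun v => if h : ∃ a ∈ g, X.un a = v then
    Multiplicative.ofAdd (-(b h.choose)) else if v ∉ X.D.S0 ∧ φ₀ (X.L.t v) ≠ 1 then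
      Multiplicative.ofAdd (-(b' v)) else 1 with hs
  have hs1 : ∀ a ∈ g, s (X.un a) = Multiplicative.ofAdd (-(b a)) := by
    intro a ha
    have h : ∃ a' ∈ g, X.un a' = X.un a := ⟨a, ha, rfl⟩
    simp only [hs]
    rw [dif_pos h]
    have h1 : h.choose = a := by
      by_contra hne
      exact hg.2 _ h.choose_spec.1 a ha hne h.choose_spec.2
    rw [h1]
  have hsfin : {v | s v ≠ 1}.Finite := by
    refine ((g.image X.un).finite_toSet.union (ram_finite hp X.D X.L φ₀ hft)).subset ?_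
    intro v hv
    by_cases h : ∃ a ∈ g, X.un a = v
    · left
      obtain ⟨a, ha, rfl⟩ := h
      exact Finset.mem_coe.2 (Finset.mem_image_of_mem _ ha)
    · right
      by_contra h1
      apply hv
      have h1' : ¬ (v ∉ X.D.S0 ∧ φ₀ (X.L.t v) ≠ 1) := h1
      simp only [hs]
      rw [dif_neg h, if_neg h1']
  obtain ⟨χ, hχ, hχs⟩ := hw_ex (W := Wg p w) hp hζ X.D X.L wg_pow s hsfin
  have hftw := twz_ft Gm χ φ₀ hχ hft
  have hprw : ∀ σ, Gm.pr (twz Gm χ φ₀ σ) = ρ σ := fun σ => by rw [twz_pr, hpr]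
  have hI : ∀ v, v ∉ X.D.S0 → ∀ τ ∈ inr X.L v, twz Gm χ φ₀ τ ^ (p ^ 2) = 1 := by
    intro v hv τ hτ
    have h1 : Gm.pr (twz Gm χ φ₀ τ ^ p) = 1 := by
      rw [map_pow, hprw]
      rw [inr, dif_pos hv] at hτ
      exact par_pow X hp hζ hc hρ hv (X.L.ld v hv).prime (X.L.ld v hv).under hτ
    obtain ⟨d, hd⟩ := (Gm.zker _).1 h1
    rw [pow_two, pow_mul, ← hd, gm_zpow]
  have hlab : ∀ a ∈ g, twz Gm χ φ₀ (X.t a) = Gm.g a.1 := by
    intro a ha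
    have hG := hg.1 a ha
    rw [twz_apply, lab_t X hp hζ hG wg_pow χ hχ, hχs _ (un_not X hG.1), hs1 a ha, toAdd_ofAdd, hb a ha,
      ← mul_assoc, ← Gm.zadd, neg_add_cancel, gm_z0, one_mul]
  have hone : ∀ v, v ∉ X.D.S0 → (∀ a ∈ g, X.un a ≠ v) → ∀ τ ∈ inr X.L v, twz Gm χ φ₀ τ = 1 := by
    intro v hv hvg
    refine (ing_inr hp hζ X.L hv _ hftw fun τ hτ => ⟨2, hI v hv τ hτ⟩).2.2 ?_
    have hne : ¬ ∃ a ∈ g, X.un a = v := by
      push Not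
      exact hvg
    rw [twz_apply, hχs v hv]
    simp only [hs]
    rw [dif_neg hne]
    by_cases h1 : φ₀ (X.L.t v) = 1
    · rw [if_neg (fun h => h.2 h1), toAdd_one, gm_z0, one_mul, h1]
    · rw [if_pos ⟨hv, h1⟩, toAdd_ofAdd, hb' v hv hvg, ← Gm.zadd, neg_add_cancel, gm_z0]
  refine ⟨twz Gm χ φ₀, hftw, hprw, ?_, hone, ?_⟩
  · intro a ha
    rw [hlab a ha]
  · intro v hv τ hτ
    by_cases h : ∃ a ∈ g, X.un a = v
    · obtain ⟨a, ha, rfl⟩ := h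
      exact lab_p Gm X hp hζ (hg.1 a ha) _ hftw (hI _ hv) (by rw [hlab a ha, Gm.gp]) τ hτ
    · push Not at h
      rw [hone v hv h τ hτ, one_pow]

end H48.MF
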