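import Pool.Agent.H48.MF.Cen
import Pool.Agent.H48.MF.Lfe
import Pool.Agent.H1.AR.Frm

/-!
# [H48 MF ANX] the sums `WS` are sums of the frame, 110-170 lines. File Pool/Agent/H48/MF/Anx.lean

`F = frm0 X hI.hp d D qq` (Pool/Agent/H1/AR/FrA.lean), `F.C = Co X`, `F.Lb = X.Lb`.
* `anx_fm`: `F.Fam univ Y` is the set `Fm X Y`: `mem_Fam`, `frm_ok`, `F.nrl g = ∏ nm` (`rfl`), `F.cls g ⊆ univ`.
* `anx_ev`: for `IsC c`, any `g`: `ev (rh X c g) a = om (y a.1) x` for some `x` (`Gm.M.mem_om` with `r = rh X c g (X.fb a)`: `π r = φQ (fb a) ∈ H a.1` by `fld_phi` (`X.fb a = rsK ..`) and `IsL (rh X c g)` (`tws_isL`, `rh_tw`); `MG.cm`, `ev` by definition).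
* `anx_wt`: for `IsC c`, `Ok g`: `F.wt c g = ∏_{a ∈ g} ∑_{ψ ∈ thS a.1} ep (dt ψ (ev (rh X c g) a))` (`frm_E` with `rh_tw`; `dotProduct` is `dt` by `rfl`) `= ∏_{a ∈ g} (if ev = 0 then #thS a.1 else 0)` (`anx_ev`, `th_wt`) and `#thS = #Zj` (`th_card`; `Zj` is the range of `om (y j)` as a set) `= wz Gm X c g` (`Finset.prod_ite_zero`-type lemma).
* `ws_fs`: `WS = ∑ᶠ g ∈ Fm X Y, ∑ᶠ c ∈ {c | IsC c}, ..` `= ∑ g ∈ F.Fam, ∑ c : Co X, ..` (`finsum_mem_eq_finite_toFinset_sum` or `finsum_mem_eq_sum_of_..`; `finsum_mem_eq_of_bijOn`, `finsum_eq_sum_of_fintype`, `finsum_subtype_eq_finsum_mem`); `F.Sp c (F.cls g) ↔ X.Sp c.1 (g.image Sigma.fst)` by `Iff.rfl`.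
-/

set_option autoImplicit false
set_option linter.dupNamespace false

open scoped NumberField
open IsDedekindDomain
open scoped Classical

noncomputable section

namespace H48.MF

open H63.MA H38.BB H38.BG H38.AS H57.PC H57.BRA H89.BRG H1.AR

variable {p u w N : ℕ} {G R Q : Type} [Group G] [Group R] [Group Q] [Finite G] [Finite R]
  [Fintype Q] (Gm : GM p u w N G R Q)
  {K : Type} [Field K] [NumberField K] {Ω : Type} [Field Ω] [Algebra K Ω] [IsAlgClosure K Ω]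
  {ζ : K} (X : AD Gm.M K Ω ζ) [Fintype (Co X)] {d : ℕ} {D qq : ℝ}

omit [Finite G] [Finite R] [IsAlgClosure K Ω] in
theorem anx_fm (hp : p.Prime) (Y : ℝ) (g : Finset X.Lb) :
    g ∈ (frm0 X hp d D qq).Fam Finset.univ Y ↔ g ∈ Fm X Y := by
  refine ((frm0 X hp d D qq).mem_Fam Finset.univ Y g).trans ?_
  constructor
  · rintro ⟨h1, -, h2⟩
    exact ⟨(frm_ok X hp g).1 h1, h2⟩
  · rintro ⟨h1, h2⟩
    exact ⟨(frm_ok X hp g).2 h1, Finset.subset_univ _, h2⟩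

theorem anx_ev (hp : p.Prime) (hζ : IsPrimitiveRoot ζ p) {c : Gal(Ω/K) →* R} (hc : X.IsC c)
    (g : Finset X.Lb) (a : X.Lb) : ∃ x, X.ev (rh X c g) a = Gm.M.om (Gm.M.y a.1) x := by
  have h1 : X.IsL (rh X c g) := tws_isL X hc.toIsL (bet_cy X hp hζ g) (rh_tw Gm X hp hζ hc g)
  have h2 : Gm.M.π (rh X c g (X.fb a)) ∈ Gm.M.H a.1 := by
    rw [h1.pi]
    exact fld_phi X a.1 _
  obtain ⟨x, hx⟩ := Gm.M.mem_om a.1 _ h2
  exact ⟨x, funext hx⟩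

theorem anx_wt (hp : p.Prime) (hζ : IsPrimitiveRoot ζ p) (c : Co X) {g : Finset X.Lb}
    (hg : X.Ok g) : (frm0 X hp d D qq).wt c g = wz Gm X c.1 g := by
  have h0 := rh_tw Gm X hp hζ c.2 g
  have h1 : ∀ a ∈ g, (∑ ψ ∈ (cdg Gm.M hp).Th a.1, ep p (dt ψ ((frm0 X hp d D qq).E c g a))) =
      if X.ev (rh X c.1 g) a = 0 then (Nat.card (Gm.Zj a.1) : ℂ) else 0 := by
    intro a ha
    rw [frm_E X hp c h0 ha]
    obtain ⟨x, hx⟩ := anx_ev Gm X hp hζ c.2 g a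
    rw [hx]
    have h2 := th_wt Gm.M hp a.1 x
    rw [th_card] at h2
    exact h2
  have h3 : (frm0 X hp d D qq).wt c g = ∏ a ∈ g, if X.ev (rh X c.1 g) a = 0 then
      (Nat.card (Gm.Zj a.1) : ℂ) else 0 := Finset.prod_congr rfl h1
  rw [h3, Finset.prod_ite_zero, wz, Nat.cast_prod]

theorem ws_fs (hp : p.Prime) (hζ : IsPrimitiveRoot ζ p)
    (h : (Gal(Ω/K) →* R) → Finset X.Lb → ℂ) (Y : ℝ) :
    WS Gm X h Y = (frm0 X hp d D qq).FS Finset.univ (fun c g => h c.1 g) Y := by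
  obtain ⟨Fa, hFa⟩ : ∃ Fa : Finset (Finset X.Lb), Fa = (frm0 X hp d D qq).Fam Finset.univ Y := ⟨_, rfl⟩
  have h1 : Fm X Y = (Fa : Set (Finset X.Lb)) := by
    ext g
    rw [Finset.mem_coe, hFa]
    exact (anx_fm Gm X hp Y g).symm
  unfold WS
  rw [h1, finsum_mem_coe_finset, hFa]
  refine Finset.sum_congr rfl fun g hg => ?_
  have hok : X.Ok g := ((anx_fm Gm X hp Y g).1 hg).1
  rw [← finsum_set_coe_eq_finsum_mem {c : Gal(Ω/K) →* R | X.IsC c}]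
  have h2 : ∑ᶠ c : {c : Gal(Ω/K) →* R | X.IsC c}, (if X.Sp c (g.image Sigma.fst) then h c g * wz Gm X c g else 0) =
      ∑ᶠ c : Co X, (if X.Sp c.1 (g.image Sigma.fst) then h c.1 g * wz Gm X c.1 g else 0) := rfl
  rw [h2, finsum_eq_sum_of_fintype]
  refine Finset.sum_congr rfl fun c _ => ?_
  rw [anx_wt Gm X hp hζ c hok]
  rfl

end H48.MF
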