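import Pool.Agent.H48.MF.Anx
import Pool.Agent.H51.MM.Ubf
import Pool.Agent.H51.MM.Lim

/-!
# [H48 MF ANY] the asymptotic formulas and the upper bound of a fibre, 130-200 lines. File Pool/Agent/H48/MF/Any.lean

`F = frm X hI` (Pool/Agent/H1/AR/Frm.lean; `F.toFr0 = frm0 ..` by `rfl`), `X₀ = cdg Gm.M hp`, `X₀.N = N`, `X₀.p = p`. `K` is totally complex: from `hp2`, `hζ` (private `fr_tc` in FrA.lean, copy; or `frm_tc`-type). `X₀.Cl univ`: `cl_univ`.
* `anl`: `fc`: `Co X` is finite. `lm`: `lim` (H51/MM/Lim.lean) for `h' c κ = h c.1 (fun j k => κ ⟨j, k⟩)`; `F.tot g ⟨j, k⟩ = X.qt g j k` (the lemma `key` in the proof of `frm_tot`, FrA.lean, copy), `ws_fs`. Positivity: `F.E c g a = ev (rh X c g) a` (`frm_E`, `rh_tw`), `F.Ok g` (`frm_ok`).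
  `ng`: `neg` with `j₀`, `y j₀ = 0` (`Cn`): `hj`: `om 0 _ = 0`; `hT`: `thS j₀` has `#range (om 0) = 1` elements (`th_card`) and contains `0` (`Th_zero`); `hs`: `sy a b = om (y a.1) (bt b ..)` is `0` if `a.1 = j₀`, and `bt b = 0` if `b.1 = j₀` (as `cen_bet`: `cor` with `y = 0`); `hSp`: `y j₀ = 0` is in every `M`.
  The vector `κ' ⟨j, k⟩ = if h : j = j₀ then κ (h ▸ k) else 0`; `κ' ⬝ᵥ qv ⟨j₀, z⟩ = ∑ k, κ k * q z k` (as in `frm_k`), `hκ`: `frm_nt` and `nt3` (Pool/Agent/H1/AR/Nta.lean or Ntc.lean; grep). `κ' ⬝ᵥ ∑_{a ∈ g, a.1 = j₀} qv a = dt κ (qt g j₀)`. `H' c g = H c.1 g`. `ws_fs`.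
* `anu`: `ubf` (H51/MM/Ubf.lean) with `J = univ` (`N ≥ 1`: nonempty; `card univ = N`), `ws_fs`.
-/

set_option autoImplicit false
set_option linter.dupNamespace false

open scoped NumberField
open IsDedekindDomain Filter Topology
open scoped Classical

noncomputable section

namespace H48.MF

open H63.MA H38.BB H38.BG H38.AS H57.PC H57.BRA H89.BRG H1.AR

variable {p u w N : ℕ} {G R Q : Type} [Group G] [Group R] [Group Q] [Finite G] [Finite R]
  [Fintype Q] (Gm : GM p u w N G R Q)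

private theorem any_qt {K : Type} [Field K] [NumberField K] {Ω : Type} [Field Ω] [Algebra K Ω]
    {ζ : K} (X : AD Gm.M K Ω ζ) (g : Finset X.Lb) (j : Fin N) (k : Fin (X.A j).D.r) :
    X.qt g j k = ∑ a ∈ g, qvec X a ⟨j, k⟩ := by
  unfold AD.qt
  rw [Finset.sum_apply]
  refine Finset.sum_congr rfl fun a _ => ?_
  unfold qvec
  by_cases h1 : a.1 = j
  · rw [dif_pos h1, dif_pos h1]
  · rw [dif_neg h1, dif_neg h1]
    rfl

private theorem any_tot {K : Type} [Field K] [NumberField K] {Ω : Type} [Field Ω] [Algebra K Ω]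
    {ζ : K} (X : AD Gm.M K Ω ζ) (g : Finset X.Lb) :
    (fun (j : Fin N) (k : Fin (X.A j).D.r) => (∑ a ∈ g, qvec X a) ⟨j, k⟩) = X.qt g := by
  funext j k
  rw [any_qt, Finset.sum_apply]

/-- the vector `κ` at `j₀` -/
private def kv {K : Type} [Field K] [NumberField K] {Ω : Type} [Field Ω] [Algebra K Ω]
    {ζ : K} (X : AD Gm.M K Ω ζ) (j₀ : Fin N) (κ : Fin (X.A j₀).D.r → ZMod p) :
    (Σ j : Fin N, Fin (X.A j).D.r) → ZMod p :=
  fun r => if h : r.1 = j₀ then κ (Fin.cast (by rw [h]) r.2) else 0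

private theorem kv_sum {K : Type} [Field K] [NumberField K] {Ω : Type} [Field Ω] [Algebra K Ω]
    {ζ : K} (X : AD Gm.M K Ω ζ) (j₀ : Fin N) (κ : Fin (X.A j₀).D.r → ZMod p)
    (v : (Σ j : Fin N, Fin (X.A j).D.r) → ZMod p) :
    ∑ r, kv Gm X j₀ κ r * v r = ∑ k, κ k * v ⟨j₀, k⟩ := by
  rw [Fintype.sum_sigma, Finset.sum_eq_single j₀]
  · refine Finset.sum_congr rfl fun k _ => ?_
    unfold kv
    rw [dif_pos rfl]
    rfl
  · intro j _ hj
    refine Finset.sum_eq_zero fun k _ => ?_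
    unfold kv
    rw [dif_neg hj, zero_mul]
  · intro h
    exact absurd (Finset.mem_univ j₀) h

private theorem kv_qt {K : Type} [Field K] [NumberField K] {Ω : Type} [Field Ω] [Algebra K Ω]
    {ζ : K} (X : AD Gm.M K Ω ζ) (j₀ : Fin N) (κ : Fin (X.A j₀).D.r → ZMod p) (g : Finset X.Lb) :
    ∑ r, kv Gm X j₀ κ r * (∑ a ∈ g.filter (fun a => a.1 = j₀), qvec X a) r =
      dt κ (X.qt g j₀) := by
  rw [kv_sum]
  unfold dt
  refine Finset.sum_congr rfl fun k _ => ?_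
  rw [any_qt, Finset.sum_apply, Finset.sum_filter]
  congr 1
  refine Finset.sum_congr rfl fun a _ => ?_
  split_ifs with h
  · rfl
  · unfold qvec
    rw [dif_neg h]

private theorem any_bt {K : Type} [Field K] [NumberField K] {Ω : Type} [Field Ω] [Algebra K Ω]
    {ζ : K} (X : AD Gm.M K Ω ζ) {a : X.Lb} (h : Gm.M.y a.1 = 0) (σ : Gal(Ω/K)) :
    X.bt a σ = 0 := by
  unfold AD.bt AD.cor
  refine Finset.sum_eq_zero fun c _ => ?_
  rw [h, map_zero, smul_zero]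

private theorem any_dt (θ : Fin w → ZMod p) : dt θ (0 : Fin w → ZMod p) = 0 := by
  unfold dt
  exact Finset.sum_eq_zero fun k _ => mul_zero _

theorem anl (hN : 1 ≤ N) {K : Type} [Field K] [NumberField K] {Ω : Type} [Field Ω] [Algebra K Ω]
    [IsAlgClosure K Ω] {ζ : K} (X : AD Gm.M K Ω ζ) [Fintype (Co X)] {d : ℕ} {D qq : ℝ}
    (hI : FI X d D qq) : Anl Gm X := by
  have hp := hI.hp
  have hws : ∀ (h : (Gal(Ω/K) →* R) → Finset X.Lb → ℂ) (Y : ℝ),
      WS Gm X h Y = (frm X hI).FS Finset.univ (fun c g => h c.1 g) Y := fun h Y =>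
    ws_fs Gm X hI.hp hI.hζ h Y
  refine ⟨?_, ?_, ?_⟩
  · exact Set.finite_coe_iff.1 (inferInstanceAs (Finite (Co X)))
  · intro h
    obtain ⟨l, hl, hpos⟩ := H51.MM.lim (cdg Gm.M hI.hp) K (frm X hI) hN (cl_univ Gm.M hI.hp)
      (fun c κ => h c.1 fun j k => κ ⟨j, k⟩)
    have ht : ∀ g : Finset X.Lb,
        (fun (j : Fin N) (k : Fin (X.A j).D.r) => (frm X hI).tot g ⟨j, k⟩) = X.qt g :=
      fun g => any_tot Gm X g
    refine ⟨l, ?_, fun h0 => ?_⟩
    · refine hl.congr fun Y => ?_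
      rw [hws]
      have h1 : (fun (c : (frm X hI).C) (g : Finset (frm X hI).Lb) =>
          ((h c.1 (fun j k => (frm X hI).tot g ⟨j, k⟩) : ℝ) : ℂ)) =
          fun c g => ((h c.1 (X.qt g) : ℝ) : ℂ) := by
        funext c g
        rw [ht g]
      exact congrArg (fun f => (frm X hI).FS Finset.univ f Y / ((Y * Real.log Y ^ (N - 1) : ℝ) : ℂ)) h1
    · obtain ⟨h1, h2⟩ := hpos fun c κ => h0 _ _
      refine ⟨h1, ?_⟩
      rintro ⟨c, g, hc, hg, hh, hev⟩
      refine h2 ⟨⟨c, hc⟩, g, (frm_ok X hI.hp g).2 hg, ?_, fun a ha => ?_⟩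
      · have h3 := ht g
        have h4 : 0 < h c (fun (j : Fin N) (k : Fin (X.A j).D.r) => (frm X hI).tot g ⟨j, k⟩) := by
          rw [h3]
          exact hh
        exact h4
      · exact (frm_E X hI.hp ⟨c, hc⟩ (rh_tw Gm X hI.hp hI.hζ hc g) ha).trans (hev a ha)
  · intro j₀ hj₀ κ hκ H hH
    have hy : Gm.M.y j₀ = 0 := hj₀
    have hom : ∀ x, Gm.M.om (Gm.M.y j₀) x = 0 := fun x => by
      rw [hy, map_zero, LinearMap.zero_apply]
    have h := H51.MM.neg (cdg Gm.M hI.hp) K (frm X hI) (cl_univ Gm.M hI.hp) j₀ ?_ ?_ ?_ ?_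
      (kv Gm X j₀ κ) ?_ (fun c g => H c.1 g) (fun c g => hH _ _)
    · refine h.congr fun Y => ?_
      rw [hws]
      have h1 : (fun (c : (frm X hI).C) (g : Finset (frm X hI).Lb) =>
          H c.1 (g.filter fun a => a.1 ≠ j₀) * ep p (kv Gm X j₀ κ ⬝ᵥ
            ∑ a ∈ g.filter (fun a => a.1 = j₀), (frm X hI).qv a)) =
          fun c g => H c.1 (g.filter fun a => a.1 ≠ j₀) * ep p (dt κ (X.qt g j₀)) := by
        funext c g
        congr 2
        exact kv_qt Gm X j₀ κ g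
      exact congrArg (fun f => (frm X hI).FS Finset.univ f Y / ((Y * Real.log Y ^ (N - 1) : ℝ) : ℂ)) h1
    · intro j θ q
      rw [hom, any_dt]
    · apply Finset.eq_singleton_iff_unique_mem.2
      refine ⟨(cdg Gm.M hI.hp).Th_zero j₀, fun θ hθ => ?_⟩
      exact th_ann Gm.M hI.hp j₀ hθ fun x => by rw [hom, any_dt]
    · intro a b hab
      change Gm.M.om (Gm.M.y a.1) (X.bt b (X.fb a)) = 0
      rcases hab with ha | hb
      · have : Gm.M.y a.1 = 0 := by
          rw [← hy]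
          exact congrArg Gm.M.y ha
        rw [this, map_zero, LinearMap.zero_apply]
      · have : Gm.M.y b.1 = 0 := by
          rw [← hy]
          exact congrArg Gm.M.y hb
        rw [any_bt Gm X this, map_zero]
    · intro c J hSp M hM hMt hj
      refine hSp M hM hMt fun j hj' => ?_
      rcases Finset.mem_insert.1 hj' with h1 | h1
      · rw [h1, hy]
        exact M.zero_mem
      · exact hj j h1
    · refine (frm_nt X hI.hp j₀ _).2 ?_
      have h1 := nt3 X hI.hp hI.hp2 hI.hζ j₀ hκ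
      have h2 : (fun z => kv Gm X j₀ κ ⬝ᵥ (frm0 X hI.hp d D qq).qv ⟨j₀, z⟩) =
          fun z => ∑ k, κ k * (X.A j₀).D.q z k := by
        funext z
        have h3 := kv_sum Gm X j₀ κ (qvec X ⟨j₀, z⟩)
        refine h3.trans (Finset.sum_congr rfl fun k _ => ?_)
        unfold qvec
        rw [dif_pos rfl]
      exact (congrArg (Ntr X j₀) h2).mpr h1

theorem anu (hp : p.Prime) (hN : 1 ≤ N) (K : Type) [Field K] [NumberField K] (hp2 : MOne p K)
    {ζ : K} (hζ : IsPrimitiveRoot ζ p) (Ω : Type) [Field Ω] [Algebra K Ω] [IsAlgClosure K Ω]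
    (d : ℕ) : ∃ (C : ℝ) (B : ℕ), 1 ≤ C ∧ ∀ (X : AD Gm.M K Ω ζ) (_ : Fintype (Co X)) (D qq : ℝ),
      FI X d D qq → AnU Gm X (C * qq ^ B * Real.log (3 + D) ^ B) := by
  obtain ⟨C, B, hC, h⟩ := H51.MM.ubf (cdg Gm.M hp) K d
  refine ⟨C, B, hC, fun X _ D qq hI Y hY h' hh' => ?_⟩
  rw [ws_fs Gm X hp hζ (d := d) (D := D) (qq := qq) h' Y]
  have h1 := h (frm X hI) le_rfl Finset.univ ⟨⟨0, hN⟩, Finset.mem_univ _⟩ (cl_univ Gm.M hp) Y hY
    (fun c g => h' c.1 g) (fun c g => hh' _ _)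
  have h2 : (Finset.univ : Finset (Fin (cdg Gm.M hp).N)).card = N := by
    rw [Finset.card_univ, Fintype.card_fin]
    rfl
  rw [h2] at h1
  exact h1

end H48.MF
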