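import Pool.Agent.H48.MF.Psk

/-!
# [H48 MF GAV] the average over the classes of the central labels, 120-180 lines (as GCo, GAv in H38/AS). File Pool/Agent/H48/MF/Gav.lean

* `gg_eq` (as `gco`, Pool/Agent/H38/AS/GCo.lean): let `φ, φ₁` be of finite type, `Cv` for `pr φ`, `pr φ₁` at `S0`. Then the number of the pairs `(χ, κ)`, `χ ∈ chbU`, with `Cq (twz (χ * psk κ) φ) φ₁` is `gg φ₁`. Proof: `twz_loc` gives `δ` with `Cq (twz δ φ) φ₁`, `psk_ex` gives `χ', κ'` with `δ ~ χ' * psk κ'` at `S0`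
  (`Teq`), so `Cq (twz (χ' * psk κ') φ) φ₁` (`cq_twz_teq`). The bijection `(χ, κ) ↦ (χ * χ'⁻¹, κ - κ')` maps the pairs of `φ` onto the pairs of `φ₁`: at `S0`, `χ * psk κ = (χ χ'⁻¹ * psk (κ - κ')) * (χ' * psk κ')` (`psk_add`), so `twz (χ * psk κ) φ ~ twz (χ χ'⁻¹ * psk (κ - κ')) (twz (χ' * psk κ') φ) ~ twz (χ χ'⁻¹ * psk (κ - κ')) φ₁` (`cq_twz`, `twz_mul`).
  If `Cv` fails there are no pairs (`cq_cv`, `twz_pr`).
* `gg_pos`: the pair `(1, 0)` (`psk_zero`, `twz_one`); `chbU` is finite (`hw_fin`).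
* `ls_twz`: `LS ρ g` is stable under `twz χ`, `χ ∈ chbU` (finite type, `χ (t v) = 1` for `v ∉ S0`): `χ = 1` on `inr` (`lab_in`), `χ (X.t a) = 1` (`lab_t`), exponent `p` (`gm_zpow`).
* `gav` (as `gav`, Pool/Agent/H38/AS/GAv.lean; copy): count the triples `(φ, χ, κ) ∈ LS × chbU × classes` with `Cq (twz (χ * psk κ) φ) φ₁`. For fixed `χ`: `φ ↦ twz χ φ` is a bijection of `LS` (`ls_twz`), so the number of the `(φ, κ)` is `∑ κ, Ph κ`: total `y0 ∑ κ, Ph κ`. For fixed `φ`: `gg φ₁` if `Cv ρ (pr φ₁)`, else `0` (`pr φ = ρ`).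
* `ph_le`: a subset of `LS`. `ph_con`: `psk_con`.
-/

set_option autoImplicit false
set_option linter.dupNamespace false

open scoped NumberField
open IsDedekindDomain
open scoped Classical

noncomputable section

namespace H48.MF

open H63.MA H38.BB H38.BG H38.AS H57.PC H57.BRA H89.BRG H1.AR

variable {p u w N : ℕ} {G R Q : Type} [Group G] [Group R] [Group Q] [Finite G] [Finite R]
  [Fintype Q] (Gm : GM p u w N G R Q)
  {K : Type} [Field K] [NumberField K] {Ω : Type} [Field Ω] [Algebra K Ω] [IsAlgClosure K Ω]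
  {ζ : K} (X : AD Gm.M K Ω ζ)

theorem ls_twz (hp : p.Prime) (hζ : IsPrimitiveRoot ζ p) {ρ : Gal(Ω/K) →* R} {g : Finset X.Lb}
    (hg : X.Ok g) {φ : Gal(Ω/K) →* G} (h : φ ∈ LS Gm X ρ g) {χ : Gal(Ω/K) →* Wg p w}
    (hχ : χ ∈ chbU X.D X.L (Wg p w)) : twz Gm χ φ ∈ LS Gm X ρ g := by
  haveI : NeZero p := ⟨hp.ne_zero⟩
  obtain ⟨h1, h2, h3, h4, h5⟩ := h
  have hin : ∀ v, v ∉ X.D.S0 → ∀ τ ∈ inr X.L v, χ τ = 1 := by
    intro v hv
    exact (lab_in hp hζ X.L wg_pow χ hχ.1 v hv).2 (hχ.2 v hv)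
  have hz0 : Gm.z (Multiplicative.toAdd (1 : Wg p w)) = 1 := by
    rw [toAdd_one]
    exact gm_z0 Gm
  have htw : ∀ σ, χ σ = 1 → twz Gm χ φ σ = φ σ := by
    intro σ hσ
    rw [twz_apply, hσ, hz0, one_mul]
  refine ⟨twz_ft Gm χ φ hχ.1 h1, ?_, ?_, ?_, ?_⟩
  · intro σ
    rw [twz_pr, h2]
  · intro a ha
    have hGd := hg.1 a ha
    have hun : X.un a ∉ X.D.S0 := by
      intro h
      exact hGd.1 (((X.A a.1).hS a.2).2 ⟨X.un a, h, X.un_over a⟩)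
    rw [htw _ ((lab_t X hp hζ hGd wg_pow χ hχ.1).trans (hχ.2 _ hun))]
    exact h3 a ha
  · intro v hv hv' τ hτ
    rw [htw τ (hin v hv τ hτ)]
    exact h4 v hv hv' τ hτ
  · intro v hv τ hτ
    rw [htw τ (hin v hv τ hτ)]
    exact h5 v hv τ hτ

theorem gg_pos [NeZero p] (hp : p.Prime) (hp2 : MOne p K) (hζ : IsPrimitiveRoot ζ p)
    (φ₁ : Gal(Ω/K) →* G) : 0 < gg Gm X φ₁ ∧ 0 < y0 Gm X := by
  haveI : Finite (chbU X.D X.L (Wg p w)) := (hw_fin hp hζ X.D X.L wg_pow).to_subtype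
  refine ⟨?_, ?_⟩
  · unfold gg
    haveI : Nonempty {z : chbU X.D X.L (Wg p w) × ((j : Fin N) → Fin (X.A j).D.r → ZMod p) |
        Cq X.D.S0 X.P Gm.T (twz Gm ((z.1 : Gal(Ω/K) →* Wg p w) * psk Gm X z.2) φ₁) φ₁} := by
      refine ⟨⟨(1, 0), ?_⟩⟩
      have h1 := cq_twz_teq Gm Gm.T (psk_zero Gm X hp hp2 hζ) φ₁
      rw [twz_one] at h1
      have h2 : ((1 : chbU X.D X.L (Wg p w)) : Gal(Ω/K) →* Wg p w) * psk Gm X 0 =
          psk Gm X 0 := one_mul _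
      show Cq X.D.S0 X.P Gm.T (twz Gm (((1 : chbU X.D X.L (Wg p w)) : Gal(Ω/K) →* Wg p w) *
        psk Gm X 0) φ₁) φ₁
      rw [h2]
      exact h1
    exact Nat.card_pos
  · unfold y0
    exact Nat.card_pos

theorem gg_eq [NeZero p] (hcen : Gm.Cen) (hp : p.Prime) (hp2 : MOne p K) (hζ : IsPrimitiveRoot ζ p)
    (φ φ₁ : Gal(Ω/K) →* G) (hφ : H38.ML.FT φ) (hφ₁ : H38.ML.FT φ₁) :
    Nat.card {z : chbU X.D X.L (Wg p w) × ((j : Fin N) → Fin (X.A j).D.r → ZMod p) |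
      Cq X.D.S0 X.P Gm.T (twz Gm ((z.1 : Gal(Ω/K) →* Wg p w) * psk Gm X z.2) φ) φ₁} =
    if Cv X.D.S0 X.P Gm.M (Gm.pr.comp φ) (Gm.pr.comp φ₁) then gg Gm X φ₁ else 0 := by
  by_cases hC : Cv X.D.S0 X.P Gm.M (Gm.pr.comp φ) (Gm.pr.comp φ₁)
  · rw [if_pos hC]
    obtain ⟨δ, hδ, hδ1⟩ := twz_loc Gm hp hζ X.D X.P φ φ₁ hφ hφ₁ hC
    obtain ⟨χ', hχ', κ', hT⟩ := psk_ex Gm X hcen hp hp2 hζ δ hδ
    have H0 : Cq X.D.S0 X.P Gm.T (twz Gm (χ' * psk Gm X κ') φ) φ₁ :=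
      cq_trans (cq_symm (cq_twz_teq Gm Gm.T hT φ)) hδ1
    have key : ∀ (χ : Gal(Ω/K) →* Wg p w) (κ : (j : Fin N) → Fin (X.A j).D.r → ZMod p),
        Cq X.D.S0 X.P Gm.T (twz Gm (χ * psk Gm X κ) φ)
          (twz Gm (χ * χ'⁻¹ * psk Gm X (κ - κ')) φ₁) := by
      intro χ κ
      have h2 := psk_add Gm X hp hp2 hζ (κ - κ') κ'
      rw [sub_add_cancel] at h2
      have h3 : Teq X.D.S0 X.P (χ * psk Gm X κ)
          (χ * χ'⁻¹ * psk Gm X (κ - κ') * (χ' * psk Gm X κ')) := by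
        intro v hv σ hσ
        have h4 := h2 v hv σ hσ
        rw [MonoidHom.mul_apply] at h4
        simp only [MonoidHom.mul_apply, MonoidHom.inv_apply]
        rw [h4]
        have h5 : χ σ * (χ' σ)⁻¹ * psk Gm X (κ - κ') σ * (χ' σ * psk Gm X κ' σ) =
            χ σ * ((χ' σ)⁻¹ * χ' σ) * (psk Gm X (κ - κ') σ * psk Gm X κ' σ) := by
          rw [mul_assoc (χ σ * (χ' σ)⁻¹), mul_left_comm (psk Gm X (κ - κ') σ) (χ' σ),
            ← mul_assoc (χ σ * (χ' σ)⁻¹), mul_assoc (χ σ)]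
        rw [h5, inv_mul_cancel, mul_one]
      have h4 := cq_twz_teq Gm Gm.T h3 φ
      rw [twz_mul Gm (χ * χ'⁻¹ * psk Gm X (κ - κ')) (χ' * psk Gm X κ')] at h4
      exact cq_trans h4 (cq_twz Gm Gm.T H0 _)
    obtain ⟨F, hF⟩ : ∃ F : (chbU X.D X.L (Wg p w) ×
        ((j : Fin N) → Fin (X.A j).D.r → ZMod p)) ≃
        (chbU X.D X.L (Wg p w) × ((j : Fin N) → Fin (X.A j).D.r → ZMod p)),
        F = Equiv.prodCongr (Equiv.mulRight (⟨χ', hχ'⟩ : chbU X.D X.L (Wg p w))⁻¹)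
          (Equiv.subRight κ') := ⟨_, rfl⟩
    have hFa : ∀ z, F z = (z.1 * (⟨χ', hχ'⟩ : chbU X.D X.L (Wg p w))⁻¹, z.2 - κ') := by
      intro z
      rw [hF]
      rfl
    refine Nat.card_congr (F.subtypeEquiv fun z => ?_)
    show Cq X.D.S0 X.P Gm.T (twz Gm ((z.1 : Gal(Ω/K) →* Wg p w) * psk Gm X z.2) φ) φ₁ ↔
      Cq X.D.S0 X.P Gm.T (twz Gm (((F z).1 : Gal(Ω/K) →* Wg p w) * psk Gm X (F z).2) φ₁) φ₁
    rw [hFa z]
    have h6 := key (z.1 : Gal(Ω/K) →* Wg p w) z.2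
    constructor
    · intro h
      exact cq_trans (cq_symm h6) h
    · intro h
      exact cq_trans h6 h
  · rw [if_neg hC, Nat.card_eq_zero]
    left
    refine ⟨fun z => hC ?_⟩
    have h1 := cq_cv Gm z.2
    have h2 : Gm.pr.comp (twz Gm ((z.1.1 : Gal(Ω/K) →* Wg p w) * psk Gm X z.1.2) φ) =
        Gm.pr.comp φ := by
      ext σ
      exact twz_pr Gm _ φ σ
    rw [h2] at h1
    exact h1

theorem gav [NeZero p] (hcen : Gm.Cen) (hp : p.Prime) (hp2 : MOne p K) (hζ : IsPrimitiveRoot ζ p)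
    (φ₁ : Gal(Ω/K) →* G) (hφ₁ : H38.ML.FT φ₁) (ρ : Gal(Ω/K) →* R) {g : Finset X.Lb}
    (hg : X.Ok g) (hfin : (LS Gm X ρ g).Finite) :
    y0 Gm X * ∑ κ : (j : Fin N) → Fin (X.A j).D.r → ZMod p, Ph Gm X φ₁ ρ g κ =
      if Cv X.D.S0 X.P Gm.M ρ (Gm.pr.comp φ₁) then gg Gm X φ₁ * (LS Gm X ρ g).ncard else 0 := by
  haveI : Finite (chbU X.D X.L (Wg p w)) := (hw_fin hp hζ X.D X.L wg_pow).to_subtype
  haveI : Fintype (chbU X.D X.L (Wg p w)) := Fintype.ofFinite _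
  have hPh : ∀ (χ : chbU X.D X.L (Wg p w)) (κ : (j : Fin N) → Fin (X.A j).D.r → ZMod p),
      Ph Gm X φ₁ ρ g κ = ∑ φ ∈ hfin.toFinset, if Cq X.D.S0 X.P Gm.T
        (twz Gm ((χ : Gal(Ω/K) →* Wg p w) * psk Gm X κ) φ) φ₁ then 1 else 0 := by
    rintro ⟨χ, hχ⟩ κ
    rw [← Finset.card_filter, ← Set.ncard_coe_finset, Ph]
    have himg : {φ ∈ LS Gm X ρ g | Cq X.D.S0 X.P Gm.T (twz Gm (psk Gm X κ) φ) φ₁} =
        twz Gm χ '' ((hfin.toFinset.filter fun φ => Cq X.D.S0 X.P Gm.T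
          (twz Gm (χ * psk Gm X κ) φ) φ₁ : Finset (Gal(Ω/K) →* G)) : Set (Gal(Ω/K) →* G)) := by
      ext φ
      constructor
      · rintro ⟨h1, h2⟩
        refine ⟨twz Gm χ⁻¹ φ, ?_, ?_⟩
        · rw [Finset.mem_coe, Finset.mem_filter, Set.Finite.mem_toFinset]
          refine ⟨ls_twz Gm X hp hζ hg h1 (inv_mem hχ), ?_⟩
          rw [← twz_mul]
          have h3 : χ * psk Gm X κ * χ⁻¹ = psk Gm X κ := by
            rw [mul_comm χ, mul_inv_cancel_right]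
          rw [h3]
          exact h2
        · rw [← twz_mul, mul_inv_cancel, twz_one]
      · rintro ⟨φ', h1, rfl⟩
        rw [Finset.mem_coe, Finset.mem_filter, Set.Finite.mem_toFinset] at h1
        refine ⟨ls_twz Gm X hp hζ hg h1.1 hχ, ?_⟩
        rw [← twz_mul, mul_comm]
        exact h1.2
    rw [himg, Set.ncard_image_of_injective]
    intro φ φ' h
    have h1 := congrArg (twz Gm χ⁻¹) h
    simp only [← twz_mul, inv_mul_cancel, twz_one] at h1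
    exact h1
  have hG : ∀ φ ∈ LS Gm X ρ g,
      (∑ χ : chbU X.D X.L (Wg p w), ∑ κ : (j : Fin N) → Fin (X.A j).D.r → ZMod p,
        if Cq X.D.S0 X.P Gm.T (twz Gm ((χ : Gal(Ω/K) →* Wg p w) * psk Gm X κ) φ) φ₁
          then 1 else 0) =
      if Cv X.D.S0 X.P Gm.M ρ (Gm.pr.comp φ₁) then gg Gm X φ₁ else 0 := by
    intro φ hφ
    have h1 : Gm.pr.comp φ = ρ := by
      ext σ
      exact hφ.2.1 σ
    have h2 := gg_eq Gm X hcen hp hp2 hζ φ φ₁ hφ.1 hφ₁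
    rw [h1] at h2
    rw [← h2, Nat.card_coe_set_eq]
    have h3 : {z : chbU X.D X.L (Wg p w) × ((j : Fin N) → Fin (X.A j).D.r → ZMod p) |
        Cq X.D.S0 X.P Gm.T (twz Gm ((z.1 : Gal(Ω/K) →* Wg p w) * psk Gm X z.2) φ) φ₁} =
        ((Finset.univ.filter fun z : chbU X.D X.L (Wg p w) ×
          ((j : Fin N) → Fin (X.A j).D.r → ZMod p) => Cq X.D.S0 X.P Gm.T
          (twz Gm ((z.1 : Gal(Ω/K) →* Wg p w) * psk Gm X z.2) φ) φ₁ : Finset _) : Set _) := by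
      ext z
      simp
    rw [h3, Set.ncard_coe_finset, Finset.card_filter, Fintype.sum_prod_type]
  calc y0 Gm X * ∑ κ : (j : Fin N) → Fin (X.A j).D.r → ZMod p, Ph Gm X φ₁ ρ g κ =
      ∑ _χ : chbU X.D X.L (Wg p w), ∑ κ : (j : Fin N) → Fin (X.A j).D.r → ZMod p,
        Ph Gm X φ₁ ρ g κ := by
        rw [Finset.sum_const, smul_eq_mul, Finset.card_univ, y0, Nat.card_eq_fintype_card]
    _ = ∑ χ : chbU X.D X.L (Wg p w), ∑ κ : (j : Fin N) → Fin (X.A j).D.r → ZMod p,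
          ∑ φ ∈ hfin.toFinset, if Cq X.D.S0 X.P Gm.T
            (twz Gm ((χ : Gal(Ω/K) →* Wg p w) * psk Gm X κ) φ) φ₁ then 1 else 0 := by
        refine Finset.sum_congr rfl fun χ _ => Finset.sum_congr rfl fun κ _ => ?_
        exact hPh χ κ
    _ = ∑ χ : chbU X.D X.L (Wg p w), ∑ φ ∈ hfin.toFinset,
          ∑ κ : (j : Fin N) → Fin (X.A j).D.r → ZMod p, if Cq X.D.S0 X.P Gm.T
            (twz Gm ((χ : Gal(Ω/K) →* Wg p w) * psk Gm X κ) φ) φ₁ then 1 else 0 :=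
        Finset.sum_congr rfl fun χ _ => Finset.sum_comm
    _ = ∑ φ ∈ hfin.toFinset, ∑ χ : chbU X.D X.L (Wg p w),
          ∑ κ : (j : Fin N) → Fin (X.A j).D.r → ZMod p, if Cq X.D.S0 X.P Gm.T
            (twz Gm ((χ : Gal(Ω/K) →* Wg p w) * psk Gm X κ) φ) φ₁ then 1 else 0 :=
        Finset.sum_comm
    _ = ∑ φ ∈ hfin.toFinset,
          if Cv X.D.S0 X.P Gm.M ρ (Gm.pr.comp φ₁) then gg Gm X φ₁ else 0 := by
        refine Finset.sum_congr rfl fun φ hφ => ?_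
        exact hG φ ((Set.Finite.mem_toFinset hfin).1 hφ)
    _ = _ := by
        rw [Finset.sum_const, smul_eq_mul, Set.ncard_eq_toFinset_card _ hfin]
        by_cases hC : Cv X.D.S0 X.P Gm.M ρ (Gm.pr.comp φ₁)
        · rw [if_pos hC, if_pos hC, mul_comm]
        · rw [if_neg hC, if_neg hC, mul_zero]

theorem ph_le (φ₁ : Gal(Ω/K) →* G) (ρ : Gal(Ω/K) →* R) {g : Finset X.Lb}
    (hfin : (LS Gm X ρ g).Finite) (κ : (j : Fin N) → Fin (X.A j).D.r → ZMod p) :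
    Ph Gm X φ₁ ρ g κ ≤ (LS Gm X ρ g).ncard := by
  exact Set.ncard_le_ncard (Set.sep_subset _ _) hfin

theorem ph_con (hp : p.Prime) (hp2 : MOne p K) (hζ : IsPrimitiveRoot ζ p)
    (φ₁ : Gal(Ω/K) →* G) (ρ : Gal(Ω/K) →* R) (g : Finset X.Lb)
    (κ κ' : (j : Fin N) → Fin (X.A j).D.r → ZMod p) (h : ∀ j, Cn Gm j → κ j = κ' j) :
    Ph Gm X φ₁ ρ g κ = Ph Gm X φ₁ ρ g κ' := by
  have hT := psk_con Gm X κ κ' h hp hp2 hζ
  unfold Ph
  congr 1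
  ext φ
  refine and_congr_right fun _ => ?_
  have h1 := cq_twz_teq Gm Gm.T hT φ
  constructor
  · intro h2
    exact cq_trans (cq_symm h1) h2
  · intro h2
    exact cq_trans h1 h2

end H48.MF
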