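import Pool.Agent.H48.MF.Defs
import Pool.Agent.H63.MA.AFin
import Pool.Agent.H51.TC.Def

/-!
# H48-MF: interface between the fibre (AR, FR) and the fibration (FB), definitions

* `Fm X Y`: the `Ok` families of labels with norm at most `Y`.
* `wz Gm X c g`: the weight `∏_{a ∈ g} #Z_a` if all local values `ev (rh X c g) a` vanish, and `0` otherwise.
* `WS Gm X h Y`: the weighted sum of `h c g` over the `c` unramified outside `S0` and the families `g` of norm `≤ Y` with `Sp c (classes of g)`.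
* `Anl Gm X`: the asymptotic formula for functions of `(c, qt g)` (`lm`) and the cancellation for a nontrivial character of one central class (`ng`).
* `AnU Gm X U`: the upper bound with constant `U`.
* `LimH Gm X`: the numbers of homomorphisms with given local type at `S0` have limits `≥ 0`; if there is a homomorphism at all then some limit is positive.
* `HBq`: the surjective homomorphisms `Γ → Q` of finite type unramified outside `S0 ∪ A`.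
-/

set_option autoImplicit false
set_option linter.dupNamespace false

open scoped NumberField
open IsDedekindDomain Filter Topology
open scoped Classical

noncomputable section

namespace H48.MF

open H63.MA H38.BB H38.BG H38.AS H57.PC H57.BRA H89.BRG H1.AR

variable {p u w N : ℕ} {G R Q : Type} [Group G] [Group R] [Group Q]
  {K : Type} [Field K] [NumberField K] {Ω : Type} [Field Ω] [Algebra K Ω] {ζ : K}

/-- the families with norm at most `Y` -/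
def Fm {Dg : MG p u w N R Q} (X : AD Dg K Ω ζ) (Y : ℝ) : Set (Finset X.Lb) :=
  {g | X.Ok g ∧ ∏ a ∈ g, (nm a.2 : ℝ) ≤ Y}

/-- the weight of a family -/
def wz [Fintype Q] (Gm : GM p u w N G R Q) (X : AD Gm.M K Ω ζ) (c : Gal(Ω/K) →* R)
    (g : Finset X.Lb) : ℂ :=
  if ∀ a ∈ g, X.ev (rh X c g) a = 0 then ((∏ a ∈ g, Nat.card (Gm.Zj a.1) : ℕ) : ℂ) else 0

/-- the weighted sum -/
def WS [Fintype Q] (Gm : GM p u w N G R Q) (X : AD Gm.M K Ω ζ)
    (h : (Gal(Ω/K) →* R) → Finset X.Lb → ℂ) (Y : ℝ) : ℂ :=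
  ∑ᶠ g ∈ Fm X Y, ∑ᶠ c ∈ {c | X.IsC c}, if X.Sp c (g.image Sigma.fst) then
    h c g * wz Gm X c g else 0

/-- the asymptotic formulas of a fibre -/
structure Anl [Fintype Q] (Gm : GM p u w N G R Q) (X : AD Gm.M K Ω ζ) : Prop where
  fc : {c | X.IsC c}.Finite
  lm : ∀ h : (Gal(Ω/K) →* R) → ((j : Fin N) → Fin (X.A j).D.r → ZMod p) → ℝ,
    ∃ l : ℝ, Tendsto (fun Y : ℝ => WS Gm X (fun c g => ((h c (X.qt g) : ℝ) : ℂ)) Y /
        ((Y * Real.log Y ^ (N - 1) : ℝ) : ℂ)) atTop (𝓝 (l : ℂ)) ∧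
      ((∀ c κ, 0 ≤ h c κ) → 0 ≤ l ∧ ((∃ c g, X.IsC c ∧ X.Ok g ∧ 0 < h c (X.qt g) ∧
        ∀ a ∈ g, X.ev (rh X c g) a = 0) → 0 < l))
  ng : ∀ j₀, Cn Gm j₀ → ∀ κ : Fin (X.A j₀).D.r → ZMod p, κ ≠ 0 →
    ∀ H : (Gal(Ω/K) →* R) → Finset X.Lb → ℂ, (∀ c g, ‖H c g‖ ≤ 1) →
      Tendsto (fun Y : ℝ => WS Gm X (fun c g => H c (g.filter fun a => a.1 ≠ j₀) *
        ep p (dt κ (X.qt g j₀))) Y / ((Y * Real.log Y ^ (N - 1) : ℝ) : ℂ)) atTop (𝓝 0)

/-- the limits for the local types, with a positive one -/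
structure LimH [Fintype Q] (Gm : GM p u w N G R Q) (X : AD Gm.M K Ω ζ) : Prop where
  fc : {c | X.IsC c}.Finite
  lim : ∀ φ₁ : Gal(Ω/K) →* G, H38.ML.FT φ₁ → ∃ l : ℝ, 0 ≤ l ∧
    Tendsto (fun Y : ℝ => ((SYm Gm X φ₁ Y).ncard : ℝ) / (Y * Real.log Y ^ (N - 1))) atTop (𝓝 l)
  pos : ∀ (φ₁ : Gal(Ω/K) →* G) (Y₁ : ℝ), φ₁ ∈ SYf Gm X Y₁ → ∃ (φ₂ : Gal(Ω/K) →* G) (Y₂ : ℝ),
    φ₂ ∈ SYf Gm X Y₂ ∧ ∃ l : ℝ, 0 < l ∧
      Tendsto (fun Y : ℝ => ((SYm Gm X φ₂ Y).ncard : ℝ) / (Y * Real.log Y ^ (N - 1))) atTop (𝓝 l)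

/-- the upper bound of a fibre -/
def AnU [Fintype Q] (Gm : GM p u w N G R Q) (X : AD Gm.M K Ω ζ) (U : ℝ) : Prop :=
  ∀ Y : ℝ, 3 ≤ Y → ∀ h : (Gal(Ω/K) →* R) → Finset X.Lb → ℂ, (∀ c g, ‖h c g‖ ≤ 1) →
    ‖WS Gm X h Y‖ ≤ U * (Y * Real.log Y ^ (N - 1))

/-- surjective homomorphisms to `Q` of finite type, unramified outside `S0 ∪ A` -/
def HBq {D : RD0 K p ζ} (L : LDs D Ω) (Q : Type) [Group Q] (A : Finset (Pl K)) :
    Set (Gal(Ω/K) →* Q) := {ψ ∈ H51.TC.HB D L Q A | Function.Surjective ψ}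

end H48.MF
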