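import Pool.Agent.H48.MF.Lst
import Pool.Agent.H48.MF.Gav
import Pool.Agent.H48.MF.Ifc

/-!
# [H48 MF CEN] the central labels of a family, 130-200 lines. File Pool/Agent/H48/MF/Cen.lean

`Cn Gm a.1` means `y a.1 = 0`.
* `cen_bet`: `bt a σ = 0` for central `a` (`cor`: `act q 0 = 0`), so `bet (gn g) = bet g` (`Finset.sum_filter`, the other terms are `0`). `cen_rh`: so `rh X c (gn g) = rh X c g` (unfold `rh`; rewrite `bet (gn g) = bet g` as functions).
* `cen_ev`: `ev ρ a = cm (e 0) _ = 0` (`gm_e0`, `iv`, `coc`: `l1`, `r1`). `cen_ok`: a subfamily. `cen_wz`: the factors of the central labels are `#Zj = 1` (`cn_del`), the condition for central labels is trivial (`cen_ev`), and `cen_rh`.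
* `cen_del`: `∏ a ∈ gn g, #Del = ∏ a ∈ g, #Del` (`cn_del`).
* `cen`: `φ ↦ twz (chx (pig g)) φ` is a bijection from `LS ρ (gn g)` onto `LS ρ g` (inverse: twist with the inverse character; `twz_mul`, `twz_one`, `chx_ft`, `twz_ft`, `twz_pr`): for `v ∉ S0`: `chx (pig g) = 1` on `inr X.L v` if `v` is not under a central label of `g` (`chx_pig`); for `a ∈ g` central and `φ ∈ LS ρ (gn g)`: `φ = 1` on `inr X.L (un a)` (no label of `gn g` is over
  `un a`, `X.Ok`), so on the inertia group of `PL X a` (`ing_conj`, `ltb_prime`, `ltb_under`, `un_not`), `φ (X.t a) = 1` (`ltb_t`) and the twist has the value `z (zv a.1) = g a.1` at `X.t a` (`chx_pig`, `cn_g`); conversely for `φ' ∈ LS ρ g` and `a ∈ g` central: `φ' (X.t a)` is conjugate to `g a.1 = z (zv a.1)`, so equal to it, and the twist by the inverse character is `1` at `X.t a`;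
  it is then `1` on `inr X.L (un a)`: as `lab_cj`, `X.t a` is conjugate to some `τ₀ ∈ inr X.L (un a)`; use `lab_cj` (exponent `p`: `twz` and `gm_zpow`): it is `1` at `X.L.t (un a)`, so on `inr` by the third clause of `ing_inr`. For `a ∈ g` not central: `chx (pig g) (X.t a) = 1` (`chx_pig`, second clause, `ing_conj`). Exponent `p`: `gm_zpow`.
  `Cq (twz (chx (pig g)) φ) φ₁` iff `Cq (twz (psk (qt g)) φ) φ₁` (`psk_qt`, `cq_twz_teq`, `cq_trans`, `cq_symm`). So the bijection maps the set of `Ph` onto `LC`; `Set.ncard_image_of_injOn` (`twz_inj` is injectivity in `χ`; injectivity in `φ` is clear).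
-/

set_option autoImplicit false
set_option linter.dupNamespace false

open scoped NumberField
open IsDedekindDomain
open scoped Classical

noncomputable section

namespace H48.MF

open H63.MA H38.BB H38.BG H38.AS H57.PC H57.BRA H89.BRG H1.AR

variable {p u w N : ℕ} {G R Q : Type} [Group G] [Group R] [Group Q] [Finite G] [Finite R]
  [Fintype Q] (Gm : GM p u w N G R Q)
  {K : Type} [Field K] [NumberField K] {Ω : Type} [Field Ω] [Algebra K Ω] [IsAlgClosure K Ω]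
  {ζ : K} (X : AD Gm.M K Ω ζ)

private theorem cen_bt {a : X.Lb} (h : Cn Gm a.1) (σ : Gal(Ω/K)) : X.bt a σ = 0 := by
  unfold AD.bt AD.cor
  refine Finset.sum_eq_zero fun c _ => ?_
  have h' : Gm.M.y a.1 = 0 := h
  rw [h', map_zero, smul_zero]

theorem cen_bet (g : Finset X.Lb) : X.bet (gn Gm g) = X.bet g := by
  funext σ
  unfold AD.bet gn
  rw [Finset.sum_filter]
  refine Finset.sum_congr rfl fun a _ => ?_
  by_cases h : Cn Gm a.1
  · rw [if_neg (not_not.2 h), cen_bt Gm X h]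
  · rw [if_pos h]

theorem cen_rh (c : Gal(Ω/K) →* R) (g : Finset X.Lb) : rh X c (gn Gm g) = rh X c g := by
  have key : ∀ b b' : Gal(Ω/K) → Fin u → ZMod p, b = b' →
      (if h : ∃ ρ : Gal(Ω/K) →* R, Gm.M.Tw c b ρ then h.choose else 1) =
        (if h : ∃ ρ : Gal(Ω/K) →* R, Gm.M.Tw c b' ρ then h.choose else 1) := by
    rintro b _ rfl
    rfl
  exact key _ _ (cen_bet Gm X g)

theorem cen_ev (ρ : Gal(Ω/K) →* R) {a : X.Lb} (h : Cn Gm a.1) : X.ev ρ a = 0 := by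
  have h' : Gm.M.y a.1 = 0 := h
  funext k
  unfold AD.ev MG.cm iv
  rw [h', gm_e0, (Gm.M.coc k).l1, (Gm.M.coc k).r1, sub_zero]
  rfl

theorem cen_ok {g : Finset X.Lb} (hg : X.Ok g) : X.Ok (gn Gm g) := by
  have hs : gn Gm g ⊆ g := Finset.filter_subset _ _
  exact ⟨fun a ha => hg.1 a (hs ha), fun a ha b hb hab => hg.2 a (hs ha) b (hs hb) hab⟩

theorem cen_wz (c : Gal(Ω/K) →* R) (g : Finset X.Lb) : wz Gm X c (gn Gm g) = wz Gm X c g := by
  unfold wz
  rw [cen_rh]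
  have h1 : (∀ a ∈ gn Gm g, X.ev (rh X c g) a = 0) ↔ ∀ a ∈ g, X.ev (rh X c g) a = 0 := by
    constructor
    · intro h a ha
      by_cases hc : Cn Gm a.1
      · exact cen_ev Gm X _ hc
      · exact h a (Finset.mem_filter.2 ⟨ha, hc⟩)
    · intro h a ha
      exact h a (Finset.mem_filter.1 ha).1
  have h2 : ∏ a ∈ gn Gm g, Nat.card (Gm.Zj a.1) = ∏ a ∈ g, Nat.card (Gm.Zj a.1) := by
    unfold gn
    rw [Finset.prod_filter]
    refine Finset.prod_congr rfl fun a _ => ?_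
    by_cases hc : Cn Gm a.1
    · rw [if_neg (not_not.2 hc), (cn_del Gm hc).2.1, Nat.card_unique]
    · rw [if_pos hc]
  rw [h2]
  by_cases h : ∀ a ∈ g, X.ev (rh X c g) a = 0
  · rw [if_pos h, if_pos (h1.2 h)]
  · rw [if_neg h, if_neg (fun h' => h (h1.1 h'))]

theorem cen_del (g : Finset X.Lb) :
    ∏ a ∈ gn Gm g, Nat.card (Gm.Del a.1) = ∏ a ∈ g, Nat.card (Gm.Del a.1) := by
  unfold gn
  rw [Finset.prod_filter]
  refine Finset.prod_congr rfl fun a _ => ?_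
  by_cases hc : Cn Gm a.1
  · rw [if_neg (not_not.2 hc), (cn_del Gm hc).1, Nat.card_unique]
  · rw [if_pos hc]

private theorem cen_pt {a : X.Lb} (ha : X.Gd a) {H : Type} [Group H]
    (φ : Gal(Ω/K) →* H) (h : ∀ τ ∈ inr X.L (X.un a), φ τ = 1) : φ (X.t a) = 1 :=
  (ing_conj X.L (un_not X ha.1) (ltb_prime X ha) (ltb_under X ha) φ).2.1 h _ (ltb_t X ha)

private theorem cen_exp [NeZero p] (χ : Gal(Ω/K) →* Wg p w) (φ : Gal(Ω/K) →* G) (τ : Gal(Ω/K)) (h : φ τ ^ p = 1) :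
    twz Gm χ φ τ ^ p = 1 := by
  rw [twz_apply, Commute.mul_pow (Gm.zcen _ _), gm_zpow, h, one_mul]

theorem cen (hp : p.Prime) (hp2 : MOne p K) (hζ : IsPrimitiveRoot ζ p) (ρ : Gal(Ω/K) →* R)
    {g : Finset X.Lb} (hg : X.Ok g) (φ₁ : Gal(Ω/K) →* G) :
    (LC Gm X φ₁ ρ g).ncard = Ph Gm X φ₁ ρ (gn Gm g) (X.qt g) := by
  have : NeZero p := ⟨hp.ne_zero⟩
  obtain ⟨χ, hχ⟩ : ∃ χ : Gal(Ω/K) →* Wg p w, χ = chx Gm X (pig X g) := ⟨_, rfl⟩
  obtain ⟨hc1, hc2⟩ := chx_pig Gm X hp hζ hg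
  rw [← hχ] at hc1 hc2
  have hft : H38.ML.FT χ := by
    rw [hχ]
    exact chx_ft Gm X hp hζ _
  have hfti : H38.ML.FT χ⁻¹ := by
    rw [hχ, ← chx_inv Gm X hp hζ]
    exact chx_ft Gm X hp hζ _
  have hz0 : Gm.z (Multiplicative.toAdd (1 : Wg p w)) = 1 := by
    rw [toAdd_one]
    exact gm_z0 Gm
  have htw : ∀ (χ' : Gal(Ω/K) →* Wg p w) (φ : Gal(Ω/K) →* G) (σ), χ' σ = 1 → twz Gm χ' φ σ = φ σ := by
    intro χ' φ σ hσ
    rw [twz_apply, hσ, hz0, one_mul]
  have hsub : ∀ a ∈ gn Gm g, a ∈ g ∧ ¬ Cn Gm a.1 := fun a ha => Finset.mem_filter.1 ha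
  -- the twist is trivial at the other labels
  have hnc : ∀ a ∈ g, ¬ Cn Gm a.1 → χ (X.t a) = 1 := by
    intro a ha hna
    refine cen_pt Gm X (hg.1 a ha) χ ?_
    refine hc2 _ (un_not X (hg.1 a ha).1) ?_
    intro b hb hcb hun
    by_cases hab : b = a
    · rw [hab] at hcb
      exact hna hcb
    · exact hg.2 b hb a ha hab hun
  have hA : ∀ φ ∈ LS Gm X ρ (gn Gm g), twz Gm χ φ ∈ LS Gm X ρ g := by
    rintro φ ⟨h1, h2, h3, h4, h5⟩
    refine ⟨twz_ft Gm χ φ hft h1, fun σ => ?_, fun a ha => ?_, fun v hv hv' τ hτ => ?_,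
      fun v hv τ hτ => cen_exp Gm χ φ τ (h5 v hv τ hτ)⟩
    · rw [twz_pr, h2]
    · by_cases hca : Cn Gm a.1
      · have h6 : φ (X.t a) = 1 := by
          refine cen_pt Gm X (hg.1 a ha) φ ?_
          refine h4 _ (un_not X (hg.1 a ha).1) ?_
          intro b hb hun
          obtain ⟨hb1, hb2⟩ := hsub b hb
          by_cases hab : b = a
          · rw [hab] at hb2
            exact hb2 hca
          · exact hg.2 b hb1 a ha hab hun
        rw [twz_apply, h6, mul_one, hc1 a ha hca, toAdd_ofAdd, (cn_g Gm hca).1]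
      · rw [htw _ _ _ (hnc a ha hca)]
        exact h3 a (Finset.mem_filter.2 ⟨ha, hca⟩)
    · rw [htw _ _ _ (hc2 v hv (fun a ha _ => hv' a ha) τ hτ)]
      exact h4 v hv (fun a ha => hv' a (hsub a ha).1) τ hτ
  have hB : ∀ φ ∈ LS Gm X ρ g, twz Gm χ⁻¹ φ ∈ LS Gm X ρ (gn Gm g) := by
    rintro φ ⟨h1, h2, h3, h4, h5⟩
    have h0 := twz_ft Gm χ⁻¹ φ hfti h1
    have h5' : ∀ v, v ∉ X.D.S0 → ∀ τ ∈ inr X.L v, twz Gm χ⁻¹ φ τ ^ p = 1 :=
      fun v hv τ hτ => cen_exp Gm χ⁻¹ φ τ (h5 v hv τ hτ)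
    have hinv : ∀ σ, χ σ = 1 → χ⁻¹ σ = 1 := by
      intro σ hσ
      rw [MonoidHom.inv_apply, hσ, inv_one]
    refine ⟨h0, fun σ => ?_, fun a ha => ?_, fun v hv hv' => ?_, h5'⟩
    · rw [twz_pr, h2]
    · obtain ⟨ha1, ha2⟩ := hsub a ha
      rw [htw _ _ _ (hinv _ (hnc a ha1 ha2))]
      exact h3 a ha1
    · by_cases hex : ∃ a ∈ g, X.un a = v
      · obtain ⟨a, ha, rfl⟩ := hex
        have hca : Cn Gm a.1 := by
          by_contra hna
          exact hv' a (Finset.mem_filter.2 ⟨ha, hna⟩) rfl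
        have h6 : φ (X.t a) = Gm.z (zv Gm a.1) := by
          have h7 := h3 a ha
          rw [← (cn_g Gm hca).1] at h7
          obtain ⟨r, hr⟩ := isConj_iff.1 h7
          have h8 : φ (X.t a) = r⁻¹ * Gm.z (zv Gm a.1) * r := by
            rw [← hr]
            group
          rw [h8, ← Gm.zcen, mul_assoc, inv_mul_cancel, mul_one]
        have h7 : twz Gm χ⁻¹ φ (X.t a) = 1 := by
          rw [twz_apply, MonoidHom.inv_apply, hc1 a ha hca, toAdd_inv, toAdd_ofAdd, gm_zneg, h6,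
            inv_mul_cancel]
        have h8 := lab_cj X hp hζ (hg.1 a ha) (twz Gm χ⁻¹ φ) h0 (h5' _ hv)
        rw [h7] at h8
        have h9 : twz Gm χ⁻¹ φ (X.L.t (X.un a)) = 1 := isConj_one_right.1 h8
        exact (ing_inr hp hζ X.L hv (twz Gm χ⁻¹ φ) h0
          (fun τ hτ => ⟨1, by rw [pow_one]; exact h5' _ hv τ hτ⟩)).2.2 h9
      · push Not at hex
        intro τ hτ
        rw [htw _ _ _ (hinv _ (hc2 v hv (fun a ha _ => hex a ha) τ hτ))]
        exact h4 v hv hex τ hτ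
  have hT : Teq X.D.S0 X.P (psk Gm X (X.qt g)) χ := by
    rw [hχ]
    exact psk_qt Gm X hp hp2 hζ hg
  have himg : LC Gm X φ₁ ρ g = twz Gm χ '' {φ ∈ LS Gm X ρ (gn Gm g) |
      Cq X.D.S0 X.P Gm.T (twz Gm (psk Gm X (X.qt g)) φ) φ₁} := by
    ext φ
    constructor
    · rintro ⟨h1, h2⟩
      refine ⟨twz Gm χ⁻¹ φ, ⟨hB φ h1, ?_⟩, ?_⟩
      · refine cq_trans (cq_twz_teq Gm Gm.T hT _) ?_
        rw [← twz_mul, mul_inv_cancel, twz_one]
        exact h2
      · rw [← twz_mul, mul_inv_cancel, twz_one]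
    · rintro ⟨φ', ⟨h1, h2⟩, rfl⟩
      exact ⟨hA φ' h1, cq_trans (cq_symm (cq_twz_teq Gm Gm.T hT _)) h2⟩
  rw [himg, Ph, Set.ncard_image_of_injective]
  intro φ φ' h
  have h1 := congrArg (twz Gm χ⁻¹) h
  simp only [← twz_mul, inv_mul_cancel, twz_one] at h1
  exact h1

end H48.MF
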