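import Pool.Agent.H48.MF.Cqe
import Pool.Agent.H48.MF.Ing
import Pool.Agent.H1.AR.Fld
import Pool.Agent.H1.AR.Ltb
import Pool.Agent.H1.AR.Sta
import Pool.Agent.H63.MC.CLkC

/-!
# [H48 MF CHX] the characters of the central labels, 150-240 lines. File Pool/Agent/H48/MF/Chx.lean

For a central class `j` (`y j = 0`): `Dg.H j = ⊤` (`cn_del`), so `F j` is `K` (every `σ` is `rsK σ'`, `fld_range`), `kx j x` is additive on `Γ` (`kx_mul`).
* `chx_apply`: such a homomorphism exists: `σ ↦ ofAdd (∑ j central, kx j (x j) σ • zv j)`. `chx_ft`: `kx_lev` (a function of finite level; the kernel contains an open subgroup). `chx_mul`: `kx_arg`, `kx_pow`.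
* `chx_ps`: if all `x j` (`j` central) are `PS` at `(X.A j).D.S` then `chx x = 1` on `dec (P v)`, `v ∈ S0`: `σ = rsK σ'`, `σ'` is in the decomposition group over `F j` of `P v`, a prime over some `w ∈ (X.A j).D.S` (`hS`), and `kk (x j) σ' = 0` by `ps_triv` (Pool/Agent/H63/MC; it is used in
  `gtp` of H38/AS/GTp.lean and in `Sty` of H1/AR, where the same argument is made) over the field `F j` (`fld_clo`, `fld_zeta`, `fld_mone`).
* `chx_t`: for a good label `a` and `x j` of order prime... : `chx x (X.t a) = ofAdd (∑ j central, (ord w_j (x j)) • zv j)`, where `w_j` is the place of `F j` with `Over w_j (un a)`: `kx j (x j) (t a) = kk (x j) τ'`, `ine_kk`, `ine_res` (H1/AR/Ine.lean), `ltb_pik`. In particular (`chx_pig`), for an `Ok` family `g`: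
  - `a ∈ g` central: `chx (pig g) (X.t a) = ofAdd (zv a.1)` (`pig g a.1` has order `1` at `a.2` and every other factor has order `0` mod `p` at the place over `un a`: `pi_self`, `pi_ne`; for the classes `j ≠ a.1` the place of `F j` over `un a` is not one of the labels of `g` because `un` is injective on `g`);
  - `v ∉ S0` not under a central label of `g`: `chx (pig g) = 1` on `inr X.L v` (`ine_kk` with `ord = 0` mod `p`).
* `chx_qt`: if `qt g j = qt g' j` for the central `j` then `chx (pig g)` and `chx (pig g')` agree on `dec (P v)`, `v ∈ S0`: `pig g j * (pig g' j)⁻¹ = ∏ pi ^ n`, `n` = difference of the indicator functions (`Finsupp`), of class `0`, so `PS` (`RM.prim_of`); `chx_ps`, `chx_mul` (as `gtp`, `gtp_ps` in H38/AS/GTp.lean).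
-/

set_option autoImplicit false
set_option linter.dupNamespace false

open scoped NumberField
open IsDedekindDomain
open scoped Classical

noncomputable section

namespace H48.MF

open H63.MA H38.BB H38.BG H38.AS H57.PC H57.BRA H89.BRG H1.AR

variable {p u w N : ℕ} {G R Q : Type} [Group G] [Group R] [Group Q] [Finite G] [Finite R]
  [Fintype Q] (Gm : GM p u w N G R Q)
  {K : Type} [Field K] [NumberField K] {Ω : Type} [Field Ω] [Algebra K Ω] [IsAlgClosure K Ω]
  {ζ : K} (X : AD Gm.M K Ω ζ)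

private theorem chx_top {j : Fin N} (h : Cn Gm j) (σ : Gal(Ω/K)) : X.φQ σ ∈ Gm.M.H j := by
  rw [(cn_del Gm h).2.2]
  exact Subgroup.mem_top _

theorem chx_apply (hp : p.Prime) (hζ : IsPrimitiveRoot ζ p) (x : (j : Fin N) → (X.F j)ˣ)
    (σ : Gal(Ω/K)) : Multiplicative.toAdd (chx Gm X x σ) =
      ∑ j, if Cn Gm j then X.kx j (x j) σ • zv Gm j else 0 := by
  have hex : ∃ χ : Gal(Ω/K) →* Wg p w, ∀ σ, Multiplicative.toAdd (χ σ) =
      ∑ j, if Cn Gm j then X.kx j (x j) σ • zv Gm j else 0 := by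
    refine ⟨MonoidHom.mk' (fun σ => Multiplicative.ofAdd
      (∑ j, if Cn Gm j then X.kx j (x j) σ • zv Gm j else 0)) ?_, fun σ => rfl⟩
    intro σ τ
    rw [← ofAdd_add, ← Finset.sum_add_distrib]
    congr 1
    refine Finset.sum_congr rfl fun j _ => ?_
    split_ifs with h
    · rw [kx_mul X j _ (chx_top Gm X h σ) (chx_top Gm X h τ), add_smul]
    · rw [add_zero]
  unfold chx
  rw [dif_pos hex]
  exact hex.choose_spec σ

theorem chx_ft (hp : p.Prime) (hζ : IsPrimitiveRoot ζ p) (x : (j : Fin N) → (X.F j)ˣ) :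
    H38.ML.FT (chx Gm X x) := by
  choose E hE hEk using fun j => kx_lev X hp hζ j (x j)
  refine ⟨⨆ j, E j, IntermediateField.finiteDimensional_iSup_of_finite, ?_⟩
  intro u hu
  rw [MonoidHom.mem_ker]
  apply Multiplicative.toAdd.injective
  rw [chx_apply Gm X hp hζ, toAdd_one]
  refine Finset.sum_eq_zero fun j _ => ?_
  split_ifs with h
  · have h1 : u ∈ (E j).fixingSubgroup := by
      rw [IntermediateField.mem_fixingSubgroup_iff] at hu ⊢
      exact fun y hy => hu y (le_iSup E j hy)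
    have h2 := hEk j 1 u h1
    rw [one_mul] at h2
    have h3 := kx_mul X j (x j) (chx_top Gm X h 1) (chx_top Gm X h 1)
    rw [mul_one] at h3
    rw [h2, left_eq_add.1 h3, zero_smul]
  · rfl

theorem chx_mul (hp : p.Prime) (hζ : IsPrimitiveRoot ζ p) (x y : (j : Fin N) → (X.F j)ˣ) :
    chx Gm X (fun j => x j * y j) = chx Gm X x * chx Gm X y := by
  ext1 σ
  apply Multiplicative.toAdd.injective
  rw [MonoidHom.mul_apply, toAdd_mul, chx_apply Gm X hp hζ, chx_apply Gm X hp hζ,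
    chx_apply Gm X hp hζ, ← Finset.sum_add_distrib]
  refine Finset.sum_congr rfl fun j _ => ?_
  split_ifs with h
  · rw [kx_arg X hp hζ, add_smul]
  · rw [add_zero]

private theorem chx_one (hp : p.Prime) (hζ : IsPrimitiveRoot ζ p) :
    chx Gm X (fun _ => 1) = 1 := by
  have h := chx_mul Gm X hp hζ (fun _ => 1) (fun _ => 1)
  have h1 : (fun j : Fin N => (1 : (X.F j)ˣ) * 1) = fun _ => 1 := by
    funext j
    rw [mul_one]
  rw [h1] at h
  exact left_eq_mul.1 h

theorem chx_inv (hp : p.Prime) (hζ : IsPrimitiveRoot ζ p) (x : (j : Fin N) → (X.F j)ˣ) :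
    chx Gm X (fun j => (x j)⁻¹) = (chx Gm X x)⁻¹ := by
  apply eq_inv_of_mul_eq_one_left
  rw [← chx_mul Gm X hp hζ, ← chx_one Gm X hp hζ]
  congr 1
  funext j
  rw [inv_mul_cancel]

omit [IsAlgClosure K Ω] in
private theorem chx_tow (F : IntermediateField K Ω) [NumberField F] (P : Ideal (𝓞 Ω)) (x : 𝓞 K) :
    algebraMap (𝓞 K) (𝓞 F) x ∈ P.under (𝓞 F) ↔ x ∈ P.under (𝓞 K) := by
  change algebraMap (𝓞 F) (𝓞 Ω) (algebraMap (𝓞 K) (𝓞 F) x) ∈ P ↔ algebraMap (𝓞 K) (𝓞 Ω) x ∈ P
  have h1 : algebraMap (𝓞 K) (𝓞 Ω) x = algebraMap (𝓞 F) (𝓞 Ω) (algebraMap (𝓞 K) (𝓞 F) x) := by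
    apply NumberField.RingOfIntegers.ext
    exact IsScalarTower.algebraMap_apply K F Ω (x : K)
  rw [h1]

omit [IsAlgClosure K Ω] in
private theorem chx_z (F : IntermediateField K Ω) [NumberField F] {v : Pl K} {P : Ideal (𝓞 Ω)}
    (hP : P.IsPrime) (h : P.under (𝓞 K) = v.asIdeal) :
    ∃ z : Pl F, P.under (𝓞 F) = z.asIdeal ∧ Over z v := by
  have hb : P.under (𝓞 F) ≠ ⊥ := by
    intro h0
    obtain ⟨x, hx, hx0⟩ := Submodule.exists_mem_ne_zero_of_ne_bot v.ne_bot
    have h1 : algebraMap (𝓞 K) (𝓞 F) x ∈ P.under (𝓞 F) := (chx_tow F P x).2 (by rw [h]; exact hx)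
    rw [h0, Ideal.mem_bot] at h1
    exact hx0 (FaithfulSMul.algebraMap_injective (𝓞 K) (𝓞 F) (h1.trans (map_zero _).symm))
  have hpr : (P.under (𝓞 F)).IsPrime := Ideal.IsPrime.under (𝓞 F) P
  refine ⟨⟨P.under (𝓞 F), hpr, hb⟩, rfl, ?_⟩
  unfold Over
  rw [← h]
  ext x
  exact chx_tow F P x

theorem chx_ps (hp : p.Prime) (hp2 : MOne p K) (hζ : IsPrimitiveRoot ζ p)
    (x : (j : Fin N) → (X.F j)ˣ)
    (hx : ∀ j, Cn Gm j → PS p (algebraMap K (X.F j) ζ) (X.A j).D.S (x j)) :
    ∀ v ∈ X.D.S0, ∀ σ ∈ dec (K := K) (X.P.P v), chx Gm X x σ = 1 := by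
  intro v hv σ hσ
  apply Multiplicative.toAdd.injective
  rw [chx_apply Gm X hp hζ, toAdd_one]
  refine Finset.sum_eq_zero fun j _ => ?_
  split_ifs with h
  · have hclo := fld_clo X j
    obtain ⟨δ, rfl⟩ := (fld_range X j σ).2 (chx_top Gm X h σ)
    obtain ⟨z, hz, hzv⟩ := chx_z (X.F j) (X.P.prime v) (X.P.under v)
    have hzS : z ∈ (X.A j).D.S := ((X.A j).hS z).2 ⟨v, hv, hzv⟩
    rw [kx_apply, ps_dec hp (fld_mone X hp2 j) (fld_zeta X hζ j) (hx j h) hzS (X.P.prime v) hz
      (σ := δ) (fun y => by rw [← bcp_smul (K := K) δ y]; exact hσ y), zero_smul]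
  · rfl

/-- the Kummer character on inertia groups -/
private theorem chx_kx (hp : p.Prime) (hζ : IsPrimitiveRoot ζ p) {v : Pl K} (hv : v ∉ X.D.S0)
    (j : Fin N) (x : (X.F j)ˣ) (hx : ∀ z : Pl (X.F j), Over z v → ((ord z x : ℤ) : ZMod p) = 0)
    {P' : Ideal (𝓞 Ω)} (hP' : P'.IsPrime) (h' : P'.under (𝓞 K) = v.asIdeal) {τ : Gal(Ω/K)}
    (hτ : τ ∈ P'.inertia Gal(Ω/K)) : X.kx j x τ = 0 := by
  have hclo := fld_clo X j
  obtain ⟨τ', h1, h2⟩ := ine_res X hv hP' h' hτ j
  obtain ⟨z, hz, hzv⟩ := chx_z (X.F j) hP' h'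
  have hpz : ¬ Above p z := fun h => hv (X.D.above v ((above_over hzv p).1 h))
  obtain ⟨π, hπ⟩ := exists_unif z
  rw [← h1, kx_apply, ine_kk hp (fld_zeta X hζ j) hpz hπ hP' hz h2 x, hx z hzv, zero_mul]

/-- orders of the product of a family -/
private theorem chx_ord {g : Finset X.Lb} (hg : ∀ a ∈ g, X.Gd a) (j : Fin N) (z : Pl (X.F j))
    (hz : z ∉ (X.A j).D.S) (hn : ∀ a ∈ g, a ≠ ⟨j, z⟩) :
    ((ord z (pig X g j) : ℤ) : ZMod p) = 0 := by
  unfold pig
  rw [ord_prod, Int.cast_sum]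
  refine Finset.sum_eq_zero fun a ha => ?_
  obtain ⟨i, v⟩ := a
  by_cases h : i = j
  · subst h
    rw [dif_pos rfl]
    refine (X.A i).D.pi_ne v z (hg _ ha).1 hz ?_
    rintro rfl
    exact hn _ ha rfl
  · rw [dif_neg h, ord_one, Int.cast_zero]

private theorem chx_self {g : Finset X.Lb} (hg : ∀ a ∈ g, X.Gd a) {a : X.Lb} (ha : a ∈ g) :
    ((ord a.2 (pig X g a.1) : ℤ) : ZMod p) = 1 := by
  unfold pig
  rw [ord_prod, Int.cast_sum, Finset.sum_eq_single a]
  · rw [dif_pos rfl, (X.A a.1).D.pi_self a.2 (hg a ha).1, Int.cast_one]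
  · intro b hb hba
    obtain ⟨i, v⟩ := b
    obtain ⟨j, z⟩ := a
    by_cases h : i = j
    · subst h
      rw [dif_pos rfl]
      refine (X.A i).D.pi_ne v z (hg _ hb).1 (hg _ ha).1 ?_
      rintro rfl
      exact hba rfl
    · rw [dif_neg h, ord_one, Int.cast_zero]
  · intro h
    exact absurd ha h

theorem chx_pig (hp : p.Prime) (hζ : IsPrimitiveRoot ζ p) {g : Finset X.Lb} (hg : X.Ok g) :
    (∀ a ∈ g, Cn Gm a.1 → chx Gm X (pig X g) (X.t a) = Multiplicative.ofAdd (zv Gm a.1)) ∧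
      ∀ v, v ∉ X.D.S0 → (∀ a ∈ g, Cn Gm a.1 → X.un a ≠ v) →
        ∀ τ ∈ inr X.L v, chx Gm X (pig X g) τ = 1 := by
  have hS : ∀ (j : Fin N) (v : Pl K), v ∉ X.D.S0 → ∀ z : Pl (X.F j), Over z v →
      z ∉ (X.A j).D.S := by
    intro j v hv z hz h
    obtain ⟨v', hv', h1⟩ := ((X.A j).hS z).1 h
    rw [below_unique hz h1] at hv
    exact hv hv'
  constructor
  · intro a ha hc
    have hGd := hg.1 a ha
    have hclo := fld_clo X a.1
    apply Multiplicative.toAdd.injective
    rw [chx_apply Gm X hp hζ, toAdd_ofAdd, Finset.sum_eq_single a.1]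
    · rw [if_pos hc]
      have h1 : X.kx a.1 (pig X g a.1) (X.t a) = 1 := by
        unfold AD.t
        rw [kx_apply]
        have h2 : (X.A a.1).t a.2 = ((X.A a.1).ld a.2 hGd.1).t := by
          unfold LF.t
          rw [dif_pos hGd.1]
        rw [h2, ld_kk_t hp (fld_zeta X hζ a.1) (ltb_na X hGd).1
          ((X.A a.1).D.pi_self a.2 hGd.1), chx_self Gm X hg.1 ha]
      rw [h1, one_smul]
    · intro j _ hj
      split_ifs with h
      · rw [chx_kx Gm X hp hζ (un_not X hGd.1) j _ ?_ (ltb_prime X hGd) (ltb_under X hGd)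
          (ltb_t X hGd), zero_smul]
        intro z hz
        refine chx_ord Gm X hg.1 j z (hS j _ (un_not X hGd.1) z hz) ?_
        rintro b hb rfl
        refine hg.2 a ha _ hb ?_ (below_unique hz (X.un_over ⟨j, z⟩))
        rintro rfl
        exact hj rfl
      · rfl
    · intro h
      exact absurd (Finset.mem_univ _) h
  · intro v hv hn τ hτ
    apply Multiplicative.toAdd.injective
    rw [chx_apply Gm X hp hζ, toAdd_one]
    refine Finset.sum_eq_zero fun j _ => ?_
    split_ifs with h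
    · unfold inr at hτ
      rw [dif_pos hv] at hτ
      rw [chx_kx Gm X hp hζ hv j _ ?_ (X.L.ld v hv).prime (X.L.ld v hv).under hτ, zero_smul]
      intro z hz
      refine chx_ord Gm X hg.1 j z (hS j v hv z hz) ?_
      rintro b hb rfl
      exact hn _ hb h (below_unique (X.un_over _) hz)
    · rfl

/-- the exponents of the product of a family -/
private theorem chx_m {g : Finset X.Lb} (hg : ∀ a ∈ g, X.Gd a) (j : Fin N) :
    ∃ m : Pl (X.F j) →₀ ℤ, (∀ v ∈ (X.A j).D.S, m v = 0) ∧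
      (m.sum fun v n => (n : ZMod p) • (X.A j).D.q v) = X.qt g j ∧
      (m.prod fun v n => (X.A j).D.pi v ^ n) = pig X g j := by
  induction g using Finset.induction_on with
  | empty =>
    exact ⟨0, fun v _ => rfl, rfl, rfl⟩
  | insert a g hag ih =>
    obtain ⟨m, h1, h2, h3⟩ := ih fun b hb => hg b (Finset.mem_insert_of_mem hb)
    have hq : X.qt (insert a g) j = (if h : a.1 = j then (X.A j).D.q (h ▸ a.2) else 0) +
        X.qt g j := Finset.sum_insert hag
    have hpi : pig X (insert a g) j = (if h : a.1 = j then (X.A j).D.pi (h ▸ a.2) else 1) *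
        pig X g j := Finset.prod_insert hag
    obtain ⟨i, v⟩ := a
    by_cases h : i = j
    · subst h
      have hv : v ∉ (X.A i).D.S := (hg _ (Finset.mem_insert_self _ _)).1
      refine ⟨Finsupp.single v 1 + m, ?_, ?_, ?_⟩
      · intro z hz
        rw [Finsupp.add_apply, h1 z hz, add_zero, Finsupp.single_apply, if_neg]
        rintro rfl
        exact hv hz
      · rw [Finsupp.sum_add_index' (fun v => by rw [Int.cast_zero, zero_smul])
          (fun v a b => by rw [Int.cast_add, add_smul]), h2, hq, dif_pos rfl,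
          Finsupp.sum_single_index (by rw [Int.cast_zero, zero_smul]), Int.cast_one, one_smul]
      · rw [Finsupp.prod_add_index' (fun v => zpow_zero _) (fun v a b => zpow_add _ _ _), h3, hpi,
          dif_pos rfl, Finsupp.prod_single_index (zpow_zero _), zpow_one]
    · refine ⟨m, h1, ?_, ?_⟩
      · rw [h2, hq, dif_neg h, zero_add]
      · rw [h3, hpi, dif_neg h, one_mul]

theorem chx_qt (hp : p.Prime) (hp2 : MOne p K) (hζ : IsPrimitiveRoot ζ p)
    {g g' : Finset X.Lb} (hg : X.Ok g) (hg' : X.Ok g')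
    (h : ∀ j, Cn Gm j → X.qt g j = X.qt g' j) :
    Teq X.D.S0 X.P (chx Gm X (pig X g)) (chx Gm X (pig X g')) := by
  intro v hv σ hσ
  have h1 : ∀ j, Cn Gm j → PS p (algebraMap K (X.F j) ζ) (X.A j).D.S
      (pig X g j * (pig X g' j)⁻¹) := by
    intro j hj
    obtain ⟨m, m1, m2, m3⟩ := chx_m Gm X hg.1 j
    obtain ⟨m', n1, n2, n3⟩ := chx_m Gm X hg'.1 j
    have h2 := (X.A j).D.prim_of (m - m') (fun z hz => by
      rw [Finsupp.sub_apply, m1 z hz, n1 z hz, sub_zero]) (by
      rw [Finsupp.sum_sub_index (fun v a b => by rw [Int.cast_sub, sub_smul]), m2, n2, h j hj,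
        sub_self])
    have h3 : ((m - m').prod fun v n => (X.A j).D.pi v ^ n) *
        (m'.prod fun v n => (X.A j).D.pi v ^ n) = m.prod fun v n => (X.A j).D.pi v ^ n := by
      rw [← Finsupp.prod_add_index' (fun v => zpow_zero _) (fun v a b => zpow_add _ _ _),
        sub_add_cancel]
    rw [n3, m3] at h3
    rw [← h3, mul_inv_cancel_right]
    exact h2
  have h2 := chx_ps Gm X hp hp2 hζ (fun j => pig X g j * (pig X g' j)⁻¹) h1 v hv σ hσ
  rw [chx_mul Gm X hp hζ (pig X g) (fun j => (pig X g' j)⁻¹), chx_inv Gm X hp hζ,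
    MonoidHom.mul_apply, MonoidHom.inv_apply, mul_inv_eq_one] at h2
  exact h2

end H48.MF
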