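import Pool.Agent.H48.MF.Grf

/-!
# [H48 MF DCD] the order of `Del j`, 60-110 lines. File Pool/Agent/H48/MF/Dcd.lean

Let `St = {q : Q | act q (y j) = y j}`, a subgroup of `Q` containing `H j` (`fixy`). The map `f : St → (Fin w → ZMod p) ⧸ Zj` (`Zj` as the range of the linear map `om (y j)`), `f q =` the class of `(iv (c k) r (e (y j)))_k` for any `r` over `q`
(`M.πs`): well defined, because two such `r` differ by `e x` (`M.eker`): `iv (c k) (e x * r) (e y) = iv (e x) (e y) + iv r (e y)` (`iv_mul_left`; everything commutes with `e (y j)`: `M.conj`), and `iv (e x) (e y) = om x y = - om y x ∈ Zj`.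
It is a homomorphism (`iv_mul_left`), its kernel is `H j` (`⊆`: `memH` with the signs, `iv_swap`; `⊇`: `mem_om`), its image is `Del j / Zj` (`del_iff`, `zj_sub`). So `[St : H j] = #Del j / #Zj j`: count: `#Del j = #Zj j * #(image)`, the image is in bijection with
the cosets `q H j`, `q ∈ St`. (A direct count is also possible: `Del j → {cosets}`; or: the map `Del j → Q ⧸ H j`-cosets, `d ↦ π r H j` for any `r` as in `del_iff`, is well defined, surjective onto the set of the cosets in `St`, and its fibres are the cosets of `Zj j` in `Del j`.)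
-/

set_option autoImplicit false
set_option linter.dupNamespace false

open scoped NumberField
open IsDedekindDomain
open scoped Classical

noncomputable section

namespace H48.MF

open H63.MA H38.BB H38.BG H38.AS H57.PC H57.BRA H89.BRG H1.AR

section

variable {p u w N : ℕ} {G R Q : Type} [Group G] [Group R] [Group Q] (Gm : GM p u w N G R Q)

private theorem dc_comm {j : Fin N} {r : R} (h : Gm.M.act (Gm.M.π r) (Gm.M.y j) = Gm.M.y j) :
    r * Gm.M.e (Gm.M.y j) = Gm.M.e (Gm.M.y j) * r := by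
  have h1 := Gm.M.conj r (Gm.M.y j)
  rw [h] at h1
  exact mul_inv_eq_iff_eq_mul.1 h1

private theorem dc_inv {j : Fin N} {r r' : R} (h : Gm.M.act (Gm.M.π r) (Gm.M.y j) = Gm.M.y j)
    (h' : Gm.M.act (Gm.M.π r') (Gm.M.y j) = Gm.M.y j) :
    Gm.M.act (Gm.M.π (r'⁻¹ * r)) (Gm.M.y j) = Gm.M.y j := by
  rw [map_mul, Gm.M.act_mul, h]
  conv_lhs => rw [← h']
  rw [← Gm.M.act_mul, ← map_mul, inv_mul_cancel, map_one, Gm.M.act_one]

private theorem dc_sub {j : Fin N} {r r' : R} (h : Gm.M.act (Gm.M.π r) (Gm.M.y j) = Gm.M.y j)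
    (h' : Gm.M.act (Gm.M.π r') (Gm.M.y j) = Gm.M.y j) (k : Fin w) :
    iv (Gm.M.c k) r (Gm.M.e (Gm.M.y j)) =
      iv (Gm.M.c k) r' (Gm.M.e (Gm.M.y j)) + iv (Gm.M.c k) (r'⁻¹ * r) (Gm.M.e (Gm.M.y j)) := by
  rw [← iv_mul_left (Gm.M.coc k) (dc_comm Gm h') (dc_comm Gm (dc_inv Gm h h')), mul_inv_cancel_left]

private theorem dc_key {j : Fin N} {r r' : R} (h : Gm.M.act (Gm.M.π r) (Gm.M.y j) = Gm.M.y j)
    (h' : Gm.M.act (Gm.M.π r') (Gm.M.y j) = Gm.M.y j) :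
    (∃ x, ∀ k, iv (Gm.M.c k) r (Gm.M.e (Gm.M.y j)) =
      iv (Gm.M.c k) r' (Gm.M.e (Gm.M.y j)) + Gm.M.om (Gm.M.y j) x k) ↔
    (Gm.M.π r')⁻¹ * Gm.M.π r ∈ Gm.M.H j := by
  rw [← map_inv, ← map_mul]
  constructor
  · rintro ⟨x, hx⟩
    refine Gm.memH j _ (dc_inv Gm h h') ⟨-x, fun k => ?_⟩
    have h1 := dc_sub Gm h h' k
    rw [hx k, add_right_inj] at h1
    rw [iv_swap, ← h1, map_neg]
    rfl
  · intro hH
    obtain ⟨x, hx⟩ := Gm.M.mem_om j _ hH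
    refine ⟨-x, fun k => ?_⟩
    rw [dc_sub Gm h h' k, iv_swap (Gm.M.e (Gm.M.y j)) (r'⁻¹ * r), hx k, map_neg]
    rfl

end

theorem del_card {p u w N : ℕ} [NeZero p] {G R Q : Type} [Group G] [Group R] [Group Q] [Finite Q]
    (Gm : GM p u w N G R Q) (j : Fin N) :
    Nat.card (Gm.Del j) = Nat.card (Gm.Zj j) * Nat.card {c : Q ⧸ Gm.M.H j | ∃ q : Q,
      (QuotientGroup.mk q : Q ⧸ Gm.M.H j) = c ∧ Gm.M.act q (Gm.M.y j) = Gm.M.y j} := by
  obtain ⟨C, hC⟩ : ∃ C : Set (Q ⧸ Gm.M.H j), C = {c : Q ⧸ Gm.M.H j | ∃ q : Q,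
      (QuotientGroup.mk q : Q ⧸ Gm.M.H j) = c ∧ Gm.M.act q (Gm.M.y j) = Gm.M.y j} := ⟨_, rfl⟩
  rw [← hC]
  have hr : ∀ c : C, ∃ r : R, (QuotientGroup.mk (Gm.M.π r) : Q ⧸ Gm.M.H j) = (c : Q ⧸ Gm.M.H j) ∧
      Gm.M.act (Gm.M.π r) (Gm.M.y j) = Gm.M.y j := by
    rintro ⟨c, hc⟩
    rw [hC] at hc
    obtain ⟨q, h1, h2⟩ := hc
    obtain ⟨r, rfl⟩ := Gm.M.πs q
    exact ⟨r, h1, h2⟩
  choose ρ hρ1 hρ2 using hr
  have hmem : ∀ x : Gm.Zj j × C, (fun k => iv (Gm.M.c k) (ρ x.2) (Gm.M.e (Gm.M.y j))) +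
      (x.1 : Fin w → ZMod p) ∈ Gm.Del j := fun x =>
    del_add Gm j ((del_iff Gm j _).2 ⟨ρ x.2, hρ2 x.2, fun k => rfl⟩) (zj_sub Gm j x.1.2)
  rw [← Nat.card_prod]
  symm
  refine Nat.card_congr (Equiv.ofBijective (fun x : Gm.Zj j × C => (⟨_, hmem x⟩ : Gm.Del j)) ⟨?_, ?_⟩)
  · rintro ⟨⟨z, hz⟩, c⟩ ⟨⟨z', hz'⟩, c'⟩ h
    have h0 := congrArg Subtype.val h
    simp only [] at h0
    have h1 : c = c' := by
      apply Subtype.ext
      rw [← hρ1 c, ← hρ1 c', eq_comm, QuotientGroup.eq]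
      refine (dc_key Gm (hρ2 c) (hρ2 c')).1 ?_
      obtain ⟨x, rfl⟩ := hz
      obtain ⟨x', rfl⟩ := hz'
      refine ⟨x' - x, fun k => ?_⟩
      have h2 := congrFun h0 k
      simp only [Pi.add_apply] at h2
      rw [map_sub]
      show _ = _ + (Gm.M.om (Gm.M.y j) x' k - Gm.M.om (Gm.M.y j) x k)
      linear_combination h2
    subst h1
    have h2 : z = z' := add_left_cancel h0
    subst h2
    rfl
  · rintro ⟨d, hd⟩
    obtain ⟨r, h1, h2⟩ := (del_iff Gm j d).1 hd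
    have hc : (QuotientGroup.mk (Gm.M.π r) : Q ⧸ Gm.M.H j) ∈ C := by
      rw [hC]
      exact ⟨Gm.M.π r, rfl, h1⟩
    have h3 := hρ1 ⟨_, hc⟩
    rw [QuotientGroup.eq] at h3
    obtain ⟨x, hx⟩ := (dc_key Gm h1 (hρ2 ⟨_, hc⟩)).2 h3
    refine ⟨(⟨Gm.M.om (Gm.M.y j) x, ⟨x, rfl⟩⟩, ⟨_, hc⟩), ?_⟩
    apply Subtype.ext
    funext k
    have h4 : d k = iv (Gm.M.c k) (ρ ⟨_, hc⟩) (Gm.M.e (Gm.M.y j)) + Gm.M.om (Gm.M.y j) x k := by
      rw [h2 k, hx k]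
    exact h4.symm

end H48.MF
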