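import Pool.Agent.H48.MF.Esp
import Pool.Agent.H51.TC.Fin

/-!
# [H48 MF ESM] homomorphisms with given untyped primes, 110-170 lines. File Pool/Agent/H48/MF/Esm.lean

* `esm_over`: `φ ∈ NEm E B` and `ψ = π ∘ pr ∘ φ`: `ψ` is surjective (`Gm.prs`, `Gm.M.πs`), of finite type, and for `v ∉ S0`, `v ∉ E`: either `¬ Rm L φ v`, so `φ = 1` on `inr L v`, or `v` has a type `i` (`v ∉ E` and the last condition of `NEm`): `φ (L.t v)` is conjugate to `g i`, which is in the kernel of `π ∘ pr` (`gy`, `M.eker`),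
  and `φ τ` is a power of `φ (L.t v)` for `τ ∈ inr L v` (`ing_inr`, `φ τ ^ p = 1`), so `ψ τ = 1`. So `ψ ∈ HBq L Q E`. In terms of `P`: `ψ = 1` on the inertia group of `P.P v` for `v ∉ S0 ∪ E` (`LQ`, `dif_pos`).
* `esm`: if `E` meets `S0` then `NEm E B = ∅` (`Nt` needs `v ∉ S0`), `c = 0`. Otherwise `HBq L Q E` is finite (`hb_fin` in H51/TC/Wts.lean, from `RBL D L Q`: `rbl_of`), for every `ψ` in it let `X ψ` be a fibre from `hX`, `NEm E B = ⋃_{ψ ∈ HBq L Q E} Npsi ψ E B` (disjoint), `esp` for every `ψ`, sums of finitely many limits (`tendsto_finsetSum`), `ncard` of a finite disjoint union.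
  Positivity: an element of `NEm E B` is in some `Npsi ψ E B`.
-/

set_option autoImplicit false
set_option linter.dupNamespace false

open scoped NumberField
open IsDedekindDomain Filter Topology
open scoped Classical

noncomputable section

namespace H48.MF

open H63.MA H38.BB H38.BG H38.AS H57.PC H57.BRA H89.BRG H1.AR H38.ML H51.TC

theorem esm_over {n : ℕ} (G : Subgroup (Equiv.Perm (Fin n))) {p : ℕ} (hp : p.Prime)
    (K : IntermediateField ℚ QBar) [NumberField K] {ζ : K} (hζ : IsPrimitiveRoot ζ p)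
    {u w N : ℕ} {R Q : Type} [Group R] [Group Q] [Finite R] [Fintype Q]
    (Gm : GM p u w N G R Q) {D : RD0 K p ζ} (L : LDs D QBar) (P : DP K QBar) (hLQ : LQ L P)
    (i₀ : Fin n) (E : Finset (Pl K)) (B : ℝ) (φ : Gal(QBar/K) →* G)
    (h : φ ∈ NEm G K L Gm.g i₀ E B) :
    (Gm.M.π.comp (Gm.pr.comp φ)) ∈ HBq L Q E ∧ ∀ v, v ∉ D.S0 ∪ E →
      ∀ τ ∈ (P.P v).inertia Gal(QBar/K), (Gm.M.π.comp (Gm.pr.comp φ)) τ = 1 := by
  obtain ⟨h1, h2, h3, h4⟩ := h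
  have hcore : ∀ v, v ∉ D.S0 → v ∉ E → ∀ τ ∈ inr L v,
      (Gm.M.π.comp (Gm.pr.comp φ)) τ = 1 := by
    intro v hv hvE τ hτ
    show Gm.M.π (Gm.pr (φ τ)) = 1
    by_cases hr : Rm L φ v
    · have h5 : ∃ i, H48.MF.Ty Gm.g L φ i v := by
        by_contra h6
        push Not at h6
        exact hvE ((h4 v).2 ⟨hr, h6⟩)
      obtain ⟨i, hgd, hc, he⟩ := h5
      rw [tm_z hp hζ L φ h1 v hv he τ hτ]
      have h7 : Gm.M.π (Gm.pr (φ (L.t v))) = 1 := by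
        obtain ⟨a, ha⟩ := isConj_iff.1 hc
        have h8 : Gm.M.π (Gm.pr (Gm.g i)) = 1 := by
          rw [Gm.gy]
          exact (Gm.M.eker _).2 ⟨_, rfl⟩
        rw [← ha, map_mul, map_mul, map_mul, map_mul, map_inv, map_inv] at h8
        exact conj_eq_one_iff.1 h8
      rw [map_pow, map_pow, h7, one_pow]
    · have h5 : φ τ = 1 := by
        by_contra h6
        exact hr ⟨hv, τ, hτ, h6⟩
      rw [h5, map_one, map_one]
  refine ⟨⟨⟨H38.ML.ft_comp _ _ (H38.ML.ft_comp _ _ h1), hcore⟩,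
    Gm.M.πs.comp (Gm.prs.comp h2)⟩, ?_⟩
  intro v hv τ hτ
  rw [Finset.mem_union, not_or] at hv
  apply hcore v hv.1 hv.2 τ
  rw [inr, dif_pos hv.1, hLQ v hv.1]
  exact hτ

theorem esm {n : ℕ} (hn : 2 ≤ n) (G : Subgroup (Equiv.Perm (Fin n)))
    (hG : MulAction.IsPretransitive G (Fin n)) {p : ℕ} (hp : p.Prime)
    (K : IntermediateField ℚ QBar) [NumberField K] (hp2 : MOne p K) {ζ : K}
    (hζ : IsPrimitiveRoot ζ p) (hz : Z2 p K) {u w N : ℕ} {R Q : Type} [Group R] [Group Q]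
    [Finite R] [Fintype Q] (Gm : GM p u w N G R Q)
    (hI : ∀ (h : G) (i : Fin N), IsConj h (Gm.g i) → ind (h : Equiv.Perm (Fin n)) = indG G)
    (ha : 0 < indG G) {D : RD0 K p ζ}
    (hD : ∀ v : Pl K, ((n.factorial : ℕ) : 𝓞 K) ∈ v.asIdeal → v ∈ D.S0)
    (L : LDs D QBar) (P : DP K QBar) (hLQ : LQ L P) (hRB : RBL D L Q) (i₀ : Fin n)
    (E : Finset (Pl K))
    (hX : ∀ ψ : Gal(QBar/K) →* Q, FT ψ → Function.Surjective ψ →
      (∀ v, v ∉ D.S0 ∪ E → ∀ τ ∈ (P.P v).inertia Gal(QBar/K), ψ τ = 1) →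
      ∃ X : AD Gm.M K QBar ζ, X.φQ = ψ ∧ X.P = P ∧ LQ X.L P ∧ (∀ v ∈ D.S0 ∪ E, v ∈ X.D.S0) ∧
        LimH Gm X) :
    (∀ B, (NEm G K L Gm.g i₀ E B).Finite) ∧ ∃ c : ℝ, 0 ≤ c ∧ Tendsto (fun B : ℝ =>
      ((NEm G K L Gm.g i₀ E B).ncard : ℝ) /
        (B ^ (1 / (indG G : ℝ)) * Real.log B ^ (N - 1))) atTop (𝓝 c) := by
  have hHB : (HBq L Q E).Finite := (hb_fin D L Q hRB E).subset fun ψ hψ => hψ.1
  have hE1 : ∀ ψ : Gal(QBar/K) →* Q, ∃ c : ℝ, ψ ∈ HBq L Q E →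
      (∀ B, (Npsi G Gm K L i₀ ψ E B).Finite) ∧ 0 ≤ c ∧ Tendsto (fun B : ℝ =>
      ((Npsi G Gm K L i₀ ψ E B).ncard : ℝ) /
        (B ^ (1 / (indG G : ℝ)) * Real.log B ^ (N - 1))) atTop (𝓝 c) := by
    intro ψ
    by_cases h : ψ ∈ HBq L Q E
    · have h1 : ∀ v, v ∉ D.S0 ∪ E → ∀ τ ∈ (P.P v).inertia Gal(QBar/K), ψ τ = 1 := by
        intro v hv τ hτ
        rw [Finset.mem_union, not_or] at hv
        apply h.1.2 v hv.1 hv.2 τ
        rw [inr, dif_pos hv.1, hLQ v hv.1]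
        exact hτ
      obtain ⟨X, hX1, hX2, hX3, hX4, hX5⟩ := hX ψ h.1.1 h.2 h1
      obtain ⟨h2, c, h3, h4, -⟩ := esp hn G hG hp K hp2 hζ hz Gm hI ha hD L P hLQ i₀ E X hX2
        hX3 (fun v hv => hX4 v (Finset.mem_union_left _ hv))
        (fun v hv => hX4 v (Finset.mem_union_right _ hv)) hX5
      rw [hX1] at h2 h4
      exact ⟨c, fun _ => ⟨h2, h3, h4⟩⟩
    · exact ⟨0, fun h' => absurd h' h⟩
  choose c hc using hE1
  set H := hHB.toFinset with hH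
  have hm : ∀ ψ, ψ ∈ H ↔ ψ ∈ HBq L Q E := fun ψ => Set.Finite.mem_toFinset _
  have hcover : ∀ B, NEm G K L Gm.g i₀ E B = ⋃ ψ ∈ H, Npsi G Gm K L i₀ ψ E B := by
    intro B
    ext φ
    simp only [Set.mem_iUnion, exists_prop]
    constructor
    · intro h
      exact ⟨_, (hm _).2 (esm_over G hp K hζ Gm L P hLQ i₀ E B φ h).1, h, fun σ => rfl⟩
    · rintro ⟨ψ, -, h⟩
      exact h.1
  have hN : ∀ B, (NEm G K L Gm.g i₀ E B).Finite := by
    intro B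
    rw [hcover B]
    exact Set.Finite.biUnion (Finset.finite_toSet _) fun ψ h => (hc ψ ((hm ψ).1 h)).1 B
  have hfin : ∀ ψ B, (Npsi G Gm K L i₀ ψ E B).Finite := fun ψ B =>
    (hN B).subset fun φ h => h.1
  refine ⟨hN, ∑ ψ ∈ H, c ψ, Finset.sum_nonneg fun ψ h => (hc ψ ((hm ψ).1 h)).2.1, ?_⟩
  · have hsum := tendsto_finsetSum H fun ψ hψ => (hc ψ ((hm ψ).1 hψ)).2.2
    refine hsum.congr fun B => ?_
    rw [← Finset.sum_div]
    congr 1
    rw [hcover B]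
    have h1 : (⋃ ψ ∈ H, Npsi G Gm K L i₀ ψ E B : Set (Gal(QBar/K) →* G)) =
        ((H.biUnion fun ψ => (hfin ψ B).toFinset : Finset (Gal(QBar/K) →* G)) :
          Set (Gal(QBar/K) →* G)) := by
      rw [Finset.coe_biUnion]
      refine Set.iUnion₂_congr fun ψ _ => ?_
      rw [Set.Finite.coe_toFinset]
    rw [h1, Set.ncard_coe_finset, Finset.card_biUnion]
    · push_cast
      refine Finset.sum_congr rfl fun ψ _ => ?_
      rw [Set.ncard_eq_toFinset_card _ (hfin ψ _)]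
    · intro ψ h1 ψ' h2 hne
      refine Finset.disjoint_left.2 fun φ hφ hφ' => ?_
      rw [Set.Finite.mem_toFinset] at hφ hφ'
      exact hne (MonoidHom.ext fun σ => (hφ.2 σ).symm.trans (hφ'.2 σ))

end H48.MF
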