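import Pool.Agent.H48.MF.Ubx
import Pool.Agent.H48.MF.Esm
import Pool.Agent.H51.TC.Wts

/-!
# [H48 MF EDM] domination, 200-280 lines. File Pool/Agent/H48/MF/Edm.lean

`a = indG G`, `ha`, `hmin`, `hJ` from `pidx_pos` (see `edm`, `fin_lim` in Pool/Agent/H51/TC/Fin.lean). `C` from `hX` with `η = 1 / (4 a)`; we may assume `C ≥ 1`.
* `edm_ti`: let `φ ∈ NEm E B`, `v ∈ E`, and `A ⊆ E` the set of the `v ∈ E` which are of no wide type (`Ti`). `v ∈ E ∖ A`: of a wide type `Ti g L φ i v` but of no type, so `nm v` is not prime: `A ∈ Aw E` (Pool/Agent/H51/TC/Def.lean).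
  `ψ = π ∘ pr ∘ φ` is unramified outside `S0 ∪ A`: as `esm_over`, also for the `v ∈ E ∖ A` (`Ti` suffices). So `ψ ∈ HBq L Q A ⊆ HB D L Q A`.
* `edm_nm`: lower bound for the discriminant: `dsm_lo` (as in `edm` of H51/TC/Fin.lean): `∏_{v ∈ T} nm v ^ (n - orbs (inr L v image)) ≤ B` for all finite `T` outside `S0`. Exponents: `≥ a` for ramified `v` (`hJ`), `≥ a + 1` for `v ∈ A`: otherwise the generator `φ (L.t v)` of ... : if the exponent is `a` then with `h = φ τ ≠ 1`, `τ ∈ inr L v`: `ind h ≤ a`, so `h` has least index and is conjugate to some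
  `g i`, an element of order `p`; the image `J` of `inr L v` has all its elements `≠ 1` of order `p`, so it is a `p`-group, generated by `φ (L.t v)` (`ing_inr`) and `φ (L.t v) ≠ 1` is conjugate to some `g i`, `φ τ ^ p = 1`: `v` is of wide type, a contradiction. (`orbs` antitone: `dup_orbs_anti`.) So if `F` is the set of the typed primes (all ramified `v ∉ S0`, `v ∉ E`): `(∏_{v ∈ F} nm v) ^ a * ∏_A nm ^ (a+1) * ∏_{E∖A} nm ^ a ≤ B`,
  i.e. `∏_{v ∈ F} nm v ≤ UA B a A E` (`H51.TC.UA`; `cnr`, `ua_eq` in Pool/Agent/H51/TC/Cnt.lean is the same computation).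
* `edm_cnt`: for fixed `A ∈ Aw E` and `ψ ∈ HBq L Q A`: `ψ` is trivial on the inertia groups outside `S0 ∪ E`, take `X` from `hX E ψ`. The `φ ∈ Npsi ψ E B` with this `A` are in `SYf Gm X (max (UA B a A E) 3)`: `Rm X.L φ v` implies `v ∉ X.D.S0 ⊇ S0 ∪ E` and `Rm L φ v` (`esc_ty`), typed (`esc_iff`), the product of their norms is `≤ ∏_{v ∈ F} nm v ≤ UA`. If there is such a `φ` then `1 ≤ UA ≤ B ^ (1 / a) ≤ B` (`ua_le`, H51/TC/Gue.lean), so
  with `Y = max UA 3 ≤ 3 UA`, `log Y ≤ log B` (`B ≥ 3`): `ubx`: their number is `≤ y0 * U * Y log^(N-1) Y ≤ C^(#E+1) nr E ^ η * 3 * UA * log^(N-1) B`.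
* `edm`: sum over `A ∈ Aw E` and `ψ ∈ HBq L Q A` (`≤ #HB(A)`, finite: `hb_fin`): `#NEm E B ≤ ∑_A #HB(A) * 3 C^(#E+1) nr(E)^η UA(B, a, A, E) log^(N-1) B = wt E * (B^(1/a) log^(N-1) B)`, `wt E = 3 C * (C^(#E) * nr E^(1/(4a)) * ∑_{A ∈ Aw E} #HB(A) * (∏_A .. * ∏_{E∖A} ..))`, summable by `wts` (H51/TC/Wts.lean) with `H = Q`, `q = C`.
-/

set_option autoImplicit false
set_option linter.dupNamespace false

open scoped NumberField
open IsDedekindDomain Filter Topology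
open scoped Classical

noncomputable section

namespace H48.MF

open H63.MA H38.BB H38.BG H38.AS H57.PC H57.BRA H89.BRG H1.AR H38.ML H51.TC

section

variable {n : ℕ} (hn : 2 ≤ n) (G : Subgroup (Equiv.Perm (Fin n)))
    (hG : MulAction.IsPretransitive G (Fin n)) {p : ℕ} (hp : p.Prime)
    (K : IntermediateField ℚ QBar) [NumberField K] {ζ : K}
    (hζ : IsPrimitiveRoot ζ p) {u w N : ℕ} {R Q : Type} [Group R] [Group Q]
    [Finite R] [Fintype Q] (Gm : GM p u w N G R Q)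
    (hI : ∀ h : G, (h ≠ 1 ∧ ind (h : Equiv.Perm (Fin n)) = indG G) ↔ ∃ i, IsConj h (Gm.g i))
    {D : RD0 K p ζ} (L : LDs D QBar) (i₀ : Fin n)

include hp hζ hI in
theorem edm_ti (E : Finset (Pl K)) (B : ℝ) (φ : Gal(QBar/K) →* G)
    (h : φ ∈ NEm G K L Gm.g i₀ E B) (A : Finset (Pl K))
    (hA : ∀ v, v ∈ A ↔ v ∈ E ∧ ∀ i, ¬ H48.MF.Ti Gm.g L φ i v) :
    A ∈ Aw E ∧ (Gm.M.π.comp (Gm.pr.comp φ)) ∈ HBq L Q A := by
  have _ := hI
  obtain ⟨hft, hs, -, hE⟩ := h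
  refine ⟨?_, ⟨?_, ?_⟩, ?_⟩
  · refine Finset.mem_filter.2 ⟨Finset.mem_powerset.2 fun v hv => ((hA v).1 hv).1,
      fun v hv hpr => ?_⟩
    obtain ⟨h3, h4⟩ := Finset.mem_sdiff.1 hv
    apply h4
    exact (hA v).2 ⟨h3, fun i hi => ((hE v).1 h3).2 i ⟨⟨hi.1, hpr⟩, hi.2⟩⟩
  · obtain ⟨M, hM, hk⟩ := hft
    refine ⟨M, hM, fun σ hσ => ?_⟩
    have h1 : φ σ = 1 := hk hσ
    rw [MonoidHom.mem_ker, MonoidHom.comp_apply, MonoidHom.comp_apply, h1, map_one, map_one]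
  · intro v hvS hvA τ hτ
    rw [MonoidHom.comp_apply, MonoidHom.comp_apply]
    by_cases hR : Rm L φ v
    · obtain ⟨i, hi⟩ : ∃ i, H48.MF.Ti Gm.g L φ i v := by
        by_contra hcon
        push Not at hcon
        apply hvA
        refine (hA v).2 ⟨(hE v).2 ⟨hR, fun i hi => hcon i ⟨hvS, hi.2⟩⟩, hcon⟩
      have h1 := (ing_inr hp hζ L hvS φ hft (fun τ hτ => ⟨1, by
        rw [pow_one]
        exact hi.2.2 τ hτ⟩)).1 τ hτ
      obtain ⟨k, hk⟩ := Subgroup.mem_zpowers_iff.1 h1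
      have h2 : Gm.M.π (Gm.pr (φ (L.t v))) = 1 := by
        have h3 : IsConj (Gm.M.π (Gm.pr (φ (L.t v)))) (Gm.M.π (Gm.pr (Gm.g i))) :=
          MonoidHom.map_isConj Gm.M.π (MonoidHom.map_isConj Gm.pr hi.2.1)
        rw [Gm.gy, (Gm.M.eker _).2 ⟨_, rfl⟩] at h3
        exact isConj_one_left.1 h3
      rw [← hk, map_zpow, map_zpow, h2, one_zpow]
    · have h1 : φ τ = 1 := by
        by_contra hne
        exact hR ⟨hvS, τ, hτ, hne⟩
      rw [h1, map_one, map_one]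
  · exact Gm.M.πs.comp (Gm.prs.comp hs)

include hn hG hp hζ hI in
theorem edm_nm (hD : ∀ v : Pl K, ((n.factorial : ℕ) : 𝓞 K) ∈ v.asIdeal → v ∈ D.S0)
    (E : Finset (Pl K)) (B : ℝ) (φ : Gal(QBar/K) →* G)
    (h : φ ∈ NEm G K L Gm.g i₀ E B) (A : Finset (Pl K))
    (hA : ∀ v, v ∈ A ↔ v ∈ E ∧ ∀ i, ¬ H48.MF.Ti Gm.g L φ i v) (F : Finset (Pl K))
    (hF : ∀ v ∈ F, v ∉ E ∧ Rm L φ v) : ∏ v ∈ F, (nm v : ℝ) ≤ UA B (indG G) A E := by
  have _ := hD
  obtain ⟨hft, hs, hB, hE⟩ := h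
  obtain ⟨ha, -, hmin, -, hJ⟩ := pidx_pos hn G hG
  have h0 : ∀ v : Pl K, (1 : ℝ) ≤ (nm v : ℝ) := fun v => by
    exact_mod_cast (one_lt_nm v).le
  have haR : (0 : ℝ) < (indG G : ℝ) := by exact_mod_cast ha
  obtain ⟨ix, hix⟩ : ∃ ix : Subgroup G → ℕ, ∀ H, ix H = n - orbs (H.map G.subtype) :=
    ⟨_, fun _ => rfl⟩
  have h1 : ∀ H, H ≠ ⊥ → indG G ≤ ix H := by
    intro H hH
    have := hJ H hH
    rw [hix]
    omega
  have hne : ∀ v, Rm L φ v → (inr L v).map φ ≠ ⊥ := by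
    rintro v ⟨-, τ, hτ, hτ1⟩ h
    have h3 : φ τ ∈ (inr L v).map φ := Subgroup.mem_map_of_mem φ hτ
    rw [h] at h3
    exact hτ1 (Subgroup.mem_bot.1 h3)
  -- the wild part
  have hled : ∀ v, Rm L φ v → (∀ i, ¬ H48.MF.Ti Gm.g L φ i v) →
      indG G + 1 ≤ ix ((inr L v).map φ) := by
    intro v hR hTi
    by_contra hlt
    have hle : ix ((inr L v).map φ) ≤ indG G := by omega
    have hvS := hR.1
    have hcj : ∀ σ ∈ inr L v, φ σ ≠ 1 → ∃ i, IsConj (φ σ) (Gm.g i) := by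
      intro σ hσ hσ1
      refine (hI (φ σ)).1 ⟨hσ1, le_antisymm ?_ (hmin _ hσ1)⟩
      have h2 : Subgroup.zpowers ((φ σ : G) : Equiv.Perm (Fin n)) ≤
          ((inr L v).map φ).map G.subtype := by
        rw [Subgroup.zpowers_le]
        exact Subgroup.mem_map_of_mem G.subtype (Subgroup.mem_map_of_mem φ hσ)
      have h3 := dup_orbs_anti h2
      rw [hix] at hle
      unfold H38.ML.ind
      omega
    have hpow : ∀ σ ∈ inr L v, φ σ ^ p = 1 := by
      intro σ hσ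
      by_cases hσ1 : φ σ = 1
      · rw [hσ1, one_pow]
      · obtain ⟨i, hi⟩ := hcj σ hσ hσ1
        have h4 : IsConj ((φ σ) ^ p) ((Gm.g i) ^ p) := hi.pow p
        rw [Gm.gp i] at h4
        exact isConj_one_left.1 h4
    have hing := (ing_inr hp hζ L hvS φ hft (fun τ hτ => ⟨1, by
      rw [pow_one]
      exact hpow τ hτ⟩)).2.2
    have ht1 : φ (L.t v) ≠ 1 := by
      intro h
      obtain ⟨-, τ, hτ, hτ1⟩ := hR
      exact hτ1 (hing h τ hτ)
    obtain ⟨i, hi⟩ := hcj (L.t v) (H63.BU.uinr_t L v) ht1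
    exact hTi i ⟨hvS, hi, hpow⟩
  have hAE : A ⊆ E := fun v hv => ((hA v).1 hv).1
  have hEF : Disjoint E F := by
    rw [Finset.disjoint_left]
    intro v hv hv'
    exact (hF v hv').1 hv
  have hT : ∀ v ∈ E ∪ F, v ∉ D.S0 := by
    intro v hv
    rcases Finset.mem_union.1 hv with h | h
    · exact ((hE v).1 h).1.1
    · exact (hF v h).2.1
  have hprod : ∏ v ∈ E ∪ F, (nm v : ℝ) ^ ix ((inr L v).map φ) ≤ B := by
    refine le_trans (le_of_eq ?_) ((dsm_lo hn G hG K D L i₀ φ hs hft (E ∪ F) hT).trans hB)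
    exact Finset.prod_congr rfl fun v _ => by rw [hix]
  rw [Finset.prod_union hEF] at hprod
  have hQ1 : QA (indG G) A E ≤ ∏ v ∈ E, (nm v : ℝ) ^ ix ((inr L v).map φ) := by
    rw [← Finset.prod_sdiff hAE, mul_comm]
    unfold QA
    refine mul_le_mul ?_ ?_ (Finset.prod_nonneg fun v _ => by have := h0 v; positivity)
      (Finset.prod_nonneg fun v _ => by have := h0 v; positivity)
    · refine Finset.prod_le_prod (fun v _ => by have := h0 v; positivity) fun v hv => ?_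
      obtain ⟨h3, h4⟩ := (hA v).1 hv
      exact pow_le_pow_right₀ (h0 v) (hled v ((hE v).1 h3).1 h4)
    · refine Finset.prod_le_prod (fun v _ => by have := h0 v; positivity) fun v hv => ?_
      exact pow_le_pow_right₀ (h0 v)
        (h1 _ (hne v ((hE v).1 (Finset.mem_sdiff.1 hv).1).1))
  obtain ⟨P, hP⟩ : ∃ P : ℝ, P = ∏ v ∈ F, (nm v : ℝ) := ⟨_, rfl⟩
  have hP1 : P ^ (indG G) ≤ ∏ v ∈ F, (nm v : ℝ) ^ ix ((inr L v).map φ) := by
    rw [hP, ← Finset.prod_pow]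
    refine Finset.prod_le_prod (fun v _ => by have := h0 v; positivity) fun v hv => ?_
    exact pow_le_pow_right₀ (h0 v) (h1 _ (hne v (hF v hv).2))
  have hPone : 1 ≤ P := by
    rw [hP]
    exact one_le_nr F
  have hQ0 := QA_pos (indG G) A E
  have hQP : QA (indG G) A E * P ^ (indG G) ≤ B := by
    refine le_trans ?_ hprod
    refine mul_le_mul hQ1 hP1 (by positivity) ?_
    exact Finset.prod_nonneg fun v _ => by have := h0 v; positivity
  have hB0 : 0 < B := lt_of_lt_of_le (by positivity) hQP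
  have hUA : UA B (indG G) A E = (B / QA (indG G) A E) ^ (1 / (indG G : ℝ)) :=
    ua_eq B hB0.le (indG G) ha A E
  rw [← hP, hUA]
  have h3 : P ^ (indG G) ≤ B / QA (indG G) A E := by
    rw [le_div_iff₀ hQ0]
    linarith
  have h4 : P = (P ^ (indG G)) ^ (1 / (indG G : ℝ)) := by
    rw [one_div, Real.pow_rpow_inv_natCast (by linarith) ha.ne']
  rw [h4]
  exact Real.rpow_le_rpow (by positivity) h3 (by positivity)

theorem edm (hn : 2 ≤ n) (hG : MulAction.IsPretransitive G (Fin n)) (hp : p.Prime)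
    (hp2 : MOne p K) (hζ : IsPrimitiveRoot ζ p) (hz : Z2 p K) (hN : 1 ≤ N)
    (hI : ∀ h : G, (h ≠ 1 ∧ ind (h : Equiv.Perm (Fin n)) = indG G) ↔ ∃ i, IsConj h (Gm.g i))
    (hD : ∀ v : Pl K, ((n.factorial : ℕ) : 𝓞 K) ∈ v.asIdeal → v ∈ D.S0)
    (P : DP K QBar) (hLQ : LQ L P) (hRB : RBL D L Q)
    (hX : ∀ η : ℝ, 0 < η → ∃ C : ℝ, ∀ (E : Finset (Pl K)) (ψ : Gal(QBar/K) →* Q), FT ψ →
      Function.Surjective ψ →
      (∀ v, v ∉ D.S0 ∪ E → ∀ τ ∈ (P.P v).inertia Gal(QBar/K), ψ τ = 1) →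
      ∃ X : AD Gm.M K QBar ζ, X.φQ = ψ ∧ X.P = P ∧ LQ X.L P ∧ (∀ v ∈ D.S0 ∪ E, v ∈ X.D.S0) ∧
        LimH Gm X ∧ ∃ U : ℝ, AnU Gm X U ∧
          (y0 Gm X : ℝ) * U ≤ C ^ (E.card + 1) * nr E ^ η) :
    ∃ wt : Finset (Pl K) → ℝ, Summable wt ∧ (∀ E, 0 ≤ wt E) ∧
      ∀ (B : ℝ) (E : Finset (Pl K)), 3 ≤ B → (NEm G K L Gm.g i₀ E B).Finite →
        ((NEm G K L Gm.g i₀ E B).ncard : ℝ) ≤
          wt E * (B ^ (1 / (indG G : ℝ)) * Real.log B ^ (N - 1)) := by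
  have hpz : NeZero p := ⟨hp.ne_zero⟩
  obtain ⟨ha, -, -, -, -⟩ := pidx_pos hn G hG
  have haR : (0 : ℝ) < (indG G : ℝ) := by exact_mod_cast ha
  have ha1 : (1 : ℝ) ≤ (indG G : ℝ) := by exact_mod_cast ha
  have hη0 : (0 : ℝ) < 1 / (4 * (indG G : ℝ)) := by positivity
  obtain ⟨C₀, hC₀⟩ := hX _ hη0
  obtain ⟨C, hC⟩ : ∃ C : ℝ, C = |C₀| + 1 := ⟨_, rfl⟩
  have hC0 : 0 ≤ C := by
    rw [hC]
    positivity
  have hCC : ∀ k : ℕ, C₀ ^ k ≤ C ^ k := by
    intro k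
    refine (le_abs_self _).trans ?_
    rw [abs_pow]
    exact pow_le_pow_left₀ (abs_nonneg _) (by rw [hC]; linarith) _
  obtain ⟨W, hW⟩ : ∃ W : Finset (Pl K) → Finset (Pl K) → ℝ, ∀ A E, W A E =
      (∏ v ∈ A, (nm v : ℝ) ^ (-(((indG G + 1 : ℕ) : ℝ) / (indG G : ℝ)))) *
        ∏ v ∈ E \ A, (nm v : ℝ) ^ (-1 : ℝ) := ⟨_, fun _ _ => rfl⟩
  have hW0 : ∀ A E, 0 ≤ W A E := fun A E => by
    rw [hW]
    exact mul_nonneg (Finset.prod_nonneg fun v _ => Real.rpow_nonneg (Nat.cast_nonneg _) _)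
      (Finset.prod_nonneg fun v _ => Real.rpow_nonneg (Nat.cast_nonneg _) _)
  have hsum : Summable fun E : Finset (Pl K) => C ^ E.card * nr E ^ (1 / (4 * (indG G : ℝ))) *
      ∑ A ∈ Aw E, ((HB D L Q A).ncard : ℝ) * W A E := by
    refine (wts D L Q hRB (indG G) ha C hC0).congr fun E => ?_
    congr 1
    exact Finset.sum_congr rfl fun A _ => by rw [hW]
  refine ⟨fun E => (3 * C) * (C ^ E.card * nr E ^ (1 / (4 * (indG G : ℝ))) *
      ∑ A ∈ Aw E, ((HB D L Q A).ncard : ℝ) * W A E), hsum.mul_left _, fun E => ?_, ?_⟩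
  · have h1 := one_le_nr E
    have h2 : 0 ≤ ∑ A ∈ Aw E, ((HB D L Q A).ncard : ℝ) * W A E :=
      Finset.sum_nonneg fun A _ => mul_nonneg (Nat.cast_nonneg _) (hW0 A E)
    positivity
  intro B E hB hfin
  have hB1 : 1 ≤ B := by linarith
  have hB0 : 0 < B := by linarith
  have hlogB : 0 ≤ Real.log B := Real.log_nonneg hB1
  have hnr := one_le_nr E
  obtain ⟨eA, heA⟩ : ∃ eA : (Gal(QBar/K) →* G) → Finset (Pl K), ∀ φ v, v ∈ eA φ ↔
      v ∈ E ∧ ∀ i, ¬ H48.MF.Ti Gm.g L φ i v :=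
    ⟨fun φ => E.filter fun v => ∀ i, ¬ H48.MF.Ti Gm.g L φ i v, fun φ v => Finset.mem_filter⟩
  -- the fibres
  have hfib : ∀ (A : Finset (Pl K)) (ψ : Gal(QBar/K) →* Q),
      ((hfin.toFinset.filter fun φ => eA φ = A ∧ Gm.M.π.comp (Gm.pr.comp φ) = ψ).card : ℝ) ≤
        C ^ (E.card + 1) * nr E ^ (1 / (4 * (indG G : ℝ))) *
          (3 * UA B (indG G) A E * Real.log B ^ (N - 1)) := by
    intro A ψ
    have hUA := ua_le B hB1 (indG G) A E
    rcases (hfin.toFinset.filter fun φ => eA φ = A ∧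
      Gm.M.π.comp (Gm.pr.comp φ) = ψ).eq_empty_or_nonempty with h0 | ⟨φ₀, hφ₀⟩
    · rw [h0, Finset.card_empty, Nat.cast_zero]
      have := hUA.1
      positivity
    rw [Finset.mem_filter, Set.Finite.mem_toFinset] at hφ₀
    obtain ⟨hφ₀, hA₀, hψ₀⟩ := hφ₀
    have hAm : ∀ v, v ∈ A ↔ v ∈ E ∧ ∀ i, ¬ H48.MF.Ti Gm.g L φ₀ i v := by
      intro v
      rw [← hA₀]
      exact heA φ₀ v
    obtain ⟨hAw, ⟨hψ1, hψ2⟩, hψ3⟩ := edm_ti G hp K hζ Gm hI L i₀ E B φ₀ hφ₀ A hAm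
    rw [hψ₀] at hψ1 hψ2 hψ3
    have hUA1 : 1 ≤ UA B (indG G) A E := by
      have h1 := edm_nm hn G hG hp K hζ Gm hI L i₀ hD E B φ₀ hφ₀ A hAm ∅ (by
        intro v hv
        exact absurd hv (Finset.notMem_empty v))
      rwa [Finset.prod_empty] at h1
    have hAE : A ⊆ E := fun v hv => ((hAm v).1 hv).1
    obtain ⟨X, hXq, hXP, hXL, hXS, hAnl, U, hU, hyU⟩ := hC₀ E ψ hψ1 hψ3 (by
      intro v hv τ hτ
      rw [Finset.mem_union, not_or] at hv
      refine hψ2 v hv.1 (fun h => hv.2 (hAE h)) τ ?_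
      unfold inr
      rw [dif_pos hv.1, hLQ v hv.1]
      exact hτ)
    obtain ⟨Y, hY⟩ : ∃ Y : ℝ, Y = max (UA B (indG G) A E) 3 := ⟨_, rfl⟩
    have hY3 : 3 ≤ Y := by
      rw [hY]
      exact le_max_right _ _
    have hYU : Y ≤ 3 * UA B (indG G) A E := by
      rw [hY]
      exact max_le (by linarith) (by linarith)
    have hYB : Y ≤ B := by
      rw [hY]
      refine max_le (hUA.2.trans ?_) hB
      calc B ^ (1 / (indG G : ℝ)) ≤ B ^ (1 : ℝ) := by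
            refine Real.rpow_le_rpow_of_exponent_le hB1 ?_
            rw [div_le_one haR]
            exact ha1
        _ = B := Real.rpow_one B
    have hSf := (syi Gm X hp hζ hz hAnl.fc (fun _ => True) Y).1
    have hsub : (hfin.toFinset.filter fun φ => eA φ = A ∧ Gm.M.π.comp (Gm.pr.comp φ) = ψ) ⊆
        hSf.toFinset := by
      intro φ hφ
      rw [Finset.mem_filter, Set.Finite.mem_toFinset] at hφ
      obtain ⟨hφ, hA, hψ⟩ := hφ
      rw [Set.Finite.mem_toFinset]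
      have hφ' := hφ
      obtain ⟨hft, hs, -, hE⟩ := hφ'
      have hesc := fun v hv => esc_ty hp hζ (D := D) (D' := X.D)
        (fun v hv => hXS v (Finset.mem_union_left _ hv)) L X.L P hLQ hXL Gm.g φ hft v hv
      have hnE : ∀ v, Rm X.L φ v → v ∉ E ∧ Rm L φ v := by
        intro v hv
        exact ⟨fun h => hv.1 (hXS v (Finset.mem_union_right _ h)), (hesc v hv.1).1.2 hv⟩
      refine ⟨hft, hs, fun σ => ?_, fun v hv => ?_,
        (H63.BU.uinr_fin X.L φ hft).toFinset, fun v => ?_, ?_⟩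
      · rw [hXq, ← hψ]
        rfl
      · obtain ⟨h1, h2⟩ := hnE v hv
        by_contra hcon
        push Not at hcon
        apply h1
        exact (hE v).2 ⟨h2, fun i hi => hcon i (((hesc v hv.1).2 i).1 hi)⟩
      · rw [Set.Finite.mem_toFinset]
        exact Iff.rfl
      · refine le_trans ?_ (le_trans (le_max_left _ _) hY.ge)
        refine edm_nm hn G hG hp K hζ Gm hI L i₀ hD E B φ hφ A (fun v => ?_) _ fun v hv => ?_
        · rw [← hA]
          exact heA φ v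
        · rw [Set.Finite.mem_toFinset] at hv
          exact hnE v hv
    have hcard : ((hfin.toFinset.filter fun φ => eA φ = A ∧
        Gm.M.π.comp (Gm.pr.comp φ) = ψ).card : ℝ) ≤ ((SYf Gm X Y).ncard : ℝ) := by
      rw [Set.ncard_eq_toFinset_card _ hSf]
      exact_mod_cast Finset.card_le_card hsub
    have h1 := ubx Gm X hp hζ hz hAnl.fc hU Y hY3
    have hlogY : 0 ≤ Real.log Y := Real.log_nonneg (by linarith)
    have h2 : Real.log Y ^ (N - 1) ≤ Real.log B ^ (N - 1) :=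
      pow_le_pow_left₀ hlogY (Real.log_le_log (by linarith) hYB) _
    have h3 : Y * Real.log Y ^ (N - 1) ≤
        3 * UA B (indG G) A E * Real.log B ^ (N - 1) :=
      mul_le_mul hYU h2 (pow_nonneg hlogY _) (by linarith)
    have h4 : 0 ≤ Y * Real.log Y ^ (N - 1) := mul_nonneg (by linarith) (pow_nonneg hlogY _)
    have hnr0 : 0 ≤ nr E ^ (1 / (4 * (indG G : ℝ))) := Real.rpow_nonneg (by linarith) _
    calc ((hfin.toFinset.filter fun φ => eA φ = A ∧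
        Gm.M.π.comp (Gm.pr.comp φ) = ψ).card : ℝ) ≤
          y0 Gm X * (U * (Y * Real.log Y ^ (N - 1))) := hcard.trans h1
      _ = (y0 Gm X * U) * (Y * Real.log Y ^ (N - 1)) := by ring
      _ ≤ (C₀ ^ (E.card + 1) * nr E ^ (1 / (4 * (indG G : ℝ)))) *
          (Y * Real.log Y ^ (N - 1)) := mul_le_mul_of_nonneg_right hyU h4
      _ ≤ (C ^ (E.card + 1) * nr E ^ (1 / (4 * (indG G : ℝ)))) *
          (Y * Real.log Y ^ (N - 1)) :=
        mul_le_mul_of_nonneg_right (mul_le_mul_of_nonneg_right (hCC _) hnr0) h4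
      _ ≤ _ := mul_le_mul_of_nonneg_left h3 (mul_nonneg (pow_nonneg hC0 _) hnr0)
  -- given `A`
  have hmapA : ∀ φ ∈ hfin.toFinset, eA φ ∈ Aw E := by
    intro φ hφ
    rw [Set.Finite.mem_toFinset] at hφ
    exact (edm_ti G hp K hζ Gm hI L i₀ E B φ hφ (eA φ) (heA φ)).1
  have hcA : ∀ A ∈ Aw E, ((hfin.toFinset.filter fun φ => eA φ = A).card : ℝ) ≤
      ((HB D L Q A).ncard : ℝ) * (C ^ (E.card + 1) * nr E ^ (1 / (4 * (indG G : ℝ))) *
          (3 * UA B (indG G) A E * Real.log B ^ (N - 1))) := by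
    intro A _
    have hHf := hb_fin D L Q hRB A
    have hmap : ∀ φ ∈ hfin.toFinset.filter (fun φ => eA φ = A),
        Gm.M.π.comp (Gm.pr.comp φ) ∈ hHf.toFinset := by
      intro φ hφ
      rw [Finset.mem_filter, Set.Finite.mem_toFinset] at hφ
      rw [Set.Finite.mem_toFinset]
      exact (edm_ti G hp K hζ Gm hI L i₀ E B φ hφ.1 A (fun v => by
        rw [← hφ.2]
        exact heA φ v)).2.1
    rw [Finset.card_eq_sum_card_fiberwise
      (fun φ hφ => Finset.mem_coe.2 (hmap φ (Finset.mem_coe.1 hφ)))]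
    push_cast
    have h1 : ∀ ψ ∈ hHf.toFinset, (((hfin.toFinset.filter fun φ => eA φ = A).filter
        fun φ => Gm.M.π.comp (Gm.pr.comp φ) = ψ).card : ℝ) ≤
        C ^ (E.card + 1) * nr E ^ (1 / (4 * (indG G : ℝ))) *
          (3 * UA B (indG G) A E * Real.log B ^ (N - 1)) := by
      intro ψ _
      refine le_trans (le_of_eq ?_) (hfib A ψ)
      rw [Finset.filter_filter]
    refine (Finset.sum_le_sum h1).trans (le_of_eq ?_)
    rw [Finset.sum_const, nsmul_eq_mul, Set.ncard_eq_toFinset_card _ hHf]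
  rw [Set.ncard_eq_toFinset_card _ hfin, Finset.card_eq_sum_card_fiberwise
    (fun φ hφ => Finset.mem_coe.2 (hmapA φ (Finset.mem_coe.1 hφ)))]
  push_cast
  refine (Finset.sum_le_sum hcA).trans (le_of_eq ?_)
  have e2 : ∀ A, UA B (indG G) A E = B ^ (1 / (indG G : ℝ)) * W A E := fun A => by
    rw [hW]
    rfl
  rw [Finset.mul_sum, Finset.mul_sum, Finset.sum_mul]
  refine Finset.sum_congr rfl fun A _ => ?_
  rw [e2]
  ring

end

end H48.MF
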