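import Pool.Agent.H38.AS.ESa
import Pool.Agent.H48.MF.Defs

/-!
# [H48 MF ESC] enlarging S0, 80-130 lines (copy of Pool/Agent/H38/AS/ESa.lean with `Ty g L φ i v`, `Nt g L φ v`, `Cq`). File Pool/Agent/H48/MF/Esc.lean

`D, D'` reciprocity data with `S0 ⊆ S0'`, `L, L'` local data for the same primes `P.P v` (`LQ`), `g : Fin N → G`. `esa_inr`, `esa_dec` are public.
* `esc_ty`: as `esa_ty`. * `esc_cq`: as `esa_teq`; conjugation by `r` does not change the conditions (`φ τ = 1`, `φ τ ^ p = 1`, `IsConj`); `inr L v ≤ dec`, `L.t v ∈ dec` (`esa_dec`). * `esc_iff`: as `esa_iff`.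
-/

set_option autoImplicit false
set_option linter.dupNamespace false

open scoped NumberField
open IsDedekindDomain
open scoped Classical

noncomputable section

namespace H48.MF

open H63.MA H38.BB H38.BG H38.AS H57.PC H57.BRA H89.BRG H1.AR

variable {K : Type} [Field K] [NumberField K] {Ω : Type} [Field Ω] [Algebra K Ω]
  [IsAlgClosure K Ω] {p N : ℕ} {ζ : K} {G : Type} [Group G]

omit [IsAlgClosure K Ω] in
private theorem esc_in {D : RD0 K p ζ} (L : LDs D Ω) (v : Pl K) (hv : v ∉ D.S0) :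
    inr L v = (L.ld v hv).P.inertia Gal(Ω/K) := by
  unfold inr
  rw [dif_pos hv]

omit [IsAlgClosure K Ω] in
private theorem esc_t {D : RD0 K p ζ} (L : LDs D Ω) (v : Pl K) (hv : v ∉ D.S0) :
    L.t v = (L.ld v hv).t := by
  unfold LDs.t
  rw [dif_pos hv]

omit [IsAlgClosure K Ω] in
private theorem esc_tin {D : RD0 K p ζ} (L : LDs D Ω) (v : Pl K) (hv : v ∉ D.S0) :
    L.t v ∈ inr L v := by
  rw [esc_in L v hv, esc_t L v hv]
  exact (L.ld v hv).ht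

theorem esc_ty [Finite G] (hp : p.Prime) (hζ : IsPrimitiveRoot ζ p) {D D' : RD0 K p ζ}
    (hDD : ∀ v ∈ D.S0, v ∈ D'.S0) (L : LDs D Ω) (L' : LDs D' Ω)
    (P : DP K Ω) (hL : LQ L P) (hL' : LQ L' P) (g : Fin N → G) (φ : Gal(Ω/K) →* G)
    (hφ : H38.ML.FT φ) (v : Pl K) (hv : v ∉ D'.S0) :
    (Rm L φ v ↔ Rm L' φ v) ∧ ∀ i, H48.MF.Ty g L φ i v ↔ H48.MF.Ty g L' φ i v := by
  have h1 : v ∉ D.S0 := fun h => hv (hDD v h)
  have hin := esa_inr hDD L L' P hL hL' v hv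
  have key : (∀ τ ∈ inr L v, φ τ ^ p = 1) → φ (L'.t v) = φ (L.t v) := by
    intro he
    have ht : L'.t v ∈ inr L v := by
      rw [hin]
      exact esc_tin L' v hv
    have h2 := tm_z hp hζ L φ hφ v h1 he (L'.t v) ht
    have h3 : kk p ζ (D.pi v) (L'.t v) = ((ord v (D.pi v) : ℤ) : ZMod p) := by
      rw [esc_t L' v hv]
      exact ld_kk_t hp hζ (fun h => hv (D'.above v h)) (D'.pi_self v hv) (L'.ld v hv) (D.pi v)
    have : Fact (1 < p) := ⟨hp.one_lt⟩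
    rw [D.pi_self v h1, Int.cast_one] at h3
    rw [h3, ZMod.val_one, pow_one] at h2
    exact h2
  refine ⟨?_, fun i => ?_⟩
  · unfold Rm
    rw [hin]
    exact ⟨fun h => ⟨hv, h.2⟩, fun h => ⟨h1, h.2⟩⟩
  · unfold H48.MF.Ty
    constructor
    · rintro ⟨hg, hc, he⟩
      refine ⟨⟨hv, hg.2⟩, ?_, ?_⟩
      · rw [key he]
        exact hc
      · rw [← hin]
        exact he
    · rintro ⟨hg, hc, he⟩
      rw [← hin] at he
      refine ⟨⟨h1, hg.2⟩, ?_, he⟩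
      rw [← key he]
      exact hc

private theorem esc_one {D : RD0 K p ζ} (L : LDs D Ω) (P : DP K Ω) (hL : LQ L P)
    (g : Fin N → G) (v : Pl K) (r : G) (ψ ψ' : Gal(Ω/K) →* G)
    (hs : ∀ σ ∈ dec (K := K) (P.P v), ψ' σ = r * ψ σ * r⁻¹) (h : Nt g L ψ v) :
    Nt g L ψ' v := by
  obtain ⟨⟨hv0, τ, hτ, hne⟩, hty⟩ := h
  obtain ⟨hd1, hd2⟩ := esa_dec L P hL v
  refine ⟨⟨hv0, τ, hτ, ?_⟩, ?_⟩
  · intro h1
    apply hne
    rw [hs τ (hd1 hτ)] at h1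
    exact conj_eq_one_iff.1 h1
  · rintro i ⟨hg, hc, he⟩
    refine hty i ⟨hg, ?_, fun σ hσ => ?_⟩
    · rw [hs _ (hd2 hv0)] at hc
      exact (isConj_iff.2 ⟨r, rfl⟩ : IsConj (ψ (L.t v)) (r * ψ (L.t v) * r⁻¹)).trans hc
    · have h2 := he σ hσ
      rw [hs σ (hd1 hσ), conj_pow] at h2
      exact conj_eq_one_iff.1 h2

theorem esc_cq {D : RD0 K p ζ} (L : LDs D Ω) (P : DP K Ω) (hL : LQ L P)
    (g : Fin N → G) (S : Finset (Pl K)) (T : Subgroup G) (φ φ' : Gal(Ω/K) →* G)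
    (h : Cq S P T φ φ') (v : Pl K) (hv : v ∈ S) : Nt g L φ v ↔ Nt g L φ' v := by
  obtain ⟨r, -, hr⟩ := h v hv
  refine ⟨esc_one L P hL g v r φ φ' hr, esc_one L P hL g v r⁻¹ φ' φ fun σ hσ => ?_⟩
  rw [hr σ hσ]
  group

theorem esc_iff [Finite G] (hp : p.Prime) (hζ : IsPrimitiveRoot ζ p) {D D' : RD0 K p ζ}
    (hDD : ∀ v ∈ D.S0, v ∈ D'.S0) (L : LDs D Ω) (L' : LDs D' Ω)
    (P : DP K Ω) (hL : LQ L P) (hL' : LQ L' P) (g : Fin N → G) (φ : Gal(Ω/K) →* G)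
    (hφ : H38.ML.FT φ) (E : Finset (Pl K)) (hE : ∀ v ∈ E, v ∈ D'.S0) :
    (∀ v, v ∈ E ↔ Nt g L φ v) ↔ (∀ v, Rm L' φ v → ∃ i, H48.MF.Ty g L' φ i v) ∧
      ∀ v ∈ D'.S0, (v ∈ E ↔ Nt g L φ v) := by
  constructor
  · intro h
    refine ⟨fun v hR => ?_, fun v _ => h v⟩
    have hv : v ∉ D'.S0 := hR.1
    obtain ⟨h1, h2⟩ := esc_ty hp hζ hDD L L' P hL hL' g φ hφ v hv
    by_contra hcon
    push Not at hcon
    apply hv
    apply hE
    rw [h v]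
    exact ⟨h1.2 hR, fun i hi => hcon i ((h2 i).1 hi)⟩
  · rintro ⟨ha, hb⟩ v
    by_cases hv : v ∈ D'.S0
    · exact hb v hv
    · obtain ⟨h1, h2⟩ := esc_ty hp hζ hDD L L' P hL hL' g φ hφ v hv
      constructor
      · intro hE'
        exact absurd (hE v hE') hv
      · rintro ⟨hR, hT⟩
        obtain ⟨i, hi⟩ := ha v (h1.1 hR)
        exact absurd ((h2 i).2 hi) (hT i)

end H48.MF
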