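import Pool.Agent.H48.MF.Syi
import Pool.Agent.H1.AR.Sty

/-!
# [H48 MF TYF] finitely many local types, 100-160 lines (as GFt, Pool/Agent/H38/AS/GFt.lean). File Pool/Agent/H48/MF/Tyf.lean

For `φ ∈ SYf Y` there are `g ∈ Lbs φ` (`lbc`: the sum is `1`) and `c` with `IsC c`, `φ ∈ LS (rh X c g) g`, `X.Ok g` (`syi_to`), so `pr ∘ φ = rh X c g`. The pairs `(c, qt g)` form a finite set (`hfc`; `(j : Fin N) → Fin r_j → ZMod p` is finite). For each pair `(c, κ)` which occurs for some `φ` choose such a `φ₂` (with `g₂`).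
If `φ` has the same pair then `Cv .. (pr ∘ φ₂) (pr ∘ φ)` by `sty` (`rh_tw`, `m` there gives `x := m` in `Cv`), and `twz_loc` gives `δ` of finite type with `Cq (twz δ φ₂) φ`. Let `R''` be the finite set of `hw_types` (H63/MC/CHa.lean) for `W = Wg p w` (`wg_pow`), `δ' ∈ R''` with `Teq S0 P δ δ'`: `Cq (twz δ' φ₂) φ` (`cq_twz_teq`, `cq_trans`, `cq_symm`).
So every `φ ∈ ⋃ SYf Y` is `Cq` to an element of the finite set `R₁ = {twz δ' φ₂}`. Being `Cq` is an equivalence relation (`cq_refl`, `cq_symm`, `cq_trans`). For every element of `R₁` which is `Cq` to some `φ ∈ ⋃ SYf` choose such a `φ`; let `R₂` be the finite set of these; finally choose one element in each class of `R₂` (image of `R₂` under a choice function constant on the classes, e.g. `Quotient.out` of the restricted relation).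
-/

set_option autoImplicit false
set_option linter.dupNamespace false

open scoped NumberField
open IsDedekindDomain
open scoped Classical

noncomputable section

namespace H48.MF

open H63.MA H38.BB H38.BG H38.AS H57.PC H57.BRA H89.BRG H1.AR

variable {p u w N : ℕ} {G R Q : Type} [Group G] [Group R] [Group Q] [Finite G] [Finite R]
  [Fintype Q] (Gm : GM p u w N G R Q)
  {K : Type} [Field K] [NumberField K] {Ω : Type} [Field Ω] [Algebra K Ω] [IsAlgClosure K Ω]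
  {ζ : K} (X : AD Gm.M K Ω ζ)

/-- representatives of an equivalence relation with finitely many classes -/
private theorem tyf_reps {A : Type} (E : A → A → Prop) (hr : ∀ a, E a a) (hs : ∀ a b, E a b → E b a)
    (ht : ∀ a b c, E a b → E b c → E a c) (S : A → Prop) (R₁ : Finset A)
    (h : ∀ a, S a → ∃ b ∈ R₁, E a b) :
    ∃ Rs : Finset A, (∀ a ∈ Rs, S a) ∧ (∀ a, S a → ∃ b ∈ Rs, E a b) ∧
      ∀ a ∈ Rs, ∀ b ∈ Rs, E a b → a = b := by
  let s : Setoid A := ⟨E, ⟨hr, fun {a b} => hs a b, fun {a b c} => ht a b c⟩⟩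
  let q : A → Quotient s := Quotient.mk s
  have hq : ∀ a b, q a = q b ↔ E a b := fun a b => Quotient.eq (r := s)
  have hg : ∀ c : Quotient s, ∃ a, (∃ a, S a ∧ q a = c) → S a ∧ q a = c := by
    intro c
    by_cases hc : ∃ a, S a ∧ q a = c
    · obtain ⟨a, ha⟩ := hc
      exact ⟨a, fun _ => ha⟩
    · exact ⟨c.out, fun h' => absurd h' hc⟩
  choose g hg using hg
  refine ⟨((R₁.image q).filter fun c => ∃ a, S a ∧ q a = c).image g, ?_, ?_, ?_⟩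
  · intro a ha
    obtain ⟨c, hc, rfl⟩ := Finset.mem_image.1 ha
    exact (hg c (Finset.mem_filter.1 hc).2).1
  · intro a ha
    obtain ⟨b, hb, hab⟩ := h a ha
    have h1 : q b = q a := (hq b a).2 (hs _ _ hab)
    have h2 : ∃ a', S a' ∧ q a' = q b := ⟨a, ha, h1.symm⟩
    refine ⟨g (q b), Finset.mem_image.2 ⟨q b, Finset.mem_filter.2 ⟨Finset.mem_image_of_mem _ hb, h2⟩, rfl⟩, ?_⟩
    exact (hq _ _).1 (h1.symm.trans (hg _ h2).2.symm)
  · intro a ha b hb hab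
    obtain ⟨c, hc, rfl⟩ := Finset.mem_image.1 ha
    obtain ⟨c', hc', rfl⟩ := Finset.mem_image.1 hb
    have h1 := (hg c (Finset.mem_filter.1 hc).2).2
    have h2 := (hg c' (Finset.mem_filter.1 hc').2).2
    have h3 := (hq _ _).2 hab
    rw [h1, h2] at h3
    rw [h3]

theorem tyf [NeZero p] (hp : p.Prime) (hp2 : MOne p K) (hζ : IsPrimitiveRoot ζ p)
    (hz : Z2 p K) (hfc : {c | X.IsC c}.Finite) :
    ∃ Rs : Finset (Gal(Ω/K) →* G), (∀ φ ∈ Rs, ∃ Y, φ ∈ SYf Gm X Y) ∧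
      (∀ φ Y, φ ∈ SYf Gm X Y → ∃ φ' ∈ Rs, Cq X.D.S0 X.P Gm.T φ φ') ∧
      ∀ φ ∈ Rs, ∀ φ' ∈ Rs, Cq X.D.S0 X.P Gm.T φ φ' → φ = φ' := by
  obtain ⟨R'', hR1, hR2⟩ := hw_types (W := Wg p w) hp hp2 hζ X.D X.L X.P wg_pow
  let Pr : (Gal(Ω/K) →* R) × ((j : Fin N) → Fin (X.A j).D.r → ZMod p) → (Gal(Ω/K) →* G) → Prop :=
    fun x φ₂ => ∃ g₂ : Finset X.Lb, X.Ok g₂ ∧ X.qt g₂ = x.2 ∧ X.IsC x.1 ∧
      φ₂ ∈ LS Gm X (rh X x.1 g₂) g₂
  have hex : ∀ x, ∃ φ₂, (∃ φ, Pr x φ) → Pr x φ₂ := by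
    intro x
    by_cases h : ∃ φ, Pr x φ
    · obtain ⟨φ, hφ⟩ := h
      exact ⟨φ, fun _ => hφ⟩
    · exact ⟨1, fun h' => absurd h' h⟩
  choose pick hpick using hex
  have h1 : ∀ φ, (∃ Y, φ ∈ SYf Gm X Y) → ∃ φ' ∈ ((hfc.toFinset ×ˢ (Finset.univ :
      Finset ((j : Fin N) → Fin (X.A j).D.r → ZMod p))) ×ˢ R'').image
        (fun x => twz Gm x.2 (pick x.1)), Cq X.D.S0 X.P Gm.T φ φ' := by
    rintro φ ⟨Y, hφ⟩
    have hne : (Lbs Gm X φ).Nonempty := by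
      by_contra h
      rw [Set.not_nonempty_iff_eq_empty] at h
      have h2 := (lbc Gm X hp hζ hz hφ).2
      rw [h, finsum_mem_empty] at h2
      exact zero_ne_one h2
    obtain ⟨g, hg⟩ := hne
    obtain ⟨hgF, c, ⟨hc, -, hLS⟩, -⟩ := syi_to Gm X hp hζ hφ hg
    have hexx : ∃ ψ, Pr (c, X.qt g) ψ := ⟨φ, g, hgF.1, rfl, hc, hLS⟩
    obtain ⟨g₂, hok2, hq2, -, hLS2⟩ := hpick (c, X.qt g) hexx
    have hcv : Cv X.D.S0 X.P Gm.M (Gm.pr.comp (pick (c, X.qt g))) (Gm.pr.comp φ) := by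
      intro v hv
      obtain ⟨m, hm⟩ := sty X hp hp2 hζ hc hok2 hgF.1 (fun j => congrFun hq2 j)
        (rh_tw Gm X hp hζ hc g₂) (rh_tw Gm X hp hζ hc g) v hv
      refine ⟨m, fun σ hσ => ?_⟩
      show Gm.pr (φ σ) = Gm.M.e m * Gm.pr (pick (c, X.qt g) σ) * (Gm.M.e m)⁻¹
      rw [hLS.2.1 σ, hLS2.2.1 σ]
      exact hm σ hσ
    obtain ⟨δ, hδ1, hδ2⟩ := twz_loc Gm hp hζ X.D X.P (pick (c, X.qt g)) φ hLS2.1 hLS.1 hcv
    obtain ⟨δ', hδ'R, hδ'⟩ := hR2 δ hδ1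
    refine ⟨twz Gm δ' (pick (c, X.qt g)), Finset.mem_image.2 ⟨((c, X.qt g), δ'),
      Finset.mem_product.2 ⟨Finset.mem_product.2 ⟨hfc.mem_toFinset.2 hc, Finset.mem_univ _⟩, hδ'R⟩,
      rfl⟩, ?_⟩
    exact cq_trans (cq_symm hδ2) (cq_twz_teq Gm Gm.T hδ' _)
  obtain ⟨Rs, h2, h3, h4⟩ := tyf_reps (fun φ φ' => Cq X.D.S0 X.P Gm.T φ φ')
    (fun φ => cq_refl _ _ _ φ) (fun _ _ h => cq_symm h) (fun _ _ _ h h' => cq_trans h h')
    (fun φ => ∃ Y, φ ∈ SYf Gm X Y) _ h1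
  exact ⟨Rs, h2, fun φ Y hφ => h3 φ ⟨Y, hφ⟩, h4⟩

end H48.MF
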