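import Pool.Agent.H48.MF.Ftb
import Pool.Agent.H48.MF.Esc
import Pool.Agent.H48.MF.Tyf
import Pool.Agent.H48.KV.Dsc
import Pool.Agent.H51.TC.ESp

/-!
# [H48 MF ESP] homomorphisms over `ψ` with given untyped primes, 180-260 lines (as `esp` in Pool/Agent/H51/TC/ESp.lean; copy). File Pool/Agent/H48/MF/Esp.lean

`Npsi .. ψ E B`: the `φ ∈ NEm .. E B` over `ψ = X.φQ`. Base data `D`, `L` (for the primes `P.P v`), `X` a fibre with `X.P = P`, `LQ X.L P`, `S0 ∪ E ⊆ X.D.S0`.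
* `esp_exp`: if `v` is of type `i` for `φ` then `inr L v` is mapped onto the cyclic group generated by `φ (L.t v)` (`ing_inr`, first clause; `φ τ ^ p = 1`), conjugate to `g i`, so `n - orbs = ind (g i) = indG G` (as `esp_exp` in H38/AS/ESp.lean; copy its second half).
* `dsc_form` (Pool/Agent/H48/KV/Dsc.lean) with `S = X.D.S0`, `Q := P` gives `d`; `v ∈ H38.WM.Rm P φ` and `v ∉ X.D.S0` iff `Rm X.L φ v` (`inr X.L v = (P.P v).inertia` by `LQ`, `dif_pos`). So `relDisc = d φ * (∏_{v ∈ T} nm v) ^ a` for `φ ∈ SYf Gm X _`, and `d φ = d φ'` if `Cq X.D.S0 P Gm.T φ φ'` (`isConj`-form there; `cq_symm`).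
* `Rs` from `tyf`. `RE` = the `φ₁ ∈ Rs` with `∀ v ∈ X.D.S0, (v ∈ E ↔ Nt g L φ₁ v)`. For `B ≥ 0`: `Npsi E B = ⋃_{φ₁ ∈ RE} SYm Gm X φ₁ ((B / d φ₁) ^ (1 / a))` (disjoint; `esc_iff`, `esc_cq`, `hover`: `SYf` is over `X.φQ = ψ`), exactly as `hcover`, `hdisc` in the proof of `esp` in H51/TC/ESp.lean.
  Finite: `syi`. Limit: `gtm` for `φ₁ ∈ Rs` (finite type by `SYf`) and `cfin_lim`; `c = ∑_{φ₁ ∈ RE} l φ₁ * (positive)`, so `0 ≤ c`; if `φ ∈ Npsi E B` for some `B` (we may take `B ≥ 0`: `relDisc ≥ 0`) then `φ ∈ SYm φ₁ _` for some `φ₁ ∈ RE`, `φ₁ ∈ Rs ⊆ ⋃ SYf`, `l φ₁ > 0`.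
-/

set_option autoImplicit false
set_option linter.dupNamespace false

open scoped NumberField
open IsDedekindDomain Filter Topology
open scoped Classical

noncomputable section

namespace H48.MF

open H63.MA H38.BB H38.BG H38.AS H57.PC H57.BRA H89.BRG H1.AR H38.ML

/-- the homomorphisms over `ψ` -/
def Npsi {n p u w N : ℕ} (G : Subgroup (Equiv.Perm (Fin n))) {R Q : Type} [Group R] [Group Q]
    (Gm : GM p u w N G R Q) (K : IntermediateField ℚ QBar) [NumberField K] {ζ : K}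
    {D : RD0 K p ζ} (L : LDs D QBar) (i₀ : Fin n) (ψ : Gal(QBar/K) →* Q)
    (E : Finset (Pl K)) (B : ℝ) : Set (Gal(QBar/K) →* G) :=
  {φ ∈ NEm G K L Gm.g i₀ E B | ∀ σ, Gm.M.π (Gm.pr (φ σ)) = ψ σ}

theorem esp_exp {n : ℕ} (G : Subgroup (Equiv.Perm (Fin n))) {p : ℕ} (hp : p.Prime)
    (K : IntermediateField ℚ QBar) [NumberField K] {ζ : K} (hζ : IsPrimitiveRoot ζ p)
    {N : ℕ} (g : Fin N → G)
    (hI : ∀ (h : G) (i : Fin N), IsConj h (g i) → ind (h : Equiv.Perm (Fin n)) = indG G)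
    {D : RD0 K p ζ} (L : LDs D QBar) (φ : Gal(QBar/K) →* G) (hft : FT φ) (v : Pl K)
    (i : Fin N) (h : H48.MF.Ty g L φ i v) :
    n - orbs (((inr L v).map φ).map G.subtype) = indG G := by
  obtain ⟨hgd, hc, he⟩ := h
  have hv : v ∉ D.S0 := hgd.1
  have htm : L.t v ∈ inr L v := by
    unfold inr LDs.t
    rw [dif_pos hv, dif_pos hv]
    exact (L.ld v hv).ht
  have h1 : (inr L v).map φ = Subgroup.zpowers (φ (L.t v)) := by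
    apply le_antisymm
    · rintro _ ⟨τ, hτ, rfl⟩
      rw [tm_z hp hζ L φ hft v hv he τ hτ]
      exact Subgroup.npow_mem_zpowers _ _
    · rw [Subgroup.zpowers_le]
      exact ⟨L.t v, htm, rfl⟩
  have h2 : ((Subgroup.zpowers (φ (L.t v))).map G.subtype) =
      Subgroup.zpowers ((φ (L.t v) : G) : Equiv.Perm (Fin n)) := by
    rw [MonoidHom.map_zpowers]
    rfl
  rw [h1, h2]
  exact hI _ i hc

theorem esp {n : ℕ} (hn : 2 ≤ n) (G : Subgroup (Equiv.Perm (Fin n)))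
    (hG : MulAction.IsPretransitive G (Fin n)) {p : ℕ} (hp : p.Prime)
    (K : IntermediateField ℚ QBar) [NumberField K] (hp2 : MOne p K) {ζ : K}
    (hζ : IsPrimitiveRoot ζ p) (hz : Z2 p K) {u w N : ℕ} {R Q : Type} [Group R] [Group Q]
    [Finite R] [Fintype Q] (Gm : GM p u w N G R Q)
    (hI : ∀ (h : G) (i : Fin N), IsConj h (Gm.g i) → ind (h : Equiv.Perm (Fin n)) = indG G)
    (ha : 0 < indG G) {D : RD0 K p ζ}
    (hD : ∀ v : Pl K, ((n.factorial : ℕ) : 𝓞 K) ∈ v.asIdeal → v ∈ D.S0)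
    (L : LDs D QBar) (P : DP K QBar) (hLQ : LQ L P) (i₀ : Fin n) (E : Finset (Pl K))
    (X : AD Gm.M K QBar ζ) (hXP : X.P = P) (hXL : LQ X.L P) (hS : ∀ v ∈ D.S0, v ∈ X.D.S0)
    (hE : ∀ v ∈ E, v ∈ X.D.S0) (hA : LimH Gm X) :
    (∀ B, (Npsi G Gm K L i₀ X.φQ E B).Finite) ∧ ∃ c : ℝ, 0 ≤ c ∧ Tendsto (fun B : ℝ =>
      ((Npsi G Gm K L i₀ X.φQ E B).ncard : ℝ) /
        (B ^ (1 / (indG G : ℝ)) * Real.log B ^ (N - 1))) atTop (𝓝 c) ∧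
      ∀ φ₁ Y₁, φ₁ ∈ SYf Gm X Y₁ → (∀ v ∈ X.D.S0, (v ∈ E ↔ Nt Gm.g L φ₁ v)) → ∀ l₁ : ℝ, 0 < l₁ →
        Tendsto (fun Y : ℝ => ((SYm Gm X φ₁ Y).ncard : ℝ) / (Y * Real.log Y ^ (N - 1)))
          atTop (𝓝 l₁) → 0 < c := by
  have hp0 : NeZero p := ⟨hp.ne_zero⟩
  have haR : (0 : ℝ) < (indG G : ℝ) := by exact_mod_cast ha
  subst hXP
  have hD2 : ∀ v : Pl K, ((n.factorial : ℕ) : 𝓞 K) ∈ v.asIdeal → v ∈ X.D.S0 := fun v hv =>
    hS v (hD v hv)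
  obtain ⟨d, hd1, hd2⟩ := H48.KV.dsc_form hn G hG K X.D.S0 hD2 X.P i₀
  obtain ⟨Rs, hR1, hR2, hR3⟩ := tyf Gm X hp hp2 hζ hz hA.fc
  have hRm : ∀ (φ : Gal(QBar/K) →* G) (v : Pl K),
      Rm X.L φ v ↔ v ∉ X.D.S0 ∧ v ∈ H38.WM.Rm X.P φ := by
    intro φ v
    constructor
    · rintro ⟨hv, τ, hτ, h⟩
      refine ⟨hv, τ, ?_, h⟩
      rw [inr, dif_pos hv, hXL v hv] at hτ
      exact hτ
    · rintro ⟨hv, τ, hτ, h⟩
      refine ⟨hv, τ, ?_, h⟩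
      rw [inr, dif_pos hv, hXL v hv]
      exact hτ
  have hdok : ∀ φ : Gal(QBar/K) →* G, FT φ → (∀ v, Rm X.L φ v → ∃ i, H48.MF.Ty Gm.g X.L φ i v) →
      ∀ v, v ∉ X.D.S0 → v ∈ H38.WM.Rm X.P φ →
        n - orbs ((((X.P.P v).inertia Gal(QBar/K)).map φ).map G.subtype) = H38.ML.indG G := by
    intro φ hft hty v hvS hv
    obtain ⟨i, hi⟩ := hty v ((hRm φ v).2 ⟨hvS, hv⟩)
    have h1 := esp_exp G hp K hζ Gm.g hI X.L φ hft v i hi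
    rw [inr, dif_pos hvS, hXL v hvS] at h1
    exact h1
  have hdeq : ∀ φ φ' : Gal(QBar/K) →* G, Function.Surjective φ → FT φ → Function.Surjective φ' →
      FT φ' → Cq X.D.S0 X.P Gm.T φ φ' → d φ = d φ' := by
    intro φ φ' h1 h2 h3 h4 h5
    refine hd2 φ φ' h1 h2 h3 h4 fun v hv => ?_
    obtain ⟨r, -, hr⟩ := cq_symm h5 v hv
    exact ⟨r, hr⟩
  have hR0 : ∀ φ₁ ∈ Rs, FT φ₁ ∧ Function.Surjective φ₁ ∧ 0 < d φ₁ := by
    intro φ₁ h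
    obtain ⟨Y, hY⟩ := hR1 φ₁ h
    exact ⟨hY.1, hY.2.1, (hd1 φ₁ hY.2.1 hY.1 (hdok φ₁ hY.1 hY.2.2.2.1)).1⟩
  -- the condition on the discriminant
  have hdisc : ∀ φ₁ ∈ Rs, ∀ φ : Gal(QBar/K) →* G, FT φ → Function.Surjective φ →
      (∀ σ, Gm.M.π (Gm.pr (φ σ)) = X.φQ σ) →
      (∀ v, Rm X.L φ v → ∃ i, H48.MF.Ty Gm.g X.L φ i v) → Cq X.D.S0 X.P Gm.T φ φ₁ →
      ∀ B : ℝ, 0 ≤ B → ((H38.ML.relDisc K (fieldOf i₀ φ) : ℝ) ≤ B ↔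
        φ ∈ SYm Gm X φ₁ ((B / (d φ₁ : ℝ)) ^ (1 / (H38.ML.indG G : ℝ)))) := by
    intro φ₁ hφ₁ φ h1 h2 hov hty h3 B hB
    obtain ⟨h10, h11, h12⟩ := hR0 φ₁ hφ₁
    have hfin : {v : Pl K | Rm X.L φ v}.Finite := H63.BU.uinr_fin X.L φ h1
    have hT : ∀ v, v ∈ hfin.toFinset ↔ Rm X.L φ v := by
      intro v
      rw [Set.Finite.mem_toFinset]
      rfl
    have h4 := (hd1 φ h2 h1 (hdok φ h1 hty)).2 hfin.toFinset (fun v => (hT v).trans (hRm φ v))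
    have hepos : (0 : ℝ) < (d φ₁ : ℝ) := by exact_mod_cast h12
    have h5 : (H38.ML.relDisc K (fieldOf i₀ φ) : ℝ) =
        (d φ₁ : ℝ) * (∏ v ∈ hfin.toFinset, (nm v : ℝ)) ^ H38.ML.indG G := by
      rw [h4, hdeq φ φ₁ h2 h1 h11 h10 h3]
      push_cast
      rfl
    have hP0 : (0 : ℝ) ≤ ∏ v ∈ hfin.toFinset, (nm v : ℝ) :=
      Finset.prod_nonneg fun v _ => Nat.cast_nonneg _
    have h6 : (H38.ML.relDisc K (fieldOf i₀ φ) : ℝ) ≤ B ↔ ∏ v ∈ hfin.toFinset, (nm v : ℝ) ≤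
        (B / (d φ₁ : ℝ)) ^ (1 / (H38.ML.indG G : ℝ)) := by
      rw [h5, mul_comm, ← le_div_iff₀ hepos, one_div, ← Real.rpow_natCast]
      rw [Real.le_rpow_inv_iff_of_pos hP0 (div_nonneg hB hepos.le) haR]
    rw [h6]
    constructor
    · intro h7
      exact ⟨⟨h1, h2, hov, hty, hfin.toFinset, hT, h7⟩, h3⟩
    · rintro ⟨⟨-, -, -, -, T, hT', h7⟩, -⟩
      have : T = hfin.toFinset := by
        ext v
        rw [hT' v, hT v]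
      rw [← this]
      exact h7
  -- the classes with the right behaviour at the large set
  set RE : Finset (Gal(QBar/K) →* G) :=
    Rs.filter fun φ₁ => ∀ v ∈ X.D.S0, (v ∈ E ↔ Nt Gm.g L φ₁ v) with hRE
  have hcover : ∀ B : ℝ, 0 ≤ B → Npsi G Gm K L i₀ X.φQ E B = ⋃ φ₁ ∈ RE,
      SYm Gm X φ₁ ((B / (d φ₁ : ℝ)) ^ (1 / (H38.ML.indG G : ℝ))) := by
    intro B hB
    ext φ
    simp only [Set.mem_iUnion, exists_prop]
    constructor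
    · rintro ⟨⟨h1, h2, h3, h4⟩, hov⟩
      obtain ⟨h5, h6⟩ := (esc_iff hp hζ hS L X.L X.P hLQ hXL Gm.g φ h1 E hE).1 h4
      have hfin : {v : Pl K | Rm X.L φ v}.Finite := H63.BU.uinr_fin X.L φ h1
      have hSY : φ ∈ SYf Gm X (∏ v ∈ hfin.toFinset, (nm v : ℝ)) :=
        ⟨h1, h2, hov, h5, hfin.toFinset, fun v => by
          rw [Set.Finite.mem_toFinset]
          rfl, le_rfl⟩
      obtain ⟨φ₁, h9, h11⟩ := hR2 φ _ hSY
      refine ⟨φ₁, Finset.mem_filter.2 ⟨h9, fun v hv => ?_⟩,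
        (hdisc φ₁ h9 φ h1 h2 hov h5 h11 B hB).1 h3⟩
      rw [h6 v hv, esc_cq L X.P hLQ Gm.g X.D.S0 Gm.T φ φ₁ h11 v hv]
    · rintro ⟨φ₁, h6, h7⟩
      obtain ⟨h8, h9⟩ := Finset.mem_filter.1 h6
      refine ⟨⟨h7.1.1, h7.1.2.1, (hdisc φ₁ h8 φ h7.1.1 h7.1.2.1 h7.1.2.2.1 h7.1.2.2.2.1 h7.2 B
        hB).2 h7, ?_⟩, h7.1.2.2.1⟩
      rw [esc_iff hp hζ hS L X.L X.P hLQ hXL Gm.g φ h7.1.1 E hE]
      refine ⟨h7.1.2.2.2.1, fun v hv => ?_⟩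
      rw [h9 v hv, esc_cq L X.P hLQ Gm.g X.D.S0 Gm.T φ φ₁ h7.2 v hv]
  have hfinX : ∀ φ₁ Y, (SYm Gm X φ₁ Y : Set (Gal(QBar/K) →* G)).Finite := fun φ₁ Y =>
    (syi Gm X hp hζ hz hA.fc (fun _ => True) Y).1.subset fun φ hφ => hφ.1
  have hmax : ∀ B, Npsi G Gm K L i₀ X.φQ E B ⊆ Npsi G Gm K L i₀ X.φQ E (max B 0) := fun B φ hφ =>
    ⟨⟨hφ.1.1, hφ.1.2.1, hφ.1.2.2.1.trans (le_max_left _ _), hφ.1.2.2.2⟩, hφ.2⟩
  refine ⟨fun B => ?_, ?_⟩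
  · refine Set.Finite.subset ?_ (hmax B)
    rw [hcover _ (le_max_right _ _)]
    exact Set.Finite.biUnion (Finset.finite_toSet _) fun φ₁ _ => hfinX _ _
  · have hl : ∀ φ₁ : Gal(QBar/K) →* G, ∃ l : ℝ, φ₁ ∈ Rs → 0 ≤ l ∧ Tendsto (fun Y : ℝ =>
        ((SYm Gm X φ₁ Y).ncard : ℝ) / (Y * Real.log Y ^ (N - 1))) atTop (𝓝 l) := by
      intro φ₁
      by_cases h : φ₁ ∈ Rs
      · obtain ⟨l, hl0, hl⟩ := hA.lim φ₁ (hR0 φ₁ h).1
        exact ⟨l, fun _ => ⟨hl0, hl⟩⟩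
      · exact ⟨0, fun h' => absurd h' h⟩
    choose l hl using hl
    have hfac : ∀ φ₁ ∈ RE, 0 < ((d φ₁ : ℝ) ^ (-(1 / (H38.ML.indG G : ℝ))) *
        (1 / (H38.ML.indG G : ℝ)) ^ (N - 1)) := by
      intro φ₁ h
      have h8 := (Finset.mem_filter.1 h).1
      have hepos : (0 : ℝ) < (d φ₁ : ℝ) := by exact_mod_cast (hR0 φ₁ h8).2.2
      exact mul_pos (Real.rpow_pos_of_pos hepos _) (pow_pos (one_div_pos.2 haR) _)
    have hterm : ∀ φ₁ ∈ RE, 0 ≤ l φ₁ * ((d φ₁ : ℝ) ^ (-(1 / (H38.ML.indG G : ℝ))) *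
        (1 / (H38.ML.indG G : ℝ)) ^ (N - 1)) := fun φ₁ h =>
      mul_nonneg (hl φ₁ (Finset.mem_filter.1 h).1).1 (hfac φ₁ h).le
    refine ⟨∑ φ₁ ∈ RE, l φ₁ * ((d φ₁ : ℝ) ^ (-(1 / (H38.ML.indG G : ℝ))) *
      (1 / (H38.ML.indG G : ℝ)) ^ (N - 1)), Finset.sum_nonneg fun φ₁ h => hterm φ₁ h, ?_, ?_⟩
    · have hsum := tendsto_finsetSum RE fun φ₁ hφ₁ =>
        cfin_lim (fun Y => ((SYm Gm X φ₁ Y).ncard : ℝ)) (l φ₁) (N - 1)
          (hl φ₁ (Finset.mem_filter.1 hφ₁).1).2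
          (H38.ML.indG G : ℝ) haR (d φ₁ : ℝ)
          (by exact_mod_cast (hR0 φ₁ (Finset.mem_filter.1 hφ₁).1).2.2)
      refine hsum.congr' ?_
      filter_upwards [eventually_ge_atTop 0] with B hB
      rw [← Finset.sum_div]
      congr 1
      rw [hcover B hB]
      have h1 : (⋃ φ₁ ∈ RE, SYm Gm X φ₁ ((B / (d φ₁ : ℝ)) ^ (1 / (H38.ML.indG G : ℝ))) :
          Set (Gal(QBar/K) →* G)) = ((RE.biUnion fun φ₁ =>
            (hfinX φ₁ ((B / (d φ₁ : ℝ)) ^ (1 / (H38.ML.indG G : ℝ)))).toFinset :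
              Finset (Gal(QBar/K) →* G)) : Set (Gal(QBar/K) →* G)) := by
        rw [Finset.coe_biUnion]
        refine Set.iUnion₂_congr fun φ₁ _ => ?_
        rw [Set.Finite.coe_toFinset]
      rw [h1, Set.ncard_coe_finset, Finset.card_biUnion]
      · push_cast
        refine Finset.sum_congr rfl fun φ₁ _ => ?_
        rw [Set.ncard_eq_toFinset_card _ (hfinX φ₁ _)]
      · intro φ₁ h1 φ₂ h2 hne
        refine Finset.disjoint_left.2 fun φ hφ hφ' => ?_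
        rw [Set.Finite.mem_toFinset] at hφ hφ'
        exact hne (hR3 φ₁ (Finset.mem_filter.1 h1).1 φ₂ (Finset.mem_filter.1 h2).1
          (cq_trans (cq_symm hφ.2) hφ'.2))
    · intro φ₁ Y₁ h1 h2 l₁ hl₁ hlim
      obtain ⟨φ₂, h3, h4⟩ := hR2 φ₁ Y₁ h1
      have h5 : φ₂ ∈ RE := Finset.mem_filter.2 ⟨h3, fun v hv => by
        rw [h2 v hv, esc_cq L X.P hLQ Gm.g X.D.S0 Gm.T φ₁ φ₂ h4 v hv]⟩
      have h6 : l φ₂ = l₁ := by
        refine tendsto_nhds_unique (hl φ₂ h3).2 (hlim.congr fun Y => ?_)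
        have h7 : SYm Gm X φ₁ Y = SYm Gm X φ₂ Y := by
          ext φ
          exact ⟨fun h => ⟨h.1, cq_trans h.2 h4⟩, fun h => ⟨h.1, cq_trans h.2 (cq_symm h4)⟩⟩
        rw [h7]
      refine Finset.sum_pos' (fun φ₁ h => hterm φ₁ h) ⟨φ₂, h5, ?_⟩
      rw [h6]
      exact mul_pos hl₁ (hfac φ₂ h5)

end H48.MF
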