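import Pool.Agent.H48.MF.Edm
import Pool.Agent.H48.MF.Abm
import Pool.Agent.H38.BG.AKn

/-!
# [H48 MF FNM] the asymptotic formula, 150-220 lines (as `fin_lim`, `fin_gen` in Pool/Agent/H51/TC/Fin.lean; copy). File Pool/Agent/H48/MF/Fnm.lean

* `HypX`: the existence of the fibres with their asymptotic formulas (proved in the chapters AR, FR).
* `fnm_lim`: as `fin_lim` (H51/TC/Fin.lean): `D` from `exists_RD_of` (here `D.toRD0`) for the primes over `n!` and `S₁`, `P` from `exists_DP`, `L` from `lds_of`. Finiteness from `hRG` word by word. `esm` for every `E` (limits `c E ≥ 0`), `edm` (`hX` with `η = 1` for `esm`), the sum over `E` (`hNE` with `NEm`; the set `E` of a `φ` of finite type exists because the set of ramified primes is finite: `uinr_fin`), dominated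
  convergence. The limit is `∑' E, c E`. Positivity: let `φ₀` be surjective of finite type (`hsur`), `E₀` its set of untyped primes: `φ₀ ∈ NEm E₀ B`, `B = relDisc`, so `c E₀ > 0`; `c E ≥ 0` for all `E`, and `c` is summable (`0 ≤ c E ≤ wt E`: limit of the bound in `edm`), so `∑' E, c E ≥ c E₀ > 0` (`Summable.le_tsum`-type lemma, `sum_le_tsum`).
* `fnm`: as `fin_gen`: `nk2`, `akn`, `abm`; `K₀ = K₃ ⊔ K₁` (no `amain`: positivity is in `fnm_lim`). `p ∣ #G` because `g i` has order `p` (`gp`, `gne`). `Z2 p K`, `MOne p K` are given by `hK`; `ζ` = a power of the primitive `#G`-th root `z` from `akn`. `hsur` from `akn`.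
-/

set_option autoImplicit false
set_option linter.dupNamespace false

open scoped NumberField
open IsDedekindDomain Filter Topology
open scoped Classical

noncomputable section

namespace H48.MF

open H63.MA H38.BB H38.BG H38.AS H57.PC H57.BRA H89.BRG H1.AR H38.ML H51.TC

/-- existence of the fibres with their asymptotic formulas -/
def HypX {p u w N : ℕ} {G R Q : Type} [Group G] [Group R] [Group Q] [Finite R] [Fintype Q]
    (Gm : GM p u w N G R Q) (K : IntermediateField ℚ QBar) [NumberField K] (ζ : K) : Prop :=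
  ∀ P : DP K QBar, ∃ S₁ : Finset (Pl K), ∀ S₀ : Finset (Pl K), (∀ v ∈ S₁, v ∈ S₀) →
    ∀ η : ℝ, 0 < η → ∃ C : ℝ, ∀ (E : Finset (Pl K)) (ψ : Gal(QBar/K) →* Q), FT ψ →
      Function.Surjective ψ →
      (∀ v, v ∉ S₀ ∪ E → ∀ τ ∈ (P.P v).inertia Gal(QBar/K), ψ τ = 1) →
      ∃ X : AD Gm.M K QBar ζ, X.φQ = ψ ∧ X.P = P ∧ LQ X.L P ∧ (∀ v ∈ S₀ ∪ E, v ∈ X.D.S0) ∧
        LimH Gm X ∧ ∃ U : ℝ, AnU Gm X U ∧
          (y0 Gm X : ℝ) * U ≤ C ^ (E.card + 1) * nr E ^ η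

theorem fnm_lim {n : ℕ} (hn : 2 ≤ n) (G : Subgroup (Equiv.Perm (Fin n)))
    (hG : MulAction.IsPretransitive G (Fin n)) {p : ℕ} (hp : p.Prime)
    (K : IntermediateField ℚ QBar) [NumberField K] (hp2 : MOne p K) {ζ : K}
    (hζ : IsPrimitiveRoot ζ p) (hz : Z2 p K) {u w N : ℕ} {R Q : Type} [Group R] [Group Q]
    [Finite R] [Fintype Q] (Gm : GM p u w N G R Q) (hN : 1 ≤ N)
    (hI : ∀ h : G, (h ≠ 1 ∧ ind (h : Equiv.Perm (Fin n)) = indG G) ↔ ∃ i, IsConj h (Gm.g i))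
    (hRG : RB K QBar G) (hRQ : RB K QBar Q) (hX : HypX Gm K ζ)
    (hsur : ∃ ρ : Gal(QBar/K) →* G, Function.Surjective ρ ∧ FT ρ) (i₀ : Fin n) :
    (∀ B, (CfinS G K i₀ B).Finite) ∧ ∃ c : ℝ, 0 < c ∧ Tendsto (fun B : ℝ =>
      ((CfinS G K i₀ B).ncard : ℝ) / (B ^ (1 / (indG G : ℝ)) * Real.log B ^ (N - 1)))
        atTop (𝓝 c) := by
  obtain ⟨ha, -, hmin, -, hJ⟩ := pidx_pos hn G hG
  have hfac : {v : Pl K | ((n.factorial : ℕ) : 𝓞 K) ∈ v.asIdeal}.Finite :=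
    finite_above (K := K) (Nat.factorial_ne_zero n)
  obtain ⟨P⟩ := exists_DP K QBar
  obtain ⟨S₁, hS₁⟩ := hX P
  obtain ⟨D, hD0⟩ := H38.BB.exists_RD_of K hp hp2 hζ (hfac.toFinset ∪ S₁)
  have hD : ∀ v : Pl K, ((n.factorial : ℕ) : 𝓞 K) ∈ v.asIdeal → v ∈ D.S0 := fun v hv =>
    hD0 v (Finset.mem_union_left _ (by
      rw [Set.Finite.mem_toFinset]
      exact hv))
  have hXD := hS₁ D.S0 fun v hv => hD0 v (Finset.mem_union_right _ hv)
  obtain ⟨L, hLQ⟩ := lds_of hp hζ D.toRD0 P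
  -- the sets are finite
  have hfin : ∀ B, (CfinS G K i₀ B).Finite := by
    obtain ⟨C, hC⟩ := rbl_of D.toRD0 L G hRG 1 one_pos
    have h1 : ∀ B, 1 ≤ B → (CfinS G K i₀ B).Finite := by
      intro B hB
      by_contra hinf
      obtain ⟨F, hF1, hF2⟩ := Set.Infinite.exists_subset_card_eq hinf
        (⌊C * B ^ (1 + 1 : ℝ)⌋₊ + 1)
      have h2 := hC B hB F (by
        intro φ hφ
        obtain ⟨h3, h4, h5⟩ := hF1 hφ
        refine ⟨h3, fun T hT => ?_⟩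
        refine le_trans ?_ ((dsm_lo hn G hG K D.toRD0 L i₀ φ h4 h3 T fun v hv =>
          (hT v hv).1).trans h5)
        unfold nr
        refine Finset.prod_le_prod (fun v _ => Nat.cast_nonneg _) fun v hv => ?_
        have h6 : (1 : ℝ) ≤ nm v := by exact_mod_cast (one_lt_nm v).le
        refine le_self_pow₀ h6 ?_
        have h7 : (inr L v).map φ ≠ ⊥ := by
          intro h
          obtain ⟨-, τ, hτ, hne⟩ := hT v hv
          have h8 : φ τ ∈ (inr L v).map φ := Subgroup.mem_map_of_mem φ hτ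
          rw [h] at h8
          exact hne (Subgroup.mem_bot.1 h8)
        have h9 := hJ _ h7
        omega)
      rw [hF2] at h2
      push_cast at h2
      have h3 := Nat.lt_floor_add_one (C * B ^ (1 + 1 : ℝ))
      linarith
    intro B
    refine (h1 (max B 1) (le_max_right _ _)).subset fun φ hφ =>
      ⟨hφ.1, hφ.2.1, hφ.2.2.trans (le_max_left _ _)⟩
  refine ⟨hfin, ?_⟩
  have hRBQ : RBL D.toRD0 L Q := rbl_of D.toRD0 L Q hRQ
  obtain ⟨wt, hw1, hw2, hw3⟩ := edm G K Gm L i₀ hn hG hp hp2 hζ hz hN hI hD P hLQ hRBQ hXD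
  have hE : ∀ E : Finset (Pl K), (∀ B, (NEm G K L Gm.g i₀ E B).Finite) ∧ ∃ c : ℝ, 0 ≤ c ∧
      Tendsto (fun B : ℝ => ((NEm G K L Gm.g i₀ E B).ncard : ℝ) /
        (B ^ (1 / (indG G : ℝ)) * Real.log B ^ (N - 1))) atTop (𝓝 c) := by
    intro E
    obtain ⟨C, hC⟩ := hXD 1 one_pos
    refine esm hn G hG hp K hp2 hζ hz Gm (fun h i hi => ((hI h).2 ⟨i, hi⟩).2) ha hD L P hLQ hRBQ
      i₀ E fun ψ h1 h2 h3 => ?_
    obtain ⟨X, h4, h5, h6, h7, h8, -⟩ := hC E ψ h1 h2 h3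
    exact ⟨X, h4, h5, h6, h7, h8⟩
  choose hEf c hc0 hEc using hE
  -- the sum over `E`
  have hex : ∀ φ : Gal(QBar/K) →* G, ∃ E : Finset (Pl K), FT φ →
      ∀ v, v ∈ E ↔ Nt Gm.g L φ v := by
    intro φ
    by_cases h : FT φ
    · have h1 : {v : Pl K | Nt Gm.g L φ v}.Finite :=
        (H63.BU.uinr_fin L φ h).subset fun v hv => hv.1
      refine ⟨h1.toFinset, fun _ v => ?_⟩
      rw [Set.Finite.mem_toFinset]
      rfl
    · exact ⟨∅, fun h' => absurd h' h⟩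
  have hsum : ∀ B : ℝ, ((CfinS G K i₀ B).ncard : ℝ) =
      ∑' E : Finset (Pl K), ((NEm G K L Gm.g i₀ E B).ncard : ℝ) := by
    intro B
    choose Ef hEf2 using hex
    have hNE : ∀ E, NEm G K L Gm.g i₀ E B = {φ ∈ CfinS G K i₀ B | Ef φ = E} := by
      intro E
      ext φ
      constructor
      · rintro ⟨h1, h2, h3, h4⟩
        refine ⟨⟨h1, h2, h3⟩, ?_⟩
        ext v
        rw [hEf2 φ h1 v, h4 v]
      · rintro ⟨⟨h1, h2, h3⟩, h4⟩
        refine ⟨h1, h2, h3, fun v => ?_⟩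
        rw [← h4]
        exact hEf2 φ h1 v
    rw [tsum_eq_sum (s := (hfin B).toFinset.image Ef)]
    · rw [Set.ncard_eq_toFinset_card _ (hfin B), Finset.card_eq_sum_card_image Ef]
      push_cast
      refine Finset.sum_congr rfl fun E _ => ?_
      congr 1
      rw [hNE E, ← Set.ncard_coe_finset]
      congr 1
      ext φ
      simp
    · intro E hE'
      rw [hNE E]
      have : {φ ∈ CfinS G K i₀ B | Ef φ = E} = ∅ := by
        rw [Set.eq_empty_iff_forall_notMem]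
        rintro φ ⟨h1, h2⟩
        apply hE'
        rw [Finset.mem_image]
        exact ⟨φ, (hfin B).mem_toFinset.2 h1, h2⟩
      rw [this, Set.ncard_empty, Nat.cast_zero]
  have hbd : ∀ᶠ B : ℝ in atTop, ∀ E : Finset (Pl K), ‖((NEm G K L Gm.g i₀ E B).ncard : ℝ) /
      (B ^ (1 / (indG G : ℝ)) * Real.log B ^ (N - 1))‖ ≤ wt E := by
    filter_upwards [eventually_ge_atTop (3 : ℝ)] with B hB E
    have hlog : 0 < Real.log B := Real.log_pos (by linarith)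
    have hP : 0 < B ^ (1 / (indG G : ℝ)) * Real.log B ^ (N - 1) :=
      mul_pos (Real.rpow_pos_of_pos (by linarith) _) (pow_pos hlog _)
    rw [Real.norm_of_nonneg (div_nonneg (Nat.cast_nonneg _) hP.le), div_le_iff₀ hP]
    exact hw3 B E hB (hEf E B)
  have hcw : ∀ E, c E ≤ wt E := fun E =>
    le_of_tendsto (hEc E) (by
      filter_upwards [hbd] with B hB
      exact (le_abs_self _).trans (hB E))
  have hcs : Summable c := Summable.of_nonneg_of_le hc0 hcw hw1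
  refine ⟨∑' E, c E, ?_, ?_⟩
  · obtain ⟨φ, hφs, hφf⟩ := hsur
    obtain ⟨E₀, hE₀⟩ := hex φ
    obtain ⟨C, hC⟩ := hXD 1 one_pos
    obtain ⟨hψ1, hψ2⟩ := esm_over G hp K hζ Gm L P hLQ i₀ E₀
      (H38.ML.relDisc K (H38.ML.fieldOf i₀ φ) : ℝ) φ ⟨hφf, hφs, le_refl _, hE₀ hφf⟩
    obtain ⟨X, hX1, hX2, hX3, hX4, hX5, -⟩ := hC E₀ _ hψ1.1.1 hψ1.2 hψ2
    have hS : ∀ v ∈ D.toRD0.S0, v ∈ X.D.S0 := fun v hv => hX4 v (Finset.mem_union_left _ hv)
    have hXQ : LQ X.L P := hX3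
    have hE₀X : ∀ v ∈ E₀, v ∈ X.D.S0 := fun v hv => hX4 v (Finset.mem_union_right _ hv)
    obtain ⟨h5, -⟩ := (esc_iff hp hζ hS L X.L P hLQ hXQ Gm.g φ hφf E₀ hE₀X).1 (hE₀ hφf)
    have hfinR : {v : Pl K | Rm X.L φ v}.Finite := H63.BU.uinr_fin X.L φ hφf
    have hSY : φ ∈ SYf Gm X (∏ v ∈ hfinR.toFinset, (nm v : ℝ)) :=
      ⟨hφf, hφs, fun σ => by rw [hX1]; rfl, h5, hfinR.toFinset, fun v => by
        rw [Set.Finite.mem_toFinset]
        rfl, le_rfl⟩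
    obtain ⟨φ₂, Y₂, hφ₂, l₂, hl₂, hlim₂⟩ := hX5.pos φ _ hSY
    obtain ⟨E₂, hE₂⟩ := hex φ₂
    have hE₂' := hE₂ hφ₂.1
    have hE₂X : ∀ v ∈ E₂, v ∈ X.D.S0 := by
      intro v hv
      by_contra hvX
      have h6 := (hE₂' v).1 hv
      obtain ⟨h7, h7'⟩ := esc_ty hp hζ hS L X.L P hLQ hXQ Gm.g φ₂ hφ₂.1 v hvX
      obtain ⟨i, hi⟩ := hφ₂.2.2.2.1 v (h7.1 h6.1)
      exact h6.2 i ((h7' i).2 hi)
    obtain ⟨-, c', -, hc', hcp⟩ := esp hn G hG hp K hp2 hζ hz Gm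
      (fun h i hi => ((hI h).2 ⟨i, hi⟩).2) ha hD L P hLQ i₀ E₂ X hX2 hXQ hS hE₂X hX5
    have h8 : 0 < c' := hcp φ₂ Y₂ hφ₂ (fun v _ => hE₂' v) l₂ hl₂ hlim₂
    have h9 : c' ≤ c E₂ := by
      refine le_of_tendsto_of_tendsto hc' (hEc E₂) ?_
      filter_upwards [eventually_ge_atTop (1 : ℝ)] with B hB
      refine div_le_div_of_nonneg_right ?_ (mul_nonneg (Real.rpow_nonneg (by linarith) _)
        (pow_nonneg (Real.log_nonneg hB) _))
      have h10 : Npsi G Gm K L i₀ X.φQ E₂ B ⊆ NEm G K L Gm.g i₀ E₂ B := fun φ' hφ' => hφ'.1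
      exact_mod_cast Set.ncard_le_ncard h10 (hEf E₂ B)
    exact (h8.trans_le h9).trans_le (hcs.le_tsum E₂ fun E _ => hc0 E)
  have hdom := tendsto_tsum_of_dominated_convergence (𝓕 := (atTop : Filter ℝ))
    (f := fun B E => ((NEm G K L Gm.g i₀ E B).ncard : ℝ) /
      (B ^ (1 / (indG G : ℝ)) * Real.log B ^ (N - 1))) (g := c) (bound := wt) hw1
    (fun E => hEc E) hbd
  refine hdom.congr fun B => ?_
  rw [hsum B, tsum_div_const]

theorem fnm {n : ℕ} (hn : 2 ≤ n) (G : Subgroup (Equiv.Perm (Fin n)))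
    (hG : MulAction.IsPretransitive G (Fin n)) {p : ℕ} (hp : p.Prime) {u w N : ℕ}
    {R Q : Type} [Group R] [Group Q] [Finite R] [Fintype Q] (Gm : GM p u w N G R Q)
    (hN : 1 ≤ N)
    (hI : ∀ h : G, (h ≠ 1 ∧ ind (h : Equiv.Perm (Fin n)) = indG G) ↔ ∃ i, IsConj h (Gm.g i))
    (K₃ : IntermediateField ℚ QBar) (hK₃ : NumberField K₃)
    (hK : ∀ K : IntermediateField ℚ QBar, K₃ ≤ K → ∀ _ : NumberField K,
      RB K QBar G ∧ RB K QBar Q ∧ Z2 p K ∧ MOne p K ∧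
        ∀ ζ : K, IsPrimitiveRoot ζ p → HypX Gm K ζ) :
    ∃ K₀ : IntermediateField ℚ QBar, NumberField K₀ ∧
      ∀ K : IntermediateField ℚ QBar, K₀ ≤ K → ∀ _ : NumberField K,
        ∃ C : ℝ, 0 < C ∧ ∃ k : ℝ → ℕ, (∀ B : ℝ, Spec.nK K QBar G B = (k B : ℕ∞)) ∧
          Tendsto (fun B : ℝ => (k B : ℝ) /
            (B ^ (1 / (Spec.indG G : ℝ)) * Real.log B ^ (Spec.betaAll K QBar G - 1)))
            atTop (𝓝 C) := by
  have hcardpos : 0 < Nat.card G := Nat.card_pos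
  have hpd : p ∣ Nat.card G := by
    have h3 : orderOf (Gm.g ⟨0, hN⟩) = p :=
      orderOf_eq_prime (Gm.gp ⟨0, hN⟩) (Gm.gne ⟨0, hN⟩) (hp := ⟨hp⟩)
    rw [← h3]
    exact orderOf_dvd_natCard _
  have i₀ : Fin n := ⟨0, by omega⟩
  obtain ⟨c₀, hc₀, hnk⟩ := nk2 G hG
  obtain ⟨K₁, hK₁, hK1⟩ := akn G
  haveI : FiniteDimensional ℚ K₁ := hK₁.to_finiteDimensional
  haveI : FiniteDimensional ℚ K₃ := hK₃.to_finiteDimensional
  refine ⟨K₃ ⊔ K₁, numberField_of_finite _, fun K hKK hKf => ?_⟩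
  have hK1K : K₁ ≤ K := le_sup_right.trans hKK
  have hK3K : K₃ ≤ K := le_sup_left.trans hKK
  obtain ⟨hsur, ⟨z, hz⟩, i, hi⟩ := hK1 K hK1K hKf
  obtain ⟨hRG, hRQ, hZ2, hp2, hHX⟩ := hK K hK3K hKf
  obtain ⟨r, hr⟩ := hpd
  have hζ : IsPrimitiveRoot (z ^ r) p := hz.pow hcardpos (by rw [hr]; ring)
  obtain ⟨hfin, c, hcpos, hcl⟩ := fnm_lim hn G hG hp K hp2 hζ hZ2 Gm hN hI hRG hRQ
    (hHX (z ^ r) hζ) hsur i₀
  have hβ := abm G K z hz Gm.g Gm.uni hI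
  have hk : ∀ B : ℝ, ∃ k : ℕ, Spec.nK K QBar G B = (k : ℕ∞) ∧
      k * c₀ = (CfinS G K i₀ B).ncard := fun B => hnk K hKf i₀ B (hfin B)
  choose k hk1 hk2 using hk
  have hc₀R : (0 : ℝ) < (c₀ : ℝ) := by exact_mod_cast hc₀
  have hlim : Tendsto (fun B : ℝ => (k B : ℝ) /
        (B ^ (1 / (Spec.indG G : ℝ)) * Real.log B ^ (Spec.betaAll K QBar G - 1)))
        atTop (𝓝 (c / (c₀ : ℝ))) := by
    refine (hcl.div_const (c₀ : ℝ)).congr fun B => ?_
    rw [← hk2 B, hβ]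
    push_cast
    have : H38.ML.indG G = Spec.indG G := rfl
    rw [this]
    field_simp
  exact ⟨c / (c₀ : ℝ), div_pos hcpos hc₀R, k, hk1, hlim⟩

end H48.MF
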