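import Pool.Agent.H48.MF.Ing
import Pool.Agent.H1.AR.RkD

/-!
# [H48 MF YOB] the number of characters unramified outside S0, 60-100 lines. File Pool/Agent/H48/MF/Yob.lean

`chbU D L (Wg p w)`: characters `χ : Γ → Wg p w = Multiplicative (Fin w → ZMod p)` of finite type with `χ (L.t v) = 1` for `v ∉ S0`. Let `n = [K : ℚ]`. The map `χ ↦ (k ↦ (σ ↦ toAdd (χ σ) k))` is an injection into `Fin w → AU p (InS S0) ⊤` (Pool/Agent/H1/AR/RkA.lean): finite level (`FT`), additive, and `0` on `InS S0`: `χ = 1` on `inr L v`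
(`lab_in`, Ing.lean), `inr L v` is the inertia group of `(L.ld v hv).P` (`dif_pos`) and the other primes over `v` are conjugate (`ltr_conj`, H57/BRA/Ltr.lean; commutative values: conjugation does not change `χ τ`; or `ing_conj`, second clause). `#AU = p ^ finrank ≤ p ^ (2 #S0 + n)` (`Module.card_eq_pow_finrank`, `rk_base`; `ClP p D.S0` from `D.pi_self`, `D.pi_ne`).
-/

set_option autoImplicit false
set_option linter.dupNamespace false

open scoped NumberField
open IsDedekindDomain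
open scoped Classical

noncomputable section

namespace H48.MF

open H63.MA H38.BB H38.BG H38.AS H57.PC H57.BRA H89.BRG H1.AR

theorem yob {K : Type} [Field K] [NumberField K] {Ω : Type} [Field Ω] [Algebra K Ω]
    [IsAlgClosure K Ω] {p : ℕ} {ζ : K} (hp : p.Prime) (hp2 : MOne p K)
    (hζ : IsPrimitiveRoot ζ p) (D : RD0 K p ζ) (L : LDs D Ω) (w : ℕ) :
    Nat.card (chbU D L (Wg p w)) ≤ (p ^ (2 * D.S0.card + Module.finrank ℚ K)) ^ w := by
  haveI : Fact p.Prime := ⟨hp⟩
  haveI : NeZero p := ⟨hp.ne_zero⟩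
  have hcl : ClP p D.S0 := by
    intro v hv
    refine ⟨D.pi v, D.pi_self v hv, fun z hz hne => ?_⟩
    rw [D.pi_ne v z hv hz hne, Int.cast_zero]
  obtain ⟨hfin, hrk⟩ := rk_base (Ω := Ω) hp hp2 hζ D.S0 D.above hcl
  haveI : Finite (AU p (InS (Ω := Ω) D.S0) ⊤) := Module.finite_of_finite (ZMod p)
  haveI : Fintype (AU p (InS (Ω := Ω) D.S0) ⊤) := Fintype.ofFinite _
  have hmem : ∀ (χ : chbU D L (Wg p w)) (k : Fin w),
      (fun σ => Multiplicative.toAdd (χ.1 σ) k) ∈ AU p (InS (Ω := Ω) D.S0) ⊤ := by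
    rintro ⟨χ, ⟨E, hE, hlev⟩, hχ⟩ k
    refine ⟨⟨E, hE, fun σ u hu => ?_⟩, fun σ hσ => absurd (Subgroup.mem_top σ) hσ,
      fun σ _ τ _ => ?_, ?_⟩
    · have h : χ u = 1 := hlev hu
      change Multiplicative.toAdd (χ (σ * u)) k = Multiplicative.toAdd (χ σ) k
      rw [map_mul, h, mul_one]
    · change Multiplicative.toAdd (χ (σ * τ)) k = Multiplicative.toAdd (χ σ) k +
        Multiplicative.toAdd (χ τ) k
      rw [map_mul, toAdd_mul]
      rfl
    · rintro σ ⟨v, hv, P, hP, hP', hσ⟩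
      have h1 := (lab_in hp hζ L wg_pow χ ⟨E, hE, hlev⟩ v hv).2 (hχ v hv)
      have h2 := (ing_conj (p := p) L hv hP hP' χ).2.1 h1 σ hσ
      change Multiplicative.toAdd (χ σ) k = 0
      rw [h2]
      rfl
  have hinj : Function.Injective fun (χ : chbU D L (Wg p w)) (k : Fin w) =>
      (⟨fun σ => Multiplicative.toAdd (χ.1 σ) k, hmem χ k⟩ : AU p (InS (Ω := Ω) D.S0) ⊤) := by
    intro χ χ' h
    apply Subtype.ext
    apply MonoidHom.ext
    intro σ
    apply Multiplicative.toAdd.injective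
    funext k
    have h1 := congrArg Subtype.val (congrFun h k)
    exact congrFun h1 σ
  refine (Nat.card_le_card_of_injective _ hinj).trans ?_
  rw [Nat.card_fun, Nat.card_eq_fintype_card, Nat.card_eq_fintype_card, Fintype.card_fin,
    Module.card_eq_pow_finrank (K := ZMod p), ZMod.card]
  exact Nat.pow_le_pow_left (Nat.pow_le_pow_right hp.pos hrk) w

end H48.MF
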