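import Pool.Agent.H48.MF.Any
import Pool.Agent.H48.MF.Yob
import Pool.Agent.H48.MF.Fnm
import Pool.Agent.H1.AR.Exi

/-!
# [H48 MF EXF] existence of the fibres with their asymptotic formulas, 130-200 lines. File Pool/Agent/H48/MF/Exf.lean

* `exf_log`: `(1 + log x) ^ k ≤ C x ^ η` for `x ≥ 1` (`Real.add_one_le_exp`, `Real.log_le_rpow_div`-type lemmas: `log x ≤ x ^ ε / ε`).
* `exf_bd` (real numbers): given `A`, `B`, `w`, `p`, `n`, `C₁`, a finite set `S₀` and `η > 0` there is `C` such that for every `E`, with `e = #(S₀ ∪ E)`, `q = ∏_{v ∈ S₀ ∪ E} nm v`: if `s ≤ A (e + 1)`, `1 ≤ D`, `log D ≤ A (1 + log q)^2`, `qq ≤ A^(e+1)` then `(p ^ (2 s + n)) ^ w * (C₁ qq ^ B * log (3 + D) ^ B) ≤ C ^ (#E + 1) * nr E ^ η`: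
  `e ≤ #S₀ + #E`, `q ≤ nr S₀ * nr E` (`nm ≥ 1`), `log (3 + D) ≤ log 4 + log D`.
* `exf`: let `P` be given, `T00, A` from `exi`, `S₁ = T00`. For `S₀ ≥ T00`, `η`: `C` from `exf_bd` with `C₁, B` from `anu` (`d = Fintype.card Q`). For `E, ψ`: `exi` with `S₀ ∪ E` (the primes `P'` over `v ∉ S₀ ∪ E`: `ltr_conj`-type: `P' = g (P.P v)`, the inertia groups are conjugate; `∃ g` from the transitivity of `Gal(Ω/K)` on the primes over `v`, as in `ing_conj`) gives `X`;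
  `anl`, `anu`, `yob`.
-/

set_option autoImplicit false
set_option linter.dupNamespace false

open scoped NumberField
open IsDedekindDomain Filter Topology
open scoped Classical

noncomputable section

namespace H48.MF

open H63.MA H38.BB H38.BG H38.AS H57.PC H57.BRA H89.BRG H1.AR H38.ML H51.TC

theorem exf_log (k : ℕ) (η : ℝ) (hη : 0 < η) : ∃ C : ℝ, 1 ≤ C ∧ ∀ x : ℝ, 1 ≤ x →
    (1 + Real.log x) ^ k ≤ C * x ^ η := by
  obtain ⟨ε, hε⟩ : ∃ ε : ℝ, ε = η / (k + 1) := ⟨_, rfl⟩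
  have hk : (0 : ℝ) < (k : ℝ) + 1 := by positivity
  have hε0 : 0 < ε := by
    rw [hε]
    positivity
  have hεk : ε * k ≤ η := by
    rw [hε, div_mul_eq_mul_div, div_le_iff₀ hk]
    nlinarith
  have hi : 0 < 1 / ε := by positivity
  refine ⟨(1 + 1 / ε) ^ k, one_le_pow₀ (by linarith), fun x hx => ?_⟩
  have hx0 : 0 < x := by linarith
  have h1 : Real.log x ≤ x ^ ε / ε := Real.log_le_rpow_div hx0.le hε0
  have h2 : 1 ≤ x ^ ε := Real.one_le_rpow hx hε0.le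
  have h3 : 1 + Real.log x ≤ (1 + 1 / ε) * x ^ ε := by
    rw [add_mul, one_mul, one_div, inv_mul_eq_div]
    linarith
  have h0 : 0 ≤ 1 + Real.log x := by
    have := Real.log_nonneg hx
    linarith
  calc (1 + Real.log x) ^ k ≤ ((1 + 1 / ε) * x ^ ε) ^ k := pow_le_pow_left₀ h0 h3 k
    _ = (1 + 1 / ε) ^ k * x ^ (ε * k) := by
        rw [mul_pow, ← Real.rpow_natCast (x ^ ε), ← Real.rpow_mul hx0.le]
    _ ≤ _ := mul_le_mul_of_nonneg_left (Real.rpow_le_rpow_of_exponent_le hx hεk) (by positivity)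

theorem exf_bd {K : Type} [Field K] [NumberField K] (A B w p n : ℕ) (hA : 1 ≤ A) (hp : 1 ≤ p)
    (C₁ : ℝ) (hC₁ : 1 ≤ C₁) (S₀ : Finset (Pl K)) (η : ℝ) (hη : 0 < η) :
    ∃ C : ℝ, ∀ (E : Finset (Pl K)) (s : ℕ) (D qq : ℝ), s ≤ A * ((S₀ ∪ E).card + 1) → 1 ≤ D →
      Real.log D ≤ A * (1 + Real.log (∏ v ∈ S₀ ∪ E, (nm v : ℝ))) ^ 2 → 1 ≤ qq →
      qq ≤ (A : ℝ) ^ ((S₀ ∪ E).card + 1) →
      (((p ^ (2 * s + n)) ^ w : ℕ) : ℝ) * (C₁ * qq ^ B * Real.log (3 + D) ^ B) ≤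
        C ^ (E.card + 1) * nr E ^ η := by
  obtain ⟨C', hC', hlog⟩ := exf_log (2 * B) η hη
  obtain ⟨q0, hq0⟩ : ∃ q0 : ℝ, q0 = ∏ v ∈ S₀, (nm v : ℝ) := ⟨_, rfl⟩
  have hge : ∀ F : Finset (Pl K), (1 : ℝ) ≤ ∏ v ∈ F, (nm v : ℝ) := by
    intro F
    have h : 1 ≤ ∏ v ∈ F, nm v := Nat.one_le_iff_ne_zero.2
      (Finset.prod_ne_zero_iff.2 fun v _ => by
        have := one_lt_nm v
        omega)
    exact_mod_cast h
  have hq0' : 1 ≤ q0 := by
    rw [hq0]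
    exact hge S₀
  have hlq0 : 0 ≤ Real.log q0 := Real.log_nonneg hq0'
  have hA1 : (1 : ℝ) ≤ A := by exact_mod_cast hA
  have hp1 : (1 : ℝ) ≤ p := by exact_mod_cast hp
  obtain ⟨s0, hs0⟩ : ∃ s0, s0 = S₀.card + 1 := ⟨_, rfl⟩
  obtain ⟨c1, hc1⟩ : ∃ c1 : ℝ, c1 = (p : ℝ) ^ ((2 * (A * s0) + n) * w) := ⟨_, rfl⟩
  obtain ⟨c2, hc2⟩ : ∃ c2 : ℝ, c2 = (A : ℝ) ^ (s0 * B) := ⟨_, rfl⟩
  obtain ⟨c3, hc3⟩ : ∃ c3 : ℝ, c3 = (((A : ℝ) + 2) * (1 + Real.log q0) ^ 2) ^ B := ⟨_, rfl⟩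
  have hc1' : 1 ≤ c1 := by
    rw [hc1]
    exact one_le_pow₀ hp1
  have hc2' : 1 ≤ c2 := by
    rw [hc2]
    exact one_le_pow₀ hA1
  have hc3' : 1 ≤ c3 := by
    rw [hc3]
    exact one_le_pow₀ (by nlinarith)
  refine ⟨c1 * c2 * (C₁ * c3 * C'), fun E s D qq hs hD1 hD2 hq1 hq2 => ?_⟩
  obtain ⟨m, hm⟩ : ∃ m, m = E.card + 1 := ⟨_, rfl⟩
  have hk : (S₀ ∪ E).card + 1 ≤ s0 * m := by
    have h := Finset.card_union_le S₀ E
    rw [hs0, hm]
    nlinarith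
  have h1 : (((p ^ (2 * s + n)) ^ w : ℕ) : ℝ) ≤ c1 ^ m := by
    have h : (p ^ (2 * s + n)) ^ w ≤ p ^ ((2 * (A * s0) + n) * w * m) := by
      rw [← pow_mul]
      refine Nat.pow_le_pow_right hp ?_
      have h2 : 2 * s + n ≤ (2 * (A * s0) + n) * m := by
        have h3 : s ≤ A * (s0 * m) := hs.trans (Nat.mul_le_mul_left _ hk)
        have h4 : n ≤ n * m := Nat.le_mul_of_pos_right _ (by omega)
        calc 2 * s + n ≤ 2 * (A * (s0 * m)) + n * m := by omega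
          _ = _ := by ring
      calc (2 * s + n) * w ≤ (2 * (A * s0) + n) * m * w := Nat.mul_le_mul_right _ h2
        _ = _ := by ring
    calc (((p ^ (2 * s + n)) ^ w : ℕ) : ℝ) ≤ ((p ^ ((2 * (A * s0) + n) * w * m) : ℕ) : ℝ) :=
          Nat.cast_le.2 h
      _ = c1 ^ m := by
          rw [hc1, ← pow_mul]
          push_cast
          rfl
  have h2 : qq ^ B ≤ c2 ^ m := by
    rw [hc2, ← pow_mul]
    calc qq ^ B ≤ ((A : ℝ) ^ ((S₀ ∪ E).card + 1)) ^ B := pow_le_pow_left₀ (by linarith) hq2 B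
      _ = (A : ℝ) ^ (((S₀ ∪ E).card + 1) * B) := by rw [pow_mul]
      _ ≤ (A : ℝ) ^ (s0 * B * m) := pow_le_pow_right₀ hA1 (by
          calc ((S₀ ∪ E).card + 1) * B ≤ s0 * m * B := Nat.mul_le_mul_right _ hk
            _ = _ := by ring)
  have hnE : 1 ≤ nr E := hge E
  have hlE : 0 ≤ Real.log (nr E) := Real.log_nonneg hnE
  have h3 : Real.log (3 + D) ^ B ≤ c3 * (C' * nr E ^ η) := by
    have hq : (∏ v ∈ S₀ ∪ E, (nm v : ℝ)) ≤ q0 * nr E := by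
      have h := Finset.prod_union_inter (s₁ := S₀) (s₂ := E) (f := fun v => (nm v : ℝ))
      rw [hq0]
      unfold nr
      rw [← h]
      exact le_mul_of_one_le_right (by have := hge (S₀ ∪ E); linarith) (hge _)
    obtain ⟨L, hL⟩ : ∃ L : ℝ, L = Real.log (∏ v ∈ S₀ ∪ E, (nm v : ℝ)) := ⟨_, rfl⟩
    have hL0 : 0 ≤ L := by
      rw [hL]
      exact Real.log_nonneg (hge _)
    have hL1 : L ≤ Real.log q0 + Real.log (nr E) := by
      rw [hL, ← Real.log_mul (by linarith) (by linarith)]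
      exact Real.log_le_log (by have := hge (S₀ ∪ E); linarith) hq
    have hL2 : 1 + L ≤ (1 + Real.log q0) * (1 + Real.log (nr E)) := by nlinarith
    have hL3 : (1 + L) ^ 2 ≤ ((1 + Real.log q0) * (1 + Real.log (nr E))) ^ 2 :=
      pow_le_pow_left₀ (by linarith) hL2 2
    have hL4 : 1 ≤ ((1 + Real.log q0) * (1 + Real.log (nr E))) ^ 2 :=
      le_trans (by nlinarith) hL3
    have hlD : Real.log (3 + D) ≤ 2 + Real.log D := by
      have h4 : Real.log (3 + D) ≤ Real.log (4 * D) :=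
        Real.log_le_log (by linarith) (by linarith)
      rw [Real.log_mul (by norm_num) (by linarith)] at h4
      have h5 : Real.log 4 ≤ 2 := by
        have h6 : (4 : ℝ) = 2 ^ 2 := by norm_num
        rw [h6, Real.log_pow]
        have := Real.log_two_lt_d9
        push_cast
        linarith
      linarith
    rw [← hL] at hD2
    have hlD2 : Real.log (3 + D) ≤
        ((A : ℝ) + 2) * (1 + Real.log q0) ^ 2 * (1 + Real.log (nr E)) ^ 2 := by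
      have h5 : (A : ℝ) * (1 + L) ^ 2 ≤
          A * ((1 + Real.log q0) * (1 + Real.log (nr E))) ^ 2 :=
        mul_le_mul_of_nonneg_left hL3 (by linarith)
      calc Real.log (3 + D) ≤ 2 * ((1 + Real.log q0) * (1 + Real.log (nr E))) ^ 2 +
          A * ((1 + Real.log q0) * (1 + Real.log (nr E))) ^ 2 := by linarith
        _ = _ := by ring
    have hl0 : 0 ≤ Real.log (3 + D) := Real.log_nonneg (by linarith)
    calc Real.log (3 + D) ^ B ≤
        (((A : ℝ) + 2) * (1 + Real.log q0) ^ 2 * (1 + Real.log (nr E)) ^ 2) ^ B :=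
          pow_le_pow_left₀ hl0 hlD2 B
      _ = c3 * (1 + Real.log (nr E)) ^ (2 * B) := by rw [mul_pow, ← pow_mul, hc3]
      _ ≤ c3 * (C' * nr E ^ η) := mul_le_mul_of_nonneg_left (hlog _ hnE) (by linarith)
  have hx0 : 0 ≤ nr E ^ η := Real.rpow_nonneg (by linarith) _
  have hl0 : 0 ≤ Real.log (3 + D) := Real.log_nonneg (by linarith)
  have hK1 : 1 ≤ C₁ * c3 * C' := by
    have h4 : 1 ≤ C₁ * c3 := one_le_mul_of_one_le_of_one_le hC₁ hc3'
    exact one_le_mul_of_one_le_of_one_le h4 hC'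
  have hc10 : 0 ≤ c1 ^ m := by positivity
  have hc20 : 0 ≤ c2 ^ m := by positivity
  have hC10 : 0 ≤ C₁ := by linarith
  have hqq0 : 0 ≤ qq ^ B := pow_nonneg (by linarith) _
  rw [← hm]
  calc (((p ^ (2 * s + n)) ^ w : ℕ) : ℝ) * (C₁ * qq ^ B * Real.log (3 + D) ^ B) ≤
      c1 ^ m * (C₁ * c2 ^ m * (c3 * (C' * nr E ^ η))) := by
        refine mul_le_mul h1 ?_ (by positivity) hc10
        exact mul_le_mul (mul_le_mul_of_nonneg_left h2 hC10) h3 (by positivity) (by positivity)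
    _ = (c1 * c2) ^ m * (C₁ * c3 * C') * nr E ^ η := by
        rw [mul_pow]
        ring
    _ ≤ (c1 * c2) ^ m * (C₁ * c3 * C') ^ m * nr E ^ η := by
        refine mul_le_mul_of_nonneg_right ?_ hx0
        refine mul_le_mul_of_nonneg_left ?_ (by positivity)
        exact le_self_pow₀ hK1 (by omega)
    _ = _ := by rw [← mul_pow]

theorem exf_in {K : Type} [Field K] [NumberField K] {Ω : Type} [Field Ω] [Algebra K Ω]
    [IsAlgClosure K Ω] (P : DP K Ω) {H : Type} [Group H] (ψ : Gal(Ω/K) →* H) (v : Pl K)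
    (h : ∀ τ ∈ (P.P v).inertia Gal(Ω/K), ψ τ = 1) (P' : Ideal (𝓞 Ω)) (hP' : P'.IsPrime)
    (hu : P'.under (𝓞 K) = v.asIdeal) : ∀ τ ∈ P'.inertia Gal(Ω/K), ψ τ = 1 := by
  intro τ hτ
  obtain ⟨g, hg⟩ := ltr_conj (P.prime v) hP' (P.under v) hu
  have h1 : g⁻¹ * τ * g ∈ (P.P v).inertia Gal(Ω/K) := by
    intro x
    have h2 : (g⁻¹ * τ * g) • x - x = g⁻¹ • (τ • (g • x) - g • x) := by
      rw [smul_sub, mul_smul, mul_smul, inv_smul_smul]
    rw [h2]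
    exact (hg _).1 (hτ (g • x))
  have h3 := h _ h1
  have h4 : ψ τ = ψ g * ψ (g⁻¹ * τ * g) * (ψ g)⁻¹ := by
    rw [← map_inv, ← map_mul, ← map_mul]
    congr 1
    group
  rw [h4, h3, mul_one, mul_inv_cancel]

theorem exf {p u w N : ℕ} {G R Q : Type} [Group G] [Group R] [Group Q] [Finite G] [Finite R]
    [Fintype Q] (Gm : GM p u w N G R Q) (hN : 1 ≤ N) {P0 : Type} [Group P0] [Finite P0]
    (hP : IsPGroup p P0) (f : Q →* P0) (hf : ∀ j, f.ker ≤ Gm.M.H j) (hp : p.Prime)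
    (K : IntermediateField ℚ QBar) [NumberField K] (hp2 : MOne p K) (hz : Z2 p K) (ζ : K)
    (hζ : IsPrimitiveRoot ζ p) (hL : ∀ (X : AD Gm.M K QBar ζ) (_ : Fintype (Co X)) (d : ℕ)
      (D qq : ℝ), FI X d D qq → LimH Gm X) : HypX Gm K ζ := by
  intro P
  obtain ⟨T00, A, -, hA, hexi⟩ := exi Gm.M hP f hf K QBar hp hp2 hζ hz
  obtain ⟨C₁, B, hC₁, hanu⟩ := anu Gm hp hN K hp2 hζ QBar (Fintype.card Q)
  refine ⟨T00, fun S₀ hS₀ η hη => ?_⟩
  obtain ⟨C, hC⟩ := exf_bd A B w p (Module.finrank ℚ K) hA hp.one_lt.le C₁ hC₁ S₀ η hη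
  refine ⟨C, fun E ψ hft hsur hur => ?_⟩
  obtain ⟨X, hfin, D, qq, hX1, hX2, hX3, hX4, hX5, -, hX7, hX8, hX9⟩ := hexi ψ hft hsur P
    (S₀ ∪ E) (fun v hv => Finset.mem_union_left _ (hS₀ v hv)) hur
  rw [hX2] at hX3
  refine ⟨X, hX1, hX2, hX3, fun v hv => hX4 hv, hL X hfin _ D qq hX7, _, hanu X hfin D qq hX7, ?_⟩
  have hy : (y0 Gm X : ℝ) ≤ (((p ^ (2 * X.D.S0.card + Module.finrank ℚ K)) ^ w : ℕ) : ℝ) := by
    exact_mod_cast yob hp hp2 hζ X.D X.L w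
  have hD1 := hX7.one_le_D
  have hq1 := hX7.one_le_qq
  refine (mul_le_mul_of_nonneg_right hy ?_).trans
    (hC E X.D.S0.card D qq hX5 hX7.one_le_D hX8 hX7.one_le_qq hX9)
  have hl0 : 0 ≤ Real.log (3 + D) := Real.log_nonneg (by linarith)
  have hC10 : 0 ≤ C₁ := by linarith
  have hq0 : 0 ≤ qq := by linarith
  positivity

end H48.MF
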