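import Pool.Agent.H48.MF.Cen
import Pool.Agent.H63.MA.AKC

/-!
# [H48 MF FTA] Fourier analysis in the classes of the central labels, 150-220 lines. File Pool/Agent/H48/MF/Fta.lean

`A` = the finite group of the `κ : (j : Fin N) → Fin r_j → ZMod p`; `pai κ κ' = ∑ j, dt (κ j) (κ' j)`; `ftc f κ = ∑ κ', f κ' * ep (-pai κ κ')`.
* `ft_inv`: Fourier inversion: as `msm_inv` (Pool/Agent/H38/AS/MSum.lean) or `akc_inv` (H63/MA/AKC.lean); the group is `(ι → ZMod p)` with `ι = Σ j, Fin r_j` (`Equiv.piCurry`), so `akc_inv` can be transported (`akcC` there).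
* `ft_zero`: if `f κ' = f κ''` whenever `κ' j = κ'' j` for all `j ≠ j₀` and `κ j₀ ≠ 0` then `ftc f κ = 0`: translate by an element `t` in the coordinate `j₀` with `dt (κ j₀) t ≠ 0`; the sum is multiplied by `ep (- dt (κ j₀) t) ≠ 1` (`akc_shift`; `ep` of a nonzero element is not `1`).
* `ft_le`: `‖ep‖ = 1`.
* `hcf κ c g' = ftc (κ' ↦ Ph φ₁ (rh c g') g' κ') κ / ∏_{a ∈ g'} #Del a.1`.
* `hcf_nc`: `ft_zero` with `ph_con` (`κ j₀ ≠ 0` for a class `j₀` which is not central; `Ph` depends only on the central coordinates).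
* `hcf_le`: `|Ph| ≤ #LS` (`ph_le`, `lst`: finite) and `#LS = y0 ∏ #Del` or `0` (`lst`, with `rh_tw`); `#Del > 0` (`rt_pos`).
* `hcf_zero`: for `κ = 0`: `ftc f 0 = ∑ κ', Ph κ'` (`pai 0 _ = 0`, `ep 0 = 1`); `gav` and `lst`: `y0 * ∑ Ph = gg * #LS` if `Cv`, and `0` otherwise. If `Cv` and all `ev` vanish on `g'` then `LS` is not empty (`lfe`), so `∑ Ph = gg ∏ #Del` (`y0 > 0`: `gg_pos`). If `¬ Cv` the sum is `0`.
* `fta`: let `ρ = rh c g = rh c (gn g)` (`cen_rh`). If `ev ρ a ≠ 0` for some `a ∈ g` then `LS ρ g = ∅` (`ls_ev`, `rh_tw`), so `LC = ∅`, and `wz = 0`. Otherwise `wz = ∏_{a ∈ g} #Zj`, `∏ rt = ∏ #Zj / ∏ #Del`, `#LC = Ph ρ (gn g) (qt g)` (`cen`), `∏_{gn g} #Del = ∏_g #Del` (`cen_del`), and `ft_inv`.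
-/

set_option autoImplicit false
set_option linter.dupNamespace false

open scoped NumberField
open IsDedekindDomain
open scoped Classical

noncomputable section

namespace H48.MF

open H63.MA H38.BB H38.BG H38.AS H57.PC H57.BRA H89.BRG H1.AR

variable {p u w N : ℕ} {G R Q : Type} [Group G] [Group R] [Group Q] [Finite G] [Finite R]
  [Fintype Q] (Gm : GM p u w N G R Q)
  {K : Type} [Field K] [NumberField K] {Ω : Type} [Field Ω] [Algebra K Ω] [IsAlgClosure K Ω]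
  {ζ : K} (X : AD Gm.M K Ω ζ)

/-- the pairing of classes -/
def pai {N p : ℕ} {r : Fin N → ℕ} (κ κ' : (j : Fin N) → Fin (r j) → ZMod p) : ZMod p :=
  ∑ j, dt (κ j) (κ' j)

/-- the Fourier transform -/
def ftc {N p : ℕ} [NeZero p] {r : Fin N → ℕ} (f : ((j : Fin N) → Fin (r j) → ZMod p) → ℝ)
    (κ : (j : Fin N) → Fin (r j) → ZMod p) : ℂ := ∑ κ', ((f κ' : ℝ) : ℂ) * ep p (-pai κ κ')

private theorem pai_zero_right {N p : ℕ} {r : Fin N → ℕ}
    (κ : (j : Fin N) → Fin (r j) → ZMod p) : pai κ 0 = 0 := by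
  unfold pai dt
  simp

private theorem pai_zero_left {N p : ℕ} {r : Fin N → ℕ}
    (κ : (j : Fin N) → Fin (r j) → ZMod p) : pai 0 κ = 0 := by
  unfold pai dt
  simp

private theorem pai_add {N p : ℕ} {r : Fin N → ℕ}
    (κ a b : (j : Fin N) → Fin (r j) → ZMod p) : pai κ (a + b) = pai κ a + pai κ b := by
  unfold pai dt
  rw [← Finset.sum_add_distrib]
  refine Finset.sum_congr rfl fun j _ => ?_
  rw [← Finset.sum_add_distrib]
  refine Finset.sum_congr rfl fun k _ => ?_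
  rw [Pi.add_apply, Pi.add_apply, mul_add]

private theorem pai_orth {N p : ℕ} [NeZero p] (hp : p.Prime) {r : Fin N → ℕ}
    (d : (j : Fin N) → Fin (r j) → ZMod p) :
    ∑ κ : (j : Fin N) → Fin (r j) → ZMod p, ep p (pai κ d) =
      if d = 0 then (Fintype.card ((j : Fin N) → Fin (r j) → ZMod p) : ℂ) else 0 := by
  have e1 : ∑ κ : (j : Fin N) → Fin (r j) → ZMod p, ep p (pai κ d) =
      ∏ j, ∑ x : Fin (r j) → ZMod p, ep p (∑ i, x i * d j i) := by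
    rw [Finset.prod_univ_sum, Fintype.piFinset_univ]
    exact Finset.sum_congr rfl fun κ _ => akc_ep_sum hp _ _
  by_cases hd : d = 0
  · rw [if_pos hd]
    have e3 : ∀ κ : (j : Fin N) → Fin (r j) → ZMod p, ep p (pai κ d) = 1 := by
      intro κ
      rw [hd, pai_zero_right, ep_zero]
    simp only [e3]
    rw [Finset.sum_const, Finset.card_univ, nsmul_eq_mul, mul_one]
  · rw [if_neg hd, e1]
    obtain ⟨j, hj⟩ := Function.ne_iff.1 hd
    refine Finset.prod_eq_zero (Finset.mem_univ j) ?_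
    rw [akc_orth hp (d j)]
    exact if_neg hj

theorem ft_inv {N p : ℕ} [NeZero p] (hp : p.Prime) {r : Fin N → ℕ}
    (f : ((j : Fin N) → Fin (r j) → ZMod p) → ℝ) (κ' : (j : Fin N) → Fin (r j) → ZMod p) :
    ((f κ' : ℝ) : ℂ) = (Fintype.card ((j : Fin N) → Fin (r j) → ZMod p) : ℂ)⁻¹ *
      ∑ κ, ftc f κ * ep p (pai κ κ') := by
  have hC : (Fintype.card ((j : Fin N) → Fin (r j) → ZMod p) : ℂ) ≠ 0 := by
    exact_mod_cast Fintype.card_ne_zero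
  have e1 : ∀ κ : (j : Fin N) → Fin (r j) → ZMod p, ftc f κ * ep p (pai κ κ') =
      ∑ q, ((f q : ℝ) : ℂ) * ep p (pai κ (κ' - q)) := by
    intro κ
    unfold ftc
    rw [Finset.sum_mul]
    refine Finset.sum_congr rfl fun q _ => ?_
    rw [mul_assoc, ← ep_add hp]
    congr 2
    have h := pai_add κ (κ' - q) q
    rw [sub_add_cancel] at h
    rw [h]
    ring
  simp only [e1]
  rw [Finset.sum_comm]
  have e2 : ∀ q : (j : Fin N) → Fin (r j) → ZMod p,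
      ∑ κ : (j : Fin N) → Fin (r j) → ZMod p, ((f q : ℝ) : ℂ) * ep p (pai κ (κ' - q)) =
      if q = κ' then ((f q : ℝ) : ℂ) * (Fintype.card ((j : Fin N) → Fin (r j) → ZMod p) : ℂ)
        else 0 := by
    intro q
    rw [← Finset.mul_sum, pai_orth hp, mul_ite, mul_zero]
    by_cases h : q = κ'
    · rw [if_pos h, if_pos (by rw [h, sub_self])]
    · rw [if_neg h, if_neg (fun h' => h (sub_eq_zero.1 h').symm)]
  simp only [e2]
  rw [Finset.sum_ite_eq' Finset.univ κ', if_pos (Finset.mem_univ κ')]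
  field_simp

theorem ft_zero {N p : ℕ} [NeZero p] (hp : p.Prime) {r : Fin N → ℕ}
    (f : ((j : Fin N) → Fin (r j) → ZMod p) → ℝ) (j₀ : Fin N)
    (hf : ∀ κ' κ'', (∀ j, j ≠ j₀ → κ' j = κ'' j) → f κ' = f κ'')
    (κ : (j : Fin N) → Fin (r j) → ZMod p) (hκ : κ j₀ ≠ 0) : ftc f κ = 0 := by
  obtain ⟨k, hk⟩ := Function.ne_iff.1 hκ
  obtain ⟨T, hT⟩ : ∃ T : (j : Fin N) → Fin (r j) → ZMod p,
      T = Pi.single j₀ (Pi.single k (1 : ZMod p)) := ⟨_, rfl⟩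
  have hTs : T j₀ = Pi.single k (1 : ZMod p) := by rw [hT, Pi.single_eq_same]
  have hTn : ∀ j, j ≠ j₀ → T j = 0 := fun j hj => by rw [hT, Pi.single_eq_of_ne hj]
  have h1 : pai κ T = κ j₀ k := by
    unfold pai
    rw [Finset.sum_eq_single j₀]
    · unfold dt
      rw [hTs, Finset.sum_eq_single k]
      · rw [Pi.single_eq_same, mul_one]
      · intro i _ hi
        rw [Pi.single_eq_of_ne hi, mul_zero]
      · intro h
        exact absurd (Finset.mem_univ k) h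
    · intro j _ hj
      unfold dt
      rw [hTn j hj]
      simp
    · intro h
      exact absurd (Finset.mem_univ j₀) h
  have h2 : ftc f κ = ep p (-pai κ T) * ftc f κ := by
    conv_lhs => unfold ftc
    rw [← Equiv.sum_comp (Equiv.addRight T)]
    unfold ftc
    rw [Finset.mul_sum]
    refine Finset.sum_congr rfl fun q _ => ?_
    rw [Equiv.coe_addRight, hf (q + T) q (fun j hj => by rw [Pi.add_apply, hTn j hj, add_zero]),
      pai_add, neg_add, ep_add hp]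
    ring
  have h3 : ep p (-pai κ T) ≠ 1 := by
    intro h
    rw [ep_eq_one hp, neg_eq_zero, h1] at h
    exact hk h
  have h4 : (ep p (-pai κ T) - 1) * ftc f κ = 0 := by
    rw [sub_mul, one_mul, ← h2, sub_self]
  rcases mul_eq_zero.1 h4 with h5 | h5
  · exact absurd (sub_eq_zero.1 h5) h3
  · exact h5

theorem ft_le {N p : ℕ} [NeZero p] {r : Fin N → ℕ}
    (f : ((j : Fin N) → Fin (r j) → ZMod p) → ℝ) {M : ℝ} (hM : ∀ κ, |f κ| ≤ M)
    (κ : (j : Fin N) → Fin (r j) → ZMod p) :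
    ‖ftc f κ‖ ≤ Fintype.card ((j : Fin N) → Fin (r j) → ZMod p) * M := by
  unfold ftc
  calc ‖∑ κ' : (j : Fin N) → Fin (r j) → ZMod p, ((f κ' : ℝ) : ℂ) * ep p (-pai κ κ')‖
      ≤ ∑ _κ' : (j : Fin N) → Fin (r j) → ZMod p, M := by
        refine (norm_sum_le _ _).trans (Finset.sum_le_sum fun q _ => ?_)
        rw [norm_mul, ep_norm, mul_one, Complex.norm_real, Real.norm_eq_abs]
        exact hM q
    _ = _ := by rw [Finset.sum_const, Finset.card_univ, nsmul_eq_mul]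

private theorem fta_del [NeZero p] (g : Finset X.Lb) :
    0 < ∏ a ∈ g, Nat.card (Gm.Del a.1) :=
  Finset.prod_pos fun a _ => (rt_pos Gm a.1).2.2.1

/-- the coefficients -/
def hcf [NeZero p] (φ₁ : Gal(Ω/K) →* G) (κ : (j : Fin N) → Fin (X.A j).D.r → ZMod p)
    (c : Gal(Ω/K) →* R) (g : Finset X.Lb) : ℂ :=
  ftc (fun κ' => ((Ph Gm X φ₁ (rh X c g) g κ' : ℕ) : ℝ)) κ /
    ((∏ a ∈ g, Nat.card (Gm.Del a.1) : ℕ) : ℂ)

theorem hcf_nc [NeZero p] (hp : p.Prime) (hp2 : MOne p K) (hζ : IsPrimitiveRoot ζ p)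
    (φ₁ : Gal(Ω/K) →* G) (κ : (j : Fin N) → Fin (X.A j).D.r → ZMod p) {j₀ : Fin N}
    (h₀ : ¬ Cn Gm j₀) (hκ : κ j₀ ≠ 0) (c : Gal(Ω/K) →* R) (g : Finset X.Lb) :
    hcf Gm X φ₁ κ c g = 0 := by
  unfold hcf
  rw [ft_zero hp _ j₀ (fun κ' κ'' h => ?_) κ hκ, zero_div]
  rw [ph_con Gm X hp hp2 hζ φ₁ (rh X c g) g κ' κ'' fun j hj => h j fun h' => h₀ (h' ▸ hj)]

theorem hcf_le [NeZero p] (hp : p.Prime) (hζ : IsPrimitiveRoot ζ p)
    (φ₁ : Gal(Ω/K) →* G) (κ : (j : Fin N) → Fin (X.A j).D.r → ZMod p)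
    {c : Gal(Ω/K) →* R} (hc : X.IsC c) {g : Finset X.Lb} (hg : X.Ok g) :
    ‖hcf Gm X φ₁ κ c g‖ ≤
      Fintype.card ((j : Fin N) → Fin (X.A j).D.r → ZMod p) * (y0 Gm X : ℝ) := by
  obtain ⟨hfin, hcard⟩ := lst Gm X hp hζ hc hg (rh_tw Gm X hp hζ hc g)
  have hpos := fta_del Gm X g
  have hposR : (0 : ℝ) < ((∏ a ∈ g, Nat.card (Gm.Del a.1) : ℕ) : ℝ) := by exact_mod_cast hpos
  have hle : (LS Gm X (rh X c g) g).ncard ≤ y0 Gm X * ∏ a ∈ g, Nat.card (Gm.Del a.1) := by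
    rcases Set.eq_empty_or_nonempty (LS Gm X (rh X c g) g) with h | h
    · rw [h, Set.ncard_empty]
      exact Nat.zero_le _
    · exact (hcard h).le
  have h1 : ∀ κ' : (j : Fin N) → Fin (X.A j).D.r → ZMod p,
      |((Ph Gm X φ₁ (rh X c g) g κ' : ℕ) : ℝ)| ≤
        (y0 Gm X : ℝ) * ((∏ a ∈ g, Nat.card (Gm.Del a.1) : ℕ) : ℝ) := by
    intro κ'
    rw [abs_of_nonneg (Nat.cast_nonneg _)]
    exact_mod_cast (ph_le Gm X φ₁ (rh X c g) hfin κ').trans hle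
  have h2 := ft_le (fun κ' => ((Ph Gm X φ₁ (rh X c g) g κ' : ℕ) : ℝ)) h1 κ
  unfold hcf
  rw [norm_div, Complex.norm_natCast, div_le_iff₀ hposR, mul_assoc]
  exact h2

theorem hcf_zero [NeZero p] (hcen : Gm.Cen) (hp : p.Prime) (hp2 : MOne p K) (hζ : IsPrimitiveRoot ζ p)
    (hz : Z2 p K) (φ₁ : Gal(Ω/K) →* G) (hφ₁ : H38.ML.FT φ₁)
    {c : Gal(Ω/K) →* R} (hc : X.IsC c) {g : Finset X.Lb} (hg : X.Ok g)
    (hev : ∀ a ∈ g, X.ev (rh X c g) a = 0) :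
    hcf Gm X φ₁ 0 c g =
      if Cv X.D.S0 X.P Gm.M (rh X c g) (Gm.pr.comp φ₁) then (gg Gm X φ₁ : ℂ) else 0 := by
  obtain ⟨hfin, hcard⟩ := lst Gm X hp hζ hc hg (rh_tw Gm X hp hζ hc g)
  have hpos := fta_del Gm X g
  have hgav := gav Gm X hcen hp hp2 hζ φ₁ hφ₁ (rh X c g) hg hfin
  have hy := (gg_pos Gm X hp hp2 hζ φ₁).2
  have h1 : ftc (fun κ' => ((Ph Gm X φ₁ (rh X c g) g κ' : ℕ) : ℝ)) 0 =
      ((∑ κ' : (j : Fin N) → Fin (X.A j).D.r → ZMod p, Ph Gm X φ₁ (rh X c g) g κ' : ℕ) : ℂ) := by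
    unfold ftc
    rw [Nat.cast_sum]
    refine Finset.sum_congr rfl fun κ' _ => ?_
    rw [pai_zero_left, neg_zero, ep_zero, mul_one]
    push_cast
    rfl
  unfold hcf
  rw [h1]
  have hne : ((∏ a ∈ g, Nat.card (Gm.Del a.1) : ℕ) : ℂ) ≠ 0 := by
    exact_mod_cast hpos.ne'
  by_cases hC : Cv X.D.S0 X.P Gm.M (rh X c g) (Gm.pr.comp φ₁)
  · rw [if_pos hC] at hgav
    rw [if_pos hC]
    have hN := lfe Gm X hp hp2 hζ hz hc hg (rh_tw Gm X hp hζ hc g) hev hφ₁ hC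
    rw [hcard hN] at hgav
    have h2 : ∑ κ' : (j : Fin N) → Fin (X.A j).D.r → ZMod p, Ph Gm X φ₁ (rh X c g) g κ' =
        gg Gm X φ₁ * ∏ a ∈ g, Nat.card (Gm.Del a.1) := by
      apply Nat.eq_of_mul_eq_mul_left hy
      rw [hgav]
      ring
    rw [h2, div_eq_iff hne]
    push_cast
    ring
  · rw [if_neg hC] at hgav
    rw [if_neg hC]
    have h2 : ∑ κ' : (j : Fin N) → Fin (X.A j).D.r → ZMod p, Ph Gm X φ₁ (rh X c g) g κ' = 0 := by
      rcases Nat.mul_eq_zero.1 hgav with h | h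
      · omega
      · exact h
    rw [h2, Nat.cast_zero, zero_div]

theorem fta [NeZero p] (hp : p.Prime) (hp2 : MOne p K) (hζ : IsPrimitiveRoot ζ p)
    (φ₁ : Gal(Ω/K) →* G) {c : Gal(Ω/K) →* R} (hc : X.IsC c) {g : Finset X.Lb} (hg : X.Ok g) :
    (((∏ a ∈ g, Gm.rt a.1) * ((LC Gm X φ₁ (rh X c g) g).ncard : ℝ) : ℝ) : ℂ) =
      (Fintype.card ((j : Fin N) → Fin (X.A j).D.r → ZMod p) : ℂ)⁻¹ *
        ∑ κ : (j : Fin N) → Fin (X.A j).D.r → ZMod p,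
          hcf Gm X φ₁ κ c (gn Gm g) * ep p (pai κ (X.qt g)) * wz Gm X c g := by
  have hpos := fta_del Gm X g
  have hne : ((∏ a ∈ g, Nat.card (Gm.Del a.1) : ℕ) : ℂ) ≠ 0 := by
    exact_mod_cast hpos.ne'
  have hinv := ft_inv hp (fun κ' => ((Ph Gm X φ₁ (rh X c (gn Gm g)) (gn Gm g) κ' : ℕ) : ℝ))
    (X.qt g)
  have hR : (Fintype.card ((j : Fin N) → Fin (X.A j).D.r → ZMod p) : ℂ)⁻¹ *
        ∑ κ : (j : Fin N) → Fin (X.A j).D.r → ZMod p,
          hcf Gm X φ₁ κ c (gn Gm g) * ep p (pai κ (X.qt g)) * wz Gm X c g =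
      (((Ph Gm X φ₁ (rh X c (gn Gm g)) (gn Gm g) (X.qt g) : ℕ) : ℝ) : ℂ) *
        (wz Gm X c g / ((∏ a ∈ g, Nat.card (Gm.Del a.1) : ℕ) : ℂ)) := by
    rw [hinv, mul_assoc, Finset.sum_mul]
    congr 1
    refine Finset.sum_congr rfl fun κ _ => ?_
    unfold hcf
    rw [cen_del]
    ring
  rw [hR, cen_rh, ← cen Gm X hp hp2 hζ (rh X c g) hg φ₁]
  unfold wz
  by_cases h : ∀ a ∈ g, X.ev (rh X c g) a = 0
  · rw [if_pos h]
    have h1 : (∏ a ∈ g, Gm.rt a.1 : ℝ) = ((∏ a ∈ g, Nat.card (Gm.Zj a.1) : ℕ) : ℝ) /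
        ((∏ a ∈ g, Nat.card (Gm.Del a.1) : ℕ) : ℝ) := by
      unfold GM.rt
      rw [Finset.prod_div_distrib]
      push_cast
      rfl
    rw [h1]
    push_cast
    ring
  · rw [if_neg h, zero_div, mul_zero]
    have h1 : LC Gm X φ₁ (rh X c g) g = ∅ := by
      rw [Set.eq_empty_iff_forall_notMem]
      intro φ hφ
      exact h fun a ha => ls_ev Gm X hp hζ hc hg (rh_tw Gm X hp hζ hc g) hφ.1 ha
    rw [h1, Set.ncard_empty, Nat.cast_zero, mul_zero, Complex.ofReal_zero]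

end H48.MF
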