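import Pool.Agent.H48.MF.Lbc
import Pool.Agent.H48.MF.Cen
import Pool.Agent.H1.AR.ParC
import Pool.Agent.H1.AR.ParB

/-!
# [H48 MF SYI] counting homomorphisms over `φQ` by families of labels, 180-260 lines. File Pool/Agent/H48/MF/Syi.lean

* `fm_fin`: `Fm X Y` is finite: all labels of `g ∈ Fm X Y` have norm `≤ Y` (the other norms are `≥ 1`), and there are finitely many primes of norm `≤ Y` of `F j` (`pl_fin`-type lemma: search `{v : Pl K | nm v ≤ ..}.Finite`, e.g. in H63/MA, H51/MM), `j < N`; `Set.Finite.finite_subsets`/`Finset.powerset`.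
* `syi_to`: let `φ ∈ SYf Y`, `g ∈ Lbs φ`. `ρ = pr ∘ φ` is `IsL` (finite type: `FT` of a composition; `hπ`), `ρ (X.t a) = e (y a.1)` for `a ∈ g`; if `v ∉ S0` is not under `g` then `¬ Rm X.L φ v`, so `φ = 1` on `inr X.L v`; for `a ∈ g`: `Rm X.L φ (un a)`, so `un a` has a type and `φ τ ^ p = 1` on `inr X.L (un a)`. `par_back`: `c` with `IsC c`, `Tw c (bet g) ρ`; `rh X c g = ρ` (`rh_eq`),
  `ρ` is surjective, so `Sp c (g.image fst)` (`par_sur`). `φ ∈ LS (rh X c g) g`. `∏_{a ∈ g} nm a.2 = ∏_{v ∈ T} nm v ≤ Y` (`ltb_nm`, `T = g.image un`, `un` injective on `g`), so `g ∈ Fm X Y`. `c` is unique: `par_uniq` (from `rh X c g = ρ` and `rh_tw`).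
* `syi_from`: let `g ∈ Fm X Y`, `IsC c`, `Sp c (g.image fst)`, `φ ∈ LS (rh X c g) g`. Then `φ ∈ SYf Y`, `g ∈ Lbs φ`: `φ` is surjective (`gm_sur`, `par_sur`, `rh_tw`), `π (pr φ σ) = φQ σ` (`tws_isL`: `IsL (rh X c g)`). `pr φ (X.t a) = e (y a.1)` (`par_t`). For `a ∈ g`: `φ (X.t a)` is conjugate to `g a.1 ≠ 1` and `X.t a` is in the inertia group of `PL X a`
  (`ltb_t`), so `φ ≠ 1` on `inr X.L (un a)` (`ing_conj`), `Rm X.L φ (un a)`; `φ (X.L.t (un a))` is conjugate to `φ (X.t a)` (`lab_cj`), so `un a` is of type `a.1` (`nm (un a)` prime: `ltb_nm`; `un_not`; `D.Gd`). If `Rm X.L φ v` then `v` is under `g`. `T = g.image un`.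
* `syi`: `∑_{φ ∈ SYf Y, Pr φ} 1 = ∑_φ ∑_{g ∈ Lbs φ} ∏ rt` (`lbc`) `= ∑_{(g, c, φ)} ∏ rt`, the triples with `g ∈ Fm X Y`, `IsC c`, `Sp c (g.image fst)`, `φ ∈ LS (rh X c g) g`, `Pr φ` (`(φ, g) ↦ (g, c, φ)`). All sets are finite: `Fm X Y` (`fm_fin`), `hfc`, `LS` (`lst`), and so is `SYf Y` (image of the triples; every `φ ∈ SYf Y` has some `g ∈ Lbs φ` by `lbc`: the sum is `1 ≠ 0`).
  Convert to `Finset` sums (`Set.Finite.toFinset`) over `Fm × IsC × SYf` and use `Finset.sum_comm`.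
-/

set_option autoImplicit false
set_option linter.dupNamespace false

open scoped NumberField
open IsDedekindDomain
open scoped Classical

noncomputable section

namespace H48.MF

open H63.MA H38.BB H38.BG H38.AS H57.PC H57.BRA H89.BRG H1.AR

variable {p u w N : ℕ} {G R Q : Type} [Group G] [Group R] [Group Q] [Finite G] [Finite R]
  [Fintype Q] (Gm : GM p u w N G R Q)
  {K : Type} [Field K] [NumberField K] {Ω : Type} [Field Ω] [Algebra K Ω] [IsAlgClosure K Ω]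
  {ζ : K} (X : AD Gm.M K Ω ζ)

theorem fm_fin (Y : ℝ) : (Fm X Y).Finite := by
  have hL : {a : X.Lb | (nm a.2 : ℝ) ≤ Y}.Finite := by
    refine Set.Finite.subset (Set.finite_iUnion fun j : Fin N =>
      (acntb_fin (X.F j) Y).image fun w => (⟨j, w⟩ : X.Lb)) ?_
    rintro ⟨j, w⟩ hw
    exact Set.mem_iUnion.2 ⟨j, w, hw, rfl⟩
  refine (Finset.finite_toSet hL.toFinset.powerset).subset fun g hg => ?_
  rw [Finset.mem_coe, Finset.mem_powerset]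
  intro a ha
  rw [Set.Finite.mem_toFinset]
  have h1 : ∀ b ∈ g, (1 : ℝ) ≤ (nm b.2 : ℝ) := fun b hb => by
    exact_mod_cast (hg.1.1 b hb).2.one_lt.le
  have h2 : (nm a.2 : ℝ) ≤ ∏ b ∈ g, (nm b.2 : ℝ) := by
    rw [← Finset.mul_prod_erase g _ ha]
    have h3 : (1 : ℝ) ≤ ∏ b ∈ g.erase a, (nm b.2 : ℝ) := by
      calc (1 : ℝ) = ∏ _b ∈ g.erase a, (1 : ℝ) := Finset.prod_const_one.symm
        _ ≤ _ := Finset.prod_le_prod (fun _ _ => zero_le_one)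
          fun b hb => h1 b (Finset.mem_of_mem_erase hb)
    have h4 : (0 : ℝ) ≤ (nm a.2 : ℝ) := Nat.cast_nonneg _
    nlinarith
  exact h2.trans hg.2

theorem syi_to (hp : p.Prime) (hζ : IsPrimitiveRoot ζ p) {φ : Gal(Ω/K) →* G} {Y : ℝ}
    (hφ : φ ∈ SYf Gm X Y) {g : Finset X.Lb} (hg : g ∈ Lbs Gm X φ) :
    g ∈ Fm X Y ∧ ∃! c, X.IsC c ∧ X.Sp c (g.image Sigma.fst) ∧ φ ∈ LS Gm X (rh X c g) g := by
  obtain ⟨hft, hsurj, hπ, hty, T, hT, hprod⟩ := hφ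
  obtain ⟨hok, hlab, hram⟩ := hg
  obtain ⟨ρ, hρ⟩ : ∃ ρ : Gal(Ω/K) →* R, ρ = Gm.pr.comp φ := ⟨_, rfl⟩
  have hρa : ∀ σ, ρ σ = Gm.pr (φ σ) := fun σ => by rw [hρ]; rfl
  have hρL : X.IsL ρ := by
    refine ⟨?_, fun σ => by rw [hρa]; exact hπ σ⟩
    obtain ⟨E, hE, hk⟩ := hft
    refine ⟨E, hE, fun σ hσ => ?_⟩
    have h1 : φ σ = 1 := hk hσ
    rw [MonoidHom.mem_ker, hρa, h1, map_one]
  have hu : ∀ v, v ∉ X.D.S0 → (∀ a ∈ g, X.un a ≠ v) → ∀ τ ∈ inr X.L v, φ τ = 1 := by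
    intro v hv h τ hτ
    by_contra hne
    obtain ⟨a, ha, h1⟩ := (hram v).1 ⟨hv, τ, hτ, hne⟩
    exact h a ha h1
  have he : ∀ v, v ∉ X.D.S0 → ∀ τ ∈ inr X.L v, φ τ ^ p = 1 := by
    intro v hv τ hτ
    by_cases h : Rm X.L φ v
    · obtain ⟨i, hi⟩ := hty v h
      exact hi.2.2 τ hτ
    · have h1 : φ τ = 1 := by
        by_contra hne
        exact h ⟨hv, τ, hτ, hne⟩
      rw [h1, one_pow]
  obtain ⟨c, hc, htw⟩ := par_back X hp hζ hρL hok (fun a ha => by rw [hρa]; exact (hlab a ha).2)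
    (fun v hv h τ hτ => by rw [hρa, hu v hv h τ hτ, map_one])
    (fun a ha τ hτ => by
      rw [hρa, ← map_pow, he _ (un_not X (hok.1 a ha).1) τ hτ, map_one])
  have hrh : rh X c g = ρ := rh_eq Gm X hp hζ hc htw
  refine ⟨⟨hok, ?_⟩, c, ⟨hc, ?_, ?_⟩, ?_⟩
  · have h1 : T = g.image X.un := by
      ext v
      rw [hT, hram, Finset.mem_image]
    rw [h1, Finset.prod_image (fun a ha b hb hab => by
      by_contra hne
      exact hok.2 a ha b hb hne hab)] at hprod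
    refine le_trans (le_of_eq ?_) hprod
    exact Finset.prod_congr rfl fun a ha => by rw [ltb_nm X (hok.1 a ha)]
  · refine (par_sur X hp hζ hc hok htw).1 ?_
    rw [hρ]
    exact Gm.prs.comp hsurj
  · rw [hrh]
    exact ⟨hft, fun σ => (hρa σ).symm, fun a ha => (hlab a ha).1, hu, he⟩
  · rintro c' ⟨hc', -, h2⟩
    have h3 : rh X c' g = ρ := by
      ext σ
      rw [← h2.2.1 σ, hρa]
    have h4 := rh_tw Gm X hp hζ hc' g
    rw [h3] at h4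
    exact par_uniq X h4 htw

theorem syi_from (hp : p.Prime) (hζ : IsPrimitiveRoot ζ p) {φ : Gal(Ω/K) →* G} {Y : ℝ}
    {g : Finset X.Lb} (hg : g ∈ Fm X Y) {c : Gal(Ω/K) →* R} (hc : X.IsC c)
    (hs : X.Sp c (g.image Sigma.fst)) (h : φ ∈ LS Gm X (rh X c g) g) :
    φ ∈ SYf Gm X Y ∧ g ∈ Lbs Gm X φ := by
  obtain ⟨hok, hY⟩ := hg
  obtain ⟨hft, hpr, hcj, hu, he⟩ := h
  have htw := rh_tw Gm X hp hζ hc g
  have hρL : X.IsL (rh X c g) := tws_isL X hc.toIsL (bet_cy X hp hζ g) htw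
  have hram : ∀ v, Rm X.L φ v ↔ ∃ a ∈ g, X.un a = v := by
    intro v
    constructor
    · rintro ⟨hv, τ, hτ, hne⟩
      by_contra hcon
      push Not at hcon
      exact hne (hu v hv hcon τ hτ)
    · rintro ⟨a, ha, rfl⟩
      have hGd := hok.1 a ha
      have hv := un_not X hGd.1
      refine ⟨hv, ?_⟩
      by_contra hcon
      push Not at hcon
      have h1 := (ing_conj X.L hv (ltb_prime X hGd) (ltb_under X hGd) φ).2.1 hcon _ (ltb_t X hGd)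
      have h2 := hcj a ha
      rw [h1, isConj_one_right] at h2
      exact Gm.gne _ h2
  have hlab : ∀ a ∈ g, IsConj (φ (X.t a)) (Gm.g a.1) ∧
      Gm.pr (φ (X.t a)) = Gm.M.e (Gm.M.y a.1) := by
    intro a ha
    refine ⟨hcj a ha, ?_⟩
    rw [hpr]
    exact par_t X hp hζ hc hok htw ha
  refine ⟨⟨hft, ?_, ?_, ?_, g.image X.un, ?_, ?_⟩, hok, hlab, hram⟩
  · rw [gm_sur Gm φ]
    have h1 : Gm.pr.comp φ = rh X c g := by
      ext σ
      exact hpr σ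
    rw [h1]
    exact (par_sur X hp hζ hc hok htw).2 hs
  · intro σ
    rw [hpr]
    exact hρL.pi σ
  · intro v hv
    obtain ⟨a, ha, rfl⟩ := (hram v).1 hv
    have hGd := hok.1 a ha
    have hex := he _ (un_not X hGd.1)
    refine ⟨a.1, ⟨un_not X hGd.1, ?_⟩, (lab_cj X hp hζ hGd φ hft hex).symm.trans (hcj a ha), hex⟩
    rw [← ltb_nm X hGd]
    exact hGd.2
  · intro v
    rw [hram, Finset.mem_image]
  · rw [Finset.prod_image (fun a ha b hb hab => by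
      by_contra hne
      exact hok.2 a ha b hb hne hab)]
    refine le_trans (le_of_eq ?_) hY
    exact Finset.prod_congr rfl fun a ha => by rw [ltb_nm X (hok.1 a ha)]

theorem syi [NeZero p] (hp : p.Prime) (hζ : IsPrimitiveRoot ζ p) (hz : Z2 p K)
    (hfc : {c | X.IsC c}.Finite) (Pr : (Gal(Ω/K) →* G) → Prop) (Y : ℝ) :
    (SYf Gm X Y).Finite ∧ (({φ ∈ SYf Gm X Y | Pr φ}.ncard : ℕ) : ℝ) =
      ∑ᶠ g ∈ Fm X Y, ∑ᶠ c ∈ {c | X.IsC c}, if X.Sp c (g.image Sigma.fst) then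
        (∏ a ∈ g, Gm.rt a.1) * (({φ ∈ LS Gm X (rh X c g) g | Pr φ}.ncard : ℕ) : ℝ) else 0 := by
  have hLS : ∀ g ∈ Fm X Y, ∀ c, X.IsC c → (LS Gm X (rh X c g) g).Finite := fun g hg c hc =>
    (lst Gm X hp hζ hc hg.1 (rh_tw Gm X hp hζ hc g)).1
  have hfin : (SYf Gm X Y).Finite := by
    refine Set.Finite.subset ((fm_fin Gm X Y).biUnion
      (t := fun g => ⋃ c ∈ {c | X.IsC c}, LS Gm X (rh X c g) g)
      fun g hg => hfc.biUnion fun c hc => hLS g hg c hc) ?_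
    intro φ hφ
    have hne : (Lbs Gm X φ).Nonempty := by
      by_contra h
      rw [Set.not_nonempty_iff_eq_empty] at h
      have h1 := (lbc Gm X hp hζ hz hφ).2
      rw [h, finsum_mem_empty] at h1
      exact zero_ne_one h1
    obtain ⟨g, hg⟩ := hne
    obtain ⟨h1, c, ⟨h2, h3, h4⟩, -⟩ := syi_to Gm X hp hζ hφ hg
    exact Set.mem_biUnion h1 (Set.mem_biUnion h2 h4)
  refine ⟨hfin, ?_⟩
  obtain ⟨FF, hFF⟩ : ∃ FF : Finset (Finset X.Lb), ∀ g, g ∈ FF ↔ g ∈ Fm X Y :=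
    ⟨(fm_fin Gm X Y).toFinset, fun g => Set.Finite.mem_toFinset _⟩
  obtain ⟨CF, hCF⟩ : ∃ CF : Finset (Gal(Ω/K) →* R), ∀ c, c ∈ CF ↔ X.IsC c :=
    ⟨hfc.toFinset, fun c => Set.Finite.mem_toFinset _⟩
  obtain ⟨SF, hSF⟩ : ∃ SF : Finset (Gal(Ω/K) →* G), ∀ φ, φ ∈ SF ↔ φ ∈ SYf Gm X Y :=
    ⟨hfin.toFinset, fun c => Set.Finite.mem_toFinset _⟩
  have hA : ∀ φ ∈ SYf Gm X Y, (1 : ℝ) =
      ∑ g ∈ FF, if g ∈ Lbs Gm X φ then ∏ a ∈ g, Gm.rt a.1 else 0 := by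
    intro φ hφ
    obtain ⟨h1, h2⟩ := lbc Gm X hp hζ hz hφ
    refine h2.symm.trans ?_
    rw [finsum_mem_eq_finite_toFinset_sum _ h1, ← Finset.sum_filter]
    refine Finset.sum_congr ?_ fun _ _ => rfl
    ext g
    rw [Set.Finite.mem_toFinset, Finset.mem_filter, hFF]
    exact ⟨fun h => ⟨(syi_to Gm X hp hζ hφ h).1, h⟩, fun h => h.2⟩
  have hB : ∀ φ ∈ SYf Gm X Y, ∀ g ∈ FF, (if g ∈ Lbs Gm X φ then (1 : ℝ) else 0) =
      ∑ c ∈ CF, if X.Sp c (g.image Sigma.fst) ∧ φ ∈ LS Gm X (rh X c g) g then (1 : ℝ) else 0 := by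
    intro φ hφ g hg
    rw [hFF] at hg
    by_cases h : g ∈ Lbs Gm X φ
    · rw [if_pos h]
      obtain ⟨-, c, ⟨h2, h3, h4⟩, h5⟩ := syi_to Gm X hp hζ hφ h
      rw [Finset.sum_eq_single_of_mem c ((hCF c).2 h2), if_pos ⟨h3, h4⟩]
      intro c' hc' hne
      rw [if_neg]
      rintro ⟨h6, h7⟩
      exact hne (h5 c' ⟨(hCF c').1 hc', h6, h7⟩)
    · rw [if_neg h]
      symm
      refine Finset.sum_eq_zero fun c hc => if_neg ?_
      rintro ⟨h6, h7⟩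
      exact h (syi_from Gm X hp hζ hg ((hCF c).1 hc) h6 h7).2
  have hcard : (({φ ∈ SYf Gm X Y | Pr φ}.ncard : ℕ) : ℝ) = ∑ φ ∈ SF.filter Pr, (1 : ℝ) := by
    have h : {φ ∈ SYf Gm X Y | Pr φ} = ((SF.filter Pr : Finset (Gal(Ω/K) →* G)) :
        Set (Gal(Ω/K) →* G)) := by
      ext φ
      rw [Finset.mem_coe, Finset.mem_filter, hSF]
      rfl
    rw [h, Set.ncard_coe_finset, Finset.sum_const, nsmul_eq_mul, mul_one]
  have hterm : ∀ g ∈ FF, ∀ c ∈ CF, (∑ φ ∈ SF.filter Pr, (∏ a ∈ g, Gm.rt a.1) *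
      (if X.Sp c (g.image Sigma.fst) ∧ φ ∈ LS Gm X (rh X c g) g then (1 : ℝ) else 0)) =
      if X.Sp c (g.image Sigma.fst) then
        (∏ a ∈ g, Gm.rt a.1) * (({φ ∈ LS Gm X (rh X c g) g | Pr φ}.ncard : ℕ) : ℝ) else 0 := by
    intro g hg c hc
    rw [hFF] at hg
    rw [hCF] at hc
    by_cases hs : X.Sp c (g.image Sigma.fst)
    · rw [if_pos hs, ← Finset.mul_sum]
      congr 1
      have h : {φ ∈ LS Gm X (rh X c g) g | Pr φ} = (((SF.filter Pr).filter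
          fun φ => φ ∈ LS Gm X (rh X c g) g : Finset (Gal(Ω/K) →* G)) : Set (Gal(Ω/K) →* G)) := by
        ext φ
        rw [Finset.mem_coe, Finset.mem_filter, Finset.mem_filter, hSF]
        constructor
        · rintro ⟨h1, h2⟩
          exact ⟨⟨(syi_from Gm X hp hζ hg hc hs h1).1, h2⟩, h1⟩
        · rintro ⟨⟨-, h2⟩, h1⟩
          exact ⟨h1, h2⟩
      rw [h, Set.ncard_coe_finset, Finset.card_filter, Nat.cast_sum]
      refine Finset.sum_congr rfl fun φ _ => ?_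
      by_cases h1 : φ ∈ LS Gm X (rh X c g) g
      · rw [if_pos ⟨hs, h1⟩, if_pos h1, Nat.cast_one]
      · rw [if_neg fun h2 => h1 h2.2, if_neg h1, Nat.cast_zero]
    · rw [if_neg hs]
      refine Finset.sum_eq_zero fun φ _ => ?_
      rw [if_neg fun h2 => hs h2.1, mul_zero]
  have hR : (∑ᶠ g ∈ Fm X Y, ∑ᶠ c ∈ {c | X.IsC c}, if X.Sp c (g.image Sigma.fst) then
      (∏ a ∈ g, Gm.rt a.1) * (({φ ∈ LS Gm X (rh X c g) g | Pr φ}.ncard : ℕ) : ℝ) else 0) =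
      ∑ g ∈ FF, ∑ c ∈ CF, if X.Sp c (g.image Sigma.fst) then
        (∏ a ∈ g, Gm.rt a.1) * (({φ ∈ LS Gm X (rh X c g) g | Pr φ}.ncard : ℕ) : ℝ) else 0 := by
    rw [finsum_mem_eq_finite_toFinset_sum _ (fm_fin Gm X Y)]
    refine Finset.sum_congr ?_ fun g _ => ?_
    · ext g
      rw [Set.Finite.mem_toFinset, hFF]
    · rw [finsum_mem_eq_finite_toFinset_sum _ hfc]
      refine Finset.sum_congr ?_ fun _ _ => rfl
      ext c
      rw [Set.Finite.mem_toFinset, hCF]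
      rfl
  rw [hR, hcard]
  calc ∑ φ ∈ SF.filter Pr, (1 : ℝ) = ∑ φ ∈ SF.filter Pr, ∑ g ∈ FF, ∑ c ∈ CF,
        (∏ a ∈ g, Gm.rt a.1) *
        (if X.Sp c (g.image Sigma.fst) ∧ φ ∈ LS Gm X (rh X c g) g then (1 : ℝ) else 0) := by
        refine Finset.sum_congr rfl fun φ hφ => ?_
        have hφ' : φ ∈ SYf Gm X Y := (hSF φ).1 (Finset.mem_filter.1 hφ).1
        refine (hA φ hφ').trans (Finset.sum_congr rfl fun g hg => ?_)
        rw [← Finset.mul_sum, ← hB φ hφ' g hg, mul_ite, mul_one, mul_zero]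
    _ = ∑ g ∈ FF, ∑ φ ∈ SF.filter Pr, ∑ c ∈ CF,
        (∏ a ∈ g, Gm.rt a.1) *
        (if X.Sp c (g.image Sigma.fst) ∧ φ ∈ LS Gm X (rh X c g) g then (1 : ℝ) else 0) :=
        Finset.sum_comm
    _ = ∑ g ∈ FF, ∑ c ∈ CF, ∑ φ ∈ SF.filter Pr,
        (∏ a ∈ g, Gm.rt a.1) *
        (if X.Sp c (g.image Sigma.fst) ∧ φ ∈ LS Gm X (rh X c g) g then (1 : ℝ) else 0) :=
        Finset.sum_congr rfl fun g _ => Finset.sum_comm
    _ = _ := Finset.sum_congr rfl fun g hg => Finset.sum_congr rfl fun c hc => hterm g hg c hc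

end H48.MF
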