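import Pool.Agent.H48.MF.Fta
import Pool.Agent.H48.MF.Syi
import Pool.Agent.H1.AR.Sty

/-!
# [H48 MF FTB] the number of homomorphisms over `φQ` with given local type at `S0`, 180-260 lines. File Pool/Agent/H48/MF/Ftb.lean

* `ws_lin`: `WS` of a finite sum of functions, and of a multiple (`finsum_mem` over the finite sets `Fm X Y` (`fm_fin`), `hfc`; `finsum_mem_eq_finite_toFinset_sum`, `Finset.sum_comm`, `Finset.mul_sum`). `ws_congr`: `WS` depends only on `h c g * wz c g` for `IsC c`, `g ∈ Fm X Y`.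
* `ftb_sum`: `syi` with `Pr φ = Cq .. φ φ₁` (`SYm`, `LC`), `fta`: `(#SYm : ℂ) = (#A)⁻¹ * ∑ κ, WS (fun c g => hcf κ c (gn g) * ep (pai κ (qt g))) Y`.
* `ftb_ne`: if `κ ≠ 0` then `WS(..) / (Y log^(N-1) Y) → 0`: let `κ j₀ ≠ 0`. If some such `j₀` is not central: `hcf_nc`, the sum is `0`. Otherwise `j₀` is central. Let `g' = g.filter (a.1 ≠ j₀)`, `M = #A * y0` (`> 0`: `gg_pos`); `gn g' = gn g` (`j₀` is central), `qt g' j = qt g j` for `j ≠ j₀`, `pai κ (qt g) = ∑_{j ≠ j₀} dt (κ j) (qt g' j) + dt (κ j₀) (qt g j₀)`, `ep` of a sum is a product.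
  So for `IsC c`, `Ok g`: `hcf κ c (gn g) * ep (pai κ (qt g)) = M * (H c g' * ep (dt (κ j₀) (qt g j₀)))` with `H c g' = if IsC c ∧ Ok g' then hcf κ c (gn g') * ep (∑_{j ≠ j₀} ..) / M else 0`, `‖H‖ ≤ 1` (`hcf_le`, `cen_ok`; a subfamily of an `Ok` family is `Ok`). `Anl.ng`, `ws_congr`, `ws_lin`.
* `ftb_z`: for `κ = 0` (`ep 0 = 1`): `hcf 0 c (gn g) * wz c g = gg * h c (qt g) * wz c g` for `IsC c`, `Ok g`, where `h c κ = 1` if there is an `Ok` family `g'` with `qt g' = κ` and `Cv .. (rh c g') (pr ∘ φ₁)` and `IsC c`, and `0` otherwise: if `wz ≠ 0` then all `ev (rh c g) a = 0`, `a ∈ g`, `rh c g = rh c (gn g)` (`cen_rh`), `hcf_zero` for `gn g`;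
  and `Cv (rh c g)` iff `h c (qt g) = 1`: `sty` (`rh_tw`) and `cv_trans`, `cv_symm`. `Anl.lm` gives the limit `l` of `WS (h c (qt g)) / ..`, `0 ≤ l`.
* `gtm`: the limit is `gg * l / #A` (real part: `Complex.continuous_re` or `tendsto_ofReal_iff`). Positivity: `φ₁ ∈ SYf Y₀`; `Lbs φ₁` is not empty (`lbc`: the sum is `1`), `g ∈ Lbs φ₁`, `c` from `syi_to`: `φ₁ ∈ LS (rh c g) g`, so `pr ∘ φ₁ = rh c g` and `h c (qt g) = 1` (`cv_refl`), `ev = 0` by `ls_ev`; last part of `Anl.lm`; `gg > 0` (`gg_pos`).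
-/

set_option autoImplicit false
set_option linter.dupNamespace false

open scoped NumberField
open IsDedekindDomain Filter Topology
open scoped Classical

noncomputable section

namespace H48.MF

open H63.MA H38.BB H38.BG H38.AS H57.PC H57.BRA H89.BRG H1.AR

variable {p u w N : ℕ} {G R Q : Type} [Group G] [Group R] [Group Q] [Finite G] [Finite R]
  [Fintype Q] (Gm : GM p u w N G R Q)
  {K : Type} [Field K] [NumberField K] {Ω : Type} [Field Ω] [Algebra K Ω] [IsAlgClosure K Ω]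
  {ζ : K} (X : AD Gm.M K Ω ζ)

theorem ws_congr {h h' : (Gal(Ω/K) →* R) → Finset X.Lb → ℂ} {Y : ℝ}
    (hh : ∀ c g, X.IsC c → g ∈ Fm X Y → h c g * wz Gm X c g = h' c g * wz Gm X c g) :
    WS Gm X h Y = WS Gm X h' Y := by
  unfold WS
  refine finsum_mem_congr rfl fun g hg => ?_
  refine finsum_mem_congr rfl fun c hc => ?_
  by_cases hs : X.Sp c (g.image Sigma.fst)
  · rw [if_pos hs, if_pos hs]
    exact hh c g hc hg
  · rw [if_neg hs, if_neg hs]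

private theorem ws_eq (hfc : {c | X.IsC c}.Finite) (h : (Gal(Ω/K) →* R) → Finset X.Lb → ℂ) (Y : ℝ) :
    WS Gm X h Y = ∑ g ∈ (fm_fin Gm X Y).toFinset, ∑ c ∈ hfc.toFinset,
      if X.Sp c (g.image Sigma.fst) then h c g * wz Gm X c g else 0 := by
  unfold WS
  rw [finsum_mem_eq_finite_toFinset_sum _ (fm_fin Gm X Y)]
  refine Finset.sum_congr rfl fun g _ => ?_
  rw [finsum_mem_eq_finite_toFinset_sum _ hfc]

theorem ws_lin (hfc : {c | X.IsC c}.Finite) {ι : Type} (s : Finset ι) (t : ι → ℂ)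
    (h : ι → (Gal(Ω/K) →* R) → Finset X.Lb → ℂ) (Y : ℝ) :
    WS Gm X (fun c g => ∑ i ∈ s, t i * h i c g) Y = ∑ i ∈ s, t i * WS Gm X (h i) Y := by
  rw [ws_eq Gm X hfc]
  have h1 : ∀ i ∈ s, t i * WS Gm X (h i) Y = ∑ g ∈ (fm_fin Gm X Y).toFinset, ∑ c ∈ hfc.toFinset,
      if X.Sp c (g.image Sigma.fst) then t i * h i c g * wz Gm X c g else 0 := by
    intro i _
    rw [ws_eq Gm X hfc, Finset.mul_sum]
    refine Finset.sum_congr rfl fun g _ => ?_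
    rw [Finset.mul_sum]
    refine Finset.sum_congr rfl fun c _ => ?_
    rw [mul_ite, mul_zero, mul_assoc]
  rw [Finset.sum_congr rfl h1]
  refine Eq.symm (Finset.sum_comm.trans (Finset.sum_congr rfl fun g _ => ?_))
  refine Finset.sum_comm.trans (Finset.sum_congr rfl fun c _ => ?_)
  by_cases hs : X.Sp c (g.image Sigma.fst)
  · simp only [if_pos hs]
    rw [Finset.sum_mul]
  · simp only [if_neg hs]
    rw [Finset.sum_const_zero]

private theorem ws_smul (hfc : {c | X.IsC c}.Finite) (t : ℂ)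
    (h : (Gal(Ω/K) →* R) → Finset X.Lb → ℂ) (Y : ℝ) :
    WS Gm X (fun c g => t * h c g) Y = t * WS Gm X h Y := by
  have h1 := ws_lin Gm X hfc ({()} : Finset Unit) (fun _ => t) (fun _ => h) Y
  simpa only [Finset.sum_singleton] using h1

theorem ftb_sum [NeZero p] (hp : p.Prime) (hp2 : MOne p K) (hζ : IsPrimitiveRoot ζ p)
    (hz : Z2 p K) (hfc : {c | X.IsC c}.Finite) (φ₁ : Gal(Ω/K) →* G) (Y : ℝ) :
    ((SYm Gm X φ₁ Y).ncard : ℂ) =
      (Fintype.card ((j : Fin N) → Fin (X.A j).D.r → ZMod p) : ℂ)⁻¹ *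
        ∑ κ : (j : Fin N) → Fin (X.A j).D.r → ZMod p,
          WS Gm X (fun c g => hcf Gm X φ₁ κ c (gn Gm g) * ep p (pai κ (X.qt g))) Y := by
  have h1 := (syi Gm X hp hζ hz hfc (fun φ => Cq X.D.S0 X.P Gm.T φ φ₁) Y).2
  rw [finsum_mem_eq_finite_toFinset_sum _ (fm_fin Gm X Y)] at h1
  have h2 : ((SYm Gm X φ₁ Y).ncard : ℝ) = ∑ g ∈ (fm_fin Gm X Y).toFinset, ∑ c ∈ hfc.toFinset,
      if X.Sp c (g.image Sigma.fst) then
        (∏ a ∈ g, Gm.rt a.1) * ((LC Gm X φ₁ (rh X c g) g).ncard : ℝ) else 0 := by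
    refine h1.trans (Finset.sum_congr rfl fun g _ => ?_)
    rw [finsum_mem_eq_finite_toFinset_sum _ hfc]
    rfl
  have h3 : ((SYm Gm X φ₁ Y).ncard : ℂ) = (((SYm Gm X φ₁ Y).ncard : ℝ) : ℂ) := by push_cast; rfl
  have h4 := ws_lin Gm X hfc (Finset.univ : Finset ((j : Fin N) → Fin (X.A j).D.r → ZMod p))
    (fun _ => (Fintype.card ((j : Fin N) → Fin (X.A j).D.r → ZMod p) : ℂ)⁻¹)
    (fun κ c g => hcf Gm X φ₁ κ c (gn Gm g) * ep p (pai κ (X.qt g))) Y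
  rw [← Finset.mul_sum] at h4
  rw [← h4, ws_eq Gm X hfc, h3, h2, Complex.ofReal_sum]
  refine Finset.sum_congr rfl fun g hg => ?_
  rw [Complex.ofReal_sum]
  refine Finset.sum_congr rfl fun c hc => ?_
  rw [Set.Finite.mem_toFinset] at hg hc
  by_cases hs : X.Sp c (g.image Sigma.fst)
  · rw [if_pos hs, if_pos hs]
    rw [fta Gm X hp hp2 hζ φ₁ hc hg.1, ← Finset.mul_sum, mul_assoc, Finset.sum_mul]
  · rw [if_neg hs, if_neg hs, Complex.ofReal_zero]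

private theorem ftb_dt0 {N p : ℕ} {r : Fin N → ℕ} (κ' : (j : Fin N) → Fin (r j) → ZMod p) :
    pai (0 : (j : Fin N) → Fin (r j) → ZMod p) κ' = 0 := by
  unfold pai dt
  refine Finset.sum_eq_zero fun j _ => Finset.sum_eq_zero fun k _ => ?_
  rw [Pi.zero_apply, Pi.zero_apply, zero_mul]

omit [Finite G] [Finite R] [IsAlgClosure K Ω] [Fintype Q] in
private theorem ftb_qt (g : Finset X.Lb) {j j₀ : Fin N} (hj : j ≠ j₀) :
    X.qt (g.filter fun a => a.1 ≠ j₀) j = X.qt g j := by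
  unfold AD.qt
  rw [Finset.sum_filter]
  refine Finset.sum_congr rfl fun a _ => ?_
  by_cases h : a.1 = j₀
  · rw [if_neg (not_not.2 h), dif_neg (fun h' => hj (h'.symm.trans h))]
  · rw [if_pos h]

omit [Finite G] [Finite R] [IsAlgClosure K Ω] [Fintype Q] in
private theorem ftb_gn (g : Finset X.Lb) {j₀ : Fin N} (hj : Cn Gm j₀) :
    gn Gm (g.filter fun a => a.1 ≠ j₀) = gn Gm g := by
  unfold gn
  rw [Finset.filter_filter]
  refine Finset.filter_congr fun a _ => ?_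
  constructor
  · exact fun h => h.2
  · intro h
    refine ⟨?_, h⟩
    intro h'
    rw [h'] at h
    exact h hj

omit [Finite G] [Finite R] [IsAlgClosure K Ω] [Fintype Q] in
private theorem ftb_ok {g g' : Finset X.Lb} (hg : X.Ok g) (hs : g' ⊆ g) : X.Ok g' :=
  ⟨fun a ha => hg.1 a (hs ha), fun a ha b hb hab => hg.2 a (hs ha) b (hs hb) hab⟩

theorem ftb_ne [NeZero p] (hp : p.Prime) (hp2 : MOne p K) (hζ : IsPrimitiveRoot ζ p)
    (hz : Z2 p K) (hA : Anl Gm X) (φ₁ : Gal(Ω/K) →* G)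
    (κ : (j : Fin N) → Fin (X.A j).D.r → ZMod p) (hκ : κ ≠ 0) :
    Tendsto (fun Y : ℝ => WS Gm X (fun c g => hcf Gm X φ₁ κ c (gn Gm g) *
      ep p (pai κ (X.qt g))) Y / ((Y * Real.log Y ^ (N - 1) : ℝ) : ℂ)) atTop (𝓝 0) := by
  by_cases hnc : ∃ j₀, ¬ Cn Gm j₀ ∧ κ j₀ ≠ 0
  · obtain ⟨j₀, h1, h2⟩ := hnc
    have h3 : ∀ Y : ℝ, WS Gm X (fun c g => hcf Gm X φ₁ κ c (gn Gm g) *
        ep p (pai κ (X.qt g))) Y = 0 := by
      intro Y
      rw [ws_eq Gm X hA.fc]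
      refine Finset.sum_eq_zero fun g _ => Finset.sum_eq_zero fun c _ => ?_
      rw [hcf_nc Gm X hp hp2 hζ φ₁ κ h1 h2, zero_mul, zero_mul, ite_self]
    simp only [h3, zero_div]
    exact tendsto_const_nhds
  push Not at hnc
  obtain ⟨j₀, hj₀⟩ := Function.ne_iff.1 hκ
  have hcen : Cn Gm j₀ := by
    by_contra h
    exact hj₀ (hnc j₀ h)
  have hy := (gg_pos Gm X hp hp2 hζ φ₁).2
  obtain ⟨M, hM⟩ : ∃ M : ℝ, M = Fintype.card ((j : Fin N) → Fin (X.A j).D.r → ZMod p) *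
      (y0 Gm X : ℝ) := ⟨_, rfl⟩
  have hM0 : 0 < M := by
    rw [hM]
    exact mul_pos (Nat.cast_pos.2 Fintype.card_pos) (Nat.cast_pos.2 hy)
  obtain ⟨H, hH⟩ : ∃ H : (Gal(Ω/K) →* R) → Finset X.Lb → ℂ, ∀ c g, H c g =
      if X.IsC c ∧ X.Ok g then hcf Gm X φ₁ κ c (gn Gm g) *
        ep p (∑ j ∈ Finset.univ.erase j₀, dt (κ j) (X.qt g j)) / (M : ℂ) else 0 := ⟨_, fun _ _ => rfl⟩
  have hH1 : ∀ c g, ‖H c g‖ ≤ 1 := by
    intro c g
    rw [hH]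
    by_cases h : X.IsC c ∧ X.Ok g
    · rw [if_pos h, norm_div, norm_mul, ep_norm, mul_one, Complex.norm_real, Real.norm_of_nonneg hM0.le,
        div_le_one hM0, hM]
      exact hcf_le Gm X hp hζ φ₁ κ h.1 (cen_ok Gm X h.2)
    · rw [if_neg h, norm_zero]
      exact zero_le_one
  have h1 := hA.ng j₀ hcen (κ j₀) hj₀ H hH1
  have h2 : ∀ Y : ℝ, WS Gm X (fun c g => hcf Gm X φ₁ κ c (gn Gm g) * ep p (pai κ (X.qt g))) Y =
      (M : ℂ) * WS Gm X (fun c g => H c (g.filter fun a => a.1 ≠ j₀) *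
        ep p (dt (κ j₀) (X.qt g j₀))) Y := by
    intro Y
    rw [← ws_smul Gm X hA.fc]
    refine ws_congr Gm X fun c g hc hg => ?_
    congr 1
    have hok := ftb_ok Gm X hg.1 (Finset.filter_subset (fun a => a.1 ≠ j₀) g)
    rw [hH, if_pos ⟨hc, hok⟩, ftb_gn Gm X g hcen]
    have h3 : ∑ j ∈ Finset.univ.erase j₀, dt (κ j) (X.qt (g.filter fun a => a.1 ≠ j₀) j) =
        ∑ j ∈ Finset.univ.erase j₀, dt (κ j) (X.qt g j) := by
      refine Finset.sum_congr rfl fun j hj => ?_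
      rw [ftb_qt Gm X g (Finset.ne_of_mem_erase hj)]
    have h4 : pai κ (X.qt g) = ∑ j ∈ Finset.univ.erase j₀, dt (κ j) (X.qt g j) +
        dt (κ j₀) (X.qt g j₀) := by
      unfold pai
      rw [Finset.sum_erase_add _ _ (Finset.mem_univ j₀)]
    rw [h3, h4, ep_add hp]
    have hM' : (M : ℂ) ≠ 0 := Complex.ofReal_ne_zero.2 hM0.ne'
    field_simp
  have h3 := h1.const_mul (M : ℂ)
  rw [mul_zero] at h3
  refine h3.congr fun Y => ?_
  rw [h2, mul_div_assoc]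

theorem ftb_z [NeZero p] (hcen : Gm.Cen) (hp : p.Prime) (hp2 : MOne p K) (hζ : IsPrimitiveRoot ζ p)
    (hz : Z2 p K) (hA : Anl Gm X) (φ₁ : Gal(Ω/K) →* G) (hφ₁ : H38.ML.FT φ₁) :
    ∃ l : ℝ, 0 ≤ l ∧ Tendsto (fun Y : ℝ => WS Gm X (fun c g => hcf Gm X φ₁ 0 c (gn Gm g) *
      ep p (pai 0 (X.qt g))) Y / ((Y * Real.log Y ^ (N - 1) : ℝ) : ℂ)) atTop (𝓝 (l : ℂ)) ∧
      ((∃ Y, φ₁ ∈ SYf Gm X Y) → 0 < l) := by
  obtain ⟨h, hh⟩ : ∃ h : (Gal(Ω/K) →* R) → ((j : Fin N) → Fin (X.A j).D.r → ZMod p) → ℝ,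
      ∀ c κ, h c κ = if X.IsC c ∧ ∃ g', X.Ok g' ∧ (∀ j, X.qt g' j = κ j) ∧
        Cv X.D.S0 X.P Gm.M (rh X c g') (Gm.pr.comp φ₁) then 1 else 0 := ⟨_, fun _ _ => rfl⟩
  have hh0 : ∀ c κ, 0 ≤ h c κ := by
    intro c κ
    rw [hh]
    split_ifs
    · exact zero_le_one
    · exact le_rfl
  obtain ⟨l, hl1, hl2⟩ := hA.lm h
  obtain ⟨hl3, hl4⟩ := hl2 hh0
  have hgg := (gg_pos Gm X hp hp2 hζ φ₁).1
  have hW : ∀ Y : ℝ, WS Gm X (fun c g => hcf Gm X φ₁ 0 c (gn Gm g) * ep p (pai 0 (X.qt g))) Y =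
      (gg Gm X φ₁ : ℂ) * WS Gm X (fun c g => ((h c (X.qt g) : ℝ) : ℂ)) Y := by
    intro Y
    rw [← ws_smul Gm X hA.fc]
    refine ws_congr Gm X fun c g hc hg => ?_
    rw [ftb_dt0, ep_zero, mul_one]
    by_cases hev : ∀ a ∈ g, X.ev (rh X c g) a = 0
    · congr 1
      have hev' : ∀ a ∈ gn Gm g, X.ev (rh X c (gn Gm g)) a = 0 := by
        intro a ha
        rw [cen_rh]
        exact hev a (Finset.mem_filter.1 ha).1
      rw [hcf_zero Gm X hcen hp hp2 hζ hz φ₁ hφ₁ hc (cen_ok Gm X hg.1) hev', cen_rh, hh]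
      by_cases hcv : Cv X.D.S0 X.P Gm.M (rh X c g) (Gm.pr.comp φ₁)
      · rw [if_pos hcv, if_pos ⟨hc, g, hg.1, fun _ => rfl, hcv⟩, Complex.ofReal_one, mul_one]
      · rw [if_neg hcv, if_neg, Complex.ofReal_zero, mul_zero]
        rintro ⟨-, g', hg', hq, hcv'⟩
        refine hcv (cv_trans Gm (cv_symm Gm ?_) hcv')
        intro v hv
        exact sty X hp hp2 hζ hc hg' hg.1 hq (rh_tw Gm X hp hζ hc g') (rh_tw Gm X hp hζ hc g) v hv
    · have hw : wz Gm X c g = 0 := by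
        unfold wz
        rw [if_neg hev]
      rw [hw, mul_zero, mul_zero]
  refine ⟨gg Gm X φ₁ * l, mul_nonneg (Nat.cast_nonneg _) hl3, ?_, ?_⟩
  · have h3 := hl1.const_mul (gg Gm X φ₁ : ℂ)
    have h4 : (((gg Gm X φ₁ : ℝ) * l : ℝ) : ℂ) = (gg Gm X φ₁ : ℂ) * (l : ℂ) := by
      push_cast
      rfl
    rw [h4]
    refine h3.congr fun Y => ?_
    rw [hW, mul_div_assoc]
  · rintro ⟨Y, hY⟩
    refine mul_pos (Nat.cast_pos.2 hgg) (hl4 ?_)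
    have hne : (Lbs Gm X φ₁).Nonempty := by
      by_contra h
      rw [Set.not_nonempty_iff_eq_empty] at h
      have h1 := (lbc Gm X hp hζ hz hY).2
      rw [h, finsum_mem_empty] at h1
      exact zero_ne_one h1
    obtain ⟨g, hg⟩ := hne
    obtain ⟨h1, c, ⟨h2, h3, h4⟩, -⟩ := syi_to Gm X hp hζ hY hg
    refine ⟨c, g, h2, h1.1, ?_, fun a ha => ls_ev Gm X hp hζ h2 h1.1 (rh_tw Gm X hp hζ h2 g) h4 ha⟩
    have h5 : Gm.pr.comp φ₁ = rh X c g := by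
      ext σ
      exact h4.2.1 σ
    rw [hh, if_pos]
    · exact zero_lt_one
    · refine ⟨h2, g, h1.1, fun _ => rfl, ?_⟩
      rw [h5]
      exact cv_refl Gm _ _ _

theorem gtm [NeZero p] (hcen : Gm.Cen) (hp : p.Prime) (hp2 : MOne p K) (hζ : IsPrimitiveRoot ζ p)
    (hz : Z2 p K) (hA : Anl Gm X) (φ₁ : Gal(Ω/K) →* G) (hφ₁ : H38.ML.FT φ₁) :
    ∃ l : ℝ, 0 ≤ l ∧ Tendsto (fun Y : ℝ => ((SYm Gm X φ₁ Y).ncard : ℝ) /
      (Y * Real.log Y ^ (N - 1))) atTop (𝓝 l) ∧ ((∃ Y, φ₁ ∈ SYf Gm X Y) → 0 < l) := by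
  obtain ⟨l, hl0, hl1, hl2⟩ := ftb_z Gm X hcen hp hp2 hζ hz hA φ₁ hφ₁
  obtain ⟨A, hAc⟩ : ∃ A : ℝ, A = (Fintype.card ((j : Fin N) → Fin (X.A j).D.r → ZMod p) : ℝ) :=
    ⟨_, rfl⟩
  have hA0 : 0 < A := by
    rw [hAc]
    exact Nat.cast_pos.2 Fintype.card_pos
  refine ⟨A⁻¹ * l, mul_nonneg (inv_nonneg.2 hA0.le) hl0, ?_, fun h => mul_pos (inv_pos.2 hA0) (hl2 h)⟩
  have h1 : Tendsto (fun Y : ℝ => ∑ κ : (j : Fin N) → Fin (X.A j).D.r → ZMod p,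
      WS Gm X (fun c g => hcf Gm X φ₁ κ c (gn Gm g) * ep p (pai κ (X.qt g))) Y /
        ((Y * Real.log Y ^ (N - 1) : ℝ) : ℂ)) atTop
      (𝓝 (∑ κ : (j : Fin N) → Fin (X.A j).D.r → ZMod p, if κ = 0 then (l : ℂ) else 0)) := by
    refine tendsto_finsetSum _ fun κ _ => ?_
    by_cases hκ : κ = 0
    · rw [if_pos hκ, hκ]
      exact hl1
    · rw [if_neg hκ]
      exact ftb_ne Gm X hp hp2 hζ hz hA φ₁ κ hκ
  rw [Finset.sum_ite_eq' Finset.univ 0 (fun _ => (l : ℂ)), if_pos (Finset.mem_univ _)] at h1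
  have h2 := h1.const_mul ((A : ℂ)⁻¹)
  have h3 : Tendsto (fun Y : ℝ => ((((SYm Gm X φ₁ Y).ncard : ℝ) / (Y * Real.log Y ^ (N - 1)) : ℝ) : ℂ))
      atTop (𝓝 (((A⁻¹ * l : ℝ)) : ℂ)) := by
    have h4 : (((A⁻¹ * l : ℝ)) : ℂ) = (A : ℂ)⁻¹ * (l : ℂ) := by
      push_cast
      rfl
    rw [h4]
    refine h2.congr fun Y => ?_
    rw [← Finset.sum_div]
    have h5 := ftb_sum Gm X hp hp2 hζ hz hA.fc φ₁ Y
    rw [Complex.ofReal_div, Complex.ofReal_natCast, h5, hAc, Complex.ofReal_natCast, mul_div_assoc]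
  have h6 := (Complex.continuous_re.tendsto _).comp h3
  simpa only [Function.comp_def, Complex.ofReal_re] using h6

theorem gtm_lim [NeZero p] (hcen : Gm.Cen) (hp : p.Prime) (hp2 : MOne p K)
    (hζ : IsPrimitiveRoot ζ p) (hz : Z2 p K) (hA : Anl Gm X) : LimH Gm X where
  fc := hA.fc
  lim := fun φ₁ hφ₁ => by
    obtain ⟨l, h0, h1, -⟩ := gtm Gm X hcen hp hp2 hζ hz hA φ₁ hφ₁
    exact ⟨l, h0, h1⟩
  pos := fun φ₁ Y₁ h => by
    obtain ⟨l, -, h1, h2⟩ := gtm Gm X hcen hp hp2 hζ hz hA φ₁ h.1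
    exact ⟨φ₁, Y₁, h, l, h2 ⟨Y₁, h⟩, h1⟩

end H48.MF
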