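import Pool.Agent.H48.MF.Defs

/-!
# [H48 MF GRF] facts on the group data, 120-200 lines. File Pool/Agent/H48/MF/Grf.lean

Notation: Defs.lean (`GM`); `H57/BRA/Def.lean` (`iv`, `Coc`), `H57/BRA/Grp.lean` (`iv_swap`, `iv_one_left`, `iv_mul_left`, ...).
* `gm_z0`, `gm_zneg`, `gm_zpow` (`z a ^ n = z (n • a)` by induction, `p • a = 0` in `Fin w → ZMod p`), `gm_pz` (`zker`), `gm_fib`: `pr (x y⁻¹) = 1`, `zker`.
* `gm_T`: `M.eker`.
* `gm_sec`: every `x` is `z a * sec (pr x)` (`sec_pr`, `gm_fib`).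
* `gm_comm`: `x y = z (iv (c k) (pr x) (pr y))_k y x` if `pr x`, `pr y` commute: write `x = z a sec r`, `y = z b sec s`, `sec_mul` for `r, s` and `s, r`, `zcen`.
* `del_iff`: `IsConj (z d * g j) (g j)` iff there is `x` with `x g_j x⁻¹ = z d * g_j` (`isConj_iff`, up to symmetry). `→`: then `pr x` commutes with `e (y j)` (`gm_pz`, `gy`), so `act (π (pr x)) (y j) = y j` (`M.conj`, `M.einj`), and `gm_comm`
  gives `d = iv (c k) (pr x) (e (y j))` (`zinj`). `←`: `x = sec r`.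
* `del_zero`, `del_add`, `del_neg`: multiply the conjugacy by central elements (`IsConj (z d g) g` implies `IsConj (z (d' + d) g) (z d' g)`: `isConj_iff`, `zcen`).
* `zj_sub`: `del_iff` with `r = e x`: `iv (c k) (e x) (e (y j)) = om x (y j) k = - om (y j) x k` (`iv_om`, `iv_swap`), take `r = e (-x)`; `act (π (e x)) = act 1 = id`.
* `fib_conj`: `gm_fib` and `del`.
* `conj_act`: `x = r g_j r⁻¹`: `pr x = pr r * e (y j) * (pr r)⁻¹ = e (act (π (pr r)) (y j))`; `x ^ p = 1`, `x ≠ 1` by conjugation (`conj_pow`, `gp`, `gne`).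
* `cn_g`: `pr (g j) = e 0 = 1` (`e 0 = 1` by `eadd`), `zker`; `zv j ≠ 0` because `g j ≠ 1`. `cn_ex`: `cen`: `g i = z a`, `e (y i) = pr (z a) = 1 = e 0`, `einj`; `zinj`.
* `cn_del`: `Del = {0}`: `z d g_j` and `g_j` are central (`cn_g`), conjugate central elements are equal. `Zj = {0}`: `om 0 _ = 0`. `H j = ⊤`: every `q` is `π r` (`M.πs`), `memH` with `x = 0`: `iv (c k) (e 0) r = iv (c k) 1 r = 0`.
-/

set_option autoImplicit false
set_option linter.dupNamespace false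

open scoped NumberField
open IsDedekindDomain
open scoped Classical

noncomputable section

namespace H48.MF

open H63.MA H38.BB H38.BG H38.AS H57.PC H57.BRA H89.BRG H1.AR

variable {p u w N : ℕ} {G R Q : Type} [Group G] [Group R] [Group Q] (Gm : GM p u w N G R Q)

theorem gm_z0 : Gm.z 0 = 1 := by
  have h := Gm.zadd 0 0
  rw [add_zero] at h
  exact left_eq_mul.1 h

theorem gm_zneg (a : Fin w → ZMod p) : Gm.z (-a) = (Gm.z a)⁻¹ := by
  rw [eq_inv_iff_mul_eq_one, ← Gm.zadd, neg_add_cancel, gm_z0]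

theorem gm_zpow (a : Fin w → ZMod p) : Gm.z a ^ p = 1 := by
  have h : ∀ n : ℕ, Gm.z a ^ n = Gm.z (n • a) := by
    intro n
    induction n with
    | zero => rw [pow_zero, zero_smul, gm_z0]
    | succ n ih => rw [pow_succ, ih, ← Gm.zadd, succ_nsmul]
  have h1 : p • a = 0 := by
    funext i
    rw [Pi.smul_apply, nsmul_eq_mul, ZMod.natCast_self, zero_mul, Pi.zero_apply]
  rw [h, h1, gm_z0]

theorem gm_pz (a : Fin w → ZMod p) : Gm.pr (Gm.z a) = 1 := by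
  exact (Gm.zker _).2 ⟨a, rfl⟩

theorem gm_fib {x y : G} (h : Gm.pr x = Gm.pr y) : ∃ a, x = Gm.z a * y := by
  have h1 : Gm.pr (x * y⁻¹) = 1 := by rw [map_mul, map_inv, h, mul_inv_cancel]
  obtain ⟨a, ha⟩ := (Gm.zker _).1 h1
  exact ⟨a, by rw [ha, inv_mul_cancel_right]⟩

theorem gm_T (g : G) : g ∈ Gm.T ↔ ∃ x, Gm.pr g = Gm.M.e x := by
  have h1 : g ∈ Gm.T ↔ Gm.M.π (Gm.pr g) = 1 := MonoidHom.mem_ker
  rw [h1, Gm.M.eker]
  exact ⟨fun ⟨x, hx⟩ => ⟨x, hx.symm⟩, fun ⟨x, hx⟩ => ⟨x, hx.symm⟩⟩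

theorem gm_e0 : Gm.M.e 0 = 1 := by
  have h := Gm.M.eadd 0 0
  rw [add_zero] at h
  exact left_eq_mul.1 h

theorem gm_comm {x y : G} (h : Gm.pr x * Gm.pr y = Gm.pr y * Gm.pr x) :
    x * y = Gm.z (fun k => iv (Gm.M.c k) (Gm.pr x) (Gm.pr y)) * (y * x) := by
  have hs : ∀ x : G, ∃ a, x = Gm.z a * Gm.sec (Gm.pr x) := fun x =>
    gm_fib Gm (by rw [Gm.sec_pr])
  have key : ∀ (a b : Fin w → ZMod p) (r s : R), Gm.z a * Gm.sec r * (Gm.z b * Gm.sec s) =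
      Gm.z (a + b + fun k => Gm.M.c k r s) * Gm.sec (r * s) := by
    intro a b r s
    have h1 : Gm.sec r * Gm.z b = Gm.z b * Gm.sec r := (Gm.zcen b _).symm
    calc Gm.z a * Gm.sec r * (Gm.z b * Gm.sec s)
        = Gm.z a * (Gm.sec r * Gm.z b) * Gm.sec s := by simp only [mul_assoc]
      _ = Gm.z a * Gm.z b * (Gm.sec r * Gm.sec s) := by rw [h1]; simp only [mul_assoc]
      _ = _ := by rw [Gm.sec_mul, ← mul_assoc, ← Gm.zadd, ← Gm.zadd]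
  obtain ⟨a, ha⟩ := hs x
  obtain ⟨b, hb⟩ := hs y
  generalize hr : Gm.pr x = r at *
  generalize hs' : Gm.pr y = s at *
  rw [ha, hb, key, key, ← mul_assoc, ← Gm.zadd, h]
  congr 2
  funext k
  simp only [Pi.add_apply, iv]
  ring

theorem del_iff (j : Fin N) (d : Fin w → ZMod p) : d ∈ Gm.Del j ↔ ∃ r : R,
    Gm.M.act (Gm.M.π r) (Gm.M.y j) = Gm.M.y j ∧
      ∀ k, d k = iv (Gm.M.c k) r (Gm.M.e (Gm.M.y j)) := by
  have h0 : ∀ r : R, Gm.M.act (Gm.M.π r) (Gm.M.y j) = Gm.M.y j ↔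
      r * Gm.M.e (Gm.M.y j) = Gm.M.e (Gm.M.y j) * r := by
    intro r
    rw [← mul_inv_eq_iff_eq_mul, Gm.M.conj]
    exact ⟨fun h => by rw [h], fun h => Gm.M.einj h⟩
  constructor
  · intro h
    obtain ⟨x, hx⟩ := isConj_iff.1 (IsConj.symm h)
    have h1 : x * Gm.g j = Gm.z d * (Gm.g j * x) := by
      rw [← mul_assoc, ← hx, inv_mul_cancel_right]
    have h2 : Gm.pr x * Gm.pr (Gm.g j) = Gm.pr (Gm.g j) * Gm.pr x := by
      rw [← map_mul, h1, map_mul, gm_pz, one_mul, map_mul]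
    have h3 := gm_comm Gm h2
    rw [h1] at h3
    have h4 := Gm.zinj (mul_right_cancel h3)
    rw [Gm.gy] at h2 h4
    exact ⟨Gm.pr x, (h0 _).2 h2, fun k => congrFun h4 k⟩
  · rintro ⟨r, h1, h2⟩
    have h3 : Gm.pr (Gm.sec r) * Gm.pr (Gm.g j) = Gm.pr (Gm.g j) * Gm.pr (Gm.sec r) := by
      rw [Gm.sec_pr, Gm.gy]
      exact (h0 r).1 h1
    have h4 := gm_comm Gm h3
    rw [Gm.sec_pr, Gm.gy, ← funext h2] at h4
    refine IsConj.symm (isConj_iff.2 ⟨Gm.sec r, ?_⟩)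
    rw [h4, ← mul_assoc, mul_inv_cancel_right]

theorem del_zero (j : Fin N) : (0 : Fin w → ZMod p) ∈ Gm.Del j := by
  change IsConj (Gm.z 0 * Gm.g j) (Gm.g j)
  rw [gm_z0, one_mul]

theorem del_add (j : Fin N) {d d' : Fin w → ZMod p} (h : d ∈ Gm.Del j) (h' : d' ∈ Gm.Del j) :
    d + d' ∈ Gm.Del j := by
  refine IsConj.trans ?_ h'
  obtain ⟨c, hc⟩ := isConj_iff.1 h
  refine isConj_iff.2 ⟨c, ?_⟩
  have h1 : c * Gm.z d' = Gm.z d' * c := (Gm.zcen d' c).symm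
  calc c * (Gm.z (d + d') * Gm.g j) * c⁻¹ = c * Gm.z d' * (Gm.z d * Gm.g j) * c⁻¹ := by
        rw [add_comm, Gm.zadd]
        simp only [mul_assoc]
    _ = Gm.z d' * (c * (Gm.z d * Gm.g j) * c⁻¹) := by
        rw [h1]
        simp only [mul_assoc]
    _ = Gm.z d' * Gm.g j := by rw [hc]

theorem del_neg (j : Fin N) {d : Fin w → ZMod p} (h : d ∈ Gm.Del j) : -d ∈ Gm.Del j := by
  obtain ⟨c, hc⟩ := isConj_iff.1 h
  refine IsConj.symm (isConj_iff.2 ⟨c, ?_⟩)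
  rw [← mul_assoc, ← Gm.zcen d c, mul_assoc, mul_assoc] at hc
  rw [gm_zneg, eq_inv_mul_iff_mul_eq, mul_assoc]
  exact hc

theorem zj_sub (j : Fin N) : Gm.Zj j ⊆ Gm.Del j := by
  rintro _ ⟨x, rfl⟩
  refine (del_iff Gm j _).2 ⟨Gm.M.e (-x), ?_, fun k => ?_⟩
  · have h1 : Gm.M.π (Gm.M.e (-x)) = 1 := (Gm.M.eker _).2 ⟨-x, rfl⟩
    rw [h1, Gm.M.act_one]
  · have h1 := Gm.M.iv_om k (Gm.M.y j) x
    rw [iv_swap, Gm.M.iv_om] at h1
    rw [Gm.M.iv_om, ← h1, map_neg]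
    rfl

theorem fib_conj {x : G} {j : Fin N} (h : Gm.pr x = Gm.M.e (Gm.M.y j)) :
    IsConj x (Gm.g j) ↔ ∃ d ∈ Gm.Del j, x = Gm.z d * Gm.g j := by
  constructor
  · intro h1
    obtain ⟨d, hd⟩ := gm_fib Gm (x := x) (y := Gm.g j) (by rw [h, Gm.gy])
    refine ⟨d, ?_, hd⟩
    rw [hd] at h1
    exact h1
  · rintro ⟨d, hd, rfl⟩
    exact hd

theorem conj_act {x : G} {j : Fin N} (h : IsConj x (Gm.g j)) :
    (∃ q, Gm.pr x = Gm.M.e (Gm.M.act q (Gm.M.y j))) ∧ x ≠ 1 ∧ x ^ p = 1 := by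
  obtain ⟨c, hc⟩ := isConj_iff.1 (IsConj.symm h)
  refine ⟨⟨Gm.M.π (Gm.pr c), ?_⟩, ?_, ?_⟩
  · rw [← Gm.M.conj, ← hc, map_mul, map_mul, map_inv, Gm.gy]
  · rintro rfl
    refine Gm.gne j ?_
    rw [mul_inv_eq_one] at hc
    exact (mul_eq_left.1 hc)
  · rw [← hc, conj_pow, Gm.gp, mul_one, mul_inv_cancel]

theorem cn_g {j : Fin N} (h : Cn Gm j) : Gm.z (zv Gm j) = Gm.g j ∧ zv Gm j ≠ 0 := by
  have h1 : ∃ a, Gm.z a = Gm.g j := by
    refine (Gm.zker _).1 ?_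
    have h2 : Gm.M.y j = 0 := h
    rw [Gm.gy, h2, gm_e0]
  have h2 : Gm.z (zv Gm j) = Gm.g j := by
    rw [zv, dif_pos h1]
    exact h1.choose_spec
  refine ⟨h2, fun h3 => Gm.gne j ?_⟩
  rw [← h2, h3, gm_z0]

theorem cn_ex (hcen : Gm.Cen) (a : Fin w → ZMod p) (ha : a ≠ 0) : ∃ j, Cn Gm j ∧ zv Gm j = a := by
  obtain ⟨i, hi⟩ := hcen a ha
  have h1 : Cn Gm i := by
    refine Gm.M.einj ?_
    rw [← Gm.gy, hi, gm_pz, gm_e0]
  exact ⟨i, h1, Gm.zinj (by rw [(cn_g Gm h1).1, hi])⟩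

theorem cn_del {j : Fin N} (h : Cn Gm j) : Gm.Del j = {0} ∧ Gm.Zj j = {0} ∧ Gm.M.H j = ⊤ := by
  have h0 : Gm.M.y j = 0 := h
  refine ⟨?_, ?_, ?_⟩
  · ext d
    rw [Set.mem_singleton_iff]
    refine ⟨fun hd => ?_, fun hd => by rw [hd]; exact del_zero Gm j⟩
    obtain ⟨c, hc⟩ := isConj_iff.1 (show IsConj (Gm.z d * Gm.g j) (Gm.g j) from hd)
    rw [← (cn_g Gm h).1, ← Gm.zadd, ← Gm.zcen, mul_inv_cancel_right] at hc
    exact add_eq_right.1 (Gm.zinj hc)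
  · ext d
    rw [Set.mem_singleton_iff, GM.Zj, Set.mem_range, h0, map_zero]
    exact ⟨fun ⟨x, hx⟩ => hx.symm, fun hd => ⟨0, hd.symm⟩⟩
  · refine (Subgroup.eq_top_iff' _).2 fun q => ?_
    obtain ⟨r, rfl⟩ := Gm.M.πs q
    refine Gm.memH j r (by rw [h0, map_zero]) ⟨0, fun k => ?_⟩
    rw [h0, gm_e0, iv_one_left (Gm.M.coc k), map_zero]
    rfl

theorem cn_rt {j : Fin N} (h : Cn Gm j) : Gm.rt j = 1 := by
  rw [GM.rt, (cn_del Gm h).1, (cn_del Gm h).2.1]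
  exact div_self (by simp)

theorem rt_pos [NeZero p] (j : Fin N) : 0 < Gm.rt j ∧ Gm.rt j ≤ 1 ∧ 0 < Nat.card (Gm.Del j) ∧
    0 < Nat.card (Gm.Zj j) := by
  have h1 : 0 < Nat.card (Gm.Del j) := by
    have : Nonempty (Gm.Del j) := ⟨⟨0, del_zero Gm j⟩⟩
    have : Finite (Gm.Del j) := Set.toFinite _
    exact Nat.card_pos
  have h2 : 0 < Nat.card (Gm.Zj j) := by
    have : Nonempty (Gm.Zj j) := ⟨⟨_, Set.mem_range_self 0⟩⟩
    have : Finite (Gm.Zj j) := Set.toFinite _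
    exact Nat.card_pos
  have h3 : Nat.card (Gm.Zj j) ≤ Nat.card (Gm.Del j) :=
    Nat.card_mono (Set.toFinite _) (zj_sub Gm j)
  have h4 : (0 : ℝ) < Nat.card (Gm.Del j) := by exact_mod_cast h1
  have h5 : (0 : ℝ) < Nat.card (Gm.Zj j) := by exact_mod_cast h2
  refine ⟨div_pos h5 h4, ?_, h1, h2⟩
  rw [GM.rt, div_le_one h4]
  exact_mod_cast h3

/-- a surjective composition to `R` comes from a surjective homomorphism -/
theorem gm_sur {Γ : Type} [Group Γ] (φ : Γ →* G) :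
    Function.Surjective φ ↔ Function.Surjective (Gm.pr.comp φ) := by
  refine ⟨fun h => Gm.prs.comp h, fun h => ?_⟩
  have h1 : ∀ g : G, ∃ s ∈ φ.range, ∃ a, g = Gm.z a * s := by
    intro g
    obtain ⟨γ, hγ⟩ := h (Gm.pr g)
    obtain ⟨a, ha⟩ := gm_fib Gm (x := g) (y := φ γ) hγ.symm
    exact ⟨φ γ, ⟨γ, rfl⟩, a, ha⟩
  have h2 : commutator G ≤ φ.range := by
    rw [commutator_def, Subgroup.commutator_le]
    intro x _ y _
    obtain ⟨s, hs, a, rfl⟩ := h1 x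
    obtain ⟨t, ht, b, rfl⟩ := h1 y
    have e1 : Gm.z a * s * (Gm.z b * t) = Gm.z (a + b) * (s * t) := by
      rw [mul_assoc, ← mul_assoc s, ← Gm.zcen b s, Gm.zadd]
      simp only [mul_assoc]
    have e2 : Gm.z b * t * (Gm.z a * s) = Gm.z (a + b) * (t * s) := by
      rw [mul_assoc, ← mul_assoc t, ← Gm.zcen a t, add_comm, Gm.zadd]
      simp only [mul_assoc]
    have e3 : Gm.z a * s * (Gm.z b * t) * (Gm.z a * s)⁻¹ * (Gm.z b * t)⁻¹ = s * t * (t * s)⁻¹ := by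
      have e4 : Gm.z a * s * (Gm.z b * t) * (Gm.z a * s)⁻¹ * (Gm.z b * t)⁻¹ =
          Gm.z a * s * (Gm.z b * t) * (Gm.z b * t * (Gm.z a * s))⁻¹ := by
        group
      have e5 : Gm.z (a + b) * (t * s) = t * s * Gm.z (a + b) := Gm.zcen _ _
      have e6 : Gm.z (a + b) * (s * t) = s * t * Gm.z (a + b) := Gm.zcen _ _
      rw [e4, e1, e2, e5, e6]
      group
    rw [commutatorElement_def, e3]
    exact mul_mem (mul_mem hs ht) (inv_mem (mul_mem ht hs))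
  intro g
  obtain ⟨s, hs, a, rfl⟩ := h1 g
  change Gm.z a * s ∈ φ.range
  exact mul_mem (h2 (Gm.zcom a)) hs

end H48.MF
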