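import Pool.Agent.H48.MF.Lbv

/-!
# [H48 MF LBC] the weighted number of the label families of a homomorphism, 100-160 lines. File Pool/Agent/H48/MF/Lbc.lean

`φ ∈ SYf Y`, `T` the finite set of the ramified `v ∉ S0`; each has a type. A family `g ∈ Lbs φ` contains exactly one label over each `v ∈ T` (`X.Ok`: different labels are over different primes; last condition of `Lbs`), it is in `Lv φ v`, and no other labels (every `a ∈ g` is over a prime of `T`). So `Lbs φ` is in bijection with the functions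
`s ∈ ∏_{v ∈ T} Lv φ v` (`g = image of s`), and `∏_{a ∈ g} rt a.1 = ∏_{v ∈ T} rt (s v).1`. With `Finset.prod_sum` (or `Finset.prod_univ_sum`, `Fintype.piFinset`): `∑_{g} ∏_{a ∈ g} rt = ∏_{v ∈ T} ∑_{a ∈ Lv φ v} rt a.1 = 1` (`lbv`). Turn `∑ᶠ` into `∑` by `finsum_mem_eq_finite_toFinset_sum`. `lbc_mem`: members of `Lbs φ` in terms of `T`.
-/

set_option autoImplicit false
set_option linter.dupNamespace false

open scoped NumberField
open IsDedekindDomain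
open scoped Classical

noncomputable section

namespace H48.MF

open H63.MA H38.BB H38.BG H38.AS H57.PC H57.BRA H89.BRG H1.AR

variable {p u w N : ℕ} {G R Q : Type} [Group G] [Group R] [Group Q] [Finite G] [Finite R]
  [Fintype Q] (Gm : GM p u w N G R Q)
  {K : Type} [Field K] [NumberField K] {Ω : Type} [Field Ω] [Algebra K Ω] [IsAlgClosure K Ω]
  {ζ : K} (X : AD Gm.M K Ω ζ)

theorem lbc_mem {φ : Gal(Ω/K) →* G} {T : Finset (Pl K)} (hT : ∀ v, v ∈ T ↔ Rm X.L φ v)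
    (g : Finset X.Lb) : g ∈ Lbs Gm X φ ↔ (∀ a ∈ g, a ∈ Lv Gm X φ (X.un a) ∧ X.un a ∈ T) ∧
      ∀ v ∈ T, ∃! a, a ∈ g ∧ X.un a = v := by
  constructor
  · rintro ⟨⟨h1, h2⟩, h3, h4⟩
    refine ⟨fun a ha => ⟨⟨h1 a ha, rfl, (h3 a ha).1, (h3 a ha).2⟩,
      (hT _).2 ((h4 _).2 ⟨a, ha, rfl⟩)⟩, fun v hv => ?_⟩
    obtain ⟨a, ha, hav⟩ := (h4 v).1 ((hT v).1 hv)
    refine ⟨a, ⟨ha, hav⟩, ?_⟩
    rintro b ⟨hb, hbv⟩
    by_contra hne
    exact h2 b hb a ha hne (hbv.trans hav.symm)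
  · rintro ⟨h1, h2⟩
    refine ⟨⟨fun a ha => (h1 a ha).1.1, fun a ha b hb hne he => ?_⟩,
      fun a ha => ⟨(h1 a ha).1.2.2.1, (h1 a ha).1.2.2.2⟩, fun v => ?_⟩
    · obtain ⟨c, -, hc⟩ := h2 _ (h1 a ha).2
      exact hne ((hc a ⟨ha, rfl⟩).trans (hc b ⟨hb, he.symm⟩).symm)
    · rw [← hT v]
      constructor
      · intro hv
        obtain ⟨a, ⟨ha, hav⟩, -⟩ := h2 v hv
        exact ⟨a, ha, hav⟩
      · rintro ⟨a, ha, rfl⟩
        exact (h1 a ha).2

theorem lbc [NeZero p] (hp : p.Prime) (hζ : IsPrimitiveRoot ζ p) (hz : Z2 p K)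
    {φ : Gal(Ω/K) →* G} {Y : ℝ} (hφ : φ ∈ SYf Gm X Y) :
    (Lbs Gm X φ).Finite ∧ ∑ᶠ g ∈ Lbs Gm X φ, ∏ a ∈ g, Gm.rt a.1 = 1 := by
  obtain ⟨h1, -, h3, h4, T, hT, -⟩ := hφ
  have hL : ∀ v, ∃ L : Finset X.Lb, v ∈ T → (L : Set X.Lb) = Lv Gm X φ v ∧ ∑ a ∈ L, Gm.rt a.1 = 1 := by
    intro v
    by_cases hv : v ∈ T
    · obtain ⟨i, hi⟩ := h4 v ((hT v).1 hv)
      obtain ⟨h5, h6⟩ := lbv Gm X hp hζ hz h1 h3 hi
      refine ⟨h5.toFinset, fun _ => ⟨h5.coe_toFinset, ?_⟩⟩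
      rw [← h6, finsum_mem_eq_finite_toFinset_sum _ h5]
    · exact ⟨∅, fun h => absurd h hv⟩
  choose L hL using hL
  have hLm : ∀ v ∈ T, ∀ a, a ∈ L v ↔ a ∈ Lv Gm X φ v := by
    intro v hv a
    rw [← (hL v hv).1, Finset.mem_coe]
  obtain ⟨Φ, hΦ⟩ : ∃ Φ : ((v : Pl K) → v ∈ T → X.Lb) → Finset X.Lb, ∀ s,
      Φ s = T.attach.image fun x => s x.1 x.2 := ⟨fun s => T.attach.image fun x => s x.1 x.2, fun _ => rfl⟩
  have hun : ∀ s ∈ T.pi L, ∀ v (hv : v ∈ T), X.un (s v hv) = v := by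
    intro s hs v hv
    have h5 := Finset.mem_pi.1 hs v hv
    rw [hLm v hv] at h5
    exact h5.2.1
  have hlv : ∀ s ∈ T.pi L, ∀ v (hv : v ∈ T), s v hv ∈ Lv Gm X φ v := by
    intro s hs v hv
    exact (hLm v hv _).1 (Finset.mem_pi.1 hs v hv)
  have hset : Lbs Gm X φ = (((T.pi L).image Φ : Finset (Finset X.Lb)) : Set (Finset X.Lb)) := by
    ext g
    rw [lbc_mem Gm X hT, Finset.mem_coe, Finset.mem_image]
    constructor
    · rintro ⟨h5, h6⟩
      choose s hs1 hs2 using h6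
      have hs3 : s ∈ T.pi L := by
        rw [Finset.mem_pi]
        intro v hv
        obtain ⟨h7, h8⟩ := hs1 v hv
        have h9 := (h5 _ h7).1
        rw [h8] at h9
        exact (hLm v hv _).2 h9
      refine ⟨s, hs3, ?_⟩
      rw [hΦ]
      ext a
      rw [Finset.mem_image]
      constructor
      · rintro ⟨⟨v, hv⟩, -, rfl⟩
        exact (hs1 v hv).1
      · intro ha
        refine ⟨⟨X.un a, (h5 a ha).2⟩, Finset.mem_attach _ _, ?_⟩
        exact (hs2 (X.un a) (h5 a ha).2 a ⟨ha, rfl⟩).symm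
    · rintro ⟨s, hs, rfl⟩
      rw [hΦ]
      constructor
      · intro a ha
        obtain ⟨⟨v, hv⟩, -, rfl⟩ := Finset.mem_image.1 ha
        rw [hun s hs v hv]
        exact ⟨hlv s hs v hv, hv⟩
      · intro v hv
        refine ⟨s v hv, ⟨Finset.mem_image.2 ⟨⟨v, hv⟩, Finset.mem_attach _ _, rfl⟩, hun s hs v hv⟩, ?_⟩
        rintro b ⟨hb, hbv⟩
        obtain ⟨⟨v', hv'⟩, -, rfl⟩ := Finset.mem_image.1 hb
        rw [hun s hs v' hv'] at hbv
        subst hbv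
        rfl
  have hinj : Set.InjOn Φ (T.pi L : Finset ((v : Pl K) → v ∈ T → X.Lb)) := by
    intro s hs s' hs' he
    rw [Finset.mem_coe] at hs hs'
    rw [hΦ, hΦ] at he
    funext v hv
    have h5 : s v hv ∈ T.attach.image fun x => s' x.1 x.2 := by
      rw [← he]
      exact Finset.mem_image.2 ⟨⟨v, hv⟩, Finset.mem_attach _ _, rfl⟩
    obtain ⟨⟨v', hv'⟩, -, h6⟩ := Finset.mem_image.1 h5
    have h7 : v' = v := by
      rw [← hun s' hs' v' hv', ← hun s hs v hv]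
      exact congrArg X.un h6
    subst h7
    exact h6.symm
  refine ⟨by rw [hset]; exact Finset.finite_toSet _, ?_⟩
  rw [hset, finsum_mem_coe_finset, Finset.sum_image hinj]
  have h5 : ∏ v ∈ T, ∑ a ∈ L v, Gm.rt a.1 = 1 := Finset.prod_eq_one fun v hv => (hL v hv).2
  rw [← h5, Finset.prod_sum]
  refine Finset.sum_congr rfl fun s hs => ?_
  rw [hΦ, Finset.prod_image]
  rintro ⟨v, hv⟩ - ⟨v', hv'⟩ - h6
  have h7 : v = v' := by
    rw [← hun s hs v hv, ← hun s hs v' hv']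
    exact congrArg X.un h6
  subst h7
  rfl

end H48.MF
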