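import Pool.Agent.H48.MF.Lfe
import Pool.Agent.H48.MF.Dcd
import Pool.Agent.H1.AR.Lbm

/-!
# [H48 MF LBV] the labels over a typed prime, 150-220 lines. File Pool/Agent/H48/MF/Lbv.lean

`Lv φ v`: the good labels `a` over `v` with `φ (X.t a)` conjugate to `g a.1` and `pr φ (X.t a) = e (y a.1)`. Let `v` be of type `i`. `n` is prime and `v ∉ S0` (`D.Gd v`).
* `lbv_cls`: `a.1 = i`: `φ (X.t a)` is conjugate to `φ (X.L.t v)` (`lab_cj`), so `g a.1` to `g i`, `Gm.uni`.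
* `lbv_e`: let `x₀ ∈ G` with `φ (t_v) = x₀ g_i x₀⁻¹` (`t_v = X.L.t v`; `isConj_iff`), `q₀ = π (pr x₀)`, so `pr φ (t_v) = e (act q₀ (y i))` (`gy`, `M.conj`). For a good label `a = ⟨i, w⟩` over `v` and `h` with `Cn X a hv h` (`H1.AR.Cn`; `lbl_ex`): `φ (X.t a) = φ h * φ (t_v) * (φ h)⁻¹` (`lbl_t` for `φ`), so it is conjugate to `g i`, and its image under `pr` is
  `e (act (φQ h * q₀) (y i))` (`hπ`, `M.act_mul`), equal to `e (y i)` iff `act (φQ h * q₀) (y i) = y i` (`M.einj`) iff `mk (φQ h)⁻¹ = q₀ • c` with `c ∈ C = {mk q : act q (y i) = y i}` (`(φQ h)⁻¹ = q₀ * (φQ h * q₀)⁻¹`; the condition depends only on the coset because `H i` fixes `y i`: `M.fixy`).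
* `lbv_card`: the number of labels in `Lv φ v` is `#C`: bijection `w ↦ q₀⁻¹ • E w` (`lbl`) onto `C`. It remains to see that `q₀ • c` is fixed by `φQ (F)`, `F = X.Fr.F v`, for all `c = mk s ∈ C`: let `x ∈ G` with `π (pr x) = q₀ * s` (`prs`, `πs`). `pr (x g_i x⁻¹) = e (act (q₀ * s) (y i)) = e (act q₀ (y i)) = pr φ (t_v)`, so
  `x g_i x⁻¹ = z d * φ (t_v)` (`gm_fib`). `φ F` commutes with `φ (t_v)` (third property of the Frobenius element, `isFr_of hp hζ hz X.Fr v _`; exponent `p`, see how `brg1f` or `res_loc` use it), so with `x g_i x⁻¹` (`zcen`), and `f = x⁻¹ φ F x` commutes with `g i`: `act (π (pr f)) (y i) = y i` (`gy`, `M.conj`, `M.einj`), and `iv (c k) (e (y i)) (pr f) = 0` for all `k` (`gm_comm`,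
  `zinj`, `gm_z0`) `= om (y i) 0 k`. So `π (pr f) ∈ H i` (`Gm.memH` with `x = 0`), i.e. `(q₀ s)⁻¹ * φQ F * (q₀ s) ∈ H i`, i.e. `φQ F • mk (q₀ s) = mk (q₀ s)`.
* `lbv`: `∑ rt = #C * (#Zj / #Del) = 1` (`del_card`, `rt_pos`).
-/

set_option autoImplicit false
set_option linter.dupNamespace false

open scoped NumberField
open IsDedekindDomain
open scoped Classical

noncomputable section

namespace H48.MF

open H63.MA H38.BB H38.BG H38.AS H57.PC H57.BRA H89.BRG H1.AR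

variable {p u w N : ℕ} {G R Q : Type} [Group G] [Group R] [Group Q] [Finite G] [Finite R]
  [Fintype Q] (Gm : GM p u w N G R Q)
  {K : Type} [Field K] [NumberField K] {Ω : Type} [Field Ω] [Algebra K Ω] [IsAlgClosure K Ω]
  {ζ : K} (X : AD Gm.M K Ω ζ)

/-- the labels over `v` which can occur in the label families of `φ` -/
def Lv (φ : Gal(Ω/K) →* G) (v : Pl K) : Set X.Lb :=
  {a | X.Gd a ∧ X.un a = v ∧ IsConj (φ (X.t a)) (Gm.g a.1) ∧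
    Gm.pr (φ (X.t a)) = Gm.M.e (Gm.M.y a.1)}

theorem lbv_cls (hp : p.Prime) (hζ : IsPrimitiveRoot ζ p) {φ : Gal(Ω/K) →* G}
    (hφ : H38.ML.FT φ) {v : Pl K} {i : Fin N} (h : Ty Gm.g X.L φ i v) {a : X.Lb}
    (ha : a ∈ Lv Gm X φ v) : a.1 = i := by
  obtain ⟨h1, h2, h3, -⟩ := ha
  subst h2
  exact Gm.uni _ _ (h3.symm.trans ((lab_cj X hp hζ h1 φ hφ h.2.2).trans h.2.1))

theorem lbv_e (hp : p.Prime) (hζ : IsPrimitiveRoot ζ p) {φ : Gal(Ω/K) →* G}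
    (hφ : H38.ML.FT φ) (hπ : ∀ σ, Gm.M.π (Gm.pr (φ σ)) = X.φQ σ) {v : Pl K} {i : Fin N}
    (h : Ty Gm.g X.L φ i v) (hv : v ∉ X.D.S0) :
    ∃ q₀ : Q, (∃ x₀ : G, φ (X.L.t v) = x₀ * Gm.g i * x₀⁻¹ ∧ Gm.M.π (Gm.pr x₀) = q₀) ∧
      ∀ wi : Pl (X.F i), X.Gd ⟨i, wi⟩ → X.un ⟨i, wi⟩ = v → ∀ h', H1.AR.Cn X ⟨i, wi⟩ hv h' →
        ((⟨i, wi⟩ : X.Lb) ∈ Lv Gm X φ v ↔
          Gm.M.act (X.φQ h' * q₀) (Gm.M.y i) = Gm.M.y i) := by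
  obtain ⟨x₀, hx₀⟩ := isConj_iff.1 h.2.1.symm
  refine ⟨Gm.M.π (Gm.pr x₀), ⟨x₀, hx₀.symm, rfl⟩, ?_⟩
  intro wi hG hun h' hC
  have h1 : φ (X.t ⟨i, wi⟩) = φ h' * φ (X.L.t v) * (φ h')⁻¹ :=
    lbl_t X hp hζ hG hv hun hC φ hφ h.2.2
  have h3 : φ (X.t ⟨i, wi⟩) = (φ h' * x₀) * Gm.g i * (φ h' * x₀)⁻¹ := by
    rw [h1, ← hx₀]
    group
  have h2 : Gm.pr (φ (X.t ⟨i, wi⟩)) =
      Gm.M.e (Gm.M.act (X.φQ h' * Gm.M.π (Gm.pr x₀)) (Gm.M.y i)) := by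
    rw [h3, map_mul, map_mul, map_inv, Gm.gy, Gm.M.conj, map_mul, map_mul, hπ]
  constructor
  · rintro ⟨-, -, -, h4⟩
    rw [h2] at h4
    exact Gm.M.einj h4
  · intro h4
    refine ⟨hG, hun, (isConj_iff.2 ⟨φ h' * x₀, h3.symm⟩).symm, ?_⟩
    rw [h2, h4]

omit [Finite R] in
/-- the point of `Q ⧸ H i` is fixed by the Frobenius element -/
private theorem lbv_fix {φ : Gal(Ω/K) →* G} (hφ : H38.ML.FT φ)
    (hπ : ∀ σ, Gm.M.π (Gm.pr (φ σ)) = X.φQ σ) {v : Pl K} {i : Fin N}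
    (h : Ty Gm.g X.L φ i v) {x₀ : G} (hx₀ : φ (X.L.t v) = x₀ * Gm.g i * x₀⁻¹) {s : Q}
    (hs : Gm.M.act s (Gm.M.y i) = Gm.M.y i) :
    X.φQ (X.Fr.F v) • (QuotientGroup.mk (Gm.M.π (Gm.pr x₀) * s) : Q ⧸ Gm.M.H i) =
      QuotientGroup.mk (Gm.M.π (Gm.pr x₀) * s) := by
  obtain ⟨r, hr⟩ := Gm.M.πs (Gm.M.π (Gm.pr x₀) * s)
  obtain ⟨x, rfl⟩ := Gm.prs r
  have h1 : Gm.pr (x * Gm.g i * x⁻¹) = Gm.pr (φ (X.L.t v)) := by
    rw [hx₀, map_mul, map_mul, map_inv, map_mul, map_mul, map_inv, Gm.gy, Gm.M.conj, Gm.M.conj, hr,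
      Gm.M.act_mul, hs]
  obtain ⟨d, hd⟩ := gm_fib Gm h1
  have hF : φ (X.Fr.F v) * φ (X.L.t v) = φ (X.L.t v) * φ (X.Fr.F v) :=
    X.Fr.com v h.1.1 G φ hφ h.2.2
  obtain ⟨f, hf⟩ : ∃ f, f = x⁻¹ * φ (X.Fr.F v) * x := ⟨_, rfl⟩
  have h2 : f * Gm.g i = Gm.g i * f := by
    have e1 : φ (X.Fr.F v) * (x * Gm.g i * x⁻¹) = (x * Gm.g i * x⁻¹) * φ (X.Fr.F v) := by
      rw [hd, ← mul_assoc, ← Gm.zcen, mul_assoc, hF, ← mul_assoc]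
    have e2 : f * Gm.g i = x⁻¹ * (φ (X.Fr.F v) * (x * Gm.g i * x⁻¹)) * x := by
      rw [hf]
      group
    rw [e2, e1, hf]
    group
  have h3 : Gm.pr f * Gm.M.e (Gm.M.y i) = Gm.M.e (Gm.M.y i) * Gm.pr f := by
    rw [← Gm.gy, ← map_mul, ← map_mul, h2]
  have h4 : Gm.M.act (Gm.M.π (Gm.pr f)) (Gm.M.y i) = Gm.M.y i := by
    apply Gm.M.einj
    rw [← Gm.M.conj, h3, mul_inv_cancel_right]
  have h5 : ∀ k, iv (Gm.M.c k) (Gm.M.e (Gm.M.y i)) (Gm.pr f) = 0 := by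
    have e1 : Gm.pr (Gm.g i) * Gm.pr f = Gm.pr f * Gm.pr (Gm.g i) := by
      rw [Gm.gy, h3]
    have e2 := gm_comm Gm e1
    rw [h2, eq_comm, mul_eq_right, ← gm_z0 Gm] at e2
    have e3 := Gm.zinj e2
    intro k
    have e4 := congrFun e3 k
    rw [Gm.gy] at e4
    exact e4
  have h6 : Gm.M.π (Gm.pr f) ∈ Gm.M.H i := Gm.memH i _ h4 ⟨0, fun k => by
    rw [h5 k, map_zero]
    rfl⟩
  rw [hf, map_mul, map_mul, map_mul, map_mul, map_inv, map_inv, hπ, hr] at h6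
  change (QuotientGroup.mk (X.φQ (X.Fr.F v) * (Gm.M.π (Gm.pr x₀) * s)) : Q ⧸ Gm.M.H i) = _
  rw [QuotientGroup.eq]
  have h7 : (X.φQ (X.Fr.F v) * (Gm.M.π (Gm.pr x₀) * s))⁻¹ * (Gm.M.π (Gm.pr x₀) * s) =
      ((Gm.M.π (Gm.pr x₀) * s)⁻¹ * X.φQ (X.Fr.F v) * (Gm.M.π (Gm.pr x₀) * s))⁻¹ := by group
  rw [h7]
  exact inv_mem h6

omit [Finite G] [Finite R] [Fintype Q] in
private theorem lbv_ai {q : Q} {i : Fin N} (h : Gm.M.act q (Gm.M.y i) = Gm.M.y i) :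
    Gm.M.act q⁻¹ (Gm.M.y i) = Gm.M.y i := by
  conv_lhs => rw [← h]
  rw [← Gm.M.act_mul, inv_mul_cancel, Gm.M.act_one]

theorem lbv_card (hp : p.Prime) (hζ : IsPrimitiveRoot ζ p) (hz : Z2 p K) {φ : Gal(Ω/K) →* G}
    (hφ : H38.ML.FT φ) (hπ : ∀ σ, Gm.M.π (Gm.pr (φ σ)) = X.φQ σ) {v : Pl K} {i : Fin N}
    (h : Ty Gm.g X.L φ i v) :
    (Lv Gm X φ v).Finite ∧ (Lv Gm X φ v).ncard = Nat.card {c : Q ⧸ Gm.M.H i | ∃ q : Q,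
      (QuotientGroup.mk q : Q ⧸ Gm.M.H i) = c ∧ Gm.M.act q (Gm.M.y i) = Gm.M.y i} := by
  have hv := h.1.1
  obtain ⟨q₀, ⟨x₀, hx₀, hq₀⟩, hE⟩ := lbv_e Gm X hp hζ hφ hπ h hv
  obtain ⟨E, hE1⟩ := lbl X hp hζ hz hv h.1.2 i
  obtain ⟨C, hC⟩ : ∃ C : Set (Q ⧸ Gm.M.H i), C = {c : Q ⧸ Gm.M.H i | ∃ q : Q,
      (QuotientGroup.mk q : Q ⧸ Gm.M.H i) = c ∧ Gm.M.act q (Gm.M.y i) = Gm.M.y i} := ⟨_, rfl⟩
  rw [← hC]
  have hfix : ∀ c : C, X.φQ (X.Fr.F v) • (q₀ • (c : Q ⧸ Gm.M.H i)) = q₀ • (c : Q ⧸ Gm.M.H i) := by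
    rintro ⟨c, hc⟩
    rw [hC] at hc
    obtain ⟨s, rfl, hs⟩ := hc
    have h1 := lbv_fix Gm X hφ hπ h hx₀ hs
    rw [hq₀] at h1
    exact h1
  have hmem : ∀ c : C, (⟨i, (E.symm ⟨q₀ • (c : Q ⧸ Gm.M.H i), hfix c⟩).1⟩ : X.Lb) ∈
      Lv Gm X φ v := by
    intro c
    obtain ⟨hG, hun⟩ := (E.symm ⟨q₀ • (c : Q ⧸ Gm.M.H i), hfix c⟩).2
    obtain ⟨h', hh'⟩ := lbl_ex X hG hv hun
    rw [hE _ hG hun h' hh']
    have h1 := hE1 _ h' hh'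
    rw [Equiv.apply_symm_apply] at h1
    obtain ⟨c, hc⟩ := c
    rw [hC] at hc
    obtain ⟨s, rfl, hs⟩ := hc
    change (QuotientGroup.mk (X.φQ h')⁻¹ : Q ⧸ Gm.M.H i) = QuotientGroup.mk (q₀ * s) at h1
    rw [QuotientGroup.eq, inv_inv] at h1
    have h2 : X.φQ h' * q₀ = X.φQ h' * (q₀ * s) * s⁻¹ := by group
    rw [h2, Gm.M.act_mul, lbv_ai Gm hs, Gm.M.fixy i _ h1]
  have hbij : Function.Bijective (fun c : C => (⟨_, hmem c⟩ : Lv Gm X φ v)) := by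
    constructor
    · intro c c' hcc
      have h1 := congrArg Subtype.val hcc
      simp only [Sigma.mk.injEq, heq_eq_eq, true_and] at h1
      have h2 := E.symm.injective (Subtype.ext h1)
      have h3 := congrArg Subtype.val h2
      exact Subtype.ext (smul_left_cancel q₀ h3)
    · rintro ⟨⟨j, wi⟩, ha⟩
      have hj : j = i := lbv_cls Gm X hp hζ hφ h ha
      subst hj
      obtain ⟨h', hh'⟩ := lbl_ex X ha.1 hv ha.2.1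
      have h1 := (hE wi ha.1 ha.2.1 h' hh').1 ha
      have h2 := hE1 ⟨wi, ha.1, ha.2.1⟩ h' hh'
      have h3 : q₀⁻¹ • (E ⟨wi, ha.1, ha.2.1⟩).1 ∈ C := by
        rw [hC]
        refine ⟨(X.φQ h' * q₀)⁻¹, ?_, lbv_ai Gm h1⟩
        rw [← h2, mul_inv_rev]
        rfl
      refine ⟨⟨_, h3⟩, ?_⟩
      apply Subtype.ext
      have h4 : E.symm ⟨q₀ • (q₀⁻¹ • (E ⟨wi, ha.1, ha.2.1⟩).1), hfix ⟨_, h3⟩⟩ =
          ⟨wi, ha.1, ha.2.1⟩ := by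
        rw [Equiv.symm_apply_eq]
        apply Subtype.ext
        exact smul_inv_smul _ _
      have h5 := congrArg Subtype.val h4
      simp only [Sigma.mk.injEq, heq_eq_eq, true_and]
      exact h5
  have hfin : Finite (Lv Gm X φ v) := Finite.of_surjective _ hbij.2
  refine ⟨Set.toFinite _, ?_⟩
  rw [← Nat.card_coe_set_eq]
  exact (Nat.card_congr (Equiv.ofBijective _ hbij)).symm

theorem lbv [NeZero p] (hp : p.Prime) (hζ : IsPrimitiveRoot ζ p) (hz : Z2 p K)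
    {φ : Gal(Ω/K) →* G} (hφ : H38.ML.FT φ) (hπ : ∀ σ, Gm.M.π (Gm.pr (φ σ)) = X.φQ σ)
    {v : Pl K} {i : Fin N} (h : Ty Gm.g X.L φ i v) :
    (Lv Gm X φ v).Finite ∧ ∑ᶠ a ∈ Lv Gm X φ v, Gm.rt a.1 = 1 := by
  obtain ⟨hfin, hc⟩ := lbv_card Gm X hp hζ hz hφ hπ h
  refine ⟨hfin, ?_⟩
  obtain ⟨-, -, h3, h4⟩ := rt_pos Gm i
  have h5 := del_card Gm i
  rw [← hc] at h5
  have h6 : ∑ᶠ a ∈ Lv Gm X φ v, Gm.rt a.1 = ∑ᶠ a ∈ Lv Gm X φ v, Gm.rt i :=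
    finsum_mem_congr rfl fun a ha => by rw [lbv_cls Gm X hp hζ hφ h ha]
  rw [h6, finsum_mem_eq_finite_toFinset_sum _ hfin, Finset.sum_const, nsmul_eq_mul,
    ← Set.ncard_eq_toFinset_card _ hfin, GM.rt, h5, Nat.cast_mul]
  have h7 : ((Lv Gm X φ v).ncard : ℝ) ≠ 0 := by
    intro h8
    rw [Nat.cast_eq_zero] at h8
    rw [h5, h8, mul_zero] at h3
    exact lt_irrefl _ h3
  have h8 : (Nat.card (Gm.Zj i) : ℝ) ≠ 0 := by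
    have := h4.ne'
    exact_mod_cast this
  field_simp

end H48.MF
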