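import Pool.Agent.H48.MF.Lfe
import Pool.Agent.H1.AR.ParA

/-!
# [H48 MF LST] the number of lifts, 130-200 lines (as GCt, Pool/Agent/H38/AS/GCt.lean; copy). File Pool/Agent/H48/MF/Lst.lean

Let `φ₀ ∈ LS ρ g` (if there is none the set is empty). `A i ≤ Wg p w` the subgroup of the `ofAdd d`, `d ∈ Del i` (`del_zero`, `del_add`, `del_neg`), `f i = (g.filter fun a => a.1 = i).image un`. `Ok X.D f` (H63.MC): `un a ∉ S0` (`un_not`), `nm (un a) = nm a.2` prime (`ltb_nm`), disjoint because `un` is injective on `g`.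
`χ ↦ twz χ φ₀` is a bijection from `HF X.D X.L A f` (`H63/MC/CHb.lean`) onto `LS ρ g`:
* `χ (X.t a) = χ (X.L.t (un a))` (`lab_t`), so `φ (X.t a) = z (toAdd χ (t (un a))) * φ₀ (X.t a)`; both have the image `ρ (X.t a) = e (y a.1)` (`par_t`), `φ₀ (X.t a) = z d₀ * g a.1`, `d₀ ∈ Del` (`fib_conj`), so `φ (X.t a)` is conjugate to `g a.1` iff `toAdd χ (t (un a)) + d₀ ∈ Del` iff `χ (t (un a)) ∈ A a.1`.
* `v ∉ S0` not under `g`: `φ₀ = 1` on `inr`, so `φ = 1` on `inr` iff `χ = 1` on `inr` (`zinj`) iff `χ (t v) = 1` (`lab_in`). Exponent `p`: `gm_zpow`, `zcen`. Finite type: `twz_ft`. Surjective: `twz_ex`. Injective: `twz_inj`.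
`#HF = y0 ∏_i #(A i)^{#(f i)}` by `chbEv_sur`, `chbEv_ker` as in `gct`, and `∏_i #(A i)^{#(f i)} = ∏_{a ∈ g} #(Del a.1)` (`Finset.prod_fiberwise`, `un` injective on `g`).
-/

set_option autoImplicit false
set_option linter.dupNamespace false

open scoped NumberField
open IsDedekindDomain
open scoped Classical

noncomputable section

namespace H48.MF

open H63.MA H38.BB H38.BG H38.AS H57.PC H57.BRA H89.BRG H1.AR

variable {p u w N : ℕ} {G R Q : Type} [Group G] [Group R] [Group Q] [Finite G] [Finite R]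
  [Fintype Q] (Gm : GM p u w N G R Q)
  {K : Type} [Field K] [NumberField K] {Ω : Type} [Field Ω] [Algebra K Ω] [IsAlgClosure K Ω]
  {ζ : K} (X : AD Gm.M K Ω ζ)

/-- the central elements `ofAdd d`, `d ∈ Del i` -/
private def lstA (i : Fin N) : Subgroup (Wg p w) where
  carrier := {x | Multiplicative.toAdd x ∈ Gm.Del i}
  mul_mem' := by
    intro a b ha hb
    change Multiplicative.toAdd (a * b) ∈ Gm.Del i
    rw [toAdd_mul]
    exact del_add Gm i ha hb
  one_mem' := by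
    change Multiplicative.toAdd (1 : Wg p w) ∈ Gm.Del i
    rw [toAdd_one]
    exact del_zero Gm i
  inv_mem' := by
    intro a ha
    change Multiplicative.toAdd a⁻¹ ∈ Gm.Del i
    rw [toAdd_inv]
    exact del_neg Gm i ha

private theorem lstA_mem (i : Fin N) (x : Wg p w) :
    x ∈ lstA Gm i ↔ Multiplicative.toAdd x ∈ Gm.Del i := Iff.rfl

private theorem lstA_card (i : Fin N) : Nat.card (lstA Gm i) = Nat.card (Gm.Del i) :=
  Nat.card_congr (Multiplicative.toAdd.subtypeEquiv fun x => lstA_mem Gm i x)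

/-- the primes under the labels of class `i` -/
private def lstf (g : Finset X.Lb) (i : Fin N) : Finset (Pl K) :=
  (g.filter fun a => a.1 = i).image X.un

private theorem lstf_mem (g : Finset X.Lb) (i : Fin N) (v : Pl K) :
    v ∈ lstf Gm X g i ↔ ∃ a ∈ g, a.1 = i ∧ X.un a = v := by
  unfold lstf
  rw [Finset.mem_image]
  constructor
  · rintro ⟨a, ha, hav⟩
    rw [Finset.mem_filter] at ha
    exact ⟨a, ha.1, ha.2, hav⟩
  · rintro ⟨a, ha, hai, hav⟩
    exact ⟨a, Finset.mem_filter.2 ⟨ha, hai⟩, hav⟩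

private theorem lstf_ok {g : Finset X.Lb} (hg : X.Ok g) : Ok X.D (lstf Gm X g) := by
  refine ⟨?_, ?_⟩
  · intro i j hij
    rw [Finset.disjoint_left]
    intro v hv hv'
    obtain ⟨a, ha, hai, hav⟩ := (lstf_mem Gm X g i v).1 hv
    obtain ⟨b, hb, hbj, hbv⟩ := (lstf_mem Gm X g j v).1 hv'
    refine hg.2 a ha b hb ?_ (hav.trans hbv.symm)
    intro hab
    rw [hab] at hai
    exact hij (hai.symm.trans hbj)
  · intro i v hv
    obtain ⟨a, ha, -, rfl⟩ := (lstf_mem Gm X g i v).1 hv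
    exact un_not X (hg.1 a ha).1

private theorem lst_iff (hp : p.Prime) (hζ : IsPrimitiveRoot ζ p) {c ρ : Gal(Ω/K) →* R}
    (hc : X.IsC c) {g : Finset X.Lb} (hg : X.Ok g) (hρ : Gm.M.Tw c (X.bet g) ρ)
    {φ : Gal(Ω/K) →* G} (h : φ ∈ LS Gm X ρ g) {χ : Gal(Ω/K) →* Wg p w} (hχ : H38.ML.FT χ) :
    twz Gm χ φ ∈ LS Gm X ρ g ↔ χ ∈ HF X.D X.L (lstA Gm) (lstf Gm X g) := by
  haveI : NeZero p := ⟨hp.ne_zero⟩
  obtain ⟨h1, h2, h3, h4, h5⟩ := h
  have hconj : ∀ a ∈ g, (IsConj (twz Gm χ φ (X.t a)) (Gm.g a.1) ↔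
      χ (X.L.t (X.un a)) ∈ lstA Gm a.1) := by
    intro a ha
    have hpr : Gm.pr (φ (X.t a)) = Gm.M.e (Gm.M.y a.1) := by
      rw [h2, par_t X hp hζ hc hg hρ ha]
    have hpr' : Gm.pr (twz Gm χ φ (X.t a)) = Gm.M.e (Gm.M.y a.1) := by
      rw [twz_pr, hpr]
    obtain ⟨d, hd, hd'⟩ := (fib_conj Gm hpr).1 (h3 a ha)
    rw [fib_conj Gm hpr', lstA_mem, ← lab_t X hp hζ (hg.1 a ha) wg_pow χ hχ, twz_apply, hd',
      ← mul_assoc, ← Gm.zadd]
    constructor
    · rintro ⟨d', h6, h7⟩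
      have h8 := Gm.zinj (mul_right_cancel h7)
      have h9 : Multiplicative.toAdd (χ (X.t a)) = d' + -d := by
        rw [← h8, add_neg_cancel_right]
      rw [h9]
      exact del_add Gm _ h6 (del_neg Gm _ hd)
    · intro h6
      exact ⟨_, del_add Gm _ h6 hd, rfl⟩
  have hone : ∀ v, v ∉ X.D.S0 → (∀ a ∈ g, X.un a ≠ v) →
      ((∀ τ ∈ inr X.L v, twz Gm χ φ τ = 1) ↔ χ (X.L.t v) = 1) := by
    intro v hv hv'
    rw [← lab_in hp hζ X.L wg_pow χ hχ v hv]
    refine forall₂_congr fun τ hτ => ?_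
    rw [twz_apply, h4 v hv hv' τ hτ, mul_one]
    constructor
    · intro h6
      rw [← gm_z0 Gm] at h6
      exact Multiplicative.toAdd.injective (Gm.zinj h6)
    · intro h6
      rw [h6, toAdd_one, gm_z0]
  constructor
  · rintro ⟨-, -, h3', h4', -⟩
    refine ⟨hχ, ?_, ?_⟩
    · intro i v hv
      obtain ⟨a, ha, rfl, rfl⟩ := (lstf_mem Gm X g i v).1 hv
      exact (hconj a ha).1 (h3' a ha)
    · intro v hv hv'
      have hn : ∀ a ∈ g, X.un a ≠ v := by
        intro a ha hav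
        exact hv' a.1 ((lstf_mem Gm X g a.1 v).2 ⟨a, ha, rfl, hav⟩)
      exact (hone v hv hn).1 (h4' v hv hn)
  · rintro ⟨-, h6, h7⟩
    refine ⟨twz_ft Gm χ φ hχ h1, fun σ => by rw [twz_pr, h2], ?_, ?_, ?_⟩
    · intro a ha
      exact (hconj a ha).2 (h6 a.1 _ ((lstf_mem Gm X g a.1 _).2 ⟨a, ha, rfl, rfl⟩))
    · intro v hv hn
      refine (hone v hv hn).2 (h7 v hv ?_)
      intro i hi
      obtain ⟨a, ha, -, hav⟩ := (lstf_mem Gm X g i v).1 hi
      exact hn a ha hav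
    · intro v hv τ hτ
      have hcm : Commute (Gm.z (Multiplicative.toAdd (χ τ))) (φ τ) := Gm.zcen _ _
      rw [twz_apply, hcm.mul_pow, gm_zpow, h5 v hv τ hτ, mul_one]

omit [Finite G] [Finite R] in
private theorem lst_hf {W : Type} [CommGroup W] [Finite W] (hp : p.Prime)
    (hζ : IsPrimitiveRoot ζ p) (D : RD0 K p ζ) (L : LDs D Ω) (hW : ∀ w : W, w ^ p = 1)
    (A : Fin N → Subgroup W) (f : Fin N → Finset (Pl K)) (hf : Ok D f) :
    (HF D L A f).Finite ∧
      (HF D L A f).ncard = Nat.card (chbU D L W) * ∏ i, Nat.card (A i) ^ (f i).card := by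
  have hpf : Fact p.Prime := ⟨hp⟩
  have hU : Finite (chbU D L W) := (hw_fin hp hζ D L hW).to_subtype
  have hcard : ((chbHF D L A f : Subgroup (Gal(Ω/K) →* W)) : Set (Gal(Ω/K) →* W)) = HF D L A f := rfl
  have hsur := chbEv_sur hp hζ D L hW A f hf
  have e := QuotientGroup.quotientKerEquivOfSurjective _ hsur
  have hkf : Finite (chbEv D L A f).ker := by
    have h1 := chbEv_ker D L A f hf
    apply Nat.finite_of_card_ne_zero
    rw [h1]
    exact Nat.card_pos.ne'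
  have hqf : Finite (chbHF D L A f ⧸ (chbEv D L A f).ker) := Finite.of_equiv _ e.symm.toEquiv
  have hHf : Finite (chbHF D L A f) := Finite.of_subgroup_quotient (chbEv D L A f).ker
  have hfin : (HF D L A f).Finite := by
    rw [← hcard]
    exact Set.toFinite _
  have hnc : (HF D L A f).ncard = Nat.card (chbHF D L A f) := rfl
  refine ⟨hfin, ?_⟩
  rw [hnc, Subgroup.card_eq_card_quotient_mul_card_subgroup (chbEv D L A f).ker,
    chbEv_ker D L A f hf, Nat.card_congr e.toEquiv, Nat.card_pi, Fintype.prod_sigma, mul_comm]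
  congr 1
  refine Finset.prod_congr rfl fun i _ => ?_
  change ∏ _y : f i, Nat.card (A i) = _
  rw [Finset.prod_const, Finset.card_univ, Fintype.card_coe]

theorem lst (hp : p.Prime) (hζ : IsPrimitiveRoot ζ p) {c ρ : Gal(Ω/K) →* R} (hc : X.IsC c)
    {g : Finset X.Lb} (hg : X.Ok g) (hρ : Gm.M.Tw c (X.bet g) ρ) :
    (LS Gm X ρ g).Finite ∧ ((LS Gm X ρ g).Nonempty →
      (LS Gm X ρ g).ncard = y0 Gm X * ∏ a ∈ g, Nat.card (Gm.Del a.1)) := by
  haveI : NeZero p := ⟨hp.ne_zero⟩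
  by_cases hne : (LS Gm X ρ g).Nonempty
  · obtain ⟨φ₀, hφ₀⟩ := hne
    have himg : LS Gm X ρ g =
        (fun χ => twz Gm χ φ₀) '' HF X.D X.L (lstA Gm) (lstf Gm X g) := by
      ext φ
      constructor
      · intro hφ
        obtain ⟨χ, hχ, rfl⟩ := twz_ex Gm φ φ₀ hφ.1 hφ₀.1 fun σ => by rw [hφ.2.1, hφ₀.2.1]
        exact ⟨χ, (lst_iff Gm X hp hζ hc hg hρ hφ₀ hχ).1 hφ, rfl⟩
      · rintro ⟨χ, hχ, rfl⟩
        exact (lst_iff Gm X hp hζ hc hg hρ hφ₀ hχ.1).2 hχ
    have hinj : Set.InjOn (fun χ : Gal(Ω/K) →* Wg p w => twz Gm χ φ₀)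
        (HF X.D X.L (lstA Gm) (lstf Gm X g)) := fun χ _ χ' _ h => twz_inj Gm h
    obtain ⟨h1, h2⟩ := lst_hf (W := Wg p w) hp hζ X.D X.L wg_pow (lstA Gm) (lstf Gm X g)
      (lstf_ok Gm X hg)
    refine ⟨by rw [himg]; exact h1.image _, fun _ => ?_⟩
    rw [himg, hinj.ncard_image, h2, y0]
    congr 1
    rw [← Finset.prod_fiberwise g (fun a => a.1) (fun a => Nat.card (Gm.Del a.1))]
    refine Finset.prod_congr rfl fun i _ => ?_
    have h3 : (lstf Gm X g i).card = (g.filter fun a => a.1 = i).card := by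
      unfold lstf
      apply Finset.card_image_of_injOn
      intro a ha b hb hab
      rw [Finset.mem_coe, Finset.mem_filter] at ha hb
      by_contra hne
      exact hg.2 a ha.1 b hb.1 hne hab
    have h4 : ∏ a ∈ g.filter (fun a => a.1 = i), Nat.card (Gm.Del a.1) =
        ∏ _a ∈ g.filter (fun a => a.1 = i), Nat.card (Gm.Del i) := by
      refine Finset.prod_congr rfl fun a ha => ?_
      rw [(Finset.mem_filter.1 ha).2]
    rw [h4, Finset.prod_const, h3, lstA_card]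
  · refine ⟨?_, fun h => absurd h hne⟩
    rw [Set.not_nonempty_iff_eq_empty.1 hne]
    exact Set.finite_empty

end H48.MF
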