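import Pool.Agent.H48.MF.Exf
import Pool.Agent.H57.GE.Gex
import Pool.Agent.H51.TC.W1p

/-!
# H48-MF-MNC: theorem (M_c) (assembly)
-/

set_option autoImplicit false
set_option linter.dupNamespace false

open scoped NumberField
open IsDedekindDomain Filter Topology

noncomputable section

namespace H48.MF

open H63.MA H38.BB H38.BG H38.AS H57.PC H57.BRA H89.BRG H1.AR H38.ML H51.TC

/-- the number field with the necessary roots of unity -/
theorem mnc_fld (m : ℕ) (hm : 0 < m) : ∃ K₃ : IntermediateField ℚ QBar, NumberField K₃ ∧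
    ∀ K : IntermediateField ℚ QBar, K₃ ≤ K → ∃ z : K, IsPrimitiveRoot z m := by
  haveI : NeZero m := ⟨hm.ne'⟩
  obtain ⟨z, hz⟩ : ∃ z : QBar, IsPrimitiveRoot z m :=
    HasEnoughRootsOfUnity.exists_primitiveRoot QBar m
  have hint : IsIntegral ℚ z := Algebra.IsIntegral.isIntegral z
  refine ⟨IntermediateField.adjoin ℚ {z}, ?_, fun K hK => ?_⟩
  · have : FiniteDimensional ℚ (IntermediateField.adjoin ℚ {z}) :=
      IntermediateField.adjoin.finiteDimensional hint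
    exact { to_charZero := inferInstance, to_finiteDimensional := inferInstance }
  · have hzK : z ∈ K := hK (IntermediateField.mem_adjoin_simple_self ℚ z)
    refine ⟨⟨z, hzK⟩, ?_⟩
    exact IsPrimitiveRoot.of_map_of_injective (f := algebraMap K QBar) hz
      (algebraMap K QBar).injective

theorem mnc {n : ℕ} (hn : 2 ≤ n) (G : Subgroup (Equiv.Perm (Fin n)))
    (hG : MulAction.IsPretransitive G (Fin n)) (hCF : CF G)
    (hT : ∃ k, ∀ g : G, g ≠ 1 → ind (g : Equiv.Perm (Fin n)) = indG G →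
      g ∈ Subgroup.upperCentralSeries G k)
    (hZ : ∀ g h : G, g ≠ 1 → ind (g : Equiv.Perm (Fin n)) = indG G → h ≠ 1 →
      ind (h : Equiv.Perm (Fin n)) = indG G →
      ∀ k : G, k * (g * h * g⁻¹ * h⁻¹) = g * h * g⁻¹ * h⁻¹ * k)
    (hc : (∃ g : G, g ≠ 1 ∧ ind (g : Equiv.Perm (Fin n)) = indG G ∧ ∀ h : G, g * h = h * g) ∨
      ∀ g h : G, g ≠ 1 → ind (g : Equiv.Perm (Fin n)) = indG G → h ≠ 1 →
        ind (h : Equiv.Perm (Fin n)) = indG G → g * h = h * g) :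
    ∃ K₀ : IntermediateField ℚ QBar, NumberField K₀ ∧
      ∀ K : IntermediateField ℚ QBar, K₀ ≤ K → ∀ _ : NumberField K,
        ∃ C : ℝ, 0 < C ∧ ∃ k : ℝ → ℕ, (∀ B : ℝ, Spec.nK K QBar G B = (k B : ℕ∞)) ∧
          Tendsto (fun B : ℝ => (k B : ℝ) /
            (B ^ (1 / (Spec.indG G : ℝ)) * Real.log B ^ (Spec.betaAll K QBar G - 1)))
            atTop (𝓝 C) := by
  obtain ⟨p, u, w, N, hp, R, Q, _, _, _, _, Gm, hN, hI, hCQ, hcen, -, P0, _, _, hP0, f, hf⟩ :=
    H57.GE.gex hn G hG hT hZ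
  obtain ⟨K₃, hK₃, h₃⟩ := mnc_fld (12 * p ^ 2) (by
    have := hp.pos
    positivity)
  refine fnm hn G hG hp Gm hN hI K₃ hK₃ fun K hK hKf => ?_
  obtain ⟨z, hz⟩ := h₃ K hK
  have hpos : 0 < 12 * p ^ 2 := by
    have := hp.pos
    positivity
  have hω : IsPrimitiveRoot (z ^ (4 * p ^ 2)) 3 := hz.pow hpos (by ring)
  have hi : IsPrimitiveRoot (z ^ (3 * p ^ 2)) 4 := hz.pow hpos (by ring)
  have hz2 : Z2 p K := ⟨z ^ 12, hz.pow hpos rfl⟩
  have hp2 : MOne p K := by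
    by_cases h2 : p = 2
    · refine ⟨z ^ (3 * p ^ 2), ?_⟩
      rw [h2]
      have h4 : (z ^ (3 * p ^ 2)) ^ 4 = 1 := hi.pow_eq_one
      have h5 : ((z ^ (3 * p ^ 2)) ^ 2 - 1) * ((z ^ (3 * p ^ 2)) ^ 2 + 1) = 0 := by
        ring_nf
        ring_nf at h4
        rw [h4]
        ring
      rcases mul_eq_zero.1 h5 with h6 | h6
      · exfalso
        have h7 : (z ^ (3 * p ^ 2)) ^ 2 = 1 := by linear_combination h6
        have h8 := (hi.pow_eq_one_iff_dvd 2).1 h7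
        omega
      · rw [h2] at h6
        linear_combination h6
    · exact mone_odd hp h2 K
  exact ⟨rb_cf K _ hω G hCF, rb_cf K _ hω Q (hCQ hCF), hz2, hp2,
    fun ζ hζ => exf Gm hN hP0 f hf hp K hp2 hz2 ζ hζ fun X _ d D qq hX =>
      haveI : NeZero p := ⟨hp.ne_zero⟩
      gtm_lim Gm X (hcen hc) hp hp2 hζ hz2 (anl Gm hN X hX)⟩

end H48.MF
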