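import Pool.Agent.H48.MF.Chx

/-!
# [H48 MF PSK] central characters of given class, 150-220 lines (as GQb, GKu in H38/AS). File Pool/Agent/H48/MF/Psk.lean

* `xk_ex`: the classes `q v`, `v ∉ S`, span `(ZMod p)^r` over `F j` (`RM.q_non`, `RM.q_zero`): copy of `xq_ex` (Pool/Agent/H38/AS/GQb.lean). So `xk X κ j = ∏ pi v ^ n v` with `n` of class `κ j` (`dif_pos`).
* `psk_ft`: `chx_ft`. `psk_cls`: for any `n j : Pl (F j) →₀ ℤ`, zero on `S`, of class `κ j` (for the central `j`): `psk κ` and `chx (fun j => ∏ pi v ^ n j v)` agree on `dec (P v)`, `v ∈ S0` (the quotient is a product of powers of class `0`, `RM.prim_of`, `chx_ps`, `chx_mul`, `chx_inv`).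
* `psk_add`: `psk_cls` for the sum of the exponents. `psk_zero`: `n = 0`. `psk_qt`: `n j` = the indicator function of the labels of class `j` in `g`.
* `psk_ex` (as `gku`): `δ : Γ → Wg p w` of finite type. For every `k < w` choose by `cn_ex` a central class `j k` with `zv (j k) = Pi.single k 1` (`k ↦ j k` is injective). `δ_k` (`k`-th coordinate) is `kk (b k)` with `b k ∈ K^*` (`kc_all`, as in `gep`). Over `F = F (j k)` let `x = inc b k`, so `kk (b k) (rsK σ') = kk x σ'`
  (`bca_kk`), `n v = ord v x` for `v ∉ S` (finite support), `x' = ∏ pi v ^ n v`, `y = x / x'` has order `0` mod `p` outside `S` (`pi_self`, `pi_ne`). Put `κ (j k) = ∑ n v • q v`, `κ j = 0` for the other `j`, `χ = δ * (chx x')⁻¹` (`x' j = 1` for the other `j`). `psk_cls`: `psk κ` and `chx x'` agree at `S0`.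
  `χ (L.t v) = 1` for `v ∉ S0`: the coordinate `k` of `χ` is `kx (j k) y`, and its value on inertia elements over `v` is `ord y * ... = 0` (`ine_kk`, `ine_res` of H1/AR/Ine.lean, or `ine_cor`). So `χ ∈ chbU`.
-/

set_option autoImplicit false
set_option linter.dupNamespace false

open scoped NumberField
open IsDedekindDomain
open scoped Classical

noncomputable section

namespace H48.MF

open H63.MA H38.BB H38.BG H38.AS H57.PC H57.BRA H89.BRG H1.AR

variable {p u w N : ℕ} {G R Q : Type} [Group G] [Group R] [Group Q] [Finite G] [Finite R]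
  [Fintype Q] (Gm : GM p u w N G R Q)
  {K : Type} [Field K] [NumberField K] {Ω : Type} [Field Ω] [Algebra K Ω] [IsAlgClosure K Ω]
  {ζ : K} (X : AD Gm.M K Ω ζ)

private theorem psk_dual {p m : ℕ} [Fact p.Prime] (φ : Module.Dual (ZMod p) (Fin m → ZMod p))
    (w : Fin m → ZMod p) : φ w = ∑ k, φ (Pi.single k 1) * w k := by
  conv_lhs => rw [← Finset.univ_sum_single w]
  rw [map_sum]
  refine Finset.sum_congr rfl fun k _ => ?_
  have : (Pi.single k (w k) : Fin m → ZMod p) = w k • Pi.single k 1 := by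
    rw [← Pi.single_smul, smul_eq_mul, mul_one]
  rw [this, map_smul, smul_eq_mul, mul_comm]

private theorem psk_span {p : ℕ} (hp : p.Prime) {F : Type} [Field F] [NumberField F] {ξ : F}
    (D : RM F p ξ) (ρ : Fin D.r → ZMod p) :
    ∃ n : Pl F →₀ ℤ, (∀ v ∈ D.S, n v = 0) ∧
      (n.sum fun v k => (k : ZMod p) • D.q v) = ρ := by
  have hpf : Fact p.Prime := ⟨hp⟩
  have h1 : Submodule.span (ZMod p) (Set.range D.q) = ⊤ := by
    by_contra h
    obtain ⟨F, hF0, hF⟩ := Submodule.exists_le_ker_of_lt_top _ (lt_top_iff_ne_top.2 h)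
    obtain ⟨v, hv⟩ := D.q_non (fun k => F (Pi.single k 1)) (by
      intro h0
      apply hF0
      apply LinearMap.ext
      intro x
      rw [psk_dual F x, LinearMap.zero_apply]
      refine Finset.sum_eq_zero fun k _ => ?_
      have h2 := congrFun h0 k
      simp only [Pi.zero_apply] at h2
      rw [h2, zero_mul])
    apply hv
    rw [← psk_dual F (D.q v)]
    exact LinearMap.mem_ker.1 (hF (Submodule.subset_span ⟨v, rfl⟩))
  have h2 : ρ ∈ Submodule.span (ZMod p) (Set.range D.q) := by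
    rw [h1]
    trivial
  obtain ⟨c, hc⟩ := Finsupp.mem_span_range_iff_exists_finsupp.1 h2
  refine ⟨Finsupp.onFinset c.support (fun v => if v ∈ D.S then 0 else ((c v).val : ℤ)) ?_,
    ?_, ?_⟩
  · intro v hv
    rw [Finsupp.mem_support_iff]
    intro h0
    apply hv
    simp only [h0, ZMod.val_zero, Nat.cast_zero, ite_self]
  · intro v hv
    rw [Finsupp.onFinset_apply, if_pos hv]
  · rw [Finsupp.onFinset_sum _ (fun v => by rw [Int.cast_zero, zero_smul]), ← hc, Finsupp.sum]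
    refine Finset.sum_congr rfl fun v _ => ?_
    by_cases hv : v ∈ D.S
    · rw [D.q_zero v hv, smul_zero, smul_zero]
    · rw [if_neg hv, Int.cast_natCast, ZMod.natCast_zmod_val]

omit [Finite G] [Finite R] [Fintype Q] [IsAlgClosure K Ω] in
private theorem psk_xk (hp : p.Prime) (κ : (j : Fin N) → Fin (X.A j).D.r → ZMod p) :
    ∃ n : (j : Fin N) → Pl (X.F j) →₀ ℤ, (∀ j, ∀ v ∈ (X.A j).D.S, n j v = 0) ∧
      (∀ j, ((n j).sum fun v k => (k : ZMod p) • (X.A j).D.q v) = κ j) ∧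
      xk X κ = fun j => (n j).prod fun v k => (X.A j).D.pi v ^ k := by
  have h := fun j => psk_span hp (X.A j).D (κ j)
  refine ⟨fun j => (h j).choose, fun j => (h j).choose_spec.1, fun j => (h j).choose_spec.2, ?_⟩
  funext j
  unfold xk
  rw [dif_pos (h j)]

private theorem psk_ps {p : ℕ} {F : Type} [Field F] [NumberField F] {ξ : F} (D : RM F p ξ)
    (n n' : Pl F →₀ ℤ) (hn : ∀ v ∈ D.S, n v = 0) (hn' : ∀ v ∈ D.S, n' v = 0)
    (h : (n.sum fun v k => (k : ZMod p) • D.q v) = n'.sum fun v k => (k : ZMod p) • D.q v) :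
    PS p ξ D.S ((n.prod fun v k => D.pi v ^ k) * (n'.prod fun v k => D.pi v ^ k)⁻¹) := by
  have h1 : (n.prod fun v k => D.pi v ^ k) * (n'.prod fun v k => D.pi v ^ k)⁻¹ =
      (n - n').prod fun v k => D.pi v ^ k := by
    rw [mul_inv_eq_iff_eq_mul, ← Finsupp.prod_add_index' (fun v => zpow_zero _)
      (fun v a b => zpow_add _ _ _), sub_add_cancel]
  rw [h1]
  refine D.prim_of (n - n') (fun v hv => ?_) ?_
  · rw [Finsupp.sub_apply, hn v hv, hn' v hv, sub_zero]
  · rw [Finsupp.sum_sub_index (fun a b₁ b₂ => by rw [Int.cast_sub, sub_smul]), h, sub_self]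

omit [Finite G] [Finite R] [Fintype Q] in
/-- an element of order zero modulo `p` outside `S` has trivial value on inertia elements -/
private theorem psk_ine (hp : p.Prime) (hζ : IsPrimitiveRoot ζ p) {v : Pl K} (hv : v ∉ X.D.S0)
    (j : Fin N) (y : (X.F j)ˣ)
    (hy : ∀ z, z ∉ (X.A j).D.S → ((ord z y : ℤ) : ZMod p) = 0) :
    X.kx j y (X.L.t v) = 0 := by
  have hclo : IsAlgClosure (X.F j) Ω := fld_clo X j
  have hpv : ¬ Above p v := fun h => hv (X.D.above v h)
  obtain ⟨P', hP'⟩ : ∃ P' : Ideal (𝓞 Ω), P' = (X.L.ld v hv).P := ⟨_, rfl⟩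
  have hpr : P'.IsPrime := by rw [hP']; exact (X.L.ld v hv).prime
  have hun : P'.under (𝓞 K) = v.asIdeal := by rw [hP']; exact (X.L.ld v hv).under
  have hin : X.L.t v ∈ P'.inertia Gal(Ω/K) := by
    rw [hP', gtw_t X.L v hv]
    exact (X.L.ld v hv).ht
  obtain ⟨τ', h1, h2⟩ := ine_res X hv hpr hun hin j
  have hover : (P'.under (𝓞 (X.F j))).comap (algebraMap (𝓞 K) (𝓞 (X.F j))) = v.asIdeal := by
    rw [← hun]
    ext y
    exact Iff.rfl
  have hne : P'.under (𝓞 (X.F j)) ≠ ⊥ := by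
    intro h0
    apply v.ne_bot
    rw [← hover, h0]
    rw [← RingHom.ker_eq_comap_bot, RingHom.ker_eq_bot_iff_eq_zero]
    intro y hy
    apply NumberField.RingOfIntegers.ext
    have h3 := congrArg (fun z : 𝓞 (X.F j) => (z : X.F j)) hy
    have h4 : algebraMap K (X.F j) (y : K) = 0 := h3
    exact (map_eq_zero _).1 h4
  have hpr2 : (P'.under (𝓞 (X.F j))).IsPrime := Ideal.IsPrime.comap _
  obtain ⟨z, hz⟩ : ∃ z : Pl (X.F j), z.asIdeal = P'.under (𝓞 (X.F j)) := ⟨⟨_, hpr2, hne⟩, rfl⟩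
  have hzv : Over z v := by
    unfold Over
    rw [hz]
    exact hover
  have hzS : z ∉ (X.A j).D.S := by
    intro h
    obtain ⟨v', hv', h3⟩ := ((X.A j).hS z).1 h
    rw [below_unique hzv h3] at hv
    exact hv hv'
  have hpz : ¬ Above p z := fun h => hpv ((above_over hzv p).1 h)
  obtain ⟨π, hπ⟩ := exists_unif z
  have h5 := ine_kk (Ω := Ω) hp (fld_zeta X hζ j) hpz hπ hpr hz.symm h2 y
  rw [← h1, kx_apply, h5, hy z hzS, zero_mul]

/-- orders of a product of powers of the generators -/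
private theorem psk_ord {p : ℕ} {F : Type} [Field F] [NumberField F] {ξ : F} (D : RM F p ξ)
    (n : Pl F →₀ ℤ) (hn : ∀ v ∈ D.S, n v = 0) (v : Pl F) (hv : v ∉ D.S) :
    ((ord v (n.prod fun v k => D.pi v ^ k) : ℤ) : ZMod p) = ((n v : ℤ) : ZMod p) := by
  rw [Finsupp.prod, ord_prod, Int.cast_sum]
  have h1 : ∀ w ∈ n.support, ((ord v (D.pi w ^ n w) : ℤ) : ZMod p) =
      if v = w then ((n w : ℤ) : ZMod p) else 0 := by
    intro w hw
    have hwS : w ∉ D.S := fun h => (Finsupp.mem_support_iff.1 hw) (hn w h)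
    rw [ord_zpow, Int.cast_mul]
    split_ifs with h
    · rw [h, D.pi_self w hwS, Int.cast_one, mul_one]
    · rw [D.pi_ne w v hwS hv h, mul_zero]
  rw [Finset.sum_congr rfl h1, Finset.sum_ite_eq]
  split_ifs with h
  · rfl
  · rw [Finsupp.notMem_support_iff.1 h, Int.cast_zero]

theorem psk_ft (hp : p.Prime) (hζ : IsPrimitiveRoot ζ p)
    (κ : (j : Fin N) → Fin (X.A j).D.r → ZMod p) : H38.ML.FT (psk Gm X κ) := by
  unfold psk
  exact chx_ft Gm X hp hζ _

theorem psk_cls (hp : p.Prime) (hp2 : MOne p K) (hζ : IsPrimitiveRoot ζ p)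
    (κ : (j : Fin N) → Fin (X.A j).D.r → ZMod p) (n : (j : Fin N) → Pl (X.F j) →₀ ℤ)
    (h0 : ∀ j, Cn Gm j → ∀ v ∈ (X.A j).D.S, n j v = 0)
    (h : ∀ j, Cn Gm j → ((n j).sum fun v k => (k : ZMod p) • (X.A j).D.q v) = κ j) :
    Teq X.D.S0 X.P (psk Gm X κ) (chx Gm X fun j => (n j).prod fun v k => (X.A j).D.pi v ^ k) := by
  obtain ⟨n', h1, h2, h3⟩ := psk_xk Gm X hp κ
  intro v hv σ hσ
  have h4 := chx_ps Gm X hp hp2 hζ
    (fun j => ((n' j).prod fun v k => (X.A j).D.pi v ^ k) *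
      ((n j).prod fun v k => (X.A j).D.pi v ^ k)⁻¹)
    (fun j hj => psk_ps (X.A j).D (n' j) (n j) (h1 j) (h0 j hj) ((h2 j).trans (h j hj).symm))
    v hv σ hσ
  have h5 := chx_mul Gm X hp hζ (fun j => (n' j).prod fun v k => (X.A j).D.pi v ^ k)
    (fun j => ((n j).prod fun v k => (X.A j).D.pi v ^ k)⁻¹)
  have h6 := chx_inv Gm X hp hζ (fun j => (n j).prod fun v k => (X.A j).D.pi v ^ k)
  rw [h5, h6, MonoidHom.mul_apply, MonoidHom.inv_apply, mul_inv_eq_one] at h4
  rw [psk, h3, h4]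

theorem psk_add (hp : p.Prime) (hp2 : MOne p K) (hζ : IsPrimitiveRoot ζ p)
    (κ κ' : (j : Fin N) → Fin (X.A j).D.r → ZMod p) :
    Teq X.D.S0 X.P (psk Gm X (κ + κ')) (psk Gm X κ * psk Gm X κ') := by
  obtain ⟨n, h1, h2, h3⟩ := psk_xk Gm X hp κ
  obtain ⟨n', h1', h2', h3'⟩ := psk_xk Gm X hp κ'
  have h4 := psk_cls Gm X hp hp2 hζ (κ + κ') (fun j => n j + n' j) (fun j _ v hv => by
    rw [Finsupp.add_apply, h1 j v hv, h1' j v hv, add_zero]) (fun j _ => by
    rw [Finsupp.sum_add_index' (fun v => by rw [Int.cast_zero, zero_smul])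
      (fun v b₁ b₂ => by rw [Int.cast_add, add_smul]), h2, h2', Pi.add_apply])
  have h5 : (fun j => (n j + n' j).prod fun v k => (X.A j).D.pi v ^ k) =
      fun j => ((n j).prod fun v k => (X.A j).D.pi v ^ k) *
        ((n' j).prod fun v k => (X.A j).D.pi v ^ k) := by
    funext j
    exact Finsupp.prod_add_index' (fun v => zpow_zero _) (fun v a b => zpow_add _ _ _)
  have h6 := chx_mul Gm X hp hζ (fun j => (n j).prod fun v k => (X.A j).D.pi v ^ k)
    (fun j => (n' j).prod fun v k => (X.A j).D.pi v ^ k)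
  intro v hv σ hσ
  rw [h4 v hv σ hσ, h5, h6, psk, psk, h3, h3']

theorem psk_zero (hp : p.Prime) (hp2 : MOne p K) (hζ : IsPrimitiveRoot ζ p) :
    Teq X.D.S0 X.P (psk Gm X 0) 1 := by
  have h4 := psk_cls Gm X hp hp2 hζ 0 (fun j => 0) (fun j _ v hv => rfl) (fun j _ => by
    rw [Finsupp.sum_zero_index]
    rfl)
  have h6 := chx_mul Gm X hp hζ (fun j => (1 : (X.F j)ˣ)) (fun j => (1 : (X.F j)ˣ))
  have h7 : (fun j => (1 : (X.F j)ˣ) * 1) = fun j => (1 : (X.F j)ˣ) := by
    funext j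
    rw [mul_one]
  rw [h7] at h6
  have h8 : chx Gm X (fun j => (1 : (X.F j)ˣ)) = 1 := left_eq_mul.1 h6
  intro v hv σ hσ
  rw [h4 v hv σ hσ, ← h8]
  rfl

theorem psk_con (κ κ' : (j : Fin N) → Fin (X.A j).D.r → ZMod p) (h : ∀ j, Cn Gm j → κ j = κ' j)
    (hp : p.Prime) (hp2 : MOne p K) (hζ : IsPrimitiveRoot ζ p) :
    Teq X.D.S0 X.P (psk Gm X κ) (psk Gm X κ') := by
  obtain ⟨n', h1', h2', h3'⟩ := psk_xk Gm X hp κ'
  intro v hv σ hσ
  rw [psk_cls Gm X hp hp2 hζ κ n' (fun j _ => h1' j) (fun j hj => (h2' j).trans (h j hj).symm)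
    v hv σ hσ, ← h3']
  rfl

theorem psk_qt (hp : p.Prime) (hp2 : MOne p K) (hζ : IsPrimitiveRoot ζ p) {g : Finset X.Lb}
    (hg : X.Ok g) : Teq X.D.S0 X.P (psk Gm X (X.qt g)) (chx Gm X (pig X g)) := by
  obtain ⟨n, hn⟩ : ∃ n : (j : Fin N) → Pl (X.F j) →₀ ℤ, ∀ j, n j = ∑ a ∈ g,
      if h : a.1 = j then Finsupp.single (h ▸ a.2) (1 : ℤ) else 0 := ⟨_, fun _ => rfl⟩
  have h4 := psk_cls Gm X hp hp2 hζ (X.qt g) n (fun j _ v hv => by
    rw [hn, Finsupp.finsetSum_apply]
    refine Finset.sum_eq_zero fun a ha => ?_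
    obtain ⟨i, z⟩ := a
    by_cases h : i = j
    · subst h
      rw [dif_pos rfl]
      refine Finsupp.single_eq_of_ne ?_
      rintro rfl
      exact (hg.1 _ ha).1 hv
    · rw [dif_neg h]
      rfl) (fun j _ => by
    rw [hn, ← Finsupp.sum_finsetSum_index (fun v => by rw [Int.cast_zero, zero_smul])
      (fun v b₁ b₂ => by rw [Int.cast_add, add_smul]), AD.qt]
    refine Finset.sum_congr rfl fun a ha => ?_
    by_cases h : a.1 = j
    · rw [dif_pos h, dif_pos h, Finsupp.sum_single_index (by rw [Int.cast_zero, zero_smul]),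
        Int.cast_one, one_smul]
    · rw [dif_neg h, dif_neg h, Finsupp.sum_zero_index])
  have h5 : (fun j => (n j).prod fun v k => (X.A j).D.pi v ^ k) = pig X g := by
    funext j
    rw [hn, ← Finsupp.prod_finsetSum_index (fun v => zpow_zero _) (fun v a b => zpow_add _ _ _),
      pig]
    refine Finset.prod_congr rfl fun a ha => ?_
    by_cases h : a.1 = j
    · rw [dif_pos h, dif_pos h, Finsupp.prod_single_index (zpow_zero _), zpow_one]
    · rw [dif_neg h, dif_neg h, Finsupp.prod_zero_index]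
  rw [h5] at h4
  exact h4

theorem psk_ex (hcen : Gm.Cen) (hp : p.Prime) (hp2 : MOne p K) (hζ : IsPrimitiveRoot ζ p)
    (δ : Gal(Ω/K) →* Wg p w) (hδ : H38.ML.FT δ) :
    ∃ χ ∈ chbU X.D X.L (Wg p w), ∃ κ, Teq X.D.S0 X.P δ (χ * psk Gm X κ) := by
  have hpf : Fact p.Prime := ⟨hp⟩
  have hB : ∀ c : Fin w, ∃ B : Kˣ, ∀ σ : Gal(Ω/K),
      Multiplicative.toAdd (δ σ) c = kk p ζ B σ := by
    intro c
    obtain ⟨B, hB⟩ := kc_all hp hζ
      ((AddMonoidHom.toMultiplicative (Pi.evalAddMonoidHom (fun _ : Fin w => ZMod p) c)).comp δ)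
      (H38.ML.ft_comp _ δ hδ)
    refine ⟨B, fun σ => ?_⟩
    unfold kk
    rw [← hB]
    rfl
  choose B hB using hB
  have hJ : ∀ k : Fin w, ∃ j, Cn Gm j ∧ zv Gm j = Pi.single k (1 : ZMod p) := by
    intro k
    refine cn_ex Gm hcen _ ?_
    intro h
    have h1 := congrFun h k
    rw [Pi.single_eq_same, Pi.zero_apply] at h1
    exact one_ne_zero h1
  choose J hJ using hJ
  have hJi : Function.Injective J := by
    intro k k' h
    by_contra hne
    have h1 : (Pi.single k (1 : ZMod p) : Fin w → ZMod p) = Pi.single k' (1 : ZMod p) := by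
      rw [← (hJ k).2, ← (hJ k').2, h]
    have h2 := congrFun h1 k
    rw [Pi.single_eq_same, Pi.single_eq_of_ne hne] at h2
    exact one_ne_zero h2
  obtain ⟨x, hx⟩ : ∃ x : (j : Fin N) → (X.F j)ˣ, ∀ j, x j =
      if h : ∃ k, J k = j then inc K (X.F j) (B h.choose) else 1 := ⟨_, fun _ => rfl⟩
  have hx1 : ∀ k, x (J k) = inc K (X.F (J k)) (B k) := by
    intro k
    have h : ∃ k', J k' = J k := ⟨k, rfl⟩
    rw [hx, dif_pos h, hJi h.choose_spec]
  have hx2 : ∀ j, (¬ ∃ k, J k = j) → x j = 1 := by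
    intro j h
    rw [hx, dif_neg h]
  have hkx : ∀ k σ, X.kx (J k) (x (J k)) σ = kk p ζ (B k) σ := by
    intro k σ
    have hclo : IsAlgClosure (X.F (J k)) Ω := fld_clo X (J k)
    obtain ⟨σ', h1⟩ := (fld_range X (J k) σ).2 (by
      rw [(cn_del Gm (hJ k).1).2.2]
      trivial)
    rw [← h1, kx_apply, hx1]
    exact bca_kk hp hζ (B k) σ'
  have hkx1 : ∀ j σ, X.kx j 1 σ = 0 := by
    intro j σ
    have h := kx_arg X hp hζ j 1 1 σ
    rw [mul_one] at h
    exact left_eq_add.1 h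
  have hδx : δ = chx Gm X x := by
    apply MonoidHom.ext
    intro σ
    apply Multiplicative.toAdd.injective
    rw [chx_apply Gm X hp hζ]
    have h1 : ∀ j, (if Cn Gm j then X.kx j (x j) σ • zv Gm j else 0) =
        ∑ k, if J k = j then kk p ζ (B k) σ • (Pi.single k (1 : ZMod p) : Fin w → ZMod p)
          else 0 := by
      intro j
      by_cases h : ∃ k, J k = j
      · obtain ⟨k, rfl⟩ := h
        rw [if_pos (hJ k).1, hkx, (hJ k).2, Finset.sum_eq_single k]
        · rw [if_pos rfl]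
        · intro k' _ hne
          rw [if_neg]
          intro h
          exact hne (hJi h)
        · intro h
          exact absurd (Finset.mem_univ k) h
      · rw [hx2 j h, hkx1, zero_smul, ite_self, Finset.sum_eq_zero]
        intro k _
        rw [if_neg]
        intro h1
        exact h ⟨k, h1⟩
    rw [Finset.sum_congr rfl fun j _ => h1 j, Finset.sum_comm]
    have h2 : ∀ k, (∑ j, if J k = j then kk p ζ (B k) σ •
        (Pi.single k (1 : ZMod p) : Fin w → ZMod p) else 0) = Pi.single k (kk p ζ (B k) σ) := by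
      intro k
      rw [Finset.sum_ite_eq, if_pos (Finset.mem_univ _), ← Pi.single_smul, smul_eq_mul, mul_one]
    rw [Finset.sum_congr rfl fun k _ => h2 k]
    conv_lhs => rw [← Finset.univ_sum_single (Multiplicative.toAdd (δ σ))]
    exact Finset.sum_congr rfl fun k _ => by rw [hB]
  have hn : ∀ j, ∃ n : Pl (X.F j) →₀ ℤ, (∀ v ∈ (X.A j).D.S, n v = 0) ∧
      ∀ v, v ∉ (X.A j).D.S → n v = ord v (x j) := by
    intro j
    refine ⟨Finsupp.onFinset (finite_ord (x j)).toFinset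
      (fun v => if v ∈ (X.A j).D.S then 0 else ord v (x j)) ?_, ?_, ?_⟩
    · intro v hv
      rw [Set.Finite.mem_toFinset, Set.mem_ofPred_eq]
      intro h
      apply hv
      rw [h, ite_self]
    · intro v hv
      rw [Finsupp.onFinset_apply, if_pos hv]
    · intro v hv
      rw [Finsupp.onFinset_apply, if_neg hv]
  choose n hn0 hn1 using hn
  have hcls := psk_cls Gm X hp hp2 hζ
    (fun j => (n j).sum fun v k => (k : ZMod p) • (X.A j).D.q v) n (fun j _ => hn0 j)
    (fun j _ => rfl)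
  have hχ : chx Gm X (fun j => x j * ((n j).prod fun v k => (X.A j).D.pi v ^ k)⁻¹) =
      δ * (chx Gm X fun j => (n j).prod fun v k => (X.A j).D.pi v ^ k)⁻¹ := by
    have h1 := chx_mul Gm X hp hζ x (fun j => ((n j).prod fun v k => (X.A j).D.pi v ^ k)⁻¹)
    have h2 := chx_inv Gm X hp hζ (fun j => (n j).prod fun v k => (X.A j).D.pi v ^ k)
    rw [h1, h2, hδx]
  refine ⟨chx Gm X (fun j => x j * ((n j).prod fun v k => (X.A j).D.pi v ^ k)⁻¹),
    ⟨chx_ft Gm X hp hζ _, fun v hv => ?_⟩,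
    (fun j => (n j).sum fun v k => (k : ZMod p) • (X.A j).D.q v), fun v hv σ hσ => ?_⟩
  · apply Multiplicative.toAdd.injective
    rw [chx_apply Gm X hp hζ, toAdd_one]
    refine Finset.sum_eq_zero fun j _ => ?_
    rw [psk_ine Gm X hp hζ hv j _ ?_, zero_smul, ite_self]
    intro z hz
    rw [ord_mul, ord_inv, Int.cast_add, Int.cast_neg, psk_ord (X.A j).D (n j) (hn0 j) z hz,
      hn1 j z hz, add_neg_cancel]
  · rw [MonoidHom.mul_apply, hcls v hv σ hσ, hχ, MonoidHom.mul_apply, MonoidHom.inv_apply,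
      inv_mul_cancel_right]

end H48.MF
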