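import Pool.Agent.H48.MF.Mnc
import Pool.Agent.H51.TC.Cfb

/-!
# H48-MF-RES: theorem (M_c) in the form of the hand-in
-/

set_option autoImplicit false
set_option linter.dupNamespace false

open H38.ML.Spec

namespace H48.MF

/-- in a finite group with `G / Z_k(G) = A_4` nothing is assumed on `k`; in a nilpotent group some `Z_k(G)` is `G` -/
theorem res
    (n : ℕ) (hn : 2 ≤ n) (G : Subgroup (Equiv.Perm (Fin n)))
    (hG : MulAction.IsPretransitive G (Fin n))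
    (hnil : Group.IsNilpotent G ∨ ∃ k : ℕ,
      Nonempty (G ⧸ Subgroup.upperCentralSeries G k ≃* alternatingGroup (Fin 4)) ∧
        ∀ g : G, g ≠ 1 → ind (g : Equiv.Perm (Fin n)) = indG G →
          g ∈ Subgroup.upperCentralSeries G k)
    (hZ : ∀ g h : G, g ≠ 1 → ind (g : Equiv.Perm (Fin n)) = indG G →
      h ≠ 1 → ind (h : Equiv.Perm (Fin n)) = indG G →
      ∀ k : G, k * (g * h * g⁻¹ * h⁻¹) = g * h * g⁻¹ * h⁻¹ * k)
    (hc : (∃ g : G, g ≠ 1 ∧ ind (g : Equiv.Perm (Fin n)) = indG G ∧ ∀ h : G, g * h = h * g) ∨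
      ∀ g h : G, g ≠ 1 → ind (g : Equiv.Perm (Fin n)) = indG G →
        h ≠ 1 → ind (h : Equiv.Perm (Fin n)) = indG G → g * h = h * g) :
    ∃ K₀ : IntermediateField ℚ (AlgebraicClosure ℚ), NumberField K₀ ∧
      ∀ K : IntermediateField ℚ (AlgebraicClosure ℚ), K₀ ≤ K → ∀ _ : NumberField K,
        (∀ B : ℝ, nK K (AlgebraicClosure ℚ) G B ≠ ⊤) ∧
        ∃ C : ℝ, 0 < C ∧ Filter.Tendsto
          (fun B : ℝ => ((nK K (AlgebraicClosure ℚ) G B).toNat : ℝ) /
            (B ^ (1 / (indG G : ℝ)) * Real.log B ^ (betaAll K (AlgebraicClosure ℚ) G - 1)))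
          Filter.atTop (nhds C) := by
  have hCF : H51.TC.CF G := by
    rcases hnil with h | ⟨k, h, -⟩
    · exact H51.TC.cf_nil h
    · exact H51.TC.cf_a4 k h
  have hT : ∃ k, ∀ g : G, g ≠ 1 → ind (g : Equiv.Perm (Fin n)) = indG G →
      g ∈ Subgroup.upperCentralSeries G k := by
    rcases hnil with h | ⟨k, -, h⟩
    · obtain ⟨k, hk⟩ := h.nilpotent
      exact ⟨k, fun g _ _ => by rw [hk]; exact Subgroup.mem_top _⟩
    · exact ⟨k, h⟩
  obtain ⟨K₀, hK₀, h⟩ := mnc hn G hG hCF hT hZ hc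
  refine ⟨K₀, hK₀, fun K hK hKf => ?_⟩
  obtain ⟨C, hC, k, hk, hlim⟩ := h K hK hKf
  refine ⟨fun B => ?_, C, hC, ?_⟩
  · have h := hk B
    exact fun h' => ENat.natCast_ne_top (k B) (h.symm.trans h')
  · refine hlim.congr fun B => ?_
    have h : (nK K (AlgebraicClosure ℚ) G B).toNat = k B :=
      (congrArg ENat.toNat (hk B)).trans (ENat.toNat_natCast _)
    rw [h]

end H48.MF
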