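import Pool.Agent.H48.MF.Syi

/-!
# [H48 MF UBX] upper bound for the number of homomorphisms over `φQ`, 60-100 lines. File Pool/Agent/H48/MF/Ubx.lean

`syi` with `Pr φ = True`: `#SYf Y = ∑_{g ∈ Fm X Y} ∑_c [Sp] (∏_{a ∈ g} rt a.1) #LS (rh X c g) g`. If `LS (rh X c g) g` is not empty then `#LS = y0 ∏ #Del` (`lst`, `rh_tw`) and all `ev` vanish (`ls_ev`), so the term is `y0 ∏ #Zj = y0 * wz c g` (`rt`, `#Del > 0`: `rt_pos`). So `(#SYf Y : ℂ) = y0 * WS (fun c g => if (LS (rh X c g) g).Nonempty then 1 else 0) Y`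
(the functions agree for `IsC c`, `g ∈ Fm X Y`; for other `c`, `g` nothing is needed). `AnU` and `‖·‖`.
-/

set_option autoImplicit false
set_option linter.dupNamespace false

open scoped NumberField
open IsDedekindDomain
open scoped Classical

noncomputable section

namespace H48.MF

open H63.MA H38.BB H38.BG H38.AS H57.PC H57.BRA H89.BRG H1.AR

variable {p u w N : ℕ} {G R Q : Type} [Group G] [Group R] [Group Q] [Finite G] [Finite R]
  [Fintype Q] (Gm : GM p u w N G R Q)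
  {K : Type} [Field K] [NumberField K] {Ω : Type} [Field Ω] [Algebra K Ω] [IsAlgClosure K Ω]
  {ζ : K} (X : AD Gm.M K Ω ζ)

private theorem ubx_term [NeZero p] (hp : p.Prime) (hζ : IsPrimitiveRoot ζ p) {c : Gal(Ω/K) →* R}
    (hc : X.IsC c) {g : Finset X.Lb} (hg : X.Ok g) :
    (∏ a ∈ g, Gm.rt a.1) * (((LS Gm X (rh X c g) g).ncard : ℕ) : ℝ) =
      if (LS Gm X (rh X c g) g).Nonempty then (y0 Gm X : ℝ) * ((∏ a ∈ g, Nat.card (Gm.Zj a.1) : ℕ) : ℝ)
      else 0 := by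
  have htw := rh_tw Gm X hp hζ hc g
  by_cases h : (LS Gm X (rh X c g) g).Nonempty
  · rw [if_pos h, (lst Gm X hp hζ hc hg htw).2 h]
    push_cast
    rw [mul_left_comm, ← Finset.prod_mul_distrib]
    congr 1
    refine Finset.prod_congr rfl fun a _ => ?_
    have h1 := (rt_pos Gm a.1).2.2.1
    have h2 : ((Nat.card (Gm.Del a.1) : ℕ) : ℝ) ≠ 0 := by
      exact_mod_cast h1.ne'
    unfold GM.rt
    rw [div_mul_cancel₀ _ h2]
  · rw [if_neg h]
    rw [Set.not_nonempty_iff_eq_empty] at h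
    rw [h, Set.ncard_empty, Nat.cast_zero, mul_zero]

private theorem ubx_eq [NeZero p] (hp : p.Prime) (hζ : IsPrimitiveRoot ζ p) (hz : Z2 p K)
    (hfc : {c | X.IsC c}.Finite) (Y : ℝ) :
    (((SYf Gm X Y).ncard : ℕ) : ℂ) = y0 Gm X *
      WS Gm X (fun c g => if (LS Gm X (rh X c g) g).Nonempty then 1 else 0) Y := by
  have h1 := (syi Gm X hp hζ hz hfc (fun _ => True) Y).2
  have h2 : {φ ∈ SYf Gm X Y | True} = SYf Gm X Y := by
    ext φ
    simp
  rw [h2] at h1
  have h3 : (((SYf Gm X Y).ncard : ℕ) : ℂ) = (((SYf Gm X Y).ncard : ℝ) : ℂ) := by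
    norm_cast
  rw [h3, h1]
  unfold WS
  rw [finsum_mem_eq_finite_toFinset_sum _ (fm_fin Gm X Y),
    finsum_mem_eq_finite_toFinset_sum _ (fm_fin Gm X Y), Complex.ofReal_sum, Finset.mul_sum]
  refine Finset.sum_congr rfl fun g hg => ?_
  rw [Set.Finite.mem_toFinset] at hg
  rw [finsum_mem_eq_finite_toFinset_sum _ hfc, finsum_mem_eq_finite_toFinset_sum _ hfc,
    Complex.ofReal_sum, Finset.mul_sum]
  refine Finset.sum_congr rfl fun c hc => ?_
  rw [Set.Finite.mem_toFinset] at hc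
  have hc' : X.IsC c := hc
  have h4 : {φ ∈ LS Gm X (rh X c g) g | True} = LS Gm X (rh X c g) g := by
    ext φ
    simp
  by_cases hs : X.Sp c (g.image Sigma.fst)
  · rw [if_pos hs, if_pos hs, h4, ubx_term Gm X hp hζ hc' hg.1]
    beta_reduce
    by_cases h : (LS Gm X (rh X c g) g).Nonempty
    · rw [if_pos h, if_pos h, one_mul]
      unfold wz
      obtain ⟨φ, hφ⟩ := h
      rw [if_pos fun a ha => ls_ev Gm X hp hζ hc' hg.1 (rh_tw Gm X hp hζ hc' g) hφ ha]
      push_cast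
      rfl
    · rw [if_neg h, if_neg h, zero_mul, mul_zero, Complex.ofReal_zero]
  · rw [if_neg hs, if_neg hs, mul_zero, Complex.ofReal_zero]

theorem ubx [NeZero p] (hp : p.Prime) (hζ : IsPrimitiveRoot ζ p) (hz : Z2 p K)
    (hfc : {c | X.IsC c}.Finite) {U : ℝ} (hU : AnU Gm X U) (Y : ℝ) (hY : 3 ≤ Y) :
    ((SYf Gm X Y).ncard : ℝ) ≤ y0 Gm X * (U * (Y * Real.log Y ^ (N - 1))) := by
  have h1 := ubx_eq Gm X hp hζ hz hfc Y
  have h2 := hU Y hY (fun c g => if (LS Gm X (rh X c g) g).Nonempty then 1 else 0) (by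
    intro c g
    by_cases h : (LS Gm X (rh X c g) g).Nonempty
    · simp only [if_pos h, norm_one, le_refl]
    · simp only [if_neg h, norm_zero, zero_le_one])
  have h3 : ((SYf Gm X Y).ncard : ℝ) = ‖(((SYf Gm X Y).ncard : ℕ) : ℂ)‖ := by
    rw [Complex.norm_natCast]
  rw [h3, h1, norm_mul, Complex.norm_natCast]
  exact mul_le_mul_of_nonneg_left h2 (Nat.cast_nonneg _)

end H48.MF
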